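import Pool.Agent.Q107.Hunt.Main

/-! # Assembly -/

namespace Pool.Agent.Q107.Hunt

open Matrix ComplexConjugate

variable {n : ℕ}

theorem IsLat.sup {E : IntermediateField ℚ ℂ} {X Y : Submodule E (Fin (n + 1) → ℂ)}
    {Λ M : AddSubgroup (Fin (n + 1) → ℂ)} (h : IsLat E X Λ) (h' : IsLat E Y M) :
    IsLat E (X ⊔ Y) (Λ ⊔ M) := by
  refine ⟨?_, ?_, ?_⟩
  · obtain ⟨S, hS⟩ := h.1
    obtain ⟨S', hS'⟩ := h'.1
    classical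
    refine ⟨S ∪ S', ?_⟩
    rw [Finset.coe_union, AddSubgroup.closure_union, hS, hS']
  · intro a ha v hv
    obtain ⟨x, hx, y, hy, rfl⟩ := AddSubgroup.mem_sup.1 hv
    rw [smul_add]
    exact AddSubgroup.add_mem _ (AddSubgroup.mem_sup_left (h.2.1 a ha x hx))
      (AddSubgroup.mem_sup_right (h'.2.1 a ha y hy))
  · apply le_antisymm
    · rw [Submodule.span_le]
      intro v hv
      obtain ⟨x, hx, y, hy, rfl⟩ := AddSubgroup.mem_sup.1 hv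
      refine Submodule.add_mem _ (Submodule.mem_sup_left ?_) (Submodule.mem_sup_right ?_)
      · rw [← h.2.2]; exact Submodule.subset_span hx
      · rw [← h'.2.2]; exact Submodule.subset_span hy
    · rw [← h.2.2, ← h'.2.2, sup_le_iff]
      constructor
      · exact Submodule.span_mono fun x hx => AddSubgroup.mem_sup_left hx
      · exact Submodule.span_mono fun x hx => AddSubgroup.mem_sup_right hx

theorem lattice_part {E : IntermediateField ℚ ℂ} (hE : ImagQuad E)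
    {W : Submodule ℂ (Fin (n + 1) → ℂ)} (hW : Module.finrank ℂ W = n)
    (hnd : ∀ v ∈ W, (∀ w ∈ W, herm v w = 0) → v = 0)
    {X Y : Submodule E (Fin (n + 1) → ℂ)}
    (hspan : Submodule.span ℂ (X : Set (Fin (n + 1) → ℂ)) = W)
    {s : ℝ} (hs0 : s ≠ 0) (hs : ∀ x ∈ X, ∀ y ∈ X, (s : ℂ) * herm x y ∈ E)
    (hXY : ∀ x ∈ X, ∀ y ∈ Y, (s : ℂ) * herm x y ∈ E)
    {Λ M : AddSubgroup (Fin (n + 1) → ℂ)} (h : IsLat E X Λ) (h' : IsLat E Y M)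
    {Γ : Subgroup (SpecialLinearGroup (Fin (n + 1)) ℂ)}
    (hc : Subgroup.Commensurable Γ (stab n W Λ)) :
    (stab n ⊤ (Λ ⊔ M)).relIndex Γ ≠ 0 := by
  obtain ⟨u, hu, hu'⟩ := exists_normal hW hnd
  obtain ⟨k, hk, hP⟩ := exists_mul_map hE h h'.1 (fun y => y - (herm y u / herm u u) • u)
    (by
      intro x y
      rw [herm_add_left, add_div, add_smul]
      abel)
    (by
      intro y hy
      have hyY : y ∈ Y := h'.2.2 ▸ Submodule.subset_span hy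
      refine mem_of_herm hE hnd hspan hs0 hs ?_ ?_
      · rw [hu', herm_sub_left, herm_smul_left, div_mul_cancel₀ _ hu, sub_self]
      · intro z hz
        have hzW : z ∈ W := hspan ▸ Submodule.subset_span hz
        rw [herm_sub_right, herm_smul_right, (hu' z).1 hzW, mul_zero, sub_zero]
        exact hXY z hz y hyY)
  exact Subgroup.relIndex_ne_zero_trans (stab_sup_relIndex hu hu' h.1 h'.1 hk hP) hc.2

/-- The angle between the hyperplanes. -/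
theorem angle {E : IntermediateField ℚ ℂ} (hE : ImagQuad E)
    {X : Submodule E (Fin (n + 1) → ℂ)} {s : ℝ} (hs0 : s ≠ 0)
    (hs : ∀ x ∈ X, ∀ y ∈ X, (s : ℂ) * herm x y ∈ E) {a b : Fin (n + 1) → ℂ} (ha : a ∈ X)
    (hb : b ∈ X) (ha0 : herm a a ≠ 0) (hb0 : herm b b ≠ 0) (c d : ℂ) :
    ∃ r : ℚ, herm (c • a) (d • b) * herm (d • b) (c • a) =
      r * (herm (c • a) (c • a) * herm (d • b) (d • b)) := by
  have hs0' : (s : ℂ) ≠ 0 := by exact_mod_cast hs0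
  obtain ⟨r₁, hr₁⟩ := hE.rat_of_real (hs a ha a ha)
    (by rw [map_mul, conj_herm, Complex.conj_ofReal])
  obtain ⟨r₂, hr₂⟩ := hE.rat_of_real (hs b hb b hb)
    (by rw [map_mul, conj_herm, Complex.conj_ofReal])
  obtain ⟨r₃, hr₃⟩ := hE.rat_of_real (E.mul_mem (hs a ha b hb) (hs b hb a ha))
    (by rw [map_mul, map_mul, map_mul, conj_herm, conj_herm, Complex.conj_ofReal]; ring)
  have h1 : (r₁ : ℂ) ≠ 0 := by rw [← hr₁]; exact mul_ne_zero hs0' ha0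
  have h2 : (r₂ : ℂ) ≠ 0 := by rw [← hr₂]; exact mul_ne_zero hs0' hb0
  refine ⟨r₃ / (r₁ * r₂), ?_⟩
  rw [herm_smul_left, herm_smul_right, herm_smul_left, herm_smul_right, herm_smul_left,
    herm_smul_right, herm_smul_left, herm_smul_right]
  push_cast
  rw [← hr₁, ← hr₂, ← hr₃]
  field_simp

theorem pres_scale {E : IntermediateField ℚ ℂ} {X : Submodule E (Fin (n + 1) → ℂ)} {c : ℂ}
    (hc : c ≠ 0) {g : SpecialLinearGroup (Fin (n + 1)) ℂ}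
    (h : Pres g (X : Set (Fin (n + 1) → ℂ))) :
    Pres g ((X.map (scaleE E c) : Submodule E (Fin (n + 1) → ℂ)) : Set (Fin (n + 1) → ℂ)) := by
  intro v
  have h1 : v ∈ X.map (scaleE E c) ↔ c⁻¹ • v ∈ X := mem_scale hc
  have h2 : act g v ∈ X.map (scaleE E c) ↔ c⁻¹ • act g v ∈ X := mem_scale hc
  rw [← act_smul] at h2
  exact h1.trans ((h _).trans h2.symm)

/-- The case of equal fields. -/
theorem case_eq {Γ Γ₁ Γ₂ : Subgroup (SpecialLinearGroup (Fin (n + 1)) ℂ)}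
    (hd : DiscreteTopology Γ) {E : IntermediateField ℚ ℂ}
    {W₁ W₂ : Submodule ℂ (Fin (n + 1) → ℂ)}
    (hW₁ : Module.finrank ℂ W₁ = n) (hW₂ : Module.finrank ℂ W₂ = n) (hne : W₁ ≠ W₂)
    {X₁ X₂ : Submodule E (Fin (n + 1) → ℂ)}
    (h₁ : IsArith n E W₁ X₁ Γ₁) (h₂ : IsArith n E W₂ X₂ Γ₂) (hle₁ : Γ₁ ≤ Γ) (hle₂ : Γ₂ ≤ Γ)
    {p q : Fin (n + 1) → ℂ} (hp₁ : p ∈ X₁) (hp₂ : p ∈ X₂) (hp0 : p ≠ 0) (hpp : herm p p = 0)
    (hqq : herm q q = 0) (hqp : herm q p ≠ 0)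
    {c₁ c₂ : ℂ} (hc₁ : c₁ ≠ 0) (hc₂ : c₂ ≠ 0) (hq₁ : c₁ • q ∈ X₁) (hq₂ : c₂ • q ∈ X₂) :
    (∀ u₁ u₂ : Fin (n + 1) → ℂ, (∀ w ∈ W₁, herm u₁ w = 0) → (∀ w ∈ W₂, herm u₂ w = 0) →
      ∃ r : ℚ, herm u₁ u₂ * herm u₂ u₁ = r * (herm u₁ u₁ * herm u₂ u₂)) ∧
    IsForm n E ⊤ (X₁ ⊔ X₂) ∧
    (∀ g ∈ suOf n W₁, Pres g (X₁ : Set (Fin (n + 1) → ℂ)) →
      Pres g ((X₁ ⊔ X₂ : Submodule E (Fin (n + 1) → ℂ)) : Set (Fin (n + 1) → ℂ))) ∧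
    (∀ g ∈ suOf n W₂, Pres g (X₂ : Set (Fin (n + 1) → ℂ)) →
      Pres g ((X₁ ⊔ X₂ : Submodule E (Fin (n + 1) → ℂ)) : Set (Fin (n + 1) → ℂ))) ∧
    ∃ Δ : Subgroup (SpecialLinearGroup (Fin (n + 1)) ℂ), IsArith n E ⊤ (X₁ ⊔ X₂) Δ ∧
      Δ.relIndex Γ₁ ≠ 0 ∧ Δ.relIndex Γ₂ ≠ 0 := by
  have hE := h₁.1
  obtain ⟨-, ⟨hnd₁, hspan₁, ⟨s₁, hs₁0, hs₁⟩, -⟩, hsu₁, Λ₁, hΛ₁, hcomm₁⟩ := id h₁
  obtain ⟨-, ⟨hnd₂, hspan₂, ⟨s₂, hs₂0, hs₂⟩, -⟩, hsu₂, Λ₂, hΛ₂, hcomm₂⟩ := id h₂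
  have hs₁0' : (s₁ : ℂ) ≠ 0 := by exact_mod_cast hs₁0
  obtain ⟨r, hr0, hr⟩ := core_B hd h₁ h₂ hle₁ hle₂ hp₁ hp₂ hp0 hpp hs₁0 hs₂0 hs₁ hs₂
  -- `s₁` works for `X₂` as well
  have hs₂' : ∀ x ∈ X₂, ∀ y ∈ X₂, (s₁ : ℂ) * herm x y ∈ E := by
    intro x hx y hy
    rw [hr, mul_assoc]
    exact E.mul_mem (rat_mem E r) (hs₂ x hx y hy)
  have hperp : ∀ x ∈ X₁, herm x p = 0 → ∀ y ∈ X₂, herm y p = 0 → (s₁ : ℂ) * herm x y ∈ E := by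
    intro x hx hxp y hy hyp
    rw [hr, mul_assoc]
    exact E.mul_mem (rat_mem E r)
      (core_A hd h₁ h₂ hle₁ hle₂ hp₁ hp₂ hp0 hpp hs₁0 hs₂0 hs₁ hs₂ hx hxp hy hyp)
  -- the common dual vector
  set q₀ : Fin (n + 1) → ℂ := ((s₁ : ℂ) * herm q p)⁻¹ • q with hq₀
  have hsq : (s₁ : ℂ) * herm q p ≠ 0 := mul_ne_zero hs₁0' hqp
  have hq₀mem : ∀ (X : Submodule E (Fin (n + 1) → ℂ)) (c : ℂ) (_ : c ≠ 0) (_ : c • q ∈ X)
      (_ : p ∈ X) (_ : ∀ x ∈ X, ∀ y ∈ X, (s₁ : ℂ) * herm x y ∈ E), q₀ ∈ X := by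
    intro X c hc hq hp hs
    have h1 := hs _ hq _ hp
    have h2 := smul_mem_E (E.inv_mem h1) hq
    rw [herm_smul_left, smul_smul] at h2
    have e : ((s₁ : ℂ) * (c * herm q p))⁻¹ * c = ((s₁ : ℂ) * herm q p)⁻¹ := by
      field_simp
    rwa [e] at h2
  have hq₀₁ := hq₀mem X₁ c₁ hc₁ hq₁ hp₁ hs₁
  have hq₀₂ := hq₀mem X₂ c₂ hc₂ hq₂ hp₂ hs₂'
  have hq₀p : (s₁ : ℂ) * herm q₀ p = 1 := by
    rw [hq₀, herm_smul_left]; field_simp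
  have hq₀q₀ : herm q₀ q₀ = 0 := by
    rw [hq₀, herm_smul_left, herm_smul_right, hqq, mul_zero, mul_zero]
  clear_value q₀
  have hcross : ∀ x ∈ X₁, ∀ y ∈ X₂, (s₁ : ℂ) * herm x y ∈ E := by
    intro x hx y hy
    set e := (s₁ : ℂ) * herm x p with he
    set f := (s₁ : ℂ) * herm y p with hf
    have heE : e ∈ E := hs₁ x hx p hp₁
    have hfE : f ∈ E := hs₂' y hy p hp₂
    have hx' : x - e • q₀ ∈ X₁ := X₁.sub_mem hx (smul_mem_E heE hq₀₁)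
    have hy' : y - f • q₀ ∈ X₂ := X₂.sub_mem hy (smul_mem_E hfE hq₀₂)
    have hx'p : herm (x - e • q₀) p = 0 := by
      rw [herm_sub_left, herm_smul_left, he]
      linear_combination (-herm x p) * hq₀p
    have hy'p : herm (y - f • q₀) p = 0 := by
      rw [herm_sub_left, herm_smul_left, hf]
      linear_combination (-herm y p) * hq₀p
    have h1 := hperp _ hx' hx'p _ hy' hy'p
    have h2 := hs₁ _ hx' _ hq₀₁
    have h3 := hs₂' _ hq₀₂ _ hy'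
    have e1 : (s₁ : ℂ) * herm x y = (s₁ : ℂ) * herm (x - e • q₀) (y - f • q₀) +
        conj f * ((s₁ : ℂ) * herm (x - e • q₀) q₀) + e * ((s₁ : ℂ) * herm q₀ (y - f • q₀)) := by
      simp only [herm_sub_left, herm_sub_right, herm_smul_left, herm_smul_right, hq₀q₀]
      ring
    rw [e1]
    exact E.add_mem (E.add_mem h1 (E.mul_mem (hE.conj_mem hfE) h2)) (E.mul_mem heE h3)
  have hcross' : ∀ x ∈ X₂, ∀ y ∈ X₁, (s₁ : ℂ) * herm x y ∈ E := by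
    intro x hx y hy
    have := hE.conj_mem (hcross y hy x hx)
    rwa [map_mul, conj_herm, Complex.conj_ofReal] at this
  have hsX : ∀ x ∈ X₁ ⊔ X₂, ∀ y ∈ X₁ ⊔ X₂, (s₁ : ℂ) * herm x y ∈ E := by
    intro x hx y hy
    obtain ⟨x₁, hx₁, x₂, hx₂, rfl⟩ := Submodule.mem_sup.1 hx
    obtain ⟨y₁, hy₁, y₂, hy₂, rfl⟩ := Submodule.mem_sup.1 hy
    rw [herm_add_left, herm_add_right, herm_add_right, mul_add, mul_add, mul_add]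
    exact E.add_mem (E.add_mem (hs₁ _ hx₁ _ hy₁) (hcross _ hx₁ _ hy₂))
      (E.add_mem (hcross' _ hx₂ _ hy₁) (hs₂' _ hx₂ _ hy₂))
  have hform : IsForm n E ⊤ (X₁ ⊔ X₂) := by
    refine ⟨fun v _ hv => herm_nondeg fun w => hv w trivial, ?_, ⟨s₁, hs₁0, hsX⟩,
      p, Submodule.mem_sup_left hp₁, hp0, hpp⟩
    rw [eq_top_iff, ← sup_eq_top hW₁ hW₂ hne, sup_le_iff]
    constructor
    · rw [← hspan₁]; exact Submodule.span_mono fun x hx => Submodule.mem_sup_left hx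
    · rw [← hspan₂]; exact Submodule.span_mono fun x hx => Submodule.mem_sup_right hx
  refine ⟨?_, hform, ?_, ?_, stab n ⊤ (Λ₁ ⊔ Λ₂), ?_, ?_, ?_⟩
  · intro u₁ u₂ hu₁ hu₂
    have hout : ∀ (W W' : Submodule ℂ (Fin (n + 1) → ℂ)) (Y : Submodule E (Fin (n + 1) → ℂ))
        (_ : Module.finrank ℂ W = n) (_ : Module.finrank ℂ W' = n) (_ : W ≠ W')
        (_ : Submodule.span ℂ (Y : Set (Fin (n + 1) → ℂ)) = W'), ∃ y ∈ Y, y ∉ W := by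
      intro W W' Y hW hW' hne hY
      by_contra hcon
      push Not at hcon
      have hle : W' ≤ W := by rw [← hY, Submodule.span_le]; exact hcon
      exact hne (Submodule.eq_of_le_of_finrank_eq hle (by rw [hW, hW'])).symm
    obtain ⟨a, haX, ha0, hau⟩ := exists_rat_normal hE hW₁ hnd₁ hspan₁ hs₁0 hs₁ hcross
      (hout W₁ W₂ X₂ hW₁ hW₂ hne hspan₂)
    obtain ⟨b, hbX, hb0, hbu⟩ := exists_rat_normal hE hW₂ hnd₂ hspan₂ hs₁0 hs₂' hcross'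
      (hout W₂ W₁ X₁ hW₂ hW₁ hne.symm hspan₁)
    rw [sup_comm] at hbX
    obtain ⟨c, rfl⟩ := hau u₁ hu₁
    obtain ⟨d, rfl⟩ := hbu u₂ hu₂
    exact angle hE hs₁0 hsX haX hbX ha0 hb0 c d
  · intro g hg hX
    exact pres_sup hE hW₁ hnd₁ hspan₁ hs₁0 hs₁ hcross hg hX
  · intro g hg hX
    rw [sup_comm]
    exact pres_sup hE hW₂ hnd₂ hspan₂ hs₁0 hs₂' hcross' hg hX
  · exact ⟨hE, hform, fun g hg => hg.1, Λ₁ ⊔ Λ₂, hΛ₁.sup hΛ₂, Subgroup.Commensurable.refl _⟩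
  · exact lattice_part hE hW₁ hnd₁ hspan₁ hs₁0 hs₁ hcross hΛ₁ hΛ₂ hcomm₁
  · rw [sup_comm Λ₁ Λ₂]
    exact lattice_part hE hW₂ hnd₂ hspan₂ hs₁0 hs₂' hcross' hΛ₂ hΛ₁ hcomm₂

/-- The subgroup preserving a set. -/
def presSub (X : Set (Fin (n + 1) → ℂ)) : Subgroup (SpecialLinearGroup (Fin (n + 1)) ℂ) where
  carrier := {g | Pres g X}
  mul_mem' := by
    intro a b ha hb v
    rw [act_mul]
    exact (hb v).trans (ha _)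
  one_mem' := fun v => by rw [act_one]
  inv_mem' := by
    intro a ha v
    have := ha (act a⁻¹ v)
    rw [act_act_inv] at this
    exact this.symm

theorem presSub_mem {X : Set (Fin (n + 1) → ℂ)} {g : SpecialLinearGroup (Fin (n + 1)) ℂ} :
    g ∈ presSub X ↔ Pres g X := Iff.rfl

/-- **Main theorem.** -/
theorem main {E₁ E₂ E₃ : IntermediateField ℚ ℂ}
    {W₁ W₂ : Submodule ℂ (Fin (n + 1) → ℂ)}
    {X₁ : Submodule E₁ (Fin (n + 1) → ℂ)} {X₂ : Submodule E₂ (Fin (n + 1) → ℂ)}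
    {X₃ : Submodule E₃ (Fin (n + 1) → ℂ)}
    {Γ₁ Γ₂ Γ₃ : Subgroup (SpecialLinearGroup (Fin (n + 1)) ℂ)}
    (hW₁ : Module.finrank ℂ W₁ = n) (hW₂ : Module.finrank ℂ W₂ = n) (hne : W₁ ≠ W₂)
    (h₁ : IsArith n E₁ W₁ X₁ Γ₁) (h₂ : IsArith n E₂ W₂ X₂ Γ₂)
    (h₃ : IsArith n E₃ (W₁ ⊓ W₂) X₃ Γ₃) (h₃₁ : Γ₃ ≤ Γ₁) (h₃₂ : Γ₃ ≤ Γ₂)
    (hd : DiscreteTopology (Γ₁ ⊔ Γ₂ : Subgroup (SpecialLinearGroup (Fin (n + 1)) ℂ))) :
    (E₁ ≠ E₂ ∧ n = 3 ∧ ∀ u₁ u₂ : Fin (n + 1) → ℂ, (∀ w ∈ W₁, herm u₁ w = 0) →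
      (∀ w ∈ W₂, herm u₂ w = 0) → herm u₁ u₂ = 0) ∨
    (E₁ = E₂ ∧
      (∀ u₁ u₂ : Fin (n + 1) → ℂ, (∀ w ∈ W₁, herm u₁ w = 0) → (∀ w ∈ W₂, herm u₂ w = 0) →
        ∃ r : ℚ, herm u₁ u₂ * herm u₂ u₁ = r * (herm u₁ u₁ * herm u₂ u₂)) ∧
      ∃ X : Submodule E₁ (Fin (n + 1) → ℂ), IsForm n E₁ ⊤ X ∧
        (∀ g ∈ suOf n W₁, Pres g (X₁ : Set (Fin (n + 1) → ℂ)) →
          Pres g (X : Set (Fin (n + 1) → ℂ))) ∧
        (∀ g ∈ suOf n W₂, Pres g (X₂ : Set (Fin (n + 1) → ℂ)) →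
          Pres g (X : Set (Fin (n + 1) → ℂ))) ∧
        ((∀ g ∈ Γ₁, Pres g (X₁ : Set (Fin (n + 1) → ℂ))) →
          (∀ g ∈ Γ₂, Pres g (X₂ : Set (Fin (n + 1) → ℂ))) →
          ∀ g ∈ Γ₁ ⊔ Γ₂, Pres g (X : Set (Fin (n + 1) → ℂ))) ∧
        ∃ Δ : Subgroup (SpecialLinearGroup (Fin (n + 1)) ℂ), IsArith n E₁ ⊤ X Δ ∧
          Δ.relIndex Γ₁ ≠ 0 ∧ Δ.relIndex Γ₂ ≠ 0) := by
  obtain ⟨p, hp₃, hp0, hpp⟩ := h₃.2.1.2.2.2
  obtain ⟨q, hq₃, hqq, hqp⟩ := exists_second h₃.1 h₃.2.1 hp₃ hp0 hpp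
  have hq0 : q ≠ 0 := by rintro rfl; exact hqp (herm_zero_left p)
  obtain ⟨c₁, hc₁, hp₁⟩ := exists_smul_mem h₁ h₃ h₃₁ inf_le_left hp₃ hp0 hpp
  obtain ⟨c₂, hc₂, hp₂⟩ := exists_smul_mem h₂ h₃ h₃₂ inf_le_right hp₃ hp0 hpp
  obtain ⟨d₁, hd₁, hq₁⟩ := exists_smul_mem h₁ h₃ h₃₁ inf_le_left hq₃ hq0 hqq
  obtain ⟨d₂, hd₂, hq₂⟩ := exists_smul_mem h₂ h₃ h₃₂ inf_le_right hq₃ hq0 hqq
  have hqW : q ∈ W₁ ⊓ W₂ := h₃.2.1.2.1 ▸ Submodule.subset_span hq₃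
  -- rescale
  have hci₁ : c₁⁻¹ ≠ 0 := inv_ne_zero hc₁
  have hci₂ : c₂⁻¹ ≠ 0 := inv_ne_zero hc₂
  have g₁ := h₁.scale hci₁
  have g₂ := h₂.scale hci₂
  have hp₁' : p ∈ X₁.map (scaleE E₁ c₁⁻¹) := by rw [mem_scale hci₁, inv_inv]; exact hp₁
  have hp₂' : p ∈ X₂.map (scaleE E₂ c₂⁻¹) := by rw [mem_scale hci₂, inv_inv]; exact hp₂
  have hq₁' : (c₁⁻¹ * d₁) • q ∈ X₁.map (scaleE E₁ c₁⁻¹) := by
    rw [mem_scale hci₁, inv_inv, smul_smul, mul_inv_cancel_left₀ hc₁]; exact hq₁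
  have hq₂' : (c₂⁻¹ * d₂) • q ∈ X₂.map (scaleE E₂ c₂⁻¹) := by
    rw [mem_scale hci₂, inv_inv, smul_smul, mul_inv_cancel_left₀ hc₂]; exact hq₂
  have he₁ : c₁⁻¹ * d₁ ≠ 0 := mul_ne_zero hci₁ hd₁
  have he₂ : c₂⁻¹ * d₂ ≠ 0 := mul_ne_zero hci₂ hd₂
  by_cases hE : E₁ = E₂
  · right
    subst hE
    obtain ⟨hang, hform, hpr₁, hpr₂, Δ, hΔ, hi₁, hi₂⟩ := case_eq hd hW₁ hW₂ hne g₁ g₂
      le_sup_left le_sup_right hp₁' hp₂' hp0 hpp hqq hqp he₁ he₂ hq₁' hq₂'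
    refine ⟨rfl, hang, _, hform, fun g hg hX => hpr₁ g hg (pres_scale hci₁ hX),
      fun g hg hX => hpr₂ g hg (pres_scale hci₂ hX), ?_, Δ, hΔ, hi₁, hi₂⟩
    intro hX₁ hX₂ g hg
    rw [← presSub_mem]
    refine (sup_le ?_ ?_ : Γ₁ ⊔ Γ₂ ≤ presSub _) hg
    · intro g hg
      exact hpr₁ g (h₁.2.2.1 hg) (pres_scale hci₁ (hX₁ g hg))
    · intro g hg
      exact hpr₂ g (h₂.2.2.1 hg) (pres_scale hci₂ (hX₂ g hg))
  · left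
    refine ⟨hE, ?_⟩
    obtain ⟨hnd₁, hspan₁, ⟨s₁, hs₁0, hs₁⟩, -⟩ := g₁.2.1
    obtain ⟨hnd₂, hspan₂, ⟨s₂, hs₂0, hs₂⟩, -⟩ := g₂.2.1
    have hs₁0' : (s₁ : ℂ) ≠ 0 := by exact_mod_cast hs₁0
    have hs₂0' : (s₂ : ℂ) ≠ 0 := by exact_mod_cast hs₂0
    refine case_ne hW₁ hW₂ hne hnd₁ hspan₁ hspan₂ hp₁' hp₂' hp0 hpp hqp hqW.1 hqW.2
      hs₁0 hs₂0 hs₁ hs₂ he₁ he₂ hq₁' hq₂' ?_
    intro x hx hxp y hy hyp
    by_contra hz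
    apply hE
    apply le_antisymm
    · intro e he
      -- s₁ conj(e z) ∈ E₂
      have h1 : ∀ x' ∈ X₁.map (scaleE E₁ c₁⁻¹), herm x' p = 0 → (s₁ : ℂ) * herm x' y ∈ E₂ := by
        intro x' hx' hx'p
        have := core_A hd g₂ g₁ le_sup_right le_sup_left hp₂' hp₁' hp0 hpp hs₂0 hs₁0 hs₂ hs₁
          hy hyp hx' hx'p
        have h2 := h₂.1.conj_mem this
        rwa [map_mul, conj_herm, Complex.conj_ofReal] at h2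
      have h3 := h1 x hx hxp
      have h4 := h1 (e • x) (smul_mem_E he hx) (by rw [herm_smul_left, hxp, mul_zero])
      rw [herm_smul_left] at h4
      have h5 := E₂.div_mem h4 h3
      have h6 : (s₁ : ℂ) * (e * herm x y) / ((s₁ : ℂ) * herm x y) = e := by
        field_simp
      rwa [h6] at h5
    · intro e he
      have h1 : ∀ y' ∈ X₂.map (scaleE E₂ c₂⁻¹), herm y' p = 0 → (s₂ : ℂ) * herm x y' ∈ E₁ := by
        intro y' hy' hy'p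
        exact core_A hd g₁ g₂ le_sup_left le_sup_right hp₁' hp₂' hp0 hpp hs₁0 hs₂0 hs₁ hs₂
          hx hxp hy' hy'p
      have h3 := h1 y hy hyp
      have h4 := h1 (e • y) (smul_mem_E he hy) (by rw [herm_smul_left, hyp, mul_zero])
      rw [herm_smul_right] at h4
      have h5 := E₁.div_mem h4 h3
      have h6 : (s₂ : ℂ) * (conj e * herm x y) / ((s₂ : ℂ) * herm x y) = conj e := by
        field_simp
      rw [h6] at h5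
      have h7 := h₁.1.conj_mem h5
      rwa [Complex.conj_conj] at h7

end Pool.Agent.Q107.Hunt
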