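import Pool.Agent.Q107.Hunt.Sch
import Pool.Agent.Q107.Hunt.Final

/-! # Orthogonal hybrids: assembly -/

namespace Pool.Agent.Q107.Hunt

open Matrix ComplexConjugate

variable {n : ℕ}

/-- preservation of the sum -/
theorem g_pres_sup {E : IntermediateField ℚ ℂ} (hconj : ∀ z ∈ E, conj z ∈ E)
    (hnr : ∃ z ∈ E, z.im ≠ 0)
    {W : Submodule ℂ (Fin (n + 1) → ℂ)} {u : Fin (n + 1) → ℂ} (hu : herm u u ≠ 0)
    (hu' : ∀ v, v ∈ W ↔ herm v u = 0)
    (hnd : ∀ v ∈ W, (∀ w ∈ W, herm v w = 0) → v = 0)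
    {X Y : Submodule E (Fin (n + 1) → ℂ)}
    (hspan : Submodule.span ℂ (X : Set (Fin (n + 1) → ℂ)) = W)
    {s : ℝ} (hs0 : s ≠ 0) (hs : ∀ x ∈ X, ∀ y ∈ X, (s : ℂ) * herm x y ∈ E)
    (hXY : ∀ x ∈ X, ∀ y ∈ Y, (s : ℂ) * herm x y ∈ E)
    {g : SpecialLinearGroup (Fin (n + 1)) ℂ} (hg : g ∈ suOf n W)
    (hX : Pres g (X : Set (Fin (n + 1) → ℂ))) :
    Pres g ((X ⊔ Y : Submodule E (Fin (n + 1) → ℂ)) : Set (Fin (n + 1) → ℂ)) := by
  have half : ∀ g ∈ suOf n W, Pres g (X : Set (Fin (n + 1) → ℂ)) →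
      ∀ v ∈ X ⊔ Y, act g v ∈ X ⊔ Y := by
    intro g hg hX v hv
    have hfix : act g u = u := hg.2 u fun w hw => herm_conj_zero ((hu' w).1 hw)
    have hgW : ∀ w ∈ W, act g w ∈ W := by
      intro w hw
      rw [← hspan] at hw ⊢
      induction hw using Submodule.span_induction with
      | mem x hx => exact Submodule.subset_span ((hX x).1 hx)
      | zero => rw [act_zero]; exact Submodule.zero_mem _
      | add x y _ _ hx hy => rw [act_add]; exact Submodule.add_mem _ hx hy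
      | smul a x _ hx => rw [act_smul]; exact Submodule.smul_mem _ _ hx
    obtain ⟨x, hx, y, hy, rfl⟩ := Submodule.mem_sup.1 hv
    rw [act_add]
    refine Submodule.add_mem _ (Submodule.mem_sup_left ((hX x).1 hx)) ?_
    have h1 : act g y - y ∈ X := by
      have hwW : y - (herm y u / herm u u) • u ∈ W := by
        rw [hu', herm_sub_left, herm_smul_left, div_mul_cancel₀ _ hu, sub_self]
      refine g_mem_of_herm hconj hnr hnd hspan hs0 hs ?_ ?_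
      · have e : act g y - y = act g (y - (herm y u / herm u u) • u) -
            (y - (herm y u / herm u u) • u) := by
          rw [act_sub, act_smul, hfix]; abel
        rw [e]
        exact W.sub_mem (hgW _ hwW) hwW
      · intro z hz
        have h2 : act g⁻¹ z ∈ X := by
          have := (hX (act g⁻¹ z)).2
          rw [act_act_inv] at this
          exact this hz
        have h3 : herm z (act g y) = herm (act g⁻¹ z) y := by
          have := hg.1 (act g⁻¹ z) y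
          rw [act_act_inv] at this
          exact this
        rw [herm_sub_right, h3, mul_sub]
        exact E.sub_mem (hXY _ h2 _ hy) (hXY _ hz _ hy)
    have e : act g y = (act g y - y) + y := by abel
    rw [e]
    exact Submodule.add_mem _ (Submodule.mem_sup_left h1) (Submodule.mem_sup_right hy)
  intro v
  refine ⟨fun hv => half g hg hX v hv, fun hv => ?_⟩
  have hXi : Pres g⁻¹ (X : Set (Fin (n + 1) → ℂ)) := by
    intro v
    have := hX (act g⁻¹ v)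
    rw [act_act_inv] at this
    exact this.symm
  have := half g⁻¹ ((suOf n W).inv_mem hg) hXi _ hv
  rwa [act_inv_act] at this

theorem g_lattice_part {E : IntermediateField ℚ ℂ} (hfin : FiniteDimensional ℚ E)
    (hconj : ∀ z ∈ E, conj z ∈ E) (hnr : ∃ z ∈ E, z.im ≠ 0)
    {W : Submodule ℂ (Fin (n + 1) → ℂ)} {u : Fin (n + 1) → ℂ} (hu : herm u u ≠ 0)
    (hu' : ∀ v, v ∈ W ↔ herm v u = 0)
    (hnd : ∀ v ∈ W, (∀ w ∈ W, herm v w = 0) → v = 0)
    {X Y : Submodule E (Fin (n + 1) → ℂ)}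
    (hspan : Submodule.span ℂ (X : Set (Fin (n + 1) → ℂ)) = W)
    {s : ℝ} (hs0 : s ≠ 0) (hs : ∀ x ∈ X, ∀ y ∈ X, (s : ℂ) * herm x y ∈ E)
    (hXY : ∀ x ∈ X, ∀ y ∈ Y, (s : ℂ) * herm x y ∈ E)
    {Λ M : AddSubgroup (Fin (n + 1) → ℂ)} (h : IsLat E X Λ) (h' : IsLat E Y M)
    {Γ : Subgroup (SpecialLinearGroup (Fin (n + 1)) ℂ)}
    (hc : Subgroup.Commensurable Γ (stab n W Λ)) :
    (stab n ⊤ (Λ ⊔ M)).relIndex Γ ≠ 0 := by
  obtain ⟨k, hk, hP⟩ := g_mul_map hfin h h'.1 (fun y => y - (herm y u / herm u u) • u)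
    (by
      intro x y
      rw [herm_add_left, add_div, add_smul]
      abel)
    (by
      intro y hy
      have hyY : y ∈ Y := h'.2.2 ▸ Submodule.subset_span hy
      refine g_mem_of_herm hconj hnr hnd hspan hs0 hs ?_ ?_
      · rw [hu', herm_sub_left, herm_smul_left, div_mul_cancel₀ _ hu, sub_self]
      · intro z hz
        have hzW : z ∈ W := hspan ▸ Submodule.subset_span hz
        rw [herm_sub_right, herm_smul_right, (hu' z).1 hzW, mul_zero, sub_zero]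
        exact hXY z hz y hyY)
  exact Subgroup.relIndex_ne_zero_trans (stab_sup_relIndex hu hu' h.1 h'.1 hk hP) hc.2

theorem IsFK.scale {E : IntermediateField ℚ ℂ} {W : Submodule ℂ (Fin (n + 1) → ℂ)}
    {X : Submodule E (Fin (n + 1) → ℂ)} (h : IsFK n E W X) {c : ℂ} (hc : c ≠ 0) :
    IsFK n E W (X.map (scaleE E c)) := by
  obtain ⟨h1, h2, s, hs0, hs, hdef⟩ := h
  have hcc : conj c ≠ 0 := by simpa using hc
  have key : ∀ x y : Fin (n + 1) → ℂ, ((s / ‖c‖ ^ 2 : ℝ) : ℂ) * herm x y =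
      (s : ℂ) * herm (c⁻¹ • x) (c⁻¹ • y) := by
    intro x y
    have hn : ((‖c‖ : ℝ) : ℂ) ^ 2 = c * conj c := by
      rw [Complex.mul_conj, Complex.normSq_eq_norm_sq]; push_cast; ring
    rw [herm_smul_left, herm_smul_right]
    push_cast
    rw [hn, map_inv₀]
    field_simp
  refine ⟨h1, ?_, s / ‖c‖ ^ 2, div_ne_zero hs0 (by positivity), ?_, ?_⟩
  · apply le_antisymm
    · rw [Submodule.span_le]
      intro v hv
      have hv' := (mem_scale hc).1 hv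
      have : v = c • (c⁻¹ • v) := by rw [smul_smul, mul_inv_cancel₀ hc, one_smul]
      rw [this, ← h2]
      exact Submodule.smul_mem _ _ (Submodule.subset_span hv')
    · rw [← h2, Submodule.span_le]
      intro v hv
      have : v = c⁻¹ • (c • v) := by rw [smul_smul, inv_mul_cancel₀ hc, one_smul]
      rw [this]
      refine Submodule.smul_mem _ _ (Submodule.subset_span ?_)
      show c • v ∈ X.map (scaleE E c)
      rw [mem_scale hc, smul_smul, inv_mul_cancel₀ hc, one_smul]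
      exact hv
  · intro x hx y hy
    rw [key]
    exact hs _ ((mem_scale hc).1 hx) _ ((mem_scale hc).1 hy)
  · intro σ h3 h4
    have hz : ∀ x : Fin (n + 1) → ℂ, x ≠ 0 → c⁻¹ • x ≠ 0 := fun x hx =>
      smul_ne_zero (inv_ne_zero hc) hx
    rcases hdef σ h3 h4 with h5 | h5
    · exact Or.inl fun x hx hx0 e he => h5 _ ((mem_scale hc).1 hx) (hz x hx0) e (he.trans (key _ _))
    · exact Or.inr fun x hx hx0 e he => h5 _ ((mem_scale hc).1 hx) (hz x hx0) e (he.trans (key _ _))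

theorem IsArithFK.scale {E : IntermediateField ℚ ℂ} {W : Submodule ℂ (Fin (n + 1) → ℂ)}
    {X : Submodule E (Fin (n + 1) → ℂ)} {Γ : Subgroup (SpecialLinearGroup (Fin (n + 1)) ℂ)}
    (h : IsArithFK n E W X Γ) {c : ℂ} (hc : c ≠ 0) :
    IsArithFK n E W (X.map (scaleE E c)) Γ := by
  obtain ⟨hE, hf, hsu, Λ, hΛ, hcomm⟩ := h
  exact ⟨hE, hf.scale hc, hsu, scaleL c Λ, hΛ.scale hc, by rw [stab_scale hc]; exact hcomm⟩

/-- The assembly of the two rational forms, when they agree on `W₁ ∩ W₂`. -/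
theorem assembly {E : IntermediateField ℚ ℂ} (hE : CMF E)
    {W₁ W₂ : Submodule ℂ (Fin (n + 1) → ℂ)} {u₁ u₂ : Fin (n + 1) → ℂ}
    (hu₁ : herm u₁ u₁ ≠ 0) (hu₁' : ∀ v, v ∈ W₁ ↔ herm v u₁ = 0)
    (hu₂ : herm u₂ u₂ ≠ 0) (hu₂' : ∀ v, v ∈ W₂ ↔ herm v u₂ = 0)
    (hu₁₂ : herm u₁ u₂ = 0) (hsup : W₁ ⊔ W₂ = ⊤)
    (hnd₃ : ∀ v ∈ W₁ ⊓ W₂, (∀ w ∈ W₁ ⊓ W₂, herm v w = 0) → v = 0)
    {X₁ X₂ : Submodule E (Fin (n + 1) → ℂ)}
    (h₁ : IsFK n E W₁ X₁) (h₂ : IsFK n E W₂ X₂)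
    {c₁ c₂ : ℂ} (hc₁ : c₁ ≠ 0) (hc₂ : c₂ ≠ 0) (hf₁ : c₁ • u₂ ∈ X₁) (hf₂ : c₂ • u₁ ∈ X₂)
    (hY : ∀ y ∈ X₁, y ∈ W₂ → y ∈ X₂) {y₀ : Fin (n + 1) → ℂ} (hy₀ : y₀ ∈ X₁) (hy₀W : y₀ ∈ W₂)
    (hy₀0 : y₀ ≠ 0) :
    IsFK n E ⊤ (X₁ ⊔ X₂) ∧ ∃ s : ℝ, s ≠ 0 ∧ (∀ x ∈ X₁, ∀ y ∈ X₁, (s : ℂ) * herm x y ∈ E) ∧
      (∀ x ∈ X₂, ∀ y ∈ X₂, (s : ℂ) * herm x y ∈ E) ∧
      (∀ x ∈ X₁, ∀ y ∈ X₂, (s : ℂ) * herm x y ∈ E) := by
  obtain ⟨hfin, hnr, hconj, hcomm⟩ := hE
  obtain ⟨hnd₁, hspan₁, s₁, hs₁0, hs₁, hdef₁⟩ := h₁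
  obtain ⟨hnd₂, hspan₂, s₂, hs₂0, hs₂, hdef₂⟩ := h₂
  have hs₁0' : (s₁ : ℂ) ≠ 0 := by exact_mod_cast hs₁0
  have hs₂0' : (s₂ : ℂ) ≠ 0 := by exact_mod_cast hs₂0
  set f₁ := c₁ • u₂ with hf₁d
  set f₂ := c₂ • u₁ with hf₂d
  clear_value f₁ f₂
  have hsub₁ : ∀ x ∈ X₁, x ∈ W₁ := fun x hx => hspan₁ ▸ Submodule.subset_span hx
  have hsub₂ : ∀ x ∈ X₂, x ∈ W₂ := fun x hx => hspan₂ ▸ Submodule.subset_span hx
  have hf₁f₁ : herm f₁ f₁ ≠ 0 := by
    rw [hf₁d, herm_smul_left, herm_smul_right]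
    exact mul_ne_zero hc₁ (mul_ne_zero (by simpa using hc₁) hu₂)
  have hf₂f₂ : herm f₂ f₂ ≠ 0 := by
    rw [hf₂d, herm_smul_left, herm_smul_right]
    exact mul_ne_zero hc₂ (mul_ne_zero (by simpa using hc₂) hu₁)
  have hW₂f₁ : ∀ v, v ∈ W₂ ↔ herm v f₁ = 0 := by
    intro v
    rw [hu₂', hf₁d, herm_smul_right]
    constructor
    · intro h; rw [h, mul_zero]
    · intro h
      rcases mul_eq_zero.1 h with h | h
      · exact absurd h (by simpa using hc₁)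
      · exact h
  have hW₁f₂ : ∀ v, v ∈ W₁ ↔ herm v f₂ = 0 := by
    intro v
    rw [hu₁', hf₂d, herm_smul_right]
    constructor
    · intro h; rw [h, mul_zero]
    · intro h
      rcases mul_eq_zero.1 h with h | h
      · exact absurd h (by simpa using hc₂)
      · exact h
  -- decomposition in X₁
  have hdec₁ : ∀ x ∈ X₁, ∃ e ∈ E, ∃ y ∈ X₁, y ∈ W₂ ∧ x = y + e • f₁ := by
    intro x hx
    have he : herm x f₁ / herm f₁ f₁ ∈ E := by
      have h2 := E.div_mem (hs₁ _ hx _ hf₁) (hs₁ _ hf₁ _ hf₁)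
      rwa [mul_div_mul_left _ _ hs₁0'] at h2
    refine ⟨_, he, x - (herm x f₁ / herm f₁ f₁) • f₁, X₁.sub_mem hx (smul_mem_E he hf₁), ?_, ?_⟩
    · rw [hW₂f₁, herm_sub_left, herm_smul_left, div_mul_cancel₀ _ hf₁f₁, sub_self]
    · abel
  -- the form Y = X₁ ∩ W₂
  let Y : Submodule E (Fin (n + 1) → ℂ) :=
    { carrier := {y | y ∈ X₁ ∧ y ∈ W₂}
      add_mem' := fun ha hb => ⟨X₁.add_mem ha.1 hb.1, W₂.add_mem ha.2 hb.2⟩
      zero_mem' := ⟨X₁.zero_mem, W₂.zero_mem⟩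
      smul_mem' := fun e y hy => ⟨X₁.smul_mem e hy.1, by
        rw [E_smul]; exact W₂.smul_mem _ hy.2⟩ }
  have hYmem : ∀ y, y ∈ Y ↔ y ∈ X₁ ∧ y ∈ W₂ := fun y => Iff.rfl
  have hYspan : Submodule.span ℂ (Y : Set (Fin (n + 1) → ℂ)) = W₁ ⊓ W₂ := by
    apply le_antisymm
    · rw [Submodule.span_le]
      intro y hy
      exact ⟨hsub₁ y hy.1, hy.2⟩
    · -- project
      have key : ∀ v ∈ Submodule.span ℂ (X₁ : Set (Fin (n + 1) → ℂ)),
          v - (herm v f₁ / herm f₁ f₁) • f₁ ∈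
            Submodule.span ℂ (Y : Set (Fin (n + 1) → ℂ)) := by
        intro v hv
        induction hv using Submodule.span_induction with
        | mem x hx =>
          obtain ⟨e, he, y, hyX, hyW, hxe⟩ := hdec₁ x hx
          have h1 : herm x f₁ = e * herm f₁ f₁ := by
            rw [hxe, herm_add_left, (hW₂f₁ y).1 hyW, herm_smul_left, zero_add]
          have h2 : x - (herm x f₁ / herm f₁ f₁) • f₁ = y := by
            rw [h1, mul_div_assoc, div_self hf₁f₁, mul_one, hxe]; abel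
          rw [h2]
          exact Submodule.subset_span ⟨hyX, hyW⟩
        | zero => simp
        | add x y _ _ hx hy =>
          have := Submodule.add_mem _ hx hy
          convert this using 1
          rw [herm_add_left, add_div, add_smul]
          abel
        | smul a x _ hx =>
          have := Submodule.smul_mem _ a hx
          convert this using 1
          rw [herm_smul_left, smul_sub, smul_smul, mul_div_assoc]
      rintro w ⟨hw₁, hw₂⟩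
      have h1 := key w (hspan₁ ▸ hw₁)
      rwa [(hW₂f₁ w).1 hw₂, zero_div, zero_smul, sub_zero] at h1
  -- X₂ ∩ W₁ ⊂ X₁
  have hY₂ : ∀ y ∈ X₂, y ∈ W₁ → y ∈ X₁ := by
    intro y hy hyW
    have h1 : y ∈ Y := by
      refine g_mem_of_herm hconj hnr hnd₃ hYspan hs₂0 ?_ ⟨hyW, hsub₂ y hy⟩ ?_
      · intro a ha b hb
        exact hs₂ a (hY a ha.1 ha.2) b (hY b hb.1 hb.2)
      · intro a ha
        exact hs₂ a (hY a ha.1 ha.2) y hy
    exact h1.1
  -- the scales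
  obtain ⟨z, hzY, hyz⟩ : ∃ z ∈ Y, herm y₀ z ≠ 0 := by
    by_contra hcon
    push Not at hcon
    apply hy₀0
    refine hnd₃ y₀ ⟨hsub₁ _ hy₀, hy₀W⟩ fun w hw => ?_
    exact orth_span hcon (hYspan ▸ hw)
  obtain ⟨t, ht⟩ : ∃ t : E, (t : ℂ) = s₁ / s₂ := by
    have h1 := E.div_mem (hs₁ y₀ hy₀ z hzY.1) (hs₂ y₀ (hY y₀ hy₀ hy₀W) z (hY z hzY.1 hzY.2))
    rw [mul_div_mul_right _ _ hyz] at h1
    exact ⟨⟨_, h1⟩, rfl⟩
  have hs₂' : ∀ x ∈ X₂, ∀ y ∈ X₂, (s₁ : ℂ) * herm x y ∈ E := by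
    intro x hx y hy
    have h1 : (s₁ : ℂ) * herm x y = (t : ℂ) * ((s₂ : ℂ) * herm x y) := by
      rw [ht]; field_simp
    rw [h1]
    exact E.mul_mem t.2 (hs₂ x hx y hy)
  -- decomposition in X₂
  have hdec₂ : ∀ x ∈ X₂, ∃ e ∈ E, ∃ y ∈ X₁, y ∈ W₂ ∧ x = y + e • f₂ := by
    intro x hx
    have he : herm x f₂ / herm f₂ f₂ ∈ E := by
      have h2 := E.div_mem (hs₂ _ hx _ hf₂) (hs₂ _ hf₂ _ hf₂)
      rwa [mul_div_mul_left _ _ hs₂0'] at h2
    have hmem : x - (herm x f₂ / herm f₂ f₂) • f₂ ∈ X₂ := X₂.sub_mem hx (smul_mem_E he hf₂)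
    refine ⟨_, he, x - (herm x f₂ / herm f₂ f₂) • f₂, hY₂ _ hmem ?_, hsub₂ _ hmem, ?_⟩
    · rw [hW₁f₂, herm_sub_left, herm_smul_left, div_mul_cancel₀ _ hf₂f₂, sub_self]
    · abel
  have hf₁₂ : herm f₁ f₂ = 0 := by
    rw [hf₁d, hf₂d, herm_smul_left, herm_smul_right, herm_conj_zero hu₁₂, mul_zero, mul_zero]
  have hcross : ∀ x ∈ X₁, ∀ y ∈ X₂, (s₁ : ℂ) * herm x y ∈ E := by
    intro x hx y hy
    obtain ⟨e, he, a, ha, haW, rfl⟩ := hdec₁ x hx
    obtain ⟨e', he', b, hb, hbW, rfl⟩ := hdec₂ y hy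
    have h1 : herm (a + e • f₁) (b + e' • f₂) = herm a b := by
      rw [herm_add_left, herm_add_right, herm_add_right, herm_smul_left, herm_smul_left,
        herm_smul_right, herm_smul_right, hf₁₂, (hW₁f₂ a).1 (hsub₁ a ha),
        herm_conj_zero ((hW₂f₁ b).1 hbW)]
      ring
    rw [h1]
    exact hs₁ a ha b hb
  have hcross' : ∀ x ∈ X₂, ∀ y ∈ X₁, (s₁ : ℂ) * herm x y ∈ E := by
    intro x hx y hy
    have := hconj _ (hcross y hy x hx)
    rwa [map_mul, conj_herm, Complex.conj_ofReal] at this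
  have hsX : ∀ x ∈ X₁ ⊔ X₂, ∀ y ∈ X₁ ⊔ X₂, (s₁ : ℂ) * herm x y ∈ E := by
    intro x hx y hy
    obtain ⟨x₁, hx₁, x₂, hx₂, rfl⟩ := Submodule.mem_sup.1 hx
    obtain ⟨y₁, hy₁, y₂, hy₂, rfl⟩ := Submodule.mem_sup.1 hy
    rw [herm_add_left, herm_add_right, herm_add_right, mul_add, mul_add, mul_add]
    exact E.add_mem (E.add_mem (hs₁ _ hx₁ _ hy₁) (hcross _ hx₁ _ hy₂))
      (E.add_mem (hcross' _ hx₂ _ hy₁) (hs₂' _ hx₂ _ hy₂))
  -- full decomposition
  have hdec : ∀ x ∈ X₁ ⊔ X₂, ∃ e ∈ E, ∃ e' ∈ E, ∃ y ∈ X₁, y ∈ W₂ ∧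
      x = y + e • f₁ + e' • f₂ := by
    intro x hx
    obtain ⟨x₁, hx₁, x₂, hx₂, rfl⟩ := Submodule.mem_sup.1 hx
    obtain ⟨e, he, a, ha, haW, rfl⟩ := hdec₁ x₁ hx₁
    obtain ⟨e', he', b, hb, hbW, rfl⟩ := hdec₂ x₂ hx₂
    exact ⟨e, he, e', he', a + b, X₁.add_mem ha hb, W₂.add_mem haW hbW, by abel⟩
  refine ⟨⟨fun v _ hv => herm_nondeg fun w => hv w trivial, ?_, s₁, hs₁0, hsX, ?_⟩,
    s₁, hs₁0, hs₁, hs₂', hcross⟩
  · rw [eq_top_iff, ← hsup, sup_le_iff]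
    constructor
    · rw [← hspan₁]; exact Submodule.span_mono fun x hx => Submodule.mem_sup_left hx
    · rw [← hspan₂]; exact Submodule.span_mono fun x hx => Submodule.mem_sup_right hx
  · intro σ hσ hσ'
    -- the real number attached to a vector
    have hf₁0 : f₁ ≠ 0 := by intro h; rw [h] at hf₁f₁; simp at hf₁f₁
    have hf₂0 : f₂ ≠ 0 := by intro h; rw [h] at hf₂f₂; simp at hf₂f₂
    -- the values on f₁, f₂, y₀
    let d₁ : E := ⟨_, hs₁ _ hf₁ _ hf₁⟩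
    let d₂ : E := ⟨_, hs₂' _ hf₂ _ hf₂⟩
    let d₂' : E := ⟨_, hs₂ _ hf₂ _ hf₂⟩
    let dy : E := ⟨_, hs₁ _ hy₀ _ hy₀⟩
    let dy' : E := ⟨_, hs₂ _ (hY _ hy₀ hy₀W) _ (hY _ hy₀ hy₀W)⟩
    have hreal : ∀ d : E, conj (d : ℂ) = d → σ d = ((σ d).re : ℂ) := by
      intro d hd
      have h1 := hcomm σ d d hd.symm
      exact (Complex.conj_eq_iff_re.1 h1.symm).symm
    have hr : ∀ (s : ℝ) (v : Fin (n + 1) → ℂ), conj ((s : ℂ) * herm v v) = (s : ℂ) * herm v v := by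
      intro s v; rw [map_mul, conj_herm, Complex.conj_ofReal]
    have htr : σ t = ((σ t).re : ℂ) := hreal t (by
      rw [ht, map_div₀, Complex.conj_ofReal, Complex.conj_ofReal])
    have hd₂t : (σ d₂).re = (σ t).re * (σ d₂').re := by
      have h1 : d₂ = t * d₂' := by
        apply Subtype.ext
        show (s₁ : ℂ) * herm f₂ f₂ = (t : ℂ) * ((s₂ : ℂ) * herm f₂ f₂)
        rw [ht]; field_simp
      rw [h1, map_mul, htr, hreal d₂' (hr s₂ f₂)]
      simp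
    have hdyt : (σ dy).re = (σ t).re * (σ dy').re := by
      have h1 : dy = t * dy' := by
        apply Subtype.ext
        show (s₁ : ℂ) * herm y₀ y₀ = (t : ℂ) * ((s₂ : ℂ) * herm y₀ y₀)
        rw [ht]; field_simp
      rw [h1, map_mul, htr, hreal dy' (hr s₂ y₀)]
      simp
    -- the value on a general vector
    have hval : ∀ (y : Fin (n + 1) → ℂ) (hy : y ∈ X₁) (hyW : y ∈ W₂) (e e' : ℂ) (he : e ∈ E)
        (he' : e' ∈ E) (d : E), (d : ℂ) = s₁ * herm (y + e • f₁ + e' • f₂) (y + e • f₁ + e' • f₂) →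
        (σ d).re = (σ ⟨_, hs₁ y hy y hy⟩).re + ‖σ ⟨e, he⟩‖ ^ 2 * (σ d₁).re +
          ‖σ ⟨e', he'⟩‖ ^ 2 * (σ d₂).re := by
      intro y hy hyW e e' he he' d hd
      have h1 : d = ⟨_, hs₁ y hy y hy⟩ + ⟨e, he⟩ * ⟨conj e, hconj e he⟩ * d₁ +
          ⟨e', he'⟩ * ⟨conj e', hconj e' he'⟩ * d₂ := by
        apply Subtype.ext
        rw [hd]
        show (s₁ : ℂ) * herm (y + e • f₁ + e' • f₂) (y + e • f₁ + e' • f₂) =
          (s₁ : ℂ) * herm y y + e * conj e * ((s₁ : ℂ) * herm f₁ f₁) +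
            e' * conj e' * ((s₁ : ℂ) * herm f₂ f₂)
        simp only [herm_add_left, herm_add_right, herm_smul_left, herm_smul_right]
        rw [(hW₂f₁ y).1 hyW, herm_conj_zero ((hW₂f₁ y).1 hyW), (hW₁f₂ y).1 (hsub₁ y hy),
          herm_conj_zero ((hW₁f₂ y).1 (hsub₁ y hy)), hf₁₂, herm_conj_zero hf₁₂]
        ring
      have h2 : ∀ (e : ℂ) (he : e ∈ E), σ ⟨e, he⟩ * σ ⟨conj e, hconj e he⟩ =
          ((‖σ ⟨e, he⟩‖ ^ 2 : ℝ) : ℂ) := by
        intro e he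
        rw [hcomm σ ⟨e, he⟩ ⟨conj e, hconj e he⟩ rfl, Complex.mul_conj,
          Complex.normSq_eq_norm_sq]
      rw [h1, map_add, map_add, map_mul, map_mul, map_mul, map_mul, h2, h2,
        hreal d₁ (hr s₁ f₁), hreal d₂ (hr s₁ f₂), Complex.add_re, Complex.add_re]
      simp only [← Complex.ofReal_mul, Complex.ofReal_re]
    -- the sign
    have hd₂dy : ((∀ x ∈ X₁, x ≠ 0 → ∀ e : E, (e : ℂ) = s₁ * herm x x → 0 < (σ e).re) →
        0 < (σ d₂).re) ∧ ((∀ x ∈ X₁, x ≠ 0 → ∀ e : E, (e : ℂ) = s₁ * herm x x → (σ e).re < 0) →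
        (σ d₂).re < 0) := by
      have hsame : 0 < (σ d₂').re * (σ dy').re := by
        rcases hdef₂ σ hσ hσ' with h | h
        · exact mul_pos (h _ hf₂ hf₂0 d₂' rfl) (h _ (hY _ hy₀ hy₀W) hy₀0 dy' rfl)
        · exact mul_pos_of_neg_of_neg (h _ hf₂ hf₂0 d₂' rfl) (h _ (hY _ hy₀ hy₀W) hy₀0 dy' rfl)
      have hprod : (σ d₂).re * (σ dy).re = (σ t).re ^ 2 * ((σ d₂').re * (σ dy').re) := by
        rw [hd₂t, hdyt]; ring
      constructor
      · intro h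
        have h1 := h _ hy₀ hy₀0 dy rfl
        have h2 : (σ t).re ≠ 0 := by
          intro h0; rw [hdyt, h0, zero_mul] at h1; exact lt_irrefl _ h1
        have h3 : 0 < (σ d₂).re * (σ dy).re := by rw [hprod]; positivity
        exact (pos_iff_pos_of_mul_pos h3).2 h1
      · intro h
        have h1 := h _ hy₀ hy₀0 dy rfl
        have h2 : (σ t).re ≠ 0 := by
          intro h0; rw [hdyt, h0, zero_mul] at h1; exact lt_irrefl _ h1
        have h3 : 0 < (σ d₂).re * (σ dy).re := by rw [hprod]; positivity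
        exact (neg_iff_neg_of_mul_pos h3).2 h1
    -- nonvanishing of one component
    have hpos : ∀ (e : ℂ) (he : e ∈ E), e ≠ 0 → 0 < ‖σ ⟨e, he⟩‖ ^ 2 := by
      intro e he he0
      have : σ ⟨e, he⟩ ≠ 0 := by
        intro h0
        have h1 := (map_eq_zero σ).1 h0
        exact he0 (congrArg Subtype.val h1)
      positivity
    rcases hdef₁ σ hσ hσ' with h | h
    · left
      intro x hx hx0 d hd
      obtain ⟨e, he, e', he', y, hy, hyW, rfl⟩ := hdec x hx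
      rw [hval y hy hyW e e' he he' d hd]
      have a1 := h _ hf₁ hf₁0 d₁ rfl
      have a2 := hd₂dy.1 h
      by_cases hy0 : y = 0
      · have b1 : (σ ⟨_, hs₁ y hy y hy⟩).re = 0 := by
          have : (⟨_, hs₁ y hy y hy⟩ : E) = 0 := by
            apply Subtype.ext
            show (s₁ : ℂ) * herm y y = 0
            rw [hy0]; simp
          rw [this, map_zero, Complex.zero_re]
        rw [b1, zero_add]
        by_cases he0 : e = 0
        · have he'0 : e' ≠ 0 := by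
            intro h0; apply hx0; rw [hy0, he0, h0]; simp
          have := hpos e' he' he'0
          have b2 : 0 ≤ ‖σ ⟨e, he⟩‖ ^ 2 := sq_nonneg _
          positivity
        · have := hpos e he he0
          have b2 : 0 ≤ ‖σ ⟨e', he'⟩‖ ^ 2 := sq_nonneg _
          positivity
      · have b1 := h y hy hy0 ⟨_, hs₁ y hy y hy⟩ rfl
        have b2 : 0 ≤ ‖σ ⟨e, he⟩‖ ^ 2 := sq_nonneg _
        have b3 : 0 ≤ ‖σ ⟨e', he'⟩‖ ^ 2 := sq_nonneg _
        positivity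
    · right
      intro x hx hx0 d hd
      obtain ⟨e, he, e', he', y, hy, hyW, rfl⟩ := hdec x hx
      rw [hval y hy hyW e e' he he' d hd]
      have a1 := h _ hf₁ hf₁0 d₁ rfl
      have a2 := hd₂dy.2 h
      have b2 : 0 ≤ ‖σ ⟨e, he⟩‖ ^ 2 := sq_nonneg _
      have b3 : 0 ≤ ‖σ ⟨e', he'⟩‖ ^ 2 := sq_nonneg _
      by_cases hy0 : y = 0
      · have b1 : (σ ⟨_, hs₁ y hy y hy⟩).re = 0 := by
          have : (⟨_, hs₁ y hy y hy⟩ : E) = 0 := by
            apply Subtype.ext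
            show (s₁ : ℂ) * herm y y = 0
            rw [hy0]; simp
          rw [this, map_zero, Complex.zero_re]
        rw [b1, zero_add]
        by_cases he0 : e = 0
        · have he'0 : e' ≠ 0 := by
            intro h0; apply hx0; rw [hy0, he0, h0]; simp
          have := hpos e' he' he'0
          nlinarith
        · have := hpos e he he0
          nlinarith
      · have b1 := h y hy hy0 ⟨_, hs₁ y hy y hy⟩ rfl
        nlinarith

end Pool.Agent.Q107.Hunt
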