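import Pool.Agent.Q107.Hunt.Tr

/-! # Bounded traces, equality of fields -/

namespace Pool.Agent.Q107.Hunt

open Matrix ComplexConjugate

variable {n : ℕ}

/-- rank one maps -/
def rk (w z : Fin (n + 1) → ℂ) : Matrix (Fin (n + 1)) (Fin (n + 1)) ℂ := vecMulVec w (row z)

theorem rk_mulVec (w z v : Fin (n + 1) → ℂ) : rk w z *ᵥ v = herm v z • w := by
  rw [rk, vecMulVec_mulVec, row_dot]
  funext j
  simp only [Pi.smul_apply, smul_eq_mul, MulOpposite.smul_eq_mul_unop, MulOpposite.unop_op]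
  ring

theorem rk_trace (w z : Fin (n + 1) → ℂ) : (rk w z).trace = herm w z := by
  rw [rk, Matrix.trace_vecMulVec, dot_row]

theorem rk_EndW {W : Submodule ℂ (Fin (n + 1) → ℂ)} {w z : Fin (n + 1) → ℂ} (hw : w ∈ W)
    (hz : z ∈ W) : EndW W (rk w z) := by
  refine ⟨fun v => ?_, fun v hv => ?_⟩
  · rw [rk_mulVec]; exact W.smul_mem _ hw
  · rw [rk_mulVec, hv z hz, zero_smul]

/-- the trace pairing with a fixed matrix of the span is bounded if the traces are -/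
theorem pairing_bound {Γ : Subgroup (SpecialLinearGroup (Fin (n + 1)) ℂ)} {C : ℝ}
    (hC : ∀ γ ∈ Γ, ‖(γ : Matrix (Fin (n + 1)) (Fin (n + 1)) ℂ).trace‖ ≤ C)
    {B : Matrix (Fin (n + 1)) (Fin (n + 1)) ℂ}
    (hB : B ∈ Submodule.span ℝ
      {B : Matrix (Fin (n + 1)) (Fin (n + 1)) ℂ |
        ∃ γ ∈ Γ, B = (γ : Matrix (Fin (n + 1)) (Fin (n + 1)) ℂ) - 1}) :
    ∃ D : ℝ, ∀ γ ∈ Γ,
      ‖(((γ : Matrix (Fin (n + 1)) (Fin (n + 1)) ℂ) - 1) * B).trace‖ ≤ D := by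
  induction hB using Submodule.span_induction with
  | mem B hB =>
    obtain ⟨γ', hγ', rfl⟩ := hB
    refine ⟨C + C + C + C, fun γ hγ => ?_⟩
    have h1 : (((γ : Matrix (Fin (n + 1)) (Fin (n + 1)) ℂ) - 1) *
        ((γ' : Matrix (Fin (n + 1)) (Fin (n + 1)) ℂ) - 1)).trace =
        ((γ * γ' : SpecialLinearGroup (Fin (n + 1)) ℂ) :
          Matrix (Fin (n + 1)) (Fin (n + 1)) ℂ).trace -
        (γ : Matrix (Fin (n + 1)) (Fin (n + 1)) ℂ).trace -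
        (γ' : Matrix (Fin (n + 1)) (Fin (n + 1)) ℂ).trace +
        ((1 : SpecialLinearGroup (Fin (n + 1)) ℂ) :
          Matrix (Fin (n + 1)) (Fin (n + 1)) ℂ).trace := by
      have e : ((γ * γ' : SpecialLinearGroup (Fin (n + 1)) ℂ) :
          Matrix (Fin (n + 1)) (Fin (n + 1)) ℂ) =
          (γ : Matrix (Fin (n + 1)) (Fin (n + 1)) ℂ) * (γ' : Matrix _ _ ℂ) := rfl
      have e1 : ((1 : SpecialLinearGroup (Fin (n + 1)) ℂ) :
          Matrix (Fin (n + 1)) (Fin (n + 1)) ℂ) = 1 := rfl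
      rw [e, e1, Matrix.sub_mul, Matrix.mul_sub, Matrix.mul_one, Matrix.one_mul, Matrix.trace_sub,
        Matrix.trace_sub, Matrix.trace_sub]
      ring
    rw [h1]
    have b1 := hC _ (Γ.mul_mem hγ hγ')
    have b2 := hC _ hγ
    have b3 := hC _ hγ'
    have b4 := hC _ Γ.one_mem
    refine (norm_add_le _ _).trans ?_
    refine add_le_add ((norm_sub_le _ _).trans ?_) b4
    exact add_le_add ((norm_sub_le _ _).trans (add_le_add b1 b2)) b3
  | zero => exact ⟨0, fun γ _ => by simp⟩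
  | add x y _ _ hx hy =>
    obtain ⟨D, hD⟩ := hx
    obtain ⟨D', hD'⟩ := hy
    refine ⟨D + D', fun γ hγ => ?_⟩
    rw [Matrix.mul_add, Matrix.trace_add]
    exact (norm_add_le _ _).trans (add_le_add (hD γ hγ) (hD' γ hγ))
  | smul r x _ hx =>
    obtain ⟨D, hD⟩ := hx
    refine ⟨|r| * D, fun γ hγ => ?_⟩
    rw [Matrix.mul_smul, Matrix.trace_smul, norm_smul, Real.norm_eq_abs]
    exact mul_le_mul_of_nonneg_left (hD γ hγ) (abs_nonneg r)

/-- Bounded traces contradict ampleness. -/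
theorem not_trace_bounded {W : Submodule ℂ (Fin (n + 1) → ℂ)}
    {P : (Fin (n + 1) → ℂ) → (Fin (n + 1) → ℂ)} (hP : ∀ v, P v ∈ W)
    (hP' : ∀ v, ∀ w ∈ W, herm (v - P v) w = 0)
    {Γ : Subgroup (SpecialLinearGroup (Fin (n + 1)) ℂ)} (hsu : Γ ≤ suOf n W)
    (hunb : Unbdd Γ) (hreal : RealSpans W Γ) :
    ¬ ∃ C : ℝ, ∀ γ ∈ Γ, ‖(γ : Matrix (Fin (n + 1)) (Fin (n + 1)) ℂ).trace‖ ≤ C := by
  rintro ⟨C, hC⟩
  -- each entry is bounded
  have hent : ∀ i j, ∃ D : ℝ, ∀ γ ∈ Γ,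
      ‖(γ : Matrix (Fin (n + 1)) (Fin (n + 1)) ℂ) i j‖ ≤ D := by
    intro i j
    set ej : Fin (n + 1) → ℂ := Pi.single j 1 with hej
    set gi : Fin (n + 1) → ℂ := Pi.single i (sg n i) with hgi
    have hgi' : ∀ v : Fin (n + 1) → ℂ, herm v gi = v i := by
      intro v
      rw [hgi, herm, Finset.sum_eq_single i]
      · simp only [Pi.single_eq_same, sg_conj]
        have h2 : sg n i * (v i * sg n i) = (sg n i * sg n i) * v i := by ring
        rw [h2, sg_mul_self, one_mul]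
      · intro l _ hl
        simp [Pi.single_eq_of_ne hl]
      · intro h2; exact absurd (Finset.mem_univ i) h2
    obtain ⟨D, hD⟩ := pairing_bound hC (hreal _ (rk_EndW (hP ej) (hP gi)))
    refine ⟨D + 1, fun γ hγ => ?_⟩
    have hγ' := hsu hγ
    -- the entry of γ - 1
    have h1 : ((γ : Matrix (Fin (n + 1)) (Fin (n + 1)) ℂ) - 1) i j =
        ((((γ : Matrix (Fin (n + 1)) (Fin (n + 1)) ℂ) - 1)) * rk (P ej) (P gi)).trace := by
      have e1 : ((γ : Matrix (Fin (n + 1)) (Fin (n + 1)) ℂ) - 1) i j =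
          (((γ : Matrix (Fin (n + 1)) (Fin (n + 1)) ℂ) - 1) *ᵥ ej) i := by
        rw [hej]; simp
      have e2 : (((γ : Matrix (Fin (n + 1)) (Fin (n + 1)) ℂ) - 1)) * rk (P ej) (P gi) =
          rk ((((γ : Matrix (Fin (n + 1)) (Fin (n + 1)) ℂ) - 1)) *ᵥ P ej) (P gi) := by
        rw [rk, rk, Matrix.mul_vecMulVec]
      have e3 : ∀ v, ((γ : Matrix (Fin (n + 1)) (Fin (n + 1)) ℂ) - 1) *ᵥ v = act γ v - v := by
        intro v; rw [Matrix.sub_mulVec, Matrix.one_mulVec]; rfl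
      rw [e1, e2, rk_trace, e3, e3, ← hgi' (act γ ej - ej)]
      have e4 : act γ ej - ej = act γ (P ej) - P ej := by
        have h2 := hγ'.2 (ej - P ej) (hP' ej)
        rw [act_sub] at h2
        have h3 : act γ ej = act γ (P ej) + (ej - P ej) := by rw [← h2]; abel
        rw [h3]; abel
      rw [e4]
      -- the vector is in W, so the pairing only sees P gi
      have h5 : herm (act γ (P ej) - P ej) (gi - P gi) = 0 := by
        rw [herm_sub_left]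
        have h6 : herm (act γ (P ej)) (gi - P gi) = herm (P ej) (gi - P gi) := by
          have h7 := hγ'.1 (P ej) (gi - P gi)
          rwa [hγ'.2 (gi - P gi) (hP' gi)] at h7
        rw [h6, sub_self]
      rw [herm_sub_right] at h5
      exact sub_eq_zero.1 h5
    have h2 := hD γ hγ
    rw [← h1, Matrix.sub_apply] at h2
    have h3 : ‖(1 : Matrix (Fin (n + 1)) (Fin (n + 1)) ℂ) i j‖ ≤ 1 := by
      rw [Matrix.one_apply]; split_ifs <;> simp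
    calc ‖(γ : Matrix (Fin (n + 1)) (Fin (n + 1)) ℂ) i j‖
        = ‖((γ : Matrix (Fin (n + 1)) (Fin (n + 1)) ℂ) i j - (1 : Matrix _ _ ℂ) i j) +
            (1 : Matrix _ _ ℂ) i j‖ := by rw [sub_add_cancel]
      _ ≤ D + 1 := (norm_add_le _ _).trans (add_le_add h2 h3)
  choose D hD using hent
  obtain ⟨γ, hγ, i, j, hij⟩ := hunb (∑ i, ∑ j, |D i j|)
  have h1 := hD i j γ hγ
  have h2 : D i j ≤ ∑ i, ∑ j, |D i j| := by
    refine (le_abs_self _).trans ?_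
    refine (Finset.single_le_sum (f := fun j => |D i j|) (fun _ _ => abs_nonneg _)
      (Finset.mem_univ j)).trans ?_
    exact Finset.single_le_sum (f := fun i => ∑ j, |D i j|)
      (fun _ _ => Finset.sum_nonneg fun _ _ => abs_nonneg _) (Finset.mem_univ i)
  linarith

/-- Some trace is not real. -/
theorem exists_nonreal_trace {W : Submodule ℂ (Fin (n + 1) → ℂ)}
    {Γ : Subgroup (SpecialLinearGroup (Fin (n + 1)) ℂ)} (hreal : RealSpans W Γ)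
    (hnd : ∀ v ∈ W, (∀ w ∈ W, herm v w = 0) → v = 0) (hne : ∃ w ∈ W, w ≠ 0) :
    ∃ γ ∈ Γ, ((γ : Matrix (Fin (n + 1)) (Fin (n + 1)) ℂ).trace).im ≠ 0 := by
  by_contra hcon
  push Not at hcon
  obtain ⟨w, hw, hw0⟩ := hne
  apply hw0
  refine hnd w hw fun z hz => ?_
  have key : ∀ B ∈ Submodule.span ℝ
      {B : Matrix (Fin (n + 1)) (Fin (n + 1)) ℂ |
        ∃ γ ∈ Γ, B = (γ : Matrix (Fin (n + 1)) (Fin (n + 1)) ℂ) - 1}, (B.trace).im = 0 := by
    intro B hB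
    induction hB using Submodule.span_induction with
    | mem B hB =>
      obtain ⟨γ, hγ, rfl⟩ := hB
      rw [Matrix.trace_sub, Complex.sub_im, hcon γ hγ, Matrix.trace_one]
      simp
    | zero => simp
    | add x y _ _ hx hy => rw [Matrix.trace_add, Complex.add_im, hx, hy, add_zero]
    | smul r x _ hx => rw [Matrix.trace_smul, Complex.smul_im, hx, smul_zero]
  have h1 := key _ (hreal _ (rk_EndW hw hz))
  have h2 := key _ (hreal _ (rk_EndW (W.smul_mem Complex.I hw) hz))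
  rw [rk_trace] at h1 h2
  rw [herm_smul_left, Complex.I_mul_im] at h2
  exact Complex.ext h2 h1

/-- One inclusion of the fields. -/
theorem fields_le {E₁ E₂ : IntermediateField ℚ ℂ} (hE₁ : CMF E₁)
    {W₁ : Submodule ℂ (Fin (n + 1) → ℂ)} {X₁ : Submodule E₁ (Fin (n + 1) → ℂ)}
    (hW₁ : Module.finrank ℂ W₁ = n) (hX₁ : IsFK n E₁ W₁ X₁)
    {Γ : Subgroup (SpecialLinearGroup (Fin (n + 1)) ℂ)}
    (hsu : Γ ≤ suOf n W₁) (hpres : ∀ γ ∈ Γ, ∀ x ∈ X₁, act γ x ∈ X₁)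
    (htr : ∀ γ ∈ Γ, (γ : Matrix (Fin (n + 1)) (Fin (n + 1)) ℂ).trace ∈ E₂)
    (hnr : ∃ γ ∈ Γ, ((γ : Matrix (Fin (n + 1)) (Fin (n + 1)) ℂ).trace).im ≠ 0)
    (hnb : ¬ ∃ C : ℝ, ∀ γ ∈ Γ, ‖(γ : Matrix (Fin (n + 1)) (Fin (n + 1)) ℂ).trace‖ ≤ C) :
    E₁ ≤ E₂ := by
  by_contra hcon
  obtain ⟨hnd, hspan, s, hs0, hs, hdef⟩ := hX₁
  have hne : E₁ ⊓ E₂ ≠ E₁ := fun h => hcon (inf_eq_left.1 h)
  obtain ⟨σ, hσF, hσ⟩ := exists_embedding hE₁.1 inf_le_left hne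
  have htr₁ : ∀ γ ∈ Γ, (γ : Matrix (Fin (n + 1)) (Fin (n + 1)) ℂ).trace ∈ E₁ := fun γ hγ =>
    trace_mem hE₁.2.2.1 hE₁.2.1 hW₁ hnd hspan hs0 hs (hsu hγ) (hpres γ hγ)
  have hfix : ∀ γ (hγ : γ ∈ Γ), σ ⟨_, htr₁ γ hγ⟩ =
      (γ : Matrix (Fin (n + 1)) (Fin (n + 1)) ℂ).trace := fun γ hγ =>
    hσF ⟨_, htr₁ γ hγ⟩ ⟨htr₁ γ hγ, htr γ hγ⟩
  have hσ' : ∃ z : E₁, σ z ≠ conj (z : ℂ) := by
    obtain ⟨γ, hγ, him⟩ := hnr
    refine ⟨⟨_, htr₁ γ hγ⟩, ?_⟩
    rw [hfix γ hγ]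
    intro h
    exact him (Complex.conj_eq_iff_im.1 h.symm)
  obtain ⟨C, hC⟩ := trace_bound hE₁ hW₁ hnd hspan hs0 hs (hdef σ hσ hσ')
  apply hnb
  refine ⟨C, fun γ hγ => ?_⟩
  have := hC γ (hsu hγ) (hpres γ hγ) ⟨_, htr₁ γ hγ⟩ rfl
  rwa [hfix γ hγ] at this

end Pool.Agent.Q107.Hunt
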