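import Pool.Agent.Q107.Hunt.Lat

/-! # A density theorem for lattices of `SU(W)` -/

namespace Pool.Agent.Q107.Hunt

open Matrix ComplexConjugate MeasureTheory Topology

variable {n : ℕ}

instance instSCMat : SecondCountableTopology (Matrix (Fin (n + 1)) (Fin (n + 1)) ℂ) :=
  inferInstanceAs (SecondCountableTopology (Fin (n + 1) → Fin (n + 1) → ℂ))

instance instSCSL : SecondCountableTopology (SpecialLinearGroup (Fin (n + 1)) ℂ) :=
  inferInstanceAs (SecondCountableTopology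
    ({A : Matrix (Fin (n + 1)) (Fin (n + 1)) ℂ | A.det = 1} : Set _))

/-- `Γ` is a lattice of `SU(W)`. -/
def IsLatticeOf (n : ℕ) (W : Submodule ℂ (Fin (n + 1) → ℂ))
    (Γ : Subgroup (SpecialLinearGroup (Fin (n + 1)) ℂ)) : Prop :=
  Γ ≤ suOf n W ∧ IsLattice (Γ.subgroupOf (suOf n W))

theorem IsLatticeOf.finiteIndex {W : Submodule ℂ (Fin (n + 1) → ℂ)}
    {Γ Γ' : Subgroup (SpecialLinearGroup (Fin (n + 1)) ℂ)} (h : IsLatticeOf n W Γ) (hle : Γ' ≤ Γ)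
    (hidx : Γ'.relIndex Γ ≠ 0) : IsLatticeOf n W Γ' := by
  refine ⟨hle.trans h.1, h.2.finiteIndex (fun x hx => hle hx) ?_⟩
  rw [Subgroup.relIndex_subgroupOf h.1]
  exact hidx

/-- the infinitesimal vertical translation -/
noncomputable def Nq (q : Fin (n + 1) → ℂ) : Matrix (Fin (n + 1)) (Fin (n + 1)) ℂ :=
  Complex.I • rk q q

theorem coe_T_vert {q : Fin (n + 1) → ℂ} (hqq : herm q q = 0)
    (h0 : herm (0 : Fin (n + 1) → ℂ) q = 0) (r : ℂ) :
    ((T q 0 r hqq h0 : SpecialLinearGroup (Fin (n + 1)) ℂ) :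
      Matrix (Fin (n + 1)) (Fin (n + 1)) ℂ) = 1 + r • rk q q := by
  apply Matrix.ext_iff_mulVec.2
  intro v
  have h1 := act_T (θ := r) hqq h0 v
  have h2 : ((T q 0 r hqq h0 : SpecialLinearGroup (Fin (n + 1)) ℂ) :
      Matrix (Fin (n + 1)) (Fin (n + 1)) ℂ) *ᵥ v = act (T q 0 r hqq h0) v := rfl
  rw [h2, h1, Matrix.add_mulVec, Matrix.one_mulVec, Matrix.smul_mulVec, rk_mulVec]
  simp [kap, smul_smul]

/-- Selberg's property for vertical translations: `γ_k / k → N_q`. -/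
theorem approx {W : Submodule ℂ (Fin (n + 1) → ℂ)}
    {Γ : Subgroup (SpecialLinearGroup (Fin (n + 1)) ℂ)} (h : IsLatticeOf n W Γ)
    {q : Fin (n + 1) → ℂ} (hq : q ∈ W) (hqq : herm q q = 0)
    {O : Set (Matrix (Fin (n + 1)) (Fin (n + 1)) ℂ × ℝ)} (hO : O ∈ 𝓝 (Nq q, (0 : ℝ))) (K : ℕ) :
    ∃ k ≥ K, 0 < k ∧ ∃ γ ∈ Γ,
      (((1 / k : ℝ)) • (γ : Matrix (Fin (n + 1)) (Fin (n + 1)) ℂ), (1 / k : ℝ)) ∈ O := by
  have h0 : herm (0 : Fin (n + 1) → ℂ) q = 0 := herm_zero_left q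
  have hgmem : T q 0 Complex.I hqq h0 ∈ suOf n W := by
    refine ⟨T_mem_SU hqq h0 (by simp), fun v hv => ?_⟩
    rw [act_T, hv q hq]
    simp
  -- the continuous map
  have hsc : SecondCountableTopology ↥(suOf n W) :=
    Topology.IsInducing.secondCountableTopology (f := fun x : ↥(suOf n W) => x.1)
      Topology.IsInducing.subtypeVal
  have hval : Continuous (fun x : ↥(suOf n W) =>
      ((x : SpecialLinearGroup (Fin (n + 1)) ℂ) : Matrix (Fin (n + 1)) (Fin (n + 1)) ℂ)) := by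
    have h1 : Continuous (fun x : ↥(suOf n W) => (x : SpecialLinearGroup (Fin (n + 1)) ℂ)) :=
      continuous_subtype_val
    have h2 : Continuous (fun x : SpecialLinearGroup (Fin (n + 1)) ℂ =>
      (x : Matrix (Fin (n + 1)) (Fin (n + 1)) ℂ)) := continuous_subtype_val
    exact h2.comp h1
  let Ψ : ↥(suOf n W) × ↥(suOf n W) × ℝ → Matrix (Fin (n + 1)) (Fin (n + 1)) ℂ × ℝ := fun p =>
    (((p.2.1⁻¹ : ↥(suOf n W)) : SpecialLinearGroup (Fin (n + 1)) ℂ).1 *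
      (p.2.2 • (1 : Matrix (Fin (n + 1)) (Fin (n + 1)) ℂ) + Nq q) *
        ((p.1 : ↥(suOf n W)) : SpecialLinearGroup (Fin (n + 1)) ℂ).1, p.2.2)
  have hΨ : Continuous Ψ := by
    refine Continuous.prodMk ?_ (by fun_prop)
    refine Continuous.matrix_mul (Continuous.matrix_mul ?_ ?_) ?_
    · have h1 : Continuous (fun p : ↥(suOf n W) × ↥(suOf n W) × ℝ => p.2.1⁻¹) :=
        continuous_inv.comp (continuous_fst.comp continuous_snd)
      exact hval.comp h1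
    · exact ((continuous_snd.comp continuous_snd).smul continuous_const).add continuous_const
    · have h1 : Continuous (fun p : ↥(suOf n W) × ↥(suOf n W) × ℝ => p.1) := continuous_fst
      exact hval.comp h1
  have hΨ0 : Ψ (1, 1, 0) = (Nq q, 0) := by
    simp only [Ψ, inv_one]
    rw [Prod.mk.injEq]
    refine ⟨?_, rfl⟩
    show (1 : Matrix (Fin (n + 1)) (Fin (n + 1)) ℂ) * (((0 : ℝ) • 1) + Nq q) * 1 = Nq q
    simp
  have hpre : Ψ ⁻¹' O ∈ 𝓝 ((1 : ↥(suOf n W)), (1 : ↥(suOf n W)), (0 : ℝ)) :=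
    hΨ.continuousAt.preimage_mem_nhds (by rw [hΨ0]; exact hO)
  obtain ⟨A, hA, B', hB', hAB⟩ := mem_nhds_prod_iff.1 hpre
  obtain ⟨B, hB, R, hR, hBR⟩ := mem_nhds_prod_iff.1 hB'
  obtain ⟨ε, hε, hball⟩ := Metric.mem_nhds_iff.1 hR
  obtain ⟨K', hK'⟩ := exists_nat_gt (1 / ε)
  obtain ⟨k, hk, v, hv, v', hv', hmem⟩ := selberg_abs h.2 ⟨_, hgmem⟩ (Filter.inter_mem hA hB)
    (max K (K' + 1))
  have hkK : K ≤ k := (le_max_left _ _).trans hk
  have hkK' : K' + 1 ≤ k := (le_max_right _ _).trans hk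
  have hk0 : 0 < k := lt_of_lt_of_le (Nat.succ_pos _) hkK'
  have hkr : (0 : ℝ) < k := by exact_mod_cast hk0
  refine ⟨k, hkK, hk0, _, hmem, ?_⟩
  have hs : (1 / k : ℝ) ∈ R := by
    apply hball
    rw [Metric.mem_ball, dist_zero_right, Real.norm_eq_abs, abs_of_pos (by positivity)]
    have h1 : (K' : ℝ) + 1 ≤ k := by exact_mod_cast hkK'
    have h2 : 1 / ε < k := by linarith
    rw [div_lt_iff₀ hkr]
    rw [div_lt_iff₀ hε] at h2
    linarith
  have hin : Ψ (v, v', (1 / k : ℝ)) ∈ O :=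
    hAB (Set.mk_mem_prod hv.1 (hBR (Set.mk_mem_prod hv'.2 hs)))
  convert hin using 1
  simp only [Ψ]
  rw [Prod.mk.injEq]
  refine ⟨?_, rfl⟩
  -- the matrix identity
  have hpow : (((⟨_, hgmem⟩ : suOf n W) ^ k : suOf n W) :
      SpecialLinearGroup (Fin (n + 1)) ℂ).1 =
      1 + ((k : ℂ) * Complex.I) • rk q q := by
    have h1 : (((⟨_, hgmem⟩ : suOf n W) ^ k : suOf n W) :
      SpecialLinearGroup (Fin (n + 1)) ℂ) = (T q 0 Complex.I hqq h0) ^ k := by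
      rw [SubmonoidClass.coe_pow]
    have h2 : herm ((k : ℂ) • (0 : Fin (n + 1) → ℂ)) q = 0 := by simp
    rw [h1, T_pow hqq h0 k h2]
    have h3 : T q ((k : ℂ) • (0 : Fin (n + 1) → ℂ)) ((k : ℂ) * Complex.I) hqq h2 =
        T q 0 ((k : ℂ) * Complex.I) hqq h0 := by
      apply ext_act
      intro v
      rw [act_T, act_T, smul_zero]
    rw [h3]
    exact coe_T_vert hqq h0 _
  show (1 / k : ℝ) • (((v'⁻¹ * (⟨_, hgmem⟩ : suOf n W) ^ k * v : suOf n W) :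
    SpecialLinearGroup (Fin (n + 1)) ℂ).1) = _
  have hmul : (((v'⁻¹ * (⟨_, hgmem⟩ : suOf n W) ^ k * v : suOf n W) :
      SpecialLinearGroup (Fin (n + 1)) ℂ).1) =
      ((v'⁻¹ : suOf n W) : SpecialLinearGroup (Fin (n + 1)) ℂ).1 *
      (((⟨_, hgmem⟩ : suOf n W) ^ k : suOf n W) : SpecialLinearGroup (Fin (n + 1)) ℂ).1 *
        ((v : suOf n W) : SpecialLinearGroup (Fin (n + 1)) ℂ).1 := rfl
  rw [hmul, hpow, ← Matrix.smul_mul, ← Matrix.mul_smul]
  congr 2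
  rw [smul_add, Nq, ← smul_assoc]
  congr 2
  rw [Complex.real_smul]
  push_cast
  have hkc : (k : ℂ) ≠ 0 := by exact_mod_cast hk0.ne'
  field_simp

/-- Lattices are unbounded. -/
theorem unbdd_of_lattice {W : Submodule ℂ (Fin (n + 1) → ℂ)}
    {Γ : Subgroup (SpecialLinearGroup (Fin (n + 1)) ℂ)} (h : IsLatticeOf n W Γ)
    {q : Fin (n + 1) → ℂ} (hq : q ∈ W) (hq0 : q ≠ 0) (hqq : herm q q = 0) : Unbdd Γ := by
  intro C
  -- a nonzero entry
  obtain ⟨a, b, hab⟩ : ∃ a b, Nq q a b ≠ 0 := by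
    by_contra hcon
    push Not at hcon
    have h1 : Nq q = 0 := by ext a b; exact hcon a b
    obtain ⟨v, hv⟩ : ∃ v, herm q v ≠ 0 := by
      by_contra hcon
      push Not at hcon
      exact hq0 (herm_nondeg hcon)
    have h2 : Nq q *ᵥ v = 0 := by rw [h1, Matrix.zero_mulVec]
    rw [Nq, Matrix.smul_mulVec, rk_mulVec] at h2
    rcases smul_eq_zero.1 h2 with h3 | h3
    · exact Complex.I_ne_zero h3
    · rcases smul_eq_zero.1 h3 with h4 | h4
      · exact hv (herm_conj_zero h4)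
      · exact hq0 h4
  by_contra hcon
  push Not at hcon
  set c := ‖Nq q a b‖ with hc
  have hcpos : 0 < c := norm_pos_iff.2 hab
  have hO : {M : Matrix (Fin (n + 1)) (Fin (n + 1)) ℂ × ℝ | c / 2 < ‖M.1 a b‖ ∧
      |M.2| * (|C| + 1) < c / 2} ∈ 𝓝 (Nq q, (0 : ℝ)) := by
    apply IsOpen.mem_nhds
    · apply IsOpen.inter
      · exact isOpen_lt continuous_const
          ((continuous_apply_apply a b).comp continuous_fst).norm
      · exact isOpen_lt (continuous_snd.abs.mul continuous_const) continuous_const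
    · refine ⟨?_, ?_⟩
      · show c / 2 < ‖Nq q a b‖
        rw [← hc]; linarith
      · show |(0 : ℝ)| * (|C| + 1) < c / 2
        rw [abs_zero, zero_mul]; positivity
  obtain ⟨k, -, hk0, γ, hγ, hM1, hM2⟩ := approx h hq hqq hO 0
  have hkr : (0 : ℝ) < k := by exact_mod_cast hk0
  have h1 := hcon γ hγ a b
  have h2 : c / 2 < ‖((1 / k : ℝ) • (γ : Matrix (Fin (n + 1)) (Fin (n + 1)) ℂ)) a b‖ := hM1
  have h3 : |(1 / k : ℝ)| * (|C| + 1) < c / 2 := hM2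
  rw [Matrix.smul_apply, norm_smul, Real.norm_eq_abs] at h2
  have h4 : ‖(γ : Matrix (Fin (n + 1)) (Fin (n + 1)) ℂ) a b‖ ≤ |C| + 1 :=
    h1.trans ((le_abs_self C).trans (by linarith))
  have h5 : |(1 / k : ℝ)| * ‖(γ : Matrix (Fin (n + 1)) (Fin (n + 1)) ℂ) a b‖ ≤
      |(1 / k : ℝ)| * (|C| + 1) := mul_le_mul_of_nonneg_left h4 (abs_nonneg _)
  linarith

/-- The real span of `γ - 1` -/
noncomputable def spanR (Γ : Subgroup (SpecialLinearGroup (Fin (n + 1)) ℂ)) :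
    Submodule ℝ (Matrix (Fin (n + 1)) (Fin (n + 1)) ℂ) :=
  Submodule.span ℝ {B : Matrix (Fin (n + 1)) (Fin (n + 1)) ℂ |
      ∃ γ ∈ Γ, B = (γ : Matrix (Fin (n + 1)) (Fin (n + 1)) ℂ) - 1}

theorem Nq_mem {W : Submodule ℂ (Fin (n + 1) → ℂ)}
    {Γ : Subgroup (SpecialLinearGroup (Fin (n + 1)) ℂ)} (h : IsLatticeOf n W Γ)
    {q : Fin (n + 1) → ℂ} (hq : q ∈ W) (hqq : herm q q = 0) : Nq q ∈ spanR Γ := by
  have hclosed : IsClosed (spanR Γ : Set (Matrix (Fin (n + 1)) (Fin (n + 1)) ℂ)) :=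
    (spanR Γ).closed_of_finiteDimensional
  by_contra hcon
  have hopen : IsOpen ((fun M : Matrix (Fin (n + 1)) (Fin (n + 1)) ℂ × ℝ =>
      M.1 - M.2 • (1 : Matrix (Fin (n + 1)) (Fin (n + 1)) ℂ)) ⁻¹'
        ((spanR Γ : Set (Matrix (Fin (n + 1)) (Fin (n + 1)) ℂ))ᶜ)) :=
    hclosed.isOpen_compl.preimage (by fun_prop)
  have hO := hopen.mem_nhds (x := (Nq q, (0 : ℝ))) (by
    show Nq q - (0 : ℝ) • (1 : Matrix (Fin (n + 1)) (Fin (n + 1)) ℂ) ∉ spanR Γ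
    rw [zero_smul, sub_zero]; exact hcon)
  obtain ⟨k, -, hk0, γ, hγ, hM⟩ := approx h hq hqq hO 0
  apply hM
  show (1 / k : ℝ) • (γ : Matrix (Fin (n + 1)) (Fin (n + 1)) ℂ) -
    (1 / k : ℝ) • (1 : Matrix (Fin (n + 1)) (Fin (n + 1)) ℂ) ∈ spanR Γ
  rw [← smul_sub]
  exact Submodule.smul_mem _ _ (Submodule.subset_span ⟨γ, hγ, rfl⟩)

theorem spanR_mul {Γ : Subgroup (SpecialLinearGroup (Fin (n + 1)) ℂ)}
    {A B : Matrix (Fin (n + 1)) (Fin (n + 1)) ℂ} (hA : A ∈ spanR Γ) (hB : B ∈ spanR Γ) :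
    A * B ∈ spanR Γ := by
  have key : ∀ γ ∈ Γ, ∀ B ∈ spanR Γ,
      ((γ : Matrix (Fin (n + 1)) (Fin (n + 1)) ℂ) - 1) * B ∈ spanR Γ := by
    intro γ hγ B hB
    induction hB using Submodule.span_induction with
    | mem B hB =>
      obtain ⟨γ', hγ', rfl⟩ := hB
      have e : ((γ : Matrix (Fin (n + 1)) (Fin (n + 1)) ℂ) - 1) *
          ((γ' : Matrix (Fin (n + 1)) (Fin (n + 1)) ℂ) - 1) =
          (((γ * γ' : SpecialLinearGroup (Fin (n + 1)) ℂ) :
            Matrix (Fin (n + 1)) (Fin (n + 1)) ℂ) - 1) -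
          ((γ : Matrix (Fin (n + 1)) (Fin (n + 1)) ℂ) - 1) -
          ((γ' : Matrix (Fin (n + 1)) (Fin (n + 1)) ℂ) - 1) := by
        have e1 : ((γ * γ' : SpecialLinearGroup (Fin (n + 1)) ℂ) :
            Matrix (Fin (n + 1)) (Fin (n + 1)) ℂ) =
            (γ : Matrix (Fin (n + 1)) (Fin (n + 1)) ℂ) * (γ' : Matrix _ _ ℂ) := rfl
        rw [e1, Matrix.sub_mul, Matrix.mul_sub, Matrix.mul_one, Matrix.one_mul]
        abel
      rw [e]
      exact Submodule.sub_mem _ (Submodule.sub_mem _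
        (Submodule.subset_span ⟨_, Γ.mul_mem hγ hγ', rfl⟩)
        (Submodule.subset_span ⟨_, hγ, rfl⟩)) (Submodule.subset_span ⟨_, hγ', rfl⟩)
    | zero => rw [Matrix.mul_zero]; exact Submodule.zero_mem _
    | add x y _ _ hx hy => rw [Matrix.mul_add]; exact Submodule.add_mem _ hx hy
    | smul r x _ hx => rw [Matrix.mul_smul]; exact Submodule.smul_mem _ _ hx
  induction hA using Submodule.span_induction with
  | mem A hA =>
    obtain ⟨γ, hγ, rfl⟩ := hA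
    exact key γ hγ B hB
  | zero => rw [Matrix.zero_mul]; exact Submodule.zero_mem _
  | add x y _ _ hx hy => rw [Matrix.add_mul]; exact Submodule.add_mem _ hx hy
  | smul r x _ hx => rw [Matrix.smul_mul]; exact Submodule.smul_mem _ _ hx

end Pool.Agent.Q107.Hunt
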