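import Pool.Agent.Q107.Hunt.Asm

/-! # Orthogonal hybrids: the main theorem -/

namespace Pool.Agent.Q107.Hunt

open Matrix ComplexConjugate

variable {n : ℕ}

theorem pres_of_stab {E : IntermediateField ℚ ℂ} (hfin : FiniteDimensional ℚ E)
    {W : Submodule ℂ (Fin (n + 1) → ℂ)} {X : Submodule E (Fin (n + 1) → ℂ)}
    {Λ : AddSubgroup (Fin (n + 1) → ℂ)} (h : IsLat E X Λ)
    {g : SpecialLinearGroup (Fin (n + 1)) ℂ} (hg : g ∈ stab n W Λ) : ∀ x ∈ X, act g x ∈ X := by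
  intro x hx
  obtain ⟨k, hk, hkx⟩ := g_nsmul_mem hfin h hx
  have hk0 : (k : ℂ) ≠ 0 := by exact_mod_cast hk.ne'
  have h1 := (hg.2 _).1 hkx
  rw [act_smul] at h1
  have h2 : (k : ℂ) • act g x ∈ X := h.2.2 ▸ Submodule.subset_span h1
  have h3 := smul_mem_E (E.inv_mem (natCast_mem E k)) h2
  rwa [smul_smul, inv_mul_cancel₀ hk0, one_smul] at h3

theorem main2 {E₁ E₂ : IntermediateField ℚ ℂ}
    {W₁ W₂ : Submodule ℂ (Fin (n + 1) → ℂ)}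
    {X₁ : Submodule E₁ (Fin (n + 1) → ℂ)} {X₂ : Submodule E₂ (Fin (n + 1) → ℂ)}
    {Γ₁ Γ₂ Γ₃ : Subgroup (SpecialLinearGroup (Fin (n + 1)) ℂ)}
    (hW₁ : Module.finrank ℂ W₁ = n) (hW₂ : Module.finrank ℂ W₂ = n)
    (horth : ∀ u₁ u₂ : Fin (n + 1) → ℂ, (∀ w ∈ W₁, herm u₁ w = 0) →
      (∀ w ∈ W₂, herm u₂ w = 0) → herm u₁ u₂ = 0)
    (h₁ : IsArithFK n E₁ W₁ X₁ Γ₁) (h₂ : IsArithFK n E₂ W₂ X₂ Γ₂)
    (h₃₁ : Γ₃ ≤ Γ₁) (h₃₂ : Γ₃ ≤ Γ₂) (h₃ : Ample n (W₁ ⊓ W₂) Γ₃) :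
    E₁ = E₂ ∧ ∃ (X : Submodule E₁ (Fin (n + 1) → ℂ))
      (Δ : Subgroup (SpecialLinearGroup (Fin (n + 1)) ℂ)), IsArithFK n E₁ ⊤ X Δ ∧
        Δ.relIndex Γ₁ ≠ 0 ∧ Δ.relIndex Γ₂ ≠ 0 ∧
        ((∀ g ∈ Γ₁, Pres g (X₁ : Set (Fin (n + 1) → ℂ))) →
          (∀ g ∈ Γ₂, Pres g (X₂ : Set (Fin (n + 1) → ℂ))) →
          ∀ g ∈ Γ₁ ⊔ Γ₂, Pres g (X : Set (Fin (n + 1) → ℂ))) := by
  obtain ⟨u₁, hu₁, hu₁'⟩ := exists_normal hW₁ h₁.2.1.1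
  obtain ⟨u₂, hu₂, hu₂'⟩ := exists_normal hW₂ h₂.2.1.1
  have hu₁₂ : herm u₁ u₂ = 0 := horth u₁ u₂ (fun w hw => herm_conj_zero ((hu₁' w).1 hw))
    (fun w hw => herm_conj_zero ((hu₂' w).1 hw))
  have hu₂W₁ : u₂ ∈ W₁ := (hu₁' u₂).2 (herm_conj_zero hu₁₂)
  have hu₁W₂ : u₁ ∈ W₂ := (hu₂' u₁).2 hu₁₂
  have hne : W₁ ≠ W₂ := by
    intro h; rw [h, hu₂'] at hu₂W₁; exact hu₂ hu₂W₁
  have hsup := sup_eq_top hW₁ hW₂ hne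
  -- nondegeneracy of the intersection
  have hnd₃ : ∀ v ∈ W₁ ⊓ W₂, (∀ w ∈ W₁ ⊓ W₂, herm v w = 0) → v = 0 := by
    intro v hv hvw
    refine h₁.2.1.1 v hv.1 fun w hw => ?_
    have h1 : w - (herm w u₂ / herm u₂ u₂) • u₂ ∈ W₁ ⊓ W₂ := by
      refine ⟨W₁.sub_mem hw (W₁.smul_mem _ hu₂W₁), ?_⟩
      show w - (herm w u₂ / herm u₂ u₂) • u₂ ∈ W₂
      rw [hu₂', herm_sub_left, herm_smul_left, div_mul_cancel₀ _ hu₂, sub_self]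
    have h2 := hvw _ h1
    rwa [herm_sub_right, herm_smul_right, (hu₂' v).1 hv.2, mul_zero, sub_zero] at h2
  -- the projection
  set P : (Fin (n + 1) → ℂ) → (Fin (n + 1) → ℂ) :=
    fun v => v - (herm v u₁ / herm u₁ u₁) • u₁ - (herm v u₂ / herm u₂ u₂) • u₂ with hPdef
  have hP : ∀ v, P v ∈ W₁ ⊓ W₂ := by
    intro v
    constructor
    · show v - (herm v u₁ / herm u₁ u₁) • u₁ - (herm v u₂ / herm u₂ u₂) • u₂ ∈ W₁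
      rw [hu₁', herm_sub_left, herm_sub_left, herm_smul_left, herm_smul_left,
        div_mul_cancel₀ _ hu₁, herm_conj_zero hu₁₂, mul_zero, sub_self, sub_zero]
    · show v - (herm v u₁ / herm u₁ u₁) • u₁ - (herm v u₂ / herm u₂ u₂) • u₂ ∈ W₂
      rw [hu₂', herm_sub_left, herm_sub_left, herm_smul_left, herm_smul_left,
        div_mul_cancel₀ _ hu₂, hu₁₂, mul_zero, sub_zero, sub_self]
  have hP' : ∀ v, ∀ w ∈ W₁ ⊓ W₂, herm (v - P v) w = 0 := by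
    intro v w hw
    have e : v - P v = (herm v u₁ / herm u₁ u₁) • u₁ + (herm v u₂ / herm u₂ u₂) • u₂ := by
      simp only [hPdef]; abel
    rw [e, herm_add_left, herm_smul_left, herm_smul_left, herm_conj_zero ((hu₁' w).1 hw.1),
      herm_conj_zero ((hu₂' w).1 hw.2), mul_zero, mul_zero, add_zero]
  obtain ⟨Λ₁, hΛ₁, hcomm₁⟩ := h₁.2.2.2
  obtain ⟨Λ₂, hΛ₂, hcomm₂⟩ := h₂.2.2.2
  set Γ' := Γ₃ ⊓ (stab n W₁ Λ₁ ⊓ stab n W₂ Λ₂) with hΓ'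
  have hidx : Γ'.relIndex Γ₃ ≠ 0 := by
    rw [hΓ', Subgroup.inf_relIndex_left]
    refine Subgroup.relIndex_inf_ne_zero ?_ ?_
    · intro h; exact hcomm₁.2 (Subgroup.relIndex_eq_zero_of_le_right h₃₁ h)
    · intro h; exact hcomm₂.2 (Subgroup.relIndex_eq_zero_of_le_right h₃₂ h)
  obtain ⟨hunb, hreal⟩ := h₃.2 Γ' inf_le_left hidx
  have hsu₃ : Γ' ≤ suOf n (W₁ ⊓ W₂) := inf_le_left.trans h₃.1
  have hsu₁ : Γ' ≤ suOf n W₁ := fun g hg => hg.2.1.1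
  have hsu₂ : Γ' ≤ suOf n W₂ := fun g hg => hg.2.2.1
  have hpres₁ : ∀ γ ∈ Γ', ∀ x ∈ X₁, act γ x ∈ X₁ := fun γ hγ =>
    pres_of_stab h₁.1.1 hΛ₁ hγ.2.1
  have hpres₂ : ∀ γ ∈ Γ', ∀ x ∈ X₂, act γ x ∈ X₂ := fun γ hγ =>
    pres_of_stab h₂.1.1 hΛ₂ hγ.2.2
  -- the intersection is not zero
  have hne₃ : ∃ w ∈ W₁ ⊓ W₂, w ≠ 0 := by
    by_contra hcon
    push Not at hcon
    obtain ⟨γ, hγ, i, j, hij⟩ := hunb 1
    have h1 : γ = 1 := by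
      apply ext_act
      intro v
      rw [act_one]
      refine (hsu₃ hγ).2 v fun w hw => ?_
      rw [hcon w hw, herm_zero_right]
    rw [h1] at hij
    have h2 : ((1 : SpecialLinearGroup (Fin (n + 1)) ℂ) :
        Matrix (Fin (n + 1)) (Fin (n + 1)) ℂ) i j = (1 : Matrix (Fin (n + 1)) (Fin (n + 1)) ℂ) i j :=
      rfl
    rw [h2, Matrix.one_apply] at hij
    split_ifs at hij <;> simp at hij <;> linarith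
  have hnr := exists_nonreal_trace hreal hnd₃ hne₃
  have hnb := not_trace_bounded hP hP' hsu₃ hunb hreal
  obtain ⟨hnd₁, hspan₁, s₁, hs₁0, hs₁, hdef₁⟩ := id h₁.2.1
  obtain ⟨hnd₂, hspan₂, s₂, hs₂0, hs₂, hdef₂⟩ := id h₂.2.1
  have htr₁ : ∀ γ ∈ Γ', (γ : Matrix (Fin (n + 1)) (Fin (n + 1)) ℂ).trace ∈ E₁ := fun γ hγ =>
    trace_mem h₁.1.2.2.1 h₁.1.2.1 hW₁ hnd₁ hspan₁ hs₁0 hs₁ (hsu₁ hγ) (hpres₁ γ hγ)
  have htr₂ : ∀ γ ∈ Γ', (γ : Matrix (Fin (n + 1)) (Fin (n + 1)) ℂ).trace ∈ E₂ := fun γ hγ =>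
    trace_mem h₂.1.2.2.1 h₂.1.2.1 hW₂ hnd₂ hspan₂ hs₂0 hs₂ (hsu₂ hγ) (hpres₂ γ hγ)
  have hE : E₁ = E₂ := le_antisymm
    (fields_le h₁.1 hW₁ h₁.2.1 hsu₁ hpres₁ htr₂ hnr hnb)
    (fields_le h₂.1 hW₂ h₂.2.1 hsu₂ hpres₂ htr₁ hnr hnb)
  subst hE
  refine ⟨rfl, ?_⟩
  obtain ⟨hfin, hnrE, hconj, hcommE⟩ := id h₁.1
  obtain ⟨B₁⟩ := exists_OBas hconj hnrE hnd₁ hspan₁ hs₁0 hs₁
  obtain ⟨B₂⟩ := exists_OBas hconj hnrE hnd₂ hspan₂ hs₂0 hs₂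
  obtain ⟨c₁, hc₁, hf₁⟩ := normal_rational B₁ hu₂ hu₂' hu₂W₁ hnd₃ hreal hsu₁ hsu₃ hpres₁
  obtain ⟨c₂, hc₂, hf₂⟩ := normal_rational B₂ hu₁ hu₁' hu₁W₂ (inf_comm W₁ W₂ ▸ hnd₃)
    (inf_comm W₁ W₂ ▸ hreal) hsu₂ (inf_comm W₁ W₂ ▸ hsu₃) hpres₂
  -- a nonzero vector of X₁ ∩ W₂
  obtain ⟨y₀, hy₀, hy₀W, hy₀0⟩ : ∃ y₀ ∈ X₁, y₀ ∈ W₂ ∧ y₀ ≠ 0 := by
    by_contra hcon
    push Not at hcon
    obtain ⟨w, hw, hw0⟩ := hne₃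
    have hs₁0' : (s₁ : ℂ) ≠ 0 := by exact_mod_cast hs₁0
    have hf₁f₁ : herm (c₁ • u₂) (c₁ • u₂) ≠ 0 := by
      rw [herm_smul_left, herm_smul_right]
      exact mul_ne_zero hc₁ (mul_ne_zero (by simpa using hc₁) hu₂)
    have key : ∀ v ∈ Submodule.span ℂ (X₁ : Set (Fin (n + 1) → ℂ)), ∃ c : ℂ, v = c • u₂ := by
      intro v hv
      induction hv using Submodule.span_induction with
      | mem x hx =>
        have he : herm x (c₁ • u₂) / herm (c₁ • u₂) (c₁ • u₂) ∈ E₁ := by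
          have h2 := E₁.div_mem (hs₁ _ hx _ hf₁) (hs₁ _ hf₁ _ hf₁)
          rwa [mul_div_mul_left _ _ hs₁0'] at h2
        have h3 := X₁.sub_mem hx (smul_mem_E he hf₁)
        have h4 := hcon _ h3 (by
          rw [hu₂']
          have h5 : herm (x - (herm x (c₁ • u₂) / herm (c₁ • u₂) (c₁ • u₂)) • (c₁ • u₂))
              (c₁ • u₂) = 0 := by
            rw [herm_sub_left, herm_smul_left, div_mul_cancel₀ _ hf₁f₁, sub_self]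
          rw [herm_smul_right] at h5
          rcases mul_eq_zero.1 h5 with h | h
          · exact absurd h (by simpa using hc₁)
          · exact h)
        refine ⟨(herm x (c₁ • u₂) / herm (c₁ • u₂) (c₁ • u₂)) * c₁, ?_⟩
        rw [← smul_smul]
        exact sub_eq_zero.1 h4
      | zero => exact ⟨0, by simp⟩
      | add x y _ _ hx hy =>
        obtain ⟨c, rfl⟩ := hx
        obtain ⟨d, rfl⟩ := hy
        exact ⟨c + d, by rw [add_smul]⟩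
      | smul a x _ hx =>
        obtain ⟨c, rfl⟩ := hx
        exact ⟨a * c, by rw [smul_smul]⟩
    obtain ⟨c, hc⟩ := key w (hspan₁ ▸ hw.1)
    have h6 := (hu₂' w).1 hw.2
    rw [hc, herm_smul_left] at h6
    rcases mul_eq_zero.1 h6 with h | h
    · rw [h, zero_smul] at hc; exact hw0 hc
    · exact hu₂ h
  obtain ⟨κ, hκ, hκY⟩ := schur B₁ B₂ hnd₃ hreal hsu₁ hsu₂ hpres₁ hpres₂ hy₀ hy₀W hy₀0
  -- rescale
  have g₁ := h₁.scale hκ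
  have hmem : ∀ x ∈ X₁, κ • x ∈ X₁.map (scaleE E₁ κ) := by
    intro x hx
    rw [mem_scale hκ, smul_smul, inv_mul_cancel₀ hκ, one_smul]
    exact hx
  have hf₁' : (κ * c₁) • u₂ ∈ X₁.map (scaleE E₁ κ) := by rw [← smul_smul]; exact hmem _ hf₁
  have hY : ∀ y ∈ X₁.map (scaleE E₁ κ), y ∈ W₂ → y ∈ X₂ := by
    intro y hy hyW
    have h3 := hκY _ ((mem_scale hκ).1 hy) (W₂.smul_mem _ hyW)
    rwa [smul_smul, mul_inv_cancel₀ hκ, one_smul] at h3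
  obtain ⟨hFK, s, hs0, hsX₁, hsX₂, hcross⟩ := assembly h₁.1 hu₁ hu₁' hu₂ hu₂' hu₁₂ hsup hnd₃
    g₁.2.1 h₂.2.1 (mul_ne_zero hκ hc₁) hc₂ hf₁' hf₂ hY (hmem _ hy₀) (W₂.smul_mem _ hy₀W)
    (smul_ne_zero hκ hy₀0)
  have hcross' : ∀ x ∈ X₂, ∀ y ∈ X₁.map (scaleE E₁ κ), (s : ℂ) * herm x y ∈ E₁ := by
    intro x hx y hy
    have := hconj _ (hcross y hy x hx)
    rwa [map_mul, conj_herm, Complex.conj_ofReal] at this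
  have hΛ₁' := hΛ₁.scale hκ
  have hcomm₁' : Subgroup.Commensurable Γ₁ (stab n W₁ (scaleL κ Λ₁)) := by
    rw [stab_scale hκ]; exact hcomm₁
  refine ⟨X₁.map (scaleE E₁ κ) ⊔ X₂, stab n ⊤ (scaleL κ Λ₁ ⊔ Λ₂), ?_, ?_, ?_, ?_⟩
  · exact ⟨h₁.1, hFK, fun g hg => hg.1, scaleL κ Λ₁ ⊔ Λ₂, hΛ₁'.sup hΛ₂,
      Subgroup.Commensurable.refl _⟩
  · exact g_lattice_part hfin hconj hnrE hu₁ hu₁' hnd₁ g₁.2.1.2.1 hs0 hsX₁ hcross hΛ₁' hΛ₂ hcomm₁'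
  · rw [sup_comm (scaleL κ Λ₁) Λ₂]
    exact g_lattice_part hfin hconj hnrE hu₂ hu₂' hnd₂ hspan₂ hs0 hsX₂ hcross' hΛ₂ hΛ₁' hcomm₂
  · intro hX₁ hX₂ g hg
    rw [← presSub_mem]
    refine (sup_le ?_ ?_ : Γ₁ ⊔ Γ₂ ≤ presSub _) hg
    · intro g hg
      exact g_pres_sup hconj hnrE hu₁ hu₁' hnd₁ g₁.2.1.2.1 hs0 hsX₁ hcross (h₁.2.2.1 hg)
        (pres_scale hκ (hX₁ g hg))
    · intro g hg
      rw [presSub_mem, sup_comm]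
      exact g_pres_sup hconj hnrE hu₂ hu₂' hnd₂ hspan₂ hs0 hsX₂ hcross' (h₂.2.2.1 hg) (hX₂ g hg)

end Pool.Agent.Q107.Hunt
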