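import Pool.Agent.Q107.Hunt.Dens
import Pool.Agent.Q107.Hunt.Main2

/-! # Lattices of `SU(W)` span `End(W)` over the reals -/

namespace Pool.Agent.Q107.Hunt

open Matrix ComplexConjugate MeasureTheory Topology

variable {n : ℕ}

theorem rk_mul_rk (w z w' z' : Fin (n + 1) → ℂ) :
    rk w z * rk w' z' = herm w' z • rk w z' := by
  apply Matrix.ext_iff_mulVec.2
  intro v
  rw [← mulVec_mulVec, rk_mulVec, rk_mulVec, herm_smul_left, Matrix.smul_mulVec, rk_mulVec,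
    smul_smul, mul_comm]

theorem rk_add_left (w w' z : Fin (n + 1) → ℂ) : rk (w + w') z = rk w z + rk w' z := by
  apply Matrix.ext_iff_mulVec.2
  intro v
  rw [Matrix.add_mulVec, rk_mulVec, rk_mulVec, rk_mulVec, smul_add]

theorem rk_smul_left (c : ℂ) (w z : Fin (n + 1) → ℂ) : rk (c • w) z = c • rk w z := by
  apply Matrix.ext_iff_mulVec.2
  intro v
  rw [Matrix.smul_mulVec, rk_mulVec, rk_mulVec, smul_smul, smul_smul, mul_comm]

theorem rk_add_right (w z z' : Fin (n + 1) → ℂ) : rk w (z + z') = rk w z + rk w z' := by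
  apply Matrix.ext_iff_mulVec.2
  intro v
  rw [Matrix.add_mulVec, rk_mulVec, rk_mulVec, rk_mulVec, herm_add_right, add_smul]

theorem rk_smul_right (c : ℂ) (w z : Fin (n + 1) → ℂ) : rk w (c • z) = conj c • rk w z := by
  apply Matrix.ext_iff_mulVec.2
  intro v
  rw [Matrix.smul_mulVec, rk_mulVec, rk_mulVec, herm_smul_right, smul_smul]

theorem rk_zero_left (z : Fin (n + 1) → ℂ) : rk 0 z = 0 := by
  have := rk_smul_left 0 0 z
  simpa using this

theorem rk_zero_right (w : Fin (n + 1) → ℂ) : rk w 0 = 0 := by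
  have := rk_smul_right 0 w 0
  simpa using this

theorem herm_self_conj (z : Fin (n + 1) → ℂ) : conj (herm z z) = herm z z := conj_herm z z

theorem herm_self_re (z : Fin (n + 1) → ℂ) : herm z z = ((herm z z).re : ℂ) :=
  (Complex.conj_eq_iff_re.1 (herm_self_conj z)).symm

/-- the third isotropic vector -/
theorem third_iso {q q' z : Fin (n + 1) → ℂ} (hqq : herm q q = 0) (hqq' : herm q' q' = 0)
    (ha : herm q q' ≠ 0) (hzq : herm z q = 0) (hzq' : herm z q' = 0) :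
    herm (q - (herm z z / (2 * herm q' q)) • q' + z)
      (q - (herm z z / (2 * herm q' q)) • q' + z) = 0 := by
  have ha' : herm q' q ≠ 0 := fun h => ha (herm_conj_zero h)
  have h1 : herm q z = 0 := herm_conj_zero hzq
  have h2 : herm q' z = 0 := herm_conj_zero hzq'
  simp only [herm_add_left, herm_add_right, herm_sub_left, herm_sub_right, herm_smul_left,
    herm_smul_right, hqq, hqq', hzq, hzq', h1, h2, map_div₀, map_mul, herm_self_conj, conj_herm,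
    map_ofNat]
  field_simp
  ring

theorem off_mem {L : Submodule ℝ (Matrix (Fin (n + 1)) (Fin (n + 1)) ℂ)}
    (hmul : ∀ A ∈ L, ∀ B ∈ L, A * B ∈ L) {W : Submodule ℂ (Fin (n + 1) → ℂ)}
    (hN : ∀ q ∈ W, herm q q = 0 → Nq q ∈ L) {q q' z : Fin (n + 1) → ℂ} (hq : q ∈ W)
    (hq' : q' ∈ W) (hz : z ∈ W) (hqq : herm q q = 0) (hqq' : herm q' q' = 0)
    (ha : herm q q' ≠ 0) (hzq : herm z q = 0) (hzq' : herm z q' = 0) (hzz : herm z z ≠ 0)
    (c : ℂ) : c • rk q q' ∈ L := by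
  have ha' : herm q' q ≠ 0 := fun h => ha (herm_conj_zero h)
  have hI := Complex.I_mul_I
  have h1 := hmul _ (hN q hq hqq) _ (hN q' hq' hqq')
  have e1 : Nq q * Nq q' = (-herm q' q) • rk q q' := by
    rw [Nq, Nq, Matrix.smul_mul, Matrix.mul_smul, rk_mul_rk, smul_smul, smul_smul, hI]
    congr 1; ring
  set q'' := q - (herm z z / (2 * herm q' q)) • q' + z with hq''
  have hq''W : q'' ∈ W := W.add_mem (W.sub_mem hq (W.smul_mem _ hq')) hz
  have hq''q'' : herm q'' q'' = 0 := third_iso hqq hqq' ha hzq hzq'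
  have h2 := hmul _ (hmul _ (hN q hq hqq) _ (hN q'' hq''W hq''q'')) _ (hN q' hq' hqq')
  have f1 : herm q'' q = -(herm z z / 2) := by
    rw [hq'', herm_add_left, herm_sub_left, herm_smul_left, hqq, hzq]
    field_simp
    ring
  have f2 : herm q' q'' = herm q' q := by
    rw [hq'', herm_add_right, herm_sub_right, herm_smul_right, hqq', herm_conj_zero hzq']
    ring
  have e2 : Nq q * Nq q'' * Nq q' = (Complex.I * (herm z z / 2) * herm q' q) • rk q q' := by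
    have e3 : Nq q * Nq q'' = (herm z z / 2) • rk q q'' := by
      rw [Nq, Nq, Matrix.smul_mul, Matrix.mul_smul, rk_mul_rk, smul_smul, smul_smul, hI, f1]
      congr 1; ring
    rw [e3, Nq, Matrix.smul_mul, Matrix.mul_smul, rk_mul_rk, smul_smul, smul_smul, f2]
    congr 1; ring
  rw [e1] at h1
  rw [e2] at h2
  set t := (herm z z).re with ht
  have htt : herm z z = (t : ℂ) := herm_self_re z
  have ht0 : t ≠ 0 := by
    intro h; apply hzz; rw [htt, h]; simp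
  have ht0' : (t : ℂ) ≠ 0 := by exact_mod_cast ht0
  set d := c / herm q' q with hd
  have h3 := L.add_mem (L.smul_mem (-d.re) h1) (L.smul_mem (2 * d.im / t) h2)
  convert h3 using 1
  rw [← smul_assoc, ← smul_assoc, ← add_smul]
  congr 1
  rw [Complex.real_smul, Complex.real_smul, htt]
  have hc : c = d * herm q' q := by rw [hd, div_mul_cancel₀ _ ha']
  rw [hc]
  conv_lhs => rw [← Complex.re_add_im d]
  push_cast
  field_simp

/-- partners of an isotropic vector -/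
theorem exists_partner {W : Submodule ℂ (Fin (n + 1) → ℂ)}
    (hnd : ∀ v ∈ W, (∀ w ∈ W, herm v w = 0) → v = 0) {q : Fin (n + 1) → ℂ} (hq : q ∈ W)
    (hq0 : q ≠ 0) (hqq : herm q q = 0) :
    ∃ q' ∈ W, herm q' q' = 0 ∧ herm q q' ≠ 0 := by
  obtain ⟨w, hw, hwq⟩ : ∃ w ∈ W, herm q w ≠ 0 := by
    by_contra hcon
    push Not at hcon
    exact hq0 (hnd q hq hcon)
  have hwq' : herm w q ≠ 0 := fun h => hwq (herm_conj_zero h)
  refine ⟨w - (herm w w / (2 * herm q w)) • q, W.sub_mem hw (W.smul_mem _ hq), ?_, ?_⟩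
  · simp only [herm_sub_left, herm_sub_right, herm_smul_left, herm_smul_right, hqq, map_div₀,
      map_mul, herm_self_conj, conj_herm, map_ofNat]
    field_simp
    ring
  · rw [herm_sub_right, herm_smul_right, hqq, mul_zero, sub_zero]; exact hwq

theorem exists_third {W : Submodule ℂ (Fin (n + 1) → ℂ)} (hW : 3 ≤ Module.finrank ℂ W)
    {q q' : Fin (n + 1) → ℂ} (hq : q ∈ W) (hq' : q' ∈ W) (hqq : herm q q = 0)
    (ha : herm q q' ≠ 0) :
    ∃ z ∈ W, herm z q = 0 ∧ herm z q' = 0 ∧ herm z z ≠ 0 := by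
  have ha' : herm q' q ≠ 0 := fun h => ha (herm_conj_zero h)
  have hq0 : q ≠ 0 := by rintro rfl; simp at ha
  by_contra hcon
  push Not at hcon
  have h2 : Module.finrank ℂ W ≤ 2 := by
    refine finrank_le_two (p := q) (q := q') hq' ha' fun w hw hwq => ?_
    -- w - (h(w,q')/h(q,q')) q is orthogonal to both
    set z := w - (herm w q' / herm q q') • q with hz
    have hz1 : herm z q = 0 := by
      rw [hz, herm_sub_left, herm_smul_left, hwq, hqq, mul_zero, sub_zero]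
    have hz2 : herm z q' = 0 := by
      rw [hz, herm_sub_left, herm_smul_left, div_mul_cancel₀ _ ha, sub_self]
    have hz3 := hcon z (W.sub_mem hw (W.smul_mem _ hq)) hz1 hz2
    obtain ⟨c, hc⟩ := iso_perp hq0 hqq hz1 hz3
    refine ⟨c + herm w q' / herm q q', ?_⟩
    rw [add_smul, ← hc, hz]; abel
  omega

/-- the isotropic vectors of `W` span `W` -/
theorem iso_span {W : Submodule ℂ (Fin (n + 1) → ℂ)}
    (hnd : ∀ v ∈ W, (∀ w ∈ W, herm v w = 0) → v = 0) {q : Fin (n + 1) → ℂ} (hq : q ∈ W)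
    (hq0 : q ≠ 0) (hqq : herm q q = 0) {w : Fin (n + 1) → ℂ} (hw : w ∈ W) :
    w ∈ Submodule.span ℂ {r : Fin (n + 1) → ℂ | r ∈ W ∧ herm r r = 0} := by
  obtain ⟨q', hq', hqq', ha⟩ := exists_partner hnd hq hq0 hqq
  have ha' : herm q' q ≠ 0 := fun h => ha (herm_conj_zero h)
  set z := w - (herm w q' / herm q q') • q - (herm w q / herm q' q) • q' with hz
  have hz1 : herm z q = 0 := by
    rw [hz, herm_sub_left, herm_sub_left, herm_smul_left, herm_smul_left, hqq,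
      div_mul_cancel₀ _ ha']; ring
  have hz2 : herm z q' = 0 := by
    rw [hz, herm_sub_left, herm_sub_left, herm_smul_left, herm_smul_left, hqq',
      div_mul_cancel₀ _ ha]; ring
  have hzW : z ∈ W := W.sub_mem (W.sub_mem hw (W.smul_mem _ hq)) (W.smul_mem _ hq')
  have h3 := third_iso hqq hqq' ha hz1 hz2
  set q'' := q - (herm z z / (2 * herm q' q)) • q' + z with hq''
  have hq''W : q'' ∈ W := W.add_mem (W.sub_mem hq (W.smul_mem _ hq')) hzW
  have m1 := Submodule.subset_span (R := ℂ) (s := {r : Fin (n + 1) → ℂ | r ∈ W ∧ herm r r = 0})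
    ⟨hq, hqq⟩
  have m2 := Submodule.subset_span (R := ℂ) (s := {r : Fin (n + 1) → ℂ | r ∈ W ∧ herm r r = 0})
    ⟨hq', hqq'⟩
  have m3 := Submodule.subset_span (R := ℂ) (s := {r : Fin (n + 1) → ℂ | r ∈ W ∧ herm r r = 0})
    ⟨hq''W, h3⟩
  have e : w = (q'' - q + (herm z z / (2 * herm q' q)) • q') + (herm w q' / herm q q') • q +
      (herm w q / herm q' q) • q' := by
    have : q'' - q + (herm z z / (2 * herm q' q)) • q' = z := by rw [hq'']; abel
    rw [this, hz]; abel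
  rw [e]
  exact Submodule.add_mem _ (Submodule.add_mem _ (Submodule.add_mem _ (Submodule.sub_mem _ m3 m1)
    (Submodule.smul_mem _ _ m2)) (Submodule.smul_mem _ _ m1)) (Submodule.smul_mem _ _ m2)

theorem iso_rk_mem {L : Submodule ℝ (Matrix (Fin (n + 1)) (Fin (n + 1)) ℂ)}
    (hmul : ∀ A ∈ L, ∀ B ∈ L, A * B ∈ L) {W : Submodule ℂ (Fin (n + 1) → ℂ)}
    (hnd : ∀ v ∈ W, (∀ w ∈ W, herm v w = 0) → v = 0) (hW : 3 ≤ Module.finrank ℂ W)
    (hN : ∀ q ∈ W, herm q q = 0 → Nq q ∈ L) {r q' : Fin (n + 1) → ℂ} (hr : r ∈ W)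
    (hq' : q' ∈ W) (hrr : herm r r = 0) (hqq' : herm q' q' = 0) (c : ℂ) : c • rk r q' ∈ L := by
  by_cases hq0 : q' = 0
  · rw [hq0, rk_zero_right, smul_zero]; exact L.zero_mem
  by_cases hrq : herm r q' = 0
  · obtain ⟨b, hb⟩ := iso_perp hq0 hqq' hrq hrr
    by_cases hb0 : b = 0
    · rw [hb, hb0, zero_smul, rk_zero_left, smul_zero]; exact L.zero_mem
    obtain ⟨q, hq, hqq, ha⟩ := exists_partner hnd hq' hq0 hqq'
    have ha' : herm q q' ≠ 0 := fun h => ha (herm_conj_zero h)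
    obtain ⟨z, hz, hzq, hzq', hzz⟩ := exists_third hW hq hq' hqq ha'
    have hqr : herm q r ≠ 0 := by
      rw [hb, herm_smul_right]
      exact mul_ne_zero (by simpa using hb0) ha'
    have h1 := hmul _ (hN r hr hrr) _
      (off_mem hmul hN hq hq' hz hqq hqq' ha' hzq hzq' hzz (c / (Complex.I * herm q r)))
    convert h1 using 1
    rw [Nq, Matrix.smul_mul, Matrix.mul_smul, rk_mul_rk, smul_smul, smul_smul]
    congr 1
    have := Complex.I_ne_zero
    field_simp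
  · obtain ⟨z, hz, hzq, hzq', hzz⟩ := exists_third hW hr hq' hrr hrq
    exact off_mem hmul hN hr hq' hz hrr hqq' hrq hzq hzq' hzz c

theorem rk_mem {L : Submodule ℝ (Matrix (Fin (n + 1)) (Fin (n + 1)) ℂ)}
    (hmul : ∀ A ∈ L, ∀ B ∈ L, A * B ∈ L) {W : Submodule ℂ (Fin (n + 1) → ℂ)}
    (hnd : ∀ v ∈ W, (∀ w ∈ W, herm v w = 0) → v = 0) (hW : 3 ≤ Module.finrank ℂ W)
    (hN : ∀ q ∈ W, herm q q = 0 → Nq q ∈ L) {p : Fin (n + 1) → ℂ} (hp : p ∈ W) (hp0 : p ≠ 0)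
    (hpp : herm p p = 0) {w z : Fin (n + 1) → ℂ} (hw : w ∈ W) (hz : z ∈ W) (c : ℂ) :
    c • rk w z ∈ L := by
  have hw' := iso_span hnd hp hp0 hpp hw
  have hz' := iso_span hnd hp hp0 hpp hz
  clear hw hz
  revert c
  induction hw' using Submodule.span_induction with
  | mem r hr =>
    induction hz' using Submodule.span_induction with
    | mem r' hr' => exact fun c => iso_rk_mem hmul hnd hW hN hr.1 hr'.1 hr.2 hr'.2 c
    | zero => intro c; rw [rk_zero_right, smul_zero]; exact L.zero_mem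
    | add x y _ _ hx hy =>
      intro c
      rw [rk_add_right, smul_add]
      exact L.add_mem (hx c) (hy c)
    | smul a x _ hx =>
      intro c
      rw [rk_smul_right, smul_smul]
      exact hx _
  | zero => intro c; rw [rk_zero_left, smul_zero]; exact L.zero_mem
  | add x y _ _ hx hy =>
    intro c
    rw [rk_add_left, smul_add]
    exact L.add_mem (hx c) (hy c)
  | smul a x _ hx =>
    intro c
    rw [rk_smul_left, smul_smul]
    exact hx _

/-- `W` as a module over `ℂ = ⊤` -/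
def topForm (W : Submodule ℂ (Fin (n + 1) → ℂ)) :
    Submodule (⊤ : IntermediateField ℚ ℂ) (Fin (n + 1) → ℂ) where
  carrier := W
  add_mem' := W.add_mem
  zero_mem' := W.zero_mem
  smul_mem' := fun a x hx => by
    rw [E_smul]; exact W.smul_mem _ hx

theorem endW_mem {L : Submodule ℝ (Matrix (Fin (n + 1)) (Fin (n + 1)) ℂ)}
    {W : Submodule ℂ (Fin (n + 1) → ℂ)}
    (hnd : ∀ v ∈ W, (∀ w ∈ W, herm v w = 0) → v = 0)
    (h : ∀ w ∈ W, ∀ z ∈ W, ∀ c : ℂ, c • rk w z ∈ L)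
    {A : Matrix (Fin (n + 1)) (Fin (n + 1)) ℂ} (hA : EndW W A) : A ∈ L := by
  have hspan : Submodule.span ℂ (topForm W : Set (Fin (n + 1) → ℂ)) = W := Submodule.span_eq W
  obtain ⟨k, b, hbX, hb0, hbo, hres⟩ := exists_orth_basis (E := ⊤) (fun z _ => trivial)
    ⟨Complex.I, trivial, by simp⟩ hnd hspan (s := 1) one_ne_zero (fun _ _ _ _ => trivial)
  have hbW : ∀ i, b i ∈ W := fun i => hbX i
  have e : A = ∑ i, (herm (b i) (b i))⁻¹ • rk (A *ᵥ b i) (b i) := by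
    apply Matrix.ext_iff_mulVec.2
    intro v
    have h1 : A *ᵥ (v - ∑ i, (herm v (b i) / herm (b i) (b i)) • b i) = 0 := by
      refine hA.2 _ fun w hw => ?_
      rw [hres w hw, herm_sum_right, Finset.sum_eq_zero]
      intro i _
      rw [herm_sub_left, herm_sum_left, Finset.sum_eq_single i, div_mul_cancel₀ _ (hb0 i),
        sub_self, mul_zero]
      · intro j _ hj; rw [hbo j i hj, mul_zero]
      · intro h; exact absurd (Finset.mem_univ i) h
    rw [Matrix.mulVec_sub, sub_eq_zero] at h1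
    rw [h1, Matrix.sum_mulVec, Matrix.mulVec_sum]
    refine Finset.sum_congr rfl fun i _ => ?_
    rw [Matrix.mulVec_smul, Matrix.smul_mulVec, rk_mulVec, smul_smul]
    congr 1
    rw [div_eq_mul_inv, mul_comm]
  rw [e]
  exact L.sum_mem fun i _ => h _ (hA.1 _) _ (hbW i) _

/-- Lattices of `SU(W)` are ample if `W` is nondegenerate, isotropic, and `dim W ≥ 3`. -/
theorem ample_of_lattice {W : Submodule ℂ (Fin (n + 1) → ℂ)}
    (hnd : ∀ v ∈ W, (∀ w ∈ W, herm v w = 0) → v = 0) (hW : 3 ≤ Module.finrank ℂ W)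
    {p : Fin (n + 1) → ℂ} (hp : p ∈ W) (hp0 : p ≠ 0) (hpp : herm p p = 0)
    {Γ : Subgroup (SpecialLinearGroup (Fin (n + 1)) ℂ)} (h : IsLatticeOf n W Γ) :
    Ample n W Γ := by
  refine ⟨h.1, fun Γ' hle hidx => ?_⟩
  have h' := h.finiteIndex hle hidx
  refine ⟨unbdd_of_lattice h' hp hp0 hpp, fun A hA => ?_⟩
  have h1 : A ∈ spanR Γ' := endW_mem hnd (fun w hw z hz c =>
    rk_mem (fun A hA B hB => spanR_mul hA hB) hnd hW (fun q hq hqq => Nq_mem h' hq hqq)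
      hp hp0 hpp hw hz c) hA
  exact h1

/-- The dimension of the intersection of two hyperplanes. -/
theorem finrank_inf {W₁ W₂ : Submodule ℂ (Fin (n + 1) → ℂ)}
    (hW₁ : Module.finrank ℂ W₁ = n) (hW₂ : Module.finrank ℂ W₂ = n) (hne : W₁ ≠ W₂) :
    Module.finrank ℂ (W₁ ⊓ W₂ : Submodule ℂ (Fin (n + 1) → ℂ)) + 1 = n := by
  have h1 := Submodule.finrank_sup_add_finrank_inf_eq W₁ W₂
  rw [sup_eq_top hW₁ hW₂ hne, finrank_top, Module.finrank_fin_fun, hW₁, hW₂] at h1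
  omega

/-- The main theorem on orthogonal hybrids, for lattices. -/
theorem main3 {E₁ E₂ : IntermediateField ℚ ℂ}
    {W₁ W₂ : Submodule ℂ (Fin (n + 1) → ℂ)}
    {X₁ : Submodule E₁ (Fin (n + 1) → ℂ)} {X₂ : Submodule E₂ (Fin (n + 1) → ℂ)}
    {Γ₁ Γ₂ Γ₃ : Subgroup (SpecialLinearGroup (Fin (n + 1)) ℂ)} (hn : 4 ≤ n)
    (hW₁ : Module.finrank ℂ W₁ = n) (hW₂ : Module.finrank ℂ W₂ = n)
    (horth : ∀ u₁ u₂ : Fin (n + 1) → ℂ, (∀ w ∈ W₁, herm u₁ w = 0) →
      (∀ w ∈ W₂, herm u₂ w = 0) → herm u₁ u₂ = 0)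
    (hiso : ∃ p ∈ W₁ ⊓ W₂, p ≠ 0 ∧ herm p p = 0)
    (h₁ : IsArithFK n E₁ W₁ X₁ Γ₁) (h₂ : IsArithFK n E₂ W₂ X₂ Γ₂)
    (h₃ : IsLatticeOf n (W₁ ⊓ W₂) Γ₃) (h₃₁ : Γ₃ ≤ Γ₁) (h₃₂ : Γ₃ ≤ Γ₂) :
    E₁ = E₂ ∧ ∃ (X : Submodule E₁ (Fin (n + 1) → ℂ))
      (Δ : Subgroup (SpecialLinearGroup (Fin (n + 1)) ℂ)), IsArithFK n E₁ ⊤ X Δ ∧
        Δ.relIndex Γ₁ ≠ 0 ∧ Δ.relIndex Γ₂ ≠ 0 ∧
        ((∀ g ∈ Γ₁, Pres g (X₁ : Set (Fin (n + 1) → ℂ))) →
          (∀ g ∈ Γ₂, Pres g (X₂ : Set (Fin (n + 1) → ℂ))) →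
          ∀ g ∈ Γ₁ ⊔ Γ₂, Pres g (X : Set (Fin (n + 1) → ℂ))) := by
  obtain ⟨u₁, hu₁, hu₁'⟩ := exists_normal hW₁ h₁.2.1.1
  obtain ⟨u₂, hu₂, hu₂'⟩ := exists_normal hW₂ h₂.2.1.1
  have hu₁₂ : herm u₁ u₂ = 0 := horth u₁ u₂ (fun w hw => herm_conj_zero ((hu₁' w).1 hw))
    (fun w hw => herm_conj_zero ((hu₂' w).1 hw))
  have hu₂W₁ : u₂ ∈ W₁ := (hu₁' u₂).2 (herm_conj_zero hu₁₂)
  have hne : W₁ ≠ W₂ := by
    intro h; rw [h, hu₂'] at hu₂W₁; exact hu₂ hu₂W₁
  have hnd₃ : ∀ v ∈ W₁ ⊓ W₂, (∀ w ∈ W₁ ⊓ W₂, herm v w = 0) → v = 0 := by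
    intro v hv hvw
    refine h₁.2.1.1 v hv.1 fun w hw => ?_
    have h1 : w - (herm w u₂ / herm u₂ u₂) • u₂ ∈ W₁ ⊓ W₂ := by
      refine ⟨W₁.sub_mem hw (W₁.smul_mem _ hu₂W₁), ?_⟩
      show w - (herm w u₂ / herm u₂ u₂) • u₂ ∈ W₂
      rw [hu₂', herm_sub_left, herm_smul_left, div_mul_cancel₀ _ hu₂, sub_self]
    have h2 := hvw _ h1
    rwa [herm_sub_right, herm_smul_right, (hu₂' v).1 hv.2, mul_zero, sub_zero] at h2
  obtain ⟨p, hp, hp0, hpp⟩ := hiso
  have hfin := finrank_inf hW₁ hW₂ hne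
  exact main2 hW₁ hW₂ horth h₁ h₂ h₃₁ h₃₂
    (ample_of_lattice hnd₃ (by omega) hp hp0 hpp h₃)

end Pool.Agent.Q107.Hunt
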