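import Pool.Agent.Q107.Hunt.Herm

/-! # Discreteness: the vertical translations at a point form a cyclic group -/

namespace Pool.Agent.Q107.Hunt

open Matrix ComplexConjugate

variable {n : ℕ}

theorem T_zero_mul {p : Fin (n + 1) → ℂ} (hpp : herm p p = 0)
    (h0 : herm (0 : Fin (n + 1) → ℂ) p = 0) (a b : ℂ) :
    T p 0 a hpp h0 * T p 0 b hpp h0 = T p 0 (a + b) hpp h0 := by
  apply ext_act
  intro v
  have h2 : herm ((0 : Fin (n + 1) → ℂ) + 0) p = 0 := by rw [add_zero, h0]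
  rw [T_mul hpp h0 h0 h2, act_T, act_T]
  simp [kap]

theorem T_zero_inv {p : Fin (n + 1) → ℂ} (hpp : herm p p = 0)
    (h0 : herm (0 : Fin (n + 1) → ℂ) p = 0) (a : ℂ) :
    (T p 0 a hpp h0)⁻¹ = T p 0 (-a) hpp h0 := by
  symm
  rw [eq_inv_iff_mul_eq_one, T_zero_mul, neg_add_cancel]
  apply ext_act
  intro v
  rw [act_T]
  simp [kap]

theorem disc_ratio {Γ : Subgroup (SpecialLinearGroup (Fin (n + 1)) ℂ)}
    (hΓ : DiscreteTopology Γ) {p : Fin (n + 1) → ℂ} (hp : p ≠ 0) (hpp : herm p p = 0)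
    (h0 : herm (0 : Fin (n + 1) → ℂ) p = 0) {α β : ℂ} (hα : conj α = -α) (hβ : conj β = -β)
    (hα0 : α ≠ 0) (hTα : T p 0 α hpp h0 ∈ Γ) (hTβ : T p 0 β hpp h0 ∈ Γ) :
    ∃ r : ℚ, β = r * α := by
  -- the additive subgroup of real parameters
  let S : AddSubgroup ℝ :=
    { carrier := {t | T p 0 ((t : ℂ) * α) hpp h0 ∈ Γ}
      add_mem' := by
        intro a b ha hb
        have h := Γ.mul_mem ha hb
        rw [T_zero_mul] at h
        show T p 0 (((a + b : ℝ) : ℂ) * α) hpp h0 ∈ Γ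
        push_cast
        rw [add_mul]
        exact h
      zero_mem' := by
        show T p 0 (((0 : ℝ) : ℂ) * α) hpp h0 ∈ Γ
        have hp1 : p ≠ 0 := hp
        rw [(T_eq_one_iff hp1 hpp h0).2 (by simp)]
        exact Γ.one_mem
      neg_mem' := by
        intro a ha
        have h := Γ.inv_mem ha
        rw [T_zero_inv] at h
        show T p 0 (((-a : ℝ) : ℂ) * α) hpp h0 ∈ Γ
        push_cast
        rw [neg_mul]
        exact h }
  have hmem : ∀ t : ℝ, t ∈ S ↔ T p 0 ((t : ℂ) * α) hpp h0 ∈ Γ := fun t => Iff.rfl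
  have h1 : (1 : ℝ) ∈ S := by rw [hmem]; simpa using hTα
  -- β is a real multiple of α
  obtain ⟨b, hb⟩ : ∃ b : ℝ, β = b * α := by
    have hre : conj (β / α) = β / α := by
      rw [map_div₀, hα, hβ, neg_div_neg_eq]
    obtain ⟨b, hb⟩ := Complex.conj_eq_iff_real.1 hre
    exact ⟨b, by rw [← hb, div_mul_cancel₀ _ hα0]⟩
  have hbS : b ∈ S := by rw [hmem, ← hb]; exact hTβ
  rcases S.dense_or_cyclic with hd | ⟨a, ha⟩
  · exfalso
    have hcont : Continuous fun t : ℝ => T p 0 ((t : ℂ) * α) hpp h0 := by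
      refine Continuous.subtype_mk ?_ _
      refine continuous_matrix fun i j => ?_
      simp only [Tmat, kap, Matrix.add_apply, vecMulVec_apply, Pi.sub_apply, Pi.smul_apply,
        smul_eq_mul]
      fun_prop
    have hopen : IsOpen ({1} : Set Γ) := isOpen_discrete _
    obtain ⟨U, hU, hU1⟩ := isOpen_induced_iff.1 hopen
    have h0U : (0 : ℝ) ∈ (fun t : ℝ => T p 0 ((t : ℂ) * α) hpp h0) ⁻¹' U := by
      show T p 0 (((0 : ℝ) : ℂ) * α) hpp h0 ∈ U
      rw [(T_eq_one_iff hp hpp h0).2 (by simp)]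
      have : (1 : Γ) ∈ (Subtype.val ⁻¹' U : Set Γ) := by rw [hU1]; rfl
      exact this
    have hUo : IsOpen ((fun t : ℝ => T p 0 ((t : ℂ) * α) hpp h0) ⁻¹' U) := hU.preimage hcont
    obtain ⟨ε, hε, hball⟩ := Metric.isOpen_iff.1 hUo 0 h0U
    have hne : ((fun t : ℝ => T p 0 ((t : ℂ) * α) hpp h0) ⁻¹' U ∩ {0}ᶜ).Nonempty := by
      refine ⟨ε / 2, hball ?_, ?_⟩
      · rw [Metric.mem_ball, dist_zero_right, Real.norm_eq_abs, abs_of_pos (by positivity)]
        linarith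
      · simp only [Set.mem_compl_iff, Set.mem_singleton_iff]
        positivity
    obtain ⟨t, ⟨htU, ht0⟩, htS⟩ := hd.inter_open_nonempty _
      (hUo.inter isOpen_compl_singleton) hne
    have htΓ : T p 0 ((t : ℂ) * α) hpp h0 ∈ Γ := htS
    have : (⟨_, htΓ⟩ : Γ) ∈ (Subtype.val ⁻¹' U : Set Γ) := htU
    rw [hU1] at this
    have h3 : T p 0 ((t : ℂ) * α) hpp h0 = 1 := congrArg Subtype.val this
    rw [T_eq_one_iff hp hpp h0] at h3
    rcases mul_eq_zero.1 h3 with h4 | h4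
    · exact ht0 (by simpa using h4)
    · exact hα0 h4
  · rw [ha, AddSubgroup.mem_closure_singleton] at h1 hbS
    obtain ⟨m, hm⟩ := h1
    obtain ⟨k, hk⟩ := hbS
    simp only [zsmul_eq_mul] at hm hk
    have hm0 : (m : ℝ) ≠ 0 := by
      intro h; rw [h, zero_mul] at hm; exact one_ne_zero hm.symm
    have ha1 : a = 1 / m := by field_simp; linarith
    refine ⟨(k : ℚ) / m, ?_⟩
    rw [hb]
    congr 1
    rw [← hk, ha1]
    push_cast
    ring

end Pool.Agent.Q107.Hunt
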