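import Pool.Agent.Q107.Hunt.Main

/-! # Arithmetic pieces of an arithmetic lattice have the same field -/

namespace Pool.Agent.Q107.Hunt

open Matrix ComplexConjugate

variable {n : ℕ}

theorem IsArith.inf {E : IntermediateField ℚ ℂ} {W : Submodule ℂ (Fin (n + 1) → ℂ)}
    {X : Submodule E (Fin (n + 1) → ℂ)} {Γ Δ : Subgroup (SpecialLinearGroup (Fin (n + 1)) ℂ)}
    (h : IsArith n E W X Γ) (hv : Δ.relIndex Γ ≠ 0) : IsArith n E W X (Γ ⊓ Δ) := by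
  obtain ⟨hE, hf, hsu, Λ, hΛ, hcomm⟩ := h
  refine ⟨hE, hf, inf_le_left.trans hsu, Λ, hΛ, ?_⟩
  have h1 : Subgroup.Commensurable (Γ ⊓ Δ) Γ := by
    constructor
    · rw [Subgroup.inf_relIndex_left]; exact hv
    · rw [Subgroup.relIndex_eq_one.2 inf_le_left]; exact one_ne_zero
  exact h1.trans hcomm

theorem field_le {E E₁ : IntermediateField ℚ ℂ} {W₁ : Submodule ℂ (Fin (n + 1) → ℂ)}
    {X : Submodule E (Fin (n + 1) → ℂ)} {X₁ : Submodule E₁ (Fin (n + 1) → ℂ)}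
    {Γ₁ Δ : Subgroup (SpecialLinearGroup (Fin (n + 1)) ℂ)}
    (hΔ : IsArith n E ⊤ X Δ) (h₁ : IsArith n E₁ W₁ X₁ Γ₁) (hv : Δ.relIndex Γ₁ ≠ 0)
    {p x : Fin (n + 1) → ℂ} (hp₁ : p ∈ X₁) (hp0 : p ≠ 0) (hpp : herm p p = 0)
    (hx : x ∈ X₁) (hxp : herm x p = 0) (hxx : herm x x ≠ 0) : E₁ ≤ E := by
  have g₁ := h₁.inf hv
  obtain ⟨c, hc, hcp⟩ := exists_smul_mem hΔ g₁ inf_le_right le_top hp₁ hp0 hpp
  have hci : c⁻¹ ≠ 0 := inv_ne_zero hc
  have gΔ := hΔ.scale hci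
  have hp : p ∈ X.map (scaleE E c⁻¹) := by rw [mem_scale hci, inv_inv]; exact hcp
  obtain ⟨s₁, hs₁0, hs₁⟩ := g₁.2.1.2.2.1
  obtain ⟨s, hs0, hs⟩ := gΔ.2.1.2.2.1
  have hs0' : (s : ℂ) ≠ 0 := by exact_mod_cast hs0
  have hs₁0' : (s₁ : ℂ) ≠ 0 := by exact_mod_cast hs₁0
  generalize X.map (scaleE E c⁻¹) = Y at gΔ hp hs
  obtain ⟨hE, hform, -, Λ, hΛ, hcomm⟩ := gΔ
  -- a vector of `Y` pairing nontrivially with `p`
  obtain ⟨q, hqY, -, hqp⟩ := exists_second hE hform hp hp0 hpp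
  have key : ∀ y ∈ X₁, herm y p = 0 → ∃ M : ℕ, 0 < M ∧ ∃ τ : ℂ,
      ((s₁ : ℂ) * M / s) • y + τ • p ∈ Y := by
    intro y hy hyp
    obtain ⟨K, hK, hmem⟩ := exists_T_mem g₁ hs₁ hp₁ hy E₁.zero_mem (by simp) hpp hyp
    have hy0 : herm (((s₁ : ℂ) * K) • y) p = 0 := by rw [herm_smul_left, hyp, mul_zero]
    have hT := (hmem hy0).2
    obtain ⟨m, hm, -, hpow⟩ := Subgroup.exists_pow_mem_of_relIndex_ne_zero hcomm.2 hT
    have hy1 : herm ((m : ℂ) • (((s₁ : ℂ) * K) • y)) p = 0 := by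
      rw [herm_smul_left, hy0, mul_zero]
    rw [T_pow hpp hy0 m hy1] at hpow
    -- the element preserves `Y`
    have hpres : ∀ v ∈ Y, act (T p ((m : ℂ) • (((s₁ : ℂ) * K) • y)) (m * ((s₁ : ℂ) * K * 0))
        hpp hy1) v ∈ Y := by
      intro v hv
      obtain ⟨k, hk, hkv⟩ := exists_nsmul_mem hE hΛ hv
      have hk0 : (k : ℂ) ≠ 0 := by exact_mod_cast hk.ne'
      have h1 := (hpow.1.2 _).1 hkv
      rw [act_smul] at h1
      have h2 : (k : ℂ) • act (T p ((m : ℂ) • (((s₁ : ℂ) * K) • y)) (m * ((s₁ : ℂ) * K * 0))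
          hpp hy1) v ∈ Y := hΛ.2.2 ▸ Submodule.subset_span h1
      have h3 := smul_mem_E (E.inv_mem (natCast_mem E k)) h2
      rwa [smul_smul, inv_mul_cancel₀ hk0, one_smul] at h3
    have h4 := Y.sub_mem (hpres q hqY) hqY
    rw [act_T] at h4
    have hsq : (s : ℂ) * herm q p ≠ 0 := mul_ne_zero hs0' hqp
    have h5 := smul_mem_E (E.inv_mem (hs q hqY p hp)) h4
    refine ⟨K * m, Nat.mul_pos hK hm, ?_⟩
    set κ := kap ((m : ℂ) • (((s₁ : ℂ) * K) • y)) (m * ((s₁ : ℂ) * K * 0)) * herm q p -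
      herm q ((m : ℂ) • (((s₁ : ℂ) * K) • y)) with hκ
    refine ⟨((s : ℂ) * herm q p)⁻¹ * κ, ?_⟩
    convert h5 using 1
    funext i
    simp only [Pi.add_apply, Pi.sub_apply, Pi.smul_apply, smul_eq_mul]
    push_cast
    field_simp
    ring
  intro e he
  obtain ⟨M, hM, τ, ha⟩ := key x hx hxp
  obtain ⟨M', hM', τ', hb⟩ := key (e • x) (smul_mem_E he hx)
    (by rw [herm_smul_left, hxp, mul_zero])
  have hpx : herm p x = 0 := herm_conj_zero hxp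
  have h1 := hs _ ha _ ha
  have h2 := hs _ hb _ ha
  have hr : ∀ N : ℕ, conj ((s₁ : ℂ) * N / s) = (s₁ : ℂ) * N / s := by
    intro N
    rw [map_div₀, map_mul, Complex.conj_ofReal, Complex.conj_ofReal, Complex.conj_natCast]
  simp only [herm_add_left, herm_add_right, herm_smul_left, herm_smul_right, hpx, hxp, hpp, hr,
    mul_zero, add_zero] at h1 h2
  have hM0 : (M : ℂ) ≠ 0 := by exact_mod_cast hM.ne'
  have hM'0 : (M' : ℂ) ≠ 0 := by exact_mod_cast hM'.ne'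
  have h3 := E.div_mem h2 h1
  have h4 := E.mul_mem (E.div_mem (natCast_mem E M) (natCast_mem E M')) h3
  convert h4 using 1
  field_simp

/-- The field of an arithmetic piece of dimension at least three. -/
theorem field_eq {E E₁ : IntermediateField ℚ ℂ} {W₁ : Submodule ℂ (Fin (n + 1) → ℂ)}
    {X : Submodule E (Fin (n + 1) → ℂ)} {X₁ : Submodule E₁ (Fin (n + 1) → ℂ)}
    {Γ₁ Δ : Subgroup (SpecialLinearGroup (Fin (n + 1)) ℂ)}
    (hΔ : IsArith n E ⊤ X Δ) (h₁ : IsArith n E₁ W₁ X₁ Γ₁) (hv : Δ.relIndex Γ₁ ≠ 0)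
    (hdim : 3 ≤ Module.finrank ℂ W₁) : E₁ = E := by
  obtain ⟨p, hp, hp0, hpp⟩ := h₁.2.1.2.2.2
  obtain ⟨q, hq, -, hqp⟩ := exists_second h₁.1 h₁.2.1 hp hp0 hpp
  obtain ⟨s, hs0, hs⟩ := h₁.2.1.2.2.1
  have hs0' : (s : ℂ) ≠ 0 := by exact_mod_cast hs0
  obtain ⟨x, hx, hxp, hxx⟩ : ∃ x ∈ X₁, herm x p = 0 ∧ herm x x ≠ 0 := by
    by_contra hcon
    push Not at hcon
    have hqW : q ∈ W₁ := h₁.2.1.2.1 ▸ Submodule.subset_span hq
    have h1 : (s : ℂ) * herm (((s : ℂ) * herm q p)⁻¹ • q) p = 1 := by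
      rw [herm_smul_left]; field_simp
    have h2 := finrank_le_two (W := W₁) hqW hqp (fun w hw hwp => by
      have h3 := span_perp h₁.2.1.2.1 hs hp
        (smul_mem_E (E₁.inv_mem (hs q hq p hp)) hq) h1 hw hwp
      clear hw hwp
      induction h3 using Submodule.span_induction with
      | mem y hy => exact iso_perp hp0 hpp hy.2 (hcon y hy.1 hy.2)
      | zero => exact ⟨0, by simp⟩
      | add y z _ _ hy hz =>
        obtain ⟨c, rfl⟩ := hy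
        obtain ⟨d, rfl⟩ := hz
        exact ⟨c + d, by rw [add_smul]⟩
      | smul a y _ hy =>
        obtain ⟨c, rfl⟩ := hy
        exact ⟨a * c, by rw [smul_smul]⟩)
    omega
  have hle := field_le hΔ h₁ hv hp hp0 hpp hx hxp hxx
  have hfin : FiniteDimensional ℚ E := Module.finite_of_finrank_pos (by rw [hΔ.1.1]; norm_num)
  exact IntermediateField.eq_of_le_of_finrank_eq hle (by rw [h₁.1.1, hΔ.1.1])

end Pool.Agent.Q107.Hunt
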