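import Pool.Agent.Q107.Hunt.Disc

/-! # Imaginary quadratic fields, rational forms, arithmetic groups -/

namespace Pool.Agent.Q107.Hunt

open Matrix ComplexConjugate

variable {n : ℕ}

/-- `E ⊂ ℂ` is an imaginary quadratic field. -/
def ImagQuad (E : IntermediateField ℚ ℂ) : Prop :=
  Module.finrank ℚ E = 2 ∧ ∃ z ∈ E, z.im ≠ 0

theorem rat_mem (E : IntermediateField ℚ ℂ) (r : ℚ) : (r : ℂ) ∈ E := by
  have h := E.algebraMap_mem r
  rwa [eq_ratCast] at h

/-- structure of an imaginary quadratic field -/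
theorem ImagQuad.exists_delta {E : IntermediateField ℚ ℂ} (hE : ImagQuad E) :
    ∃ δ ∈ E, δ ≠ 0 ∧ conj δ = -δ ∧ ∀ z ∈ E, ∃ a b : ℚ, z = a + b * δ := by
  obtain ⟨hE2, x, hxE, hx⟩ := hE
  have hfin : FiniteDimensional ℚ E := Module.finite_of_finrank_pos (by rw [hE2]; norm_num)
  -- 1 and x are linearly independent
  have hli : LinearIndependent ℚ ![(1 : E), ⟨x, hxE⟩] := by
    rw [LinearIndependent.pair_iff]
    intro s t hst
    have h1 : (s : ℂ) + t * x = 0 := by
      have h2 := congrArg (fun z : E => (z : ℂ)) hst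
      simp only [AddMemClass.coe_add] at h2
      have e1 : ((s • (1 : E) : E) : ℂ) = (s : ℂ) := by
        rw [Algebra.smul_def, mul_one]; simp
      have e2 : ((t • (⟨x, hxE⟩ : E) : E) : ℂ) = (t : ℂ) * x := by
        rw [Algebra.smul_def]; simp
      rw [e1, e2] at h2
      simpa using h2
    have him := congrArg Complex.im h1
    simp only [Complex.add_im, Complex.mul_im, Complex.ratCast_im, Complex.ratCast_re,
      Complex.zero_im, zero_mul, add_zero, zero_add] at him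
    rcases mul_eq_zero.1 him with h3 | h3
    · have ht : t = 0 := by exact_mod_cast h3
      subst ht
      simp only [Rat.cast_zero, zero_mul, add_zero] at h1
      exact ⟨by exact_mod_cast h1, rfl⟩
    · exact absurd h3 hx
  let b := basisOfLinearIndependentOfCardEqFinrank hli (by rw [hE2]; simp)
  have hb : ∀ z ∈ E, ∃ a c : ℚ, z = a + c * x := by
    intro z hz
    have h1 := b.sum_repr ⟨z, hz⟩
    rw [Fin.sum_univ_two] at h1
    have h2 := congrArg (fun z : E => (z : ℂ)) h1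
    refine ⟨b.repr ⟨z, hz⟩ 0, b.repr ⟨z, hz⟩ 1, ?_⟩
    simp only [AddMemClass.coe_add] at h2
    have e0 : b 0 = 1 := by simp [b]
    have e1' : b 1 = ⟨x, hxE⟩ := by simp [b]
    rw [e0, e1'] at h2
    have e1 : ∀ s : ℚ, ((s • (1 : E) : E) : ℂ) = (s : ℂ) := by
      intro s; rw [Algebra.smul_def, mul_one]; simp
    have e2 : ∀ t : ℚ, ((t • (⟨x, hxE⟩ : E) : E) : ℂ) = (t : ℂ) * x := by
      intro t; rw [Algebra.smul_def]; simp
    rw [e1, e2] at h2
    exact h2.symm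
  obtain ⟨a, c, hac⟩ := hb (x * x) (E.mul_mem hxE hxE)
  -- x^2 = a + c x ; δ = x - c/2
  refine ⟨x - (c / 2 : ℚ), E.sub_mem hxE (rat_mem E _), ?_, ?_, ?_⟩
  · intro h0
    apply hx
    rw [sub_eq_zero.1 h0]
    exact Complex.ratCast_im _
  · -- real part of x is c / 2
    have him := congrArg Complex.im hac
    simp only [Complex.add_im, Complex.mul_im, Complex.ratCast_im, Complex.ratCast_re, zero_mul,
      add_zero, zero_add] at him
    have hre : x.re = c / 2 := by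
      have : x.im * (2 * x.re - c) = 0 := by linear_combination him
      rcases mul_eq_zero.1 this with h | h
      · exact absurd h hx
      · linarith
    have e : conj ((c / 2 : ℚ) : ℂ) = ((c / 2 : ℚ) : ℂ) := map_ratCast _ _
    have e2 : (((c / 2 : ℚ) : ℂ)).re = c / 2 := by
      rw [Complex.ratCast_re]; push_cast; ring
    have e3 : (((c / 2 : ℚ) : ℂ)).im = 0 := Complex.ratCast_im _
    rw [map_sub, e]
    apply Complex.ext
    · rw [Complex.sub_re, Complex.neg_re, Complex.sub_re, Complex.conj_re, e2, hre]; ring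
    · rw [Complex.sub_im, Complex.neg_im, Complex.sub_im, Complex.conj_im, e3]; ring
  · intro z hz
    obtain ⟨u, v, huv⟩ := hb z hz
    refine ⟨u + v * c / 2, v, ?_⟩
    rw [huv]
    push_cast
    ring

theorem ImagQuad.conj_mem {E : IntermediateField ℚ ℂ} (hE : ImagQuad E) {z : ℂ} (hz : z ∈ E) :
    conj z ∈ E := by
  obtain ⟨δ, hδ, -, hδc, h⟩ := hE.exists_delta
  obtain ⟨a, b, rfl⟩ := h z hz
  rw [map_add, map_mul, hδc, map_ratCast, map_ratCast]
  exact E.add_mem (rat_mem E a) (E.mul_mem (rat_mem E b) (E.neg_mem hδ))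

theorem ImagQuad.rat_of_real {E : IntermediateField ℚ ℂ} (hE : ImagQuad E) {z : ℂ} (hz : z ∈ E)
    (hr : conj z = z) : ∃ r : ℚ, z = r := by
  obtain ⟨δ, hδ, hδ0, hδc, h⟩ := hE.exists_delta
  obtain ⟨a, b, rfl⟩ := h z hz
  rw [map_add, map_mul, hδc, map_ratCast, map_ratCast] at hr
  have h1 : (b : ℂ) * δ = 0 := by linear_combination (-1/2 : ℂ) * hr
  exact ⟨a, by rw [h1, add_zero]⟩

theorem ImagQuad.delta_ratio {E : IntermediateField ℚ ℂ} (hE : ImagQuad E) {δ z : ℂ}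
    (hδE : δ ∈ E) (hδ0 : δ ≠ 0) (hδ : conj δ = -δ) (hz : z ∈ E) (hzc : conj z = -z) :
    ∃ r : ℚ, z = r * δ := by
  obtain ⟨r, hr⟩ := hE.rat_of_real (z := z / δ) (E.div_mem hz hδE)
    (by rw [map_div₀, hzc, hδ, neg_div_neg_eq])
  exact ⟨r, by rw [← hr, div_mul_cancel₀ _ hδ0]⟩

/-- `su(W)`: the elements of `SU(n,1)` that fix the orthogonal complement of `W` pointwise. -/
def suOf (n : ℕ) (W : Submodule ℂ (Fin (n + 1) → ℂ)) :
    Subgroup (SpecialLinearGroup (Fin (n + 1)) ℂ) where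
  carrier := {g | g ∈ SU n ∧ ∀ v, (∀ w ∈ W, herm v w = 0) → act g v = v}
  mul_mem' := by
    intro a b ha hb
    refine ⟨(SU n).mul_mem ha.1 hb.1, fun v hv => ?_⟩
    rw [act_mul, hb.2 v hv, ha.2 v hv]
  one_mem' := ⟨(SU n).one_mem, fun v _ => act_one v⟩
  inv_mem' := by
    intro a ha
    refine ⟨(SU n).inv_mem ha.1, fun v hv => ?_⟩
    conv_lhs => rw [← ha.2 v hv]
    rw [act_inv_act]

/-- The stabiliser in `SU(W)` of a lattice `Λ`. -/
def stab (n : ℕ) (W : Submodule ℂ (Fin (n + 1) → ℂ)) (Λ : AddSubgroup (Fin (n + 1) → ℂ)) :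
    Subgroup (SpecialLinearGroup (Fin (n + 1)) ℂ) where
  carrier := {g | g ∈ suOf n W ∧ ∀ v, v ∈ Λ ↔ act g v ∈ Λ}
  mul_mem' := by
    intro a b ha hb
    refine ⟨(suOf n W).mul_mem ha.1 hb.1, fun v => ?_⟩
    rw [act_mul, ← ha.2, ← hb.2]
  one_mem' := ⟨(suOf n W).one_mem, fun v => by rw [act_one]⟩
  inv_mem' := by
    intro a ha
    refine ⟨(suOf n W).inv_mem ha.1, fun v => ?_⟩
    rw [ha.2 (act a⁻¹ v), act_act_inv]

/-- `Λ` is an `𝒪_E`-lattice in the `E`-vector space `X`: a finitely generated group, stable under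
the algebraic integers of `E`, spanning `X`. -/
def IsLat (E : IntermediateField ℚ ℂ) (X : Submodule E (Fin (n + 1) → ℂ))
    (Λ : AddSubgroup (Fin (n + 1) → ℂ)) : Prop :=
  Λ.FG ∧ (∀ a : E, IsIntegral ℤ a → ∀ v ∈ Λ, a • v ∈ Λ) ∧
    Submodule.span E (Λ : Set (Fin (n + 1) → ℂ)) = X

/-- `X` is an isotropic Hermitian `E`-form of the nondegenerate subspace `W`: an `E`-subspace
spanning `W` over `ℂ`, on which the Hermitian form is `E`-valued up to one real factor, and
which contains an isotropic vector. -/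
def IsForm (n : ℕ) (E : IntermediateField ℚ ℂ) (W : Submodule ℂ (Fin (n + 1) → ℂ))
    (X : Submodule E (Fin (n + 1) → ℂ)) : Prop :=
  (∀ v ∈ W, (∀ w ∈ W, herm v w = 0) → v = 0) ∧
  Submodule.span ℂ (X : Set (Fin (n + 1) → ℂ)) = W ∧
  (∃ s : ℝ, s ≠ 0 ∧ ∀ x ∈ X, ∀ y ∈ X, (s : ℂ) * herm x y ∈ E) ∧
  ∃ p ∈ X, p ≠ 0 ∧ herm p p = 0

/-- `Γ` is a non-cocompact arithmetic lattice of `SU(W)`, of the form `SU(X, 𝒪_E)` up to
commensurability, `E` imaginary quadratic and `X` an isotropic Hermitian `E`-form of `W`. -/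
def IsArith (n : ℕ) (E : IntermediateField ℚ ℂ) (W : Submodule ℂ (Fin (n + 1) → ℂ))
    (X : Submodule E (Fin (n + 1) → ℂ))
    (Γ : Subgroup (SpecialLinearGroup (Fin (n + 1)) ℂ)) : Prop :=
  ImagQuad E ∧ IsForm n E W X ∧ Γ ≤ suOf n W ∧
    ∃ Λ, IsLat E X Λ ∧ Subgroup.Commensurable Γ (stab n W Λ)

/-! ### Lattices -/

theorem exists_nsmul_mem {E : IntermediateField ℚ ℂ} (hE : ImagQuad E)
    {X : Submodule E (Fin (n + 1) → ℂ)} {Λ : AddSubgroup (Fin (n + 1) → ℂ)}
    (h : IsLat E X Λ) {x : Fin (n + 1) → ℂ} (hx : x ∈ X) :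
    ∃ k : ℕ, 0 < k ∧ (k : ℂ) • x ∈ Λ := by
  rw [← h.2.2] at hx
  have hfin : FiniteDimensional ℚ E := Module.finite_of_finrank_pos (by rw [hE.1]; norm_num)
  induction hx using Submodule.span_induction with
  | mem x hx => exact ⟨1, one_pos, by simpa using hx⟩
  | zero => exact ⟨1, one_pos, by simp⟩
  | add x y _ _ hx hy =>
    obtain ⟨k, hk, h1⟩ := hx
    obtain ⟨l, hl, h2⟩ := hy
    refine ⟨k * l, Nat.mul_pos hk hl, ?_⟩
    have e1 : (((k * l : ℕ) : ℂ)) • (x + y) = (l : ℕ) • ((k : ℂ) • x) + (k : ℕ) • ((l : ℂ) • y) := by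
      rw [← Nat.cast_smul_eq_nsmul ℂ, ← Nat.cast_smul_eq_nsmul ℂ, smul_smul, smul_smul, smul_add]
      push_cast
      rw [mul_comm (l : ℂ)]
    rw [e1]
    exact Λ.add_mem (Λ.nsmul_mem h1 _) (Λ.nsmul_mem h2 _)
  | smul a x _ hx =>
    obtain ⟨k, hk, h1⟩ := hx
    have halg : IsAlgebraic ℤ a := by
      have h2 : IsAlgebraic ℚ a := Algebra.IsAlgebraic.isAlgebraic a
      exact (IsFractionRing.isAlgebraic_iff ℤ ℚ E).2 h2
    obtain ⟨m, hm, hint⟩ := halg.exists_integral_multiple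
    obtain ⟨N, hN, hint'⟩ : ∃ N : ℕ, 0 < N ∧ IsIntegral ℤ ((N : E) * a) := by
      refine ⟨m.natAbs, Int.natAbs_pos.2 hm, ?_⟩
      rw [zsmul_eq_mul] at hint
      rcases Int.natAbs_eq m with h3 | h3
      · have : ((m : ℤ) : E) = ((m.natAbs : ℕ) : E) := by
          rw [← Int.cast_natCast, ← h3]
        rw [← this]; exact hint
      · have : ((m.natAbs : ℕ) : E) * a = -(((m : ℤ) : E) * a) := by
          rw [← neg_mul, ← Int.cast_neg, ← Int.cast_natCast]
          congr 2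
          omega
        rw [this]; exact hint.neg
    refine ⟨N * k, Nat.mul_pos hN hk, ?_⟩
    have h4 := h.2.1 _ hint' _ h1
    have e : ((((N : E) * a) • ((k : ℂ) • x)) : Fin (n + 1) → ℂ) =
        (((N * k : ℕ) : ℂ)) • (a • x) := by
      funext i
      have e1 : ∀ (b : E) (z : ℂ), b • z = (b : ℂ) * z := fun b z => Algebra.smul_def b z
      simp only [Pi.smul_apply, smul_eq_mul, e1]
      push_cast
      ring
    rw [← e]
    exact h4

/-- An additive map from a lattice into `X` has a multiple with values in the lattice. -/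
theorem exists_mul_map {E : IntermediateField ℚ ℂ} (hE : ImagQuad E)
    {X : Submodule E (Fin (n + 1) → ℂ)} {Λ M : AddSubgroup (Fin (n + 1) → ℂ)}
    (h : IsLat E X Λ) (hM : M.FG) (f : (Fin (n + 1) → ℂ) → (Fin (n + 1) → ℂ))
    (hadd : ∀ x y, f (x + y) = f x + f y) (hf : ∀ x ∈ M, f x ∈ X) :
    ∃ k : ℕ, 0 < k ∧ ∀ x ∈ M, (k : ℂ) • f x ∈ Λ := by
  obtain ⟨S, hS⟩ := hM
  have h1 : ∀ x ∈ S, ∃ k : ℕ, 0 < k ∧ (k : ℂ) • f x ∈ Λ := fun x hx =>
    exists_nsmul_mem hE h (hf x (hS ▸ AddSubgroup.subset_closure hx))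
  choose! k hk hk2 using h1
  have hf0 : f 0 = 0 := by have := hadd 0 0; simpa using this
  have hfneg : ∀ x, f (-x) = - f x := by
    intro x
    have := hadd x (-x)
    rw [add_neg_cancel, hf0] at this
    exact (neg_eq_of_add_eq_zero_right this.symm).symm
  refine ⟨∏ x ∈ S, k x, Finset.prod_pos fun x hx => hk x hx, fun x hx => ?_⟩
  rw [← hS] at hx
  induction hx using AddSubgroup.closure_induction with
  | mem x hx =>
    obtain ⟨c, hc⟩ := Finset.dvd_prod_of_mem k hx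
    rw [hc]
    have : (((k x * c : ℕ) : ℂ)) • f x = c • ((k x : ℂ) • f x) := by
      rw [← Nat.cast_smul_eq_nsmul ℂ, smul_smul]; push_cast; rw [mul_comm]
    rw [this]
    exact Λ.nsmul_mem (hk2 x hx) _
  | zero => rw [hf0, smul_zero]; exact Λ.zero_mem
  | add x y _ _ hx hy => rw [hadd, smul_add]; exact Λ.add_mem hx hy
  | neg x _ hx => rw [hfneg, smul_neg]; exact Λ.neg_mem hx

end Pool.Agent.Q107.Hunt
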