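import Pool.Agent.Q107.Hunt.Main

/-! # Generic lemmas for conjugation stable number fields -/

namespace Pool.Agent.Q107.Hunt

open Matrix ComplexConjugate

variable {n : ℕ}

theorem g_nsmul_mem {E : IntermediateField ℚ ℂ} (hfin : FiniteDimensional ℚ E)
    {X : Submodule E (Fin (n + 1) → ℂ)} {Λ : AddSubgroup (Fin (n + 1) → ℂ)}
    (h : IsLat E X Λ) {x : Fin (n + 1) → ℂ} (hx : x ∈ X) :
    ∃ k : ℕ, 0 < k ∧ (k : ℂ) • x ∈ Λ := by
  rw [← h.2.2] at hx
  induction hx using Submodule.span_induction with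
  | mem x hx => exact ⟨1, one_pos, by simpa using hx⟩
  | zero => exact ⟨1, one_pos, by simp⟩
  | add x y _ _ hx hy =>
    obtain ⟨k, hk, h1⟩ := hx
    obtain ⟨l, hl, h2⟩ := hy
    refine ⟨k * l, Nat.mul_pos hk hl, ?_⟩
    have e1 : (((k * l : ℕ) : ℂ)) • (x + y) = (l : ℕ) • ((k : ℂ) • x) + (k : ℕ) • ((l : ℂ) • y) := by
      rw [← Nat.cast_smul_eq_nsmul ℂ, ← Nat.cast_smul_eq_nsmul ℂ, smul_smul, smul_smul, smul_add]
      push_cast
      rw [mul_comm (l : ℂ)]
    rw [e1]
    exact Λ.add_mem (Λ.nsmul_mem h1 _) (Λ.nsmul_mem h2 _)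
  | smul a x _ hx =>
    obtain ⟨k, hk, h1⟩ := hx
    have halg : IsAlgebraic ℤ a := by
      have h2 : IsAlgebraic ℚ a := Algebra.IsAlgebraic.isAlgebraic a
      exact (IsFractionRing.isAlgebraic_iff ℤ ℚ E).2 h2
    obtain ⟨m, hm, hint⟩ := halg.exists_integral_multiple
    obtain ⟨N, hN, hint'⟩ : ∃ N : ℕ, 0 < N ∧ IsIntegral ℤ ((N : E) * a) := by
      refine ⟨m.natAbs, Int.natAbs_pos.2 hm, ?_⟩
      rw [zsmul_eq_mul] at hint
      rcases Int.natAbs_eq m with h3 | h3
      · have : ((m : ℤ) : E) = ((m.natAbs : ℕ) : E) := by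
          rw [← Int.cast_natCast, ← h3]
        rw [← this]; exact hint
      · have : ((m.natAbs : ℕ) : E) * a = -(((m : ℤ) : E) * a) := by
          rw [← neg_mul, ← Int.cast_neg, ← Int.cast_natCast]
          congr 2
          omega
        rw [this]; exact hint.neg
    refine ⟨N * k, Nat.mul_pos hN hk, ?_⟩
    have h4 := h.2.1 _ hint' _ h1
    have e : ((((N : E) * a) • ((k : ℂ) • x)) : Fin (n + 1) → ℂ) =
        (((N * k : ℕ) : ℂ)) • (a • x) := by
      funext i
      have e1 : ∀ (b : E) (z : ℂ), b • z = (b : ℂ) * z := fun b z => Algebra.smul_def b z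
      simp only [Pi.smul_apply, smul_eq_mul, e1]
      push_cast
      ring
    rw [← e]
    exact h4

theorem g_mul_map {E : IntermediateField ℚ ℂ} (hfin : FiniteDimensional ℚ E)
    {X : Submodule E (Fin (n + 1) → ℂ)} {Λ M : AddSubgroup (Fin (n + 1) → ℂ)}
    (h : IsLat E X Λ) (hM : M.FG) (f : (Fin (n + 1) → ℂ) → (Fin (n + 1) → ℂ))
    (hadd : ∀ x y, f (x + y) = f x + f y) (hf : ∀ x ∈ M, f x ∈ X) :
    ∃ k : ℕ, 0 < k ∧ ∀ x ∈ M, (k : ℂ) • f x ∈ Λ := by
  obtain ⟨S, hS⟩ := hM
  have h1 : ∀ x ∈ S, ∃ k : ℕ, 0 < k ∧ (k : ℂ) • f x ∈ Λ := fun x hx =>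
    g_nsmul_mem hfin h (hf x (hS ▸ AddSubgroup.subset_closure hx))
  choose! k hk hk2 using h1
  have hf0 : f 0 = 0 := by have := hadd 0 0; simpa using this
  have hfneg : ∀ x, f (-x) = - f x := by
    intro x
    have := hadd x (-x)
    rw [add_neg_cancel, hf0] at this
    exact (neg_eq_of_add_eq_zero_right this.symm).symm
  refine ⟨∏ x ∈ S, k x, Finset.prod_pos fun x hx => hk x hx, fun x hx => ?_⟩
  rw [← hS] at hx
  induction hx using AddSubgroup.closure_induction with
  | mem x hx =>
    obtain ⟨c, hc⟩ := Finset.dvd_prod_of_mem k hx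
    rw [hc]
    have : (((k x * c : ℕ) : ℂ)) • f x = c • ((k x : ℂ) • f x) := by
      rw [← Nat.cast_smul_eq_nsmul ℂ, smul_smul]; push_cast; rw [mul_comm]
    rw [this]
    exact Λ.nsmul_mem (hk2 x hx) _
  | zero => rw [hf0, smul_zero]; exact Λ.zero_mem
  | add x y _ _ hx hy => rw [hadd, smul_add]; exact Λ.add_mem hx hy
  | neg x _ hx => rw [hfneg, smul_neg]; exact Λ.neg_mem hx

theorem herm_sum_right {ι : Type*} (s : Finset ι) (x : Fin (n + 1) → ℂ) (d : ι → ℂ)
    (g : ι → (Fin (n + 1) → ℂ)) :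
    herm x (∑ i ∈ s, d i • g i) = ∑ i ∈ s, conj (d i) * herm x (g i) := by
  classical
  induction s using Finset.induction_on with
  | empty => simp
  | insert a s ha ih =>
    rw [Finset.sum_insert ha, Finset.sum_insert ha, herm_add_right, ih, herm_smul_right]

theorem herm_sum_left {ι : Type*} (s : Finset ι) (x : Fin (n + 1) → ℂ) (d : ι → ℂ)
    (g : ι → (Fin (n + 1) → ℂ)) :
    herm (∑ i ∈ s, d i • g i) x = ∑ i ∈ s, d i * herm (g i) x := by
  classical
  induction s using Finset.induction_on with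
  | empty => simp
  | insert a s ha ih =>
    rw [Finset.sum_insert ha, Finset.sum_insert ha, herm_add_left, ih, herm_smul_left]

/-- A vector orthogonal to `X` and in the span is zero. -/
theorem orth_span {X : Set (Fin (n + 1) → ℂ)} {v : Fin (n + 1) → ℂ}
    (h : ∀ x ∈ X, herm v x = 0) {w : Fin (n + 1) → ℂ} (hw : w ∈ Submodule.span ℂ X) :
    herm v w = 0 := by
  induction hw using Submodule.span_induction with
  | mem x hx => exact h x hx
  | zero => simp
  | add x y _ _ hx hy => rw [herm_add_right, hx, hy, add_zero]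
  | smul a x _ hx => rw [herm_smul_right, hx, mul_zero]

/-- resolution of the identity of `W` by an orthogonal family -/
def Res (W : Submodule ℂ (Fin (n + 1) → ℂ)) {ι : Type*} [Fintype ι]
    (b : ι → (Fin (n + 1) → ℂ)) : Prop :=
  ∀ w ∈ W, w = ∑ i, (herm w (b i) / herm (b i) (b i)) • b i

/-- Existence of an orthogonal basis in a rational form. -/
theorem exists_orth_basis {E : IntermediateField ℚ ℂ} (hconj : ∀ z ∈ E, conj z ∈ E)
    (hnr : ∃ z ∈ E, z.im ≠ 0)
    {W : Submodule ℂ (Fin (n + 1) → ℂ)} {X : Submodule E (Fin (n + 1) → ℂ)}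
    (hnd : ∀ v ∈ W, (∀ w ∈ W, herm v w = 0) → v = 0)
    (hspan : Submodule.span ℂ (X : Set (Fin (n + 1) → ℂ)) = W)
    {s : ℝ} (hs0 : s ≠ 0) (hs : ∀ x ∈ X, ∀ y ∈ X, (s : ℂ) * herm x y ∈ E) :
    ∃ (k : ℕ) (b : Fin k → (Fin (n + 1) → ℂ)), (∀ i, b i ∈ X) ∧ (∀ i, herm (b i) (b i) ≠ 0) ∧
      (∀ i j, i ≠ j → herm (b i) (b j) = 0) ∧ Res W b := by
  have hs0' : (s : ℂ) ≠ 0 := by exact_mod_cast hs0
  -- the property for families of a given size
  have main : ∀ m k : ℕ, k + m = n + 2 →
      (∃ b : Fin k → (Fin (n + 1) → ℂ), (∀ i, b i ∈ X) ∧ (∀ i, herm (b i) (b i) ≠ 0) ∧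
        (∀ i j, i ≠ j → herm (b i) (b j) = 0)) →
      ∃ (k : ℕ) (b : Fin k → (Fin (n + 1) → ℂ)), (∀ i, b i ∈ X) ∧ (∀ i, herm (b i) (b i) ≠ 0) ∧
      (∀ i j, i ≠ j → herm (b i) (b j) = 0) ∧ Res W b := by
    intro m
    induction m with
    | zero =>
      rintro k hk ⟨b, hbX, hb0, hbo⟩
      exfalso
      have hli : LinearIndependent ℂ b := by
        rw [Fintype.linearIndependent_iff]
        intro g hg i
        have h1 : herm (∑ j, g j • b j) (b i) = 0 := by rw [hg, herm_zero_left]
        rw [herm_sum_left, Finset.sum_eq_single i] at h1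
        · rcases mul_eq_zero.1 h1 with h | h
          · exact h
          · exact absurd h (hb0 i)
        · intro j _ hj; rw [hbo j i hj, mul_zero]
        · intro h; exact absurd (Finset.mem_univ i) h
      have := hli.fintype_card_le_finrank
      rw [Fintype.card_fin, Module.finrank_fin_fun] at this
      omega
    | succ m ih =>
      rintro k hk ⟨b, hbX, hb0, hbo⟩
      by_cases hres : Res W b
      · exact ⟨k, b, hbX, hb0, hbo, hres⟩
      unfold Res at hres
      push Not at hres
      obtain ⟨w, hw, hwne⟩ := hres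
      -- the projection to the orthogonal complement of the family
      set pr : (Fin (n + 1) → ℂ) → (Fin (n + 1) → ℂ) :=
        fun v => v - ∑ i, (herm v (b i) / herm (b i) (b i)) • b i with hpr
      have hpr_orth : ∀ v i, herm (pr v) (b i) = 0 := by
        intro v i
        simp only [hpr]
        rw [herm_sub_left, herm_sum_left, Finset.sum_eq_single i, div_mul_cancel₀ _ (hb0 i),
          sub_self]
        · intro j _ hj; rw [hbo j i hj, mul_zero]
        · intro h; exact absurd (Finset.mem_univ i) h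
      have hprX : ∀ x ∈ X, pr x ∈ X := by
        intro x hx
        refine X.sub_mem hx (X.sum_mem fun i _ => smul_mem_E ?_ (hbX i))
        have h1 := E.div_mem (hs x hx _ (hbX i)) (hs _ (hbX i) _ (hbX i))
        rwa [mul_div_mul_left _ _ hs0'] at h1
      have hprherm : ∀ v v', herm (pr v) (pr v') = herm (pr v) v' := by
        intro v v'
        conv_lhs => rw [show pr v' = v' - ∑ i, (herm v' (b i) / herm (b i) (b i)) • b i from rfl]
        rw [herm_sub_right, herm_sum_right, Finset.sum_eq_zero, sub_zero]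
        intro i _
        rw [hpr_orth, mul_zero]
      have hprW : pr w ∈ W := by
        refine W.sub_mem hw (W.sum_mem fun i _ => W.smul_mem _ ?_)
        rw [← hspan]; exact Submodule.subset_span (hbX i)
      have hprw0 : pr w ≠ 0 := fun h => hwne (sub_eq_zero.1 h)
      -- two vectors with nonzero pairing
      obtain ⟨x, hx, y, hy, hxy⟩ : ∃ x ∈ X, ∃ y ∈ X, herm (pr x) (pr y) ≠ 0 := by
        by_contra hcon
        push Not at hcon
        apply hprw0
        refine hnd _ hprW fun w' hw' => ?_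
        -- pair with X first
        have h1 : ∀ y ∈ X, herm (pr w) y = 0 := by
          intro y hy
          have h2 : ∀ x ∈ X, herm (pr y) x = 0 := by
            intro x hx
            rw [← hprherm]; exact hcon y hy x hx
          have h3 : herm (pr y) w = 0 := orth_span h2 (hspan ▸ hw)
          rw [← hprherm] at h3
          rw [← hprherm]
          exact herm_conj_zero h3
        exact orth_span h1 (hspan ▸ hw')
      -- a non-isotropic vector
      obtain ⟨z, hz, hzo, hzz⟩ : ∃ z ∈ X, (∀ i, herm z (b i) = 0) ∧ herm z z ≠ 0 := by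
        obtain ⟨e, he, hei⟩ := hnr
        by_contra hcon
        push Not at hcon
        have a1 := hcon _ (hprX x hx) (hpr_orth x)
        have a2 := hcon _ (hprX y hy) (hpr_orth y)
        have a3 := hcon _ (X.add_mem (hprX x hx) (hprX y hy)) (fun i => by
          rw [herm_add_left, hpr_orth, hpr_orth, add_zero])
        have a4 := hcon _ (X.add_mem (hprX x hx) (smul_mem_E he (hprX y hy))) (fun i => by
          rw [herm_add_left, herm_smul_left, hpr_orth, hpr_orth, mul_zero, add_zero])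
        simp only [herm_add_left, herm_add_right, herm_smul_left, herm_smul_right, a1, a2,
          mul_zero, add_zero, zero_add] at a3 a4
        have a5 : (conj e - e) * herm (pr x) (pr y) = 0 := by
          linear_combination a4 - e * a3
        rcases mul_eq_zero.1 a5 with h | h
        · apply hei
          exact Complex.conj_eq_iff_im.1 (sub_eq_zero.1 h)
        · exact hxy h
      refine ih (k + 1) (by omega) ⟨Fin.snoc b z, ?_, ?_, ?_⟩
      · intro i
        refine Fin.lastCases ?_ (fun j => ?_) i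
        · rw [Fin.snoc_last]; exact hz
        · rw [Fin.snoc_castSucc]; exact hbX j
      · intro i
        refine Fin.lastCases ?_ (fun j => ?_) i
        · rw [Fin.snoc_last]; exact hzz
        · rw [Fin.snoc_castSucc]; exact hb0 j
      · intro i
        refine Fin.lastCases ?_ (fun i' => ?_) i
        · intro j
          refine Fin.lastCases ?_ (fun j' => ?_) j
          · intro h; exact absurd rfl h
          · intro _; rw [Fin.snoc_last, Fin.snoc_castSucc]; exact hzo j'
        · intro j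
          refine Fin.lastCases ?_ (fun j' => ?_) j
          · intro _; rw [Fin.snoc_last, Fin.snoc_castSucc]; exact herm_conj_zero (hzo i')
          · intro h; rw [Fin.snoc_castSucc, Fin.snoc_castSucc]
            exact hbo i' j' (fun h' => h (by rw [h']))
  exact main (n + 2) 0 (by omega) ⟨fun i => i.elim0, fun i => i.elim0, fun i => i.elim0,
    fun i => i.elim0⟩

/-- A vector of `W` whose pairings with `X` are rational lies in `X`. -/
theorem g_mem_of_herm {E : IntermediateField ℚ ℂ} (hconj : ∀ z ∈ E, conj z ∈ E)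
    (hnr : ∃ z ∈ E, z.im ≠ 0)
    {W : Submodule ℂ (Fin (n + 1) → ℂ)} {X : Submodule E (Fin (n + 1) → ℂ)}
    (hnd : ∀ v ∈ W, (∀ w ∈ W, herm v w = 0) → v = 0)
    (hspan : Submodule.span ℂ (X : Set (Fin (n + 1) → ℂ)) = W)
    {s : ℝ} (hs0 : s ≠ 0) (hs : ∀ x ∈ X, ∀ y ∈ X, (s : ℂ) * herm x y ∈ E)
    {w : Fin (n + 1) → ℂ} (hw : w ∈ W) (hwX : ∀ x ∈ X, (s : ℂ) * herm x w ∈ E) : w ∈ X := by
  have hs0' : (s : ℂ) ≠ 0 := by exact_mod_cast hs0
  obtain ⟨k, b, hbX, hb0, -, hres⟩ := exists_orth_basis hconj hnr hnd hspan hs0 hs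
  rw [hres w hw]
  refine X.sum_mem fun i _ => smul_mem_E ?_ (hbX i)
  have h1 := hconj _ (hwX _ (hbX i))
  rw [map_mul, conj_herm, Complex.conj_ofReal] at h1
  have h2 := E.div_mem h1 (hs _ (hbX i) _ (hbX i))
  rwa [mul_div_mul_left _ _ hs0'] at h2

/-- the trace by a resolution of the identity -/
theorem trace_res {ι : Type*} [Fintype ι] {b : ι → (Fin (n + 1) → ℂ)}
    (h : Res (⊤ : Submodule ℂ (Fin (n + 1) → ℂ)) b)
    (M : Matrix (Fin (n + 1)) (Fin (n + 1)) ℂ) :
    M.trace = ∑ i, herm (M *ᵥ b i) (b i) / herm (b i) (b i) := by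
  have h1 : M = ∑ i, vecMulVec (M *ᵥ b i) ((herm (b i) (b i))⁻¹ • row (b i)) := by
    apply Matrix.ext_iff_mulVec.2
    intro v
    conv_lhs => rw [h v trivial]
    rw [Matrix.sum_mulVec, Matrix.mulVec_sum]
    refine Finset.sum_congr rfl fun i _ => ?_
    rw [Matrix.mulVec_smul, vecMulVec_mulVec, smul_dotProduct, row_dot]
    funext j
    simp only [Pi.smul_apply, smul_eq_mul, MulOpposite.smul_eq_mul_unop, MulOpposite.unop_op]
    ring
  conv_lhs => rw [h1]
  rw [Matrix.trace_sum]
  refine Finset.sum_congr rfl fun i _ => ?_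
  rw [Matrix.trace_vecMulVec, dotProduct_smul, dot_row, smul_eq_mul]
  ring

end Pool.Agent.Q107.Hunt
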