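import Pool.Agent.Q107.Hunt.Form

/-! # Heisenberg elements of arithmetic groups -/

namespace Pool.Agent.Q107.Hunt

open Matrix ComplexConjugate

variable {n : ℕ}

theorem E_smul {E : IntermediateField ℚ ℂ} (b : E) (v : Fin (n + 1) → ℂ) :
    b • v = (b : ℂ) • v := by
  funext i
  simp only [Pi.smul_apply, smul_eq_mul]
  exact Algebra.smul_def b (v i)

theorem zsmul_app (c : ℤ) (u : Fin (n + 1) → ℂ) (i : Fin (n + 1)) :
    (c • u) i = (c : ℂ) * u i := by
  rw [Pi.smul_apply, zsmul_eq_mul]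

theorem smul_mem_E {E : IntermediateField ℚ ℂ} {X : Submodule E (Fin (n + 1) → ℂ)}
    {b : ℂ} (hb : b ∈ E) {v : Fin (n + 1) → ℂ} (hv : v ∈ X) : b • v ∈ X := by
  have := X.smul_mem ⟨b, hb⟩ hv
  rwa [E_smul] at this

/-- A vector of `W` whose pairings with `X` are rational lies in `X`. -/
theorem mem_of_herm {E : IntermediateField ℚ ℂ} (hE : ImagQuad E)
    {W : Submodule ℂ (Fin (n + 1) → ℂ)} {X : Submodule E (Fin (n + 1) → ℂ)}
    (hnd : ∀ v ∈ W, (∀ w ∈ W, herm v w = 0) → v = 0)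
    (hspan : Submodule.span ℂ (X : Set (Fin (n + 1) → ℂ)) = W)
    {s : ℝ} (hs0 : s ≠ 0) (hs : ∀ x ∈ X, ∀ y ∈ X, (s : ℂ) * herm x y ∈ E)
    {w : Fin (n + 1) → ℂ} (hw : w ∈ W) (hwX : ∀ x ∈ X, (s : ℂ) * herm x w ∈ E) : w ∈ X := by
  -- an E-linear retraction of ℂ onto E
  obtain ⟨π, hπ⟩ := LinearMap.exists_leftInverse_of_injective (Algebra.linearMap E ℂ)
    (by
      rw [LinearMap.ker_eq_bot]
      exact (algebraMap E ℂ).injective)
  have hπ1 : ∀ e : E, π (e : ℂ) = e := fun e => by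
    have := congrArg (fun f => f e) hπ
    simpa using this
  have hπm : ∀ (z : ℂ) (e : ℂ) (he : e ∈ E), ((π (z * e) : E) : ℂ) = (π z : ℂ) * e := by
    intro z e he
    have h1 : π (z * e) = (⟨e, he⟩ : E) • π z := by
      rw [← map_smul]
      congr 1
      rw [Algebra.smul_def]
      exact mul_comm _ _
    rw [h1]
    show e * (π z : ℂ) = _
    ring
  rw [← hspan, Submodule.mem_span_set'] at hw
  obtain ⟨m, c, g, hcg⟩ := hw
  set c' : Fin m → ℂ := fun i => conj ((π (conj (c i)) : E) : ℂ) with hc'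
  have hc'E : ∀ i, c' i ∈ E := fun i => hE.conj_mem (π (conj (c i))).2
  set w' : Fin (n + 1) → ℂ := ∑ i, c' i • (g i : Fin (n + 1) → ℂ) with hw'
  have hw'X : w' ∈ X := X.sum_mem fun i _ => smul_mem_E (hc'E i) (g i).2
  have hsumr : ∀ (x : Fin (n + 1) → ℂ) (d : Fin m → ℂ),
      herm x (∑ i, d i • (g i : Fin (n + 1) → ℂ)) = ∑ i, conj (d i) * herm x (g i) := by
    intro x d
    have key : ∀ s : Finset (Fin m), herm x (∑ i ∈ s, d i • (g i : Fin (n + 1) → ℂ)) =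
        ∑ i ∈ s, conj (d i) * herm x (g i) := by
      intro s
      induction s using Finset.induction_on with
      | empty => simp
      | insert a s ha ih =>
        rw [Finset.sum_insert ha, Finset.sum_insert ha, herm_add_right, ih, herm_smul_right]
    exact key _
  have hpair : ∀ x ∈ X, herm x w = herm x w' := by
    intro x hx
    have h1 : (s : ℂ) * herm x w = (s : ℂ) * herm x w' := by
      have e1 : (s : ℂ) * herm x w = ∑ i, conj (c i) * ((s : ℂ) * herm x (g i)) := by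
        rw [← hcg, hsumr, Finset.mul_sum]
        exact Finset.sum_congr rfl fun i _ => by ring
      have e2 : (s : ℂ) * herm x w' =
          ∑ i, ((π (conj (c i)) : E) : ℂ) * ((s : ℂ) * herm x (g i)) := by
        rw [hw', hsumr, Finset.mul_sum]
        refine Finset.sum_congr rfl fun i _ => ?_
        rw [hc']
        simp only [Complex.conj_conj]
        ring
      have e3 : ((π ((s : ℂ) * herm x w) : E) : ℂ) = (s : ℂ) * herm x w := by
        have := hπ1 ⟨_, hwX x hx⟩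
        rw [show (((⟨_, hwX x hx⟩ : E)) : ℂ) = (s : ℂ) * herm x w from rfl] at this
        rw [this]
      rw [e2, ← e3, e1, map_sum]
      rw [show ((∑ i, π (conj (c i) * ((s : ℂ) * herm x (g i))) : E) : ℂ) =
        ∑ i, ((π (conj (c i) * ((s : ℂ) * herm x (g i))) : E) : ℂ) from by
          rw [AddSubmonoidClass.coe_finsetSum]]
      refine Finset.sum_congr rfl fun i _ => ?_
      exact hπm _ _ (hs x hx _ (g i).2)
    exact mul_left_cancel₀ (by exact_mod_cast hs0) h1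
  have hw0 : w ∈ W := by
    rw [← hcg, ← hspan]
    exact Submodule.sum_mem _ fun i _ => Submodule.smul_mem _ _ (Submodule.subset_span (g i).2)
  have hw'0 : w' ∈ W := by rw [← hspan]; exact Submodule.subset_span hw'X
  have hdiff : w - w' = 0 := by
    refine hnd _ (W.sub_mem hw0 hw'0) fun v hv => ?_
    rw [← conj_herm]
    rw [← hspan] at hv
    have : herm v (w - w') = 0 := by
      induction hv using Submodule.span_induction with
      | mem x hx => rw [herm_sub_right, hpair x hx, sub_self]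
      | zero => simp
      | add x y _ _ hx hy => rw [herm_add_left, hx, hy, add_zero]
      | smul a x _ hx => rw [herm_smul_left, hx, mul_zero]
    rw [this, map_zero]
  rw [sub_eq_zero.1 hdiff]
  exact hw'X

/-- Deep Heisenberg elements stabilise the lattice. -/
theorem exists_T_mem_stab {E : IntermediateField ℚ ℂ} (hE : ImagQuad E)
    {W : Submodule ℂ (Fin (n + 1) → ℂ)} {X : Submodule E (Fin (n + 1) → ℂ)}
    (hspan : Submodule.span ℂ (X : Set (Fin (n + 1) → ℂ)) = W)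
    {s : ℝ} (hs : ∀ x ∈ X, ∀ y ∈ X, (s : ℂ) * herm x y ∈ E)
    {Λ : AddSubgroup (Fin (n + 1) → ℂ)} (hΛ : IsLat E X Λ)
    {p ζ : Fin (n + 1) → ℂ} {θ : ℂ} (hp : p ∈ X) (hζ : ζ ∈ X) (hθE : θ ∈ E)
    (hθ : conj θ = -θ) (hpp : herm p p = 0) (hζp : herm ζ p = 0) :
    ∃ K : ℕ, 0 < K ∧ ∀ (h : herm (((s : ℂ) * K) • ζ) p = 0),
      T p (((s : ℂ) * K) • ζ) ((s : ℂ) * K * θ) hpp h ∈ stab n W Λ := by
  have hΛX : ∀ v ∈ Λ, v ∈ X := fun v hv => hΛ.2.2 ▸ Submodule.subset_span hv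
  have hsub : ∀ x ∈ X, x ∈ W := fun x hx => hspan ▸ Submodule.subset_span hx
  have h2E : (2 : ℂ) ∈ E := by
    have := rat_mem E 2
    rwa [Rat.cast_ofNat] at this
  obtain ⟨k1, hk1, h1⟩ := exists_mul_map hE hΛ hΛ.1 (fun v => ((s : ℂ) * herm v p) • ζ)
    (by intro x y; rw [herm_add_left, mul_add, add_smul])
    (fun x hx => smul_mem_E (hs x (hΛX x hx) p hp) hζ)
  obtain ⟨k2, hk2, h2⟩ := exists_mul_map hE hΛ hΛ.1 (fun v => (θ * ((s : ℂ) * herm v p)) • p)
    (by intro x y; rw [herm_add_left, mul_add, mul_add, add_smul])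
    (fun x hx => smul_mem_E (E.mul_mem hθE (hs x (hΛX x hx) p hp)) hp)
  obtain ⟨k3, hk3, h3⟩ := exists_mul_map hE hΛ hΛ.1 (fun v => ((s : ℂ) * herm v ζ) • p)
    (by intro x y; rw [herm_add_left, mul_add, add_smul])
    (fun x hx => smul_mem_E (hs x (hΛX x hx) ζ hζ) hp)
  obtain ⟨k4, hk4, h4⟩ := exists_mul_map hE hΛ hΛ.1
    (fun v => ((s : ℂ) * herm ζ ζ / 2 * ((s : ℂ) * herm v p)) • p)
    (by intro x y; rw [herm_add_left, mul_add, mul_add, add_smul])
    (fun x hx => smul_mem_E (E.mul_mem (E.div_mem (hs ζ hζ ζ hζ) h2E)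
      (hs x (hΛX x hx) p hp)) hp)
  set K : ℕ := k1 * k2 * k3 * k4 with hK
  have hKpos : 0 < K := by positivity
  -- the general action
  have hact : ∀ (c : ℤ) (hc : herm (((s : ℂ) * c) • ζ) p = 0) (v : Fin (n + 1) → ℂ),
      act (T p (((s : ℂ) * c) • ζ) ((s : ℂ) * c * θ) hpp hc) v =
        v + c • (((s : ℂ) * herm v p) • ζ) + c • ((θ * ((s : ℂ) * herm v p)) • p)
          - c • (((s : ℂ) * herm v ζ) • p)
          - (c * c) • (((s : ℂ) * herm ζ ζ / 2 * ((s : ℂ) * herm v p)) • p) := by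
    intro c hc v
    have es : conj ((s : ℂ) * c) = (s : ℂ) * c := by
      rw [map_mul, Complex.conj_ofReal, map_intCast]
    rw [act_T, kap, herm_smul_left, herm_smul_right, herm_smul_right, es]
    funext i
    simp only [Pi.add_apply, Pi.sub_apply, zsmul_app]
    simp only [Pi.smul_apply, smul_eq_mul]
    push_cast
    ring
  have hc0 : ∀ c : ℤ, herm (((s : ℂ) * c) • ζ) p = 0 := fun c => by
    rw [herm_smul_left, hζp, mul_zero]
  have hmemc : ∀ c : ℤ, (K : ℤ) ∣ c → ∀ v ∈ Λ,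
      act (T p (((s : ℂ) * c) • ζ) ((s : ℂ) * c * θ) hpp (hc0 c)) v ∈ Λ := by
    rintro c ⟨d, rfl⟩ v hv
    have m1 : ∀ (k : ℕ) (_ : k ∣ K) (u : Fin (n + 1) → ℂ) (_ : (k : ℂ) • u ∈ Λ) (e : ℤ),
        ((K : ℤ) * e) • u ∈ Λ := by
      rintro k ⟨l, hl⟩ u hu e
      have : ((K : ℤ) * e) • u = ((l : ℤ) * e) • ((k : ℂ) • u) := by
        rw [hl]
        funext i
        simp only [zsmul_app]
        simp only [Pi.smul_apply, smul_eq_mul]
        push_cast
        ring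
      rw [this]
      exact Λ.zsmul_mem hu _
    have d1 : k1 ∣ K := ⟨k2 * k3 * k4, by rw [hK]; ring⟩
    have d2 : k2 ∣ K := ⟨k1 * k3 * k4, by rw [hK]; ring⟩
    have d3 : k3 ∣ K := ⟨k1 * k2 * k4, by rw [hK]; ring⟩
    have d4 : k4 ∣ K := ⟨k1 * k2 * k3, by rw [hK]; ring⟩
    rw [hact]
    refine Λ.sub_mem (Λ.sub_mem (Λ.add_mem (Λ.add_mem hv (m1 k1 d1 _ (h1 v hv) d))
      (m1 k2 d2 _ (h2 v hv) d)) (m1 k3 d3 _ (h3 v hv) d)) ?_
    have := m1 k4 d4 _ (h4 v hv) (d * (K * d))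
    rwa [← mul_assoc] at this
  refine ⟨K, hKpos, fun h => ?_⟩
  have hTK : ∀ c : ℤ, T p (((s : ℂ) * c) • ζ) ((s : ℂ) * c * θ) hpp (hc0 c) *
      T p (((s : ℂ) * (-c : ℤ)) • ζ) ((s : ℂ) * (-c : ℤ) * θ) hpp (hc0 (-c)) = 1 := by
    intro c
    apply ext_act
    intro v
    rw [T_mul hpp (hc0 c) (hc0 (-c)) (by rw [herm_add_left, hc0, hc0, add_zero]), act_T, act_one]
    have e1 : ((s : ℂ) * c) • ζ + ((s : ℂ) * (-c : ℤ)) • ζ = 0 := by
      rw [← add_smul]; push_cast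
      rw [show (s : ℂ) * c + (s : ℂ) * -c = 0 by ring, zero_smul]
    rw [e1]
    simp only [kap, herm_zero_right, herm_smul_left, herm_smul_right, map_mul,
      Complex.conj_ofReal, map_intCast]
    funext i
    simp only [Pi.add_apply, Pi.smul_apply, smul_eq_mul, Pi.zero_apply]
    push_cast
    ring
  have hsu : T p (((s : ℂ) * (K : ℤ)) • ζ) ((s : ℂ) * (K : ℤ) * θ) hpp (hc0 K) ∈ suOf n W := by
    refine ⟨T_mem_SU hpp _ ?_, fun v hv => ?_⟩
    · rw [map_mul, map_mul, Complex.conj_ofReal, map_intCast, hθ]; ring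
    · rw [act_T, herm_smul_right, hv p (hsub p hp), hv ζ (hsub ζ hζ)]
      simp
  have hst : T p (((s : ℂ) * (K : ℤ)) • ζ) ((s : ℂ) * (K : ℤ) * θ) hpp (hc0 K) ∈
      stab n W Λ := by
    refine ⟨hsu, fun v => ⟨fun hv => hmemc K (dvd_refl _) v hv, fun hv => ?_⟩⟩
    have h5 := hmemc (-K) (dvd_neg.2 (dvd_refl _)) _ hv
    rw [← act_mul] at h5
    have h6 := hTK (-K)
    simp only [neg_neg] at h6
    rw [h6, act_one] at h5
    exact h5
  simpa using hst

/-- Every Heisenberg direction is virtually in the arithmetic group. -/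
theorem exists_T_mem {E : IntermediateField ℚ ℂ}
    {W : Submodule ℂ (Fin (n + 1) → ℂ)} {X : Submodule E (Fin (n + 1) → ℂ)}
    {Γ : Subgroup (SpecialLinearGroup (Fin (n + 1)) ℂ)} (h : IsArith n E W X Γ)
    {s : ℝ} (hs : ∀ x ∈ X, ∀ y ∈ X, (s : ℂ) * herm x y ∈ E)
    {p ζ : Fin (n + 1) → ℂ} {θ : ℂ} (hp : p ∈ X) (hζ : ζ ∈ X) (hθE : θ ∈ E)
    (hθ : conj θ = -θ) (hpp : herm p p = 0) (hζp : herm ζ p = 0) :
    ∃ K : ℕ, 0 < K ∧ ∀ (h : herm (((s : ℂ) * K) • ζ) p = 0),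
      T p (((s : ℂ) * K) • ζ) ((s : ℂ) * K * θ) hpp h ∈ Γ := by
  obtain ⟨hE, hform, -, Λ, hΛ, hcomm⟩ := h
  obtain ⟨K, hK, hmem⟩ := exists_T_mem_stab hE hform.2.1 hs hΛ hp hζ hθE hθ hpp hζp
  have h0 : herm (((s : ℂ) * K) • ζ) p = 0 := by rw [herm_smul_left, hζp, mul_zero]
  obtain ⟨m, hm, -, hpow⟩ := Subgroup.exists_pow_mem_of_relIndex_ne_zero hcomm.1 (hmem h0)
  have h1 : herm ((m : ℂ) • (((s : ℂ) * K) • ζ)) p = 0 := by
    rw [herm_smul_left, h0, mul_zero]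
  rw [T_pow hpp h0 m h1] at hpow
  refine ⟨K * m, Nat.mul_pos hK hm, fun h => ?_⟩
  have e1 : (m : ℂ) • (((s : ℂ) * K) • ζ) = ((s : ℂ) * ((K * m : ℕ) : ℂ)) • ζ := by
    rw [smul_smul]; congr 1; push_cast; ring
  have e2 : (m : ℂ) * ((s : ℂ) * K * θ) = (s : ℂ) * ((K * m : ℕ) : ℂ) * θ := by
    push_cast; ring
  have e3 : T p (((s : ℂ) * ((K * m : ℕ) : ℂ)) • ζ) ((s : ℂ) * ((K * m : ℕ) : ℂ) * θ) hpp h =
      T p ((m : ℂ) • (((s : ℂ) * K) • ζ)) ((m : ℂ) * ((s : ℂ) * K * θ)) hpp h1 := by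
    apply ext_act
    intro v
    rw [act_T, act_T, e1, e2]
  rw [e3]
  exact hpow.1

end Pool.Agent.Q107.Hunt
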