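import Mathlib

/-! # The standard Hermitian form of signature `(n,1)`, the group `SU(n,1)` and its Heisenberg elements -/

namespace Pool.Agent.Q107.Hunt

open Matrix ComplexConjugate

variable {n : ℕ}

/-- signs of the standard form -/
def sg (n : ℕ) (i : Fin (n + 1)) : ℂ := if i = Fin.last n then -1 else 1

theorem sg_conj (i : Fin (n + 1)) : conj (sg n i) = sg n i := by
  unfold sg; split_ifs <;> simp

theorem sg_mul_self (i : Fin (n + 1)) : sg n i * sg n i = 1 := by
  unfold sg; split_ifs <;> simp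

/-- the standard Hermitian form of signature `(n,1)` on `ℂ^(n+1)`:
`herm v w = v_0 conj w_0 + ... + v_{n-1} conj w_{n-1} - v_n conj w_n` -/
def herm (v w : Fin (n + 1) → ℂ) : ℂ := ∑ i, sg n i * (v i * conj (w i))

theorem herm_add_left (v v' w : Fin (n + 1) → ℂ) : herm (v + v') w = herm v w + herm v' w := by
  simp only [herm, ← Finset.sum_add_distrib, Pi.add_apply]
  exact Finset.sum_congr rfl fun i _ => by ring

theorem herm_smul_left (c : ℂ) (v w : Fin (n + 1) → ℂ) : herm (c • v) w = c * herm v w := by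
  simp only [herm, Finset.mul_sum, Pi.smul_apply, smul_eq_mul]
  exact Finset.sum_congr rfl fun i _ => by ring

theorem conj_herm (v w : Fin (n + 1) → ℂ) : conj (herm v w) = herm w v := by
  simp only [herm, map_sum, map_mul, Complex.conj_conj, sg_conj]
  exact Finset.sum_congr rfl fun i _ => by ring

theorem herm_add_right (v w w' : Fin (n + 1) → ℂ) : herm v (w + w') = herm v w + herm v w' := by
  rw [← conj_herm, herm_add_left, map_add, conj_herm, conj_herm]

theorem herm_smul_right (c : ℂ) (v w : Fin (n + 1) → ℂ) :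
    herm v (c • w) = conj c * herm v w := by
  rw [← conj_herm, herm_smul_left, map_mul, conj_herm]

@[simp] theorem herm_zero_left (w : Fin (n + 1) → ℂ) : herm 0 w = 0 := by
  simp [herm]

@[simp] theorem herm_zero_right (w : Fin (n + 1) → ℂ) : herm w 0 = 0 := by
  simp [herm]

theorem herm_neg_left (v w : Fin (n + 1) → ℂ) : herm (-v) w = - herm v w := by
  have := herm_smul_left (-1) v w
  simpa using this

theorem herm_neg_right (v w : Fin (n + 1) → ℂ) : herm v (-w) = - herm v w := by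
  have := herm_smul_right (-1) v w
  simpa using this

theorem herm_sub_left (v v' w : Fin (n + 1) → ℂ) : herm (v - v') w = herm v w - herm v' w := by
  rw [sub_eq_add_neg, herm_add_left, herm_neg_left, ← sub_eq_add_neg]

theorem herm_sub_right (v w w' : Fin (n + 1) → ℂ) : herm v (w - w') = herm v w - herm v w' := by
  rw [sub_eq_add_neg, herm_add_right, herm_neg_right, ← sub_eq_add_neg]

/-- The form is nondegenerate. -/
theorem herm_nondeg {v : Fin (n + 1) → ℂ} (h : ∀ w, herm v w = 0) : v = 0 := by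
  funext i
  have h1 := h (Pi.single i (sg n i))
  rw [herm, Finset.sum_eq_single i] at h1
  · simp only [Pi.single_eq_same, sg_conj] at h1
    have h2 : sg n i * (v i * sg n i) = (sg n i * sg n i) * v i := by ring
    rw [h2, sg_mul_self, one_mul] at h1
    simpa using h1
  · intro j _ hj
    simp [Pi.single_eq_of_ne hj]
  · intro h2; exact absurd (Finset.mem_univ i) h2

/-- The row vector of `v ↦ herm v w`. -/
def row (w : Fin (n + 1) → ℂ) : Fin (n + 1) → ℂ := fun j => sg n j * conj (w j)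

theorem row_dot (v w : Fin (n + 1) → ℂ) : row w ⬝ᵥ v = herm v w := by
  simp only [dotProduct, row, herm]
  exact Finset.sum_congr rfl fun i _ => by ring

theorem dot_row (v w : Fin (n + 1) → ℂ) : v ⬝ᵥ row w = herm v w := by
  rw [dotProduct_comm, row_dot]

/-- an isotropic vector has nonzero last coordinate -/
theorem last_ne_zero {p : Fin (n + 1) → ℂ} (hp : p ≠ 0) (hpp : herm p p = 0) :
    p (Fin.last n) ≠ 0 := by
  intro h0
  apply hp
  have h1 : herm p p = ((∑ i, ‖p i‖ ^ 2 : ℝ) : ℂ) := by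
    rw [herm]; push_cast
    refine Finset.sum_congr rfl fun i _ => ?_
    unfold sg
    split_ifs with hi
    · subst hi; simp [h0]
    · rw [one_mul, Complex.mul_conj, Complex.normSq_eq_norm_sq]; push_cast; ring
  rw [h1] at hpp
  have h2 : (∑ i, ‖p i‖ ^ 2 : ℝ) = 0 := by exact_mod_cast hpp
  rw [Finset.sum_eq_zero_iff_of_nonneg (fun i _ => by positivity)] at h2
  funext i
  have := h2 i (Finset.mem_univ i)
  simpa using this

/-- On the orthogonal complement of an isotropic vector `p` the isotropic vectors are the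
multiples of `p`. -/
theorem iso_perp {p v : Fin (n + 1) → ℂ} (hp : p ≠ 0) (hpp : herm p p = 0)
    (hvp : herm v p = 0) (hvv : herm v v = 0) : ∃ c : ℂ, v = c • p := by
  have hl := last_ne_zero hp hpp
  set c := v (Fin.last n) / p (Fin.last n) with hc
  refine ⟨c, ?_⟩
  set u := v - c • p with hu
  have hu0 : u (Fin.last n) = 0 := by
    simp [hu, hc, div_mul_cancel₀ _ hl]
  have hpv : herm p v = 0 := by rw [← conj_herm, hvp, map_zero]
  have huu : herm u u = 0 := by
    rw [hu, herm_sub_left, herm_sub_right, herm_sub_right, herm_smul_left, herm_smul_left,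
      herm_smul_right, herm_smul_right, hvv, hvp, hpv, hpp]
    ring
  by_contra hne
  have hu1 : u ≠ 0 := fun h => hne (sub_eq_zero.1 (hu ▸ h))
  exact last_ne_zero hu1 huu hu0

/-- the action of `SL(n+1,ℂ)` on `ℂ^(n+1)` -/
def act (g : SpecialLinearGroup (Fin (n + 1)) ℂ) (v : Fin (n + 1) → ℂ) : Fin (n + 1) → ℂ :=
  (g : Matrix (Fin (n + 1)) (Fin (n + 1)) ℂ) *ᵥ v

theorem act_mul (g h : SpecialLinearGroup (Fin (n + 1)) ℂ) (v : Fin (n + 1) → ℂ) :
    act (g * h) v = act g (act h v) := by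
  show (g.1 * h.1) *ᵥ v = g.1 *ᵥ (h.1 *ᵥ v)
  rw [mulVec_mulVec]

@[simp] theorem act_one (v : Fin (n + 1) → ℂ) :
    act (1 : SpecialLinearGroup (Fin (n + 1)) ℂ) v = v := by
  show (1 : Matrix (Fin (n + 1)) (Fin (n + 1)) ℂ) *ᵥ v = v
  rw [one_mulVec]

theorem act_add (g : SpecialLinearGroup (Fin (n + 1)) ℂ) (v w : Fin (n + 1) → ℂ) :
    act g (v + w) = act g v + act g w := mulVec_add _ _ _

theorem act_smul (g : SpecialLinearGroup (Fin (n + 1)) ℂ) (c : ℂ) (v : Fin (n + 1) → ℂ) :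
    act g (c • v) = c • act g v := mulVec_smul _ _ _

@[simp] theorem act_zero (g : SpecialLinearGroup (Fin (n + 1)) ℂ) :
    act g (0 : Fin (n + 1) → ℂ) = 0 := mulVec_zero _

theorem act_neg (g : SpecialLinearGroup (Fin (n + 1)) ℂ) (v : Fin (n + 1) → ℂ) :
    act g (-v) = - act g v := mulVec_neg _ _

theorem act_sub (g : SpecialLinearGroup (Fin (n + 1)) ℂ) (v w : Fin (n + 1) → ℂ) :
    act g (v - w) = act g v - act g w := by
  rw [sub_eq_add_neg, act_add, act_neg, ← sub_eq_add_neg]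

@[simp] theorem act_act_inv (a : SpecialLinearGroup (Fin (n + 1)) ℂ) (v : Fin (n + 1) → ℂ) :
    act a (act a⁻¹ v) = v := by
  rw [← act_mul, mul_inv_cancel, act_one]

@[simp] theorem act_inv_act (a : SpecialLinearGroup (Fin (n + 1)) ℂ) (v : Fin (n + 1) → ℂ) :
    act a⁻¹ (act a v) = v := by
  rw [← act_mul, inv_mul_cancel, act_one]

theorem ext_act {g g' : SpecialLinearGroup (Fin (n + 1)) ℂ}
    (h : ∀ v, act g v = act g' v) : g = g' :=
  Subtype.ext (Matrix.ext_iff_mulVec.2 h)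

/-- the group `SU(n,1)` -/
def SU (n : ℕ) : Subgroup (SpecialLinearGroup (Fin (n + 1)) ℂ) where
  carrier := {g | ∀ v w : Fin (n + 1) → ℂ, herm (act g v) (act g w) = herm v w}
  mul_mem' := by
    intro a b ha hb v w
    rw [act_mul, act_mul]
    exact (ha _ _).trans (hb _ _)
  one_mem' := by intro v w; simp
  inv_mem' := by
    intro a ha v w
    have := ha (act a⁻¹ v) (act a⁻¹ w)
    rw [act_act_inv, act_act_inv] at this
    exact this.symm

/-- The coefficient functional of the Heisenberg element. -/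
noncomputable def kap (ζ : Fin (n + 1) → ℂ) (θ : ℂ) : ℂ := θ - herm ζ ζ / 2

/-- matrix of the Heisenberg element -/
noncomputable def Tmat (p ζ : Fin (n + 1) → ℂ) (θ : ℂ) : Matrix (Fin (n + 1)) (Fin (n + 1)) ℂ :=
  1 + (vecMulVec ζ (row p) + vecMulVec p (kap ζ θ • row p - row ζ))

theorem Tmat_mulVec (p ζ : Fin (n + 1) → ℂ) (θ : ℂ) (v : Fin (n + 1) → ℂ) :
    Tmat p ζ θ *ᵥ v = v + herm v p • ζ + (kap ζ θ * herm v p - herm v ζ) • p := by
  rw [Tmat, add_mulVec, one_mulVec, add_mulVec, vecMulVec_mulVec, vecMulVec_mulVec,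
    sub_dotProduct, smul_dotProduct, row_dot, row_dot, smul_eq_mul, add_assoc]
  funext i
  simp only [Pi.add_apply, Pi.smul_apply, smul_eq_mul, MulOpposite.smul_eq_mul_unop,
    MulOpposite.unop_op]
  ring

theorem Tmat_det {p ζ : Fin (n + 1) → ℂ} (θ : ℂ) (hpp : herm p p = 0) (hζ : herm ζ p = 0) :
    (Tmat p ζ θ).det = 1 := by
  set A : Matrix (Fin (n + 1)) (Fin 2) ℂ := Matrix.of fun i j => ![ζ i, p i] j with hA
  set B : Matrix (Fin 2) (Fin (n + 1)) ℂ :=
    Matrix.of fun j i => ![row p i, (kap ζ θ • row p - row ζ) i] j with hB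
  have h1 : Tmat p ζ θ = 1 + A * B := by
    rw [Tmat]
    congr 1
    ext i j
    rw [Matrix.mul_apply, Fin.sum_univ_two]
    simp [hA, hB, vecMulVec_apply]
  have hpζ : herm p ζ = 0 := by rw [← conj_herm, hζ, map_zero]
  rw [h1, det_one_add_mul_comm, det_fin_two]
  have e : ∀ a b, (B * A) a b = B a ⬝ᵥ (fun i => A i b) := fun a b => rfl
  have b0 : B 0 = row p := by ext i; simp [hB]
  have b1 : B 1 = kap ζ θ • row p - row ζ := by ext i; simp [hB]
  have a0 : (fun i => A i 0) = ζ := by ext i; simp [hA]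
  have a1 : (fun i => A i 1) = p := by ext i; simp [hA]
  simp only [Matrix.add_apply, e, b0, b1, a0, a1, sub_dotProduct, smul_dotProduct, row_dot,
    hpp, hζ, hpζ]
  simp

/-- The Heisenberg element `T(p, ζ, θ)` of `SU(n,1)`:
`v ↦ v + h(v,p) ζ + ((θ - h(ζ,ζ)/2) h(v,p) - h(v,ζ)) p`. -/
noncomputable def T (p ζ : Fin (n + 1) → ℂ) (θ : ℂ) (hpp : herm p p = 0) (hζ : herm ζ p = 0) :
    SpecialLinearGroup (Fin (n + 1)) ℂ := ⟨Tmat p ζ θ, Tmat_det θ hpp hζ⟩

theorem act_T {p ζ : Fin (n + 1) → ℂ} {θ : ℂ} (hpp : herm p p = 0) (hζ : herm ζ p = 0)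
    (v : Fin (n + 1) → ℂ) :
    act (T p ζ θ hpp hζ) v = v + herm v p • ζ + (kap ζ θ * herm v p - herm v ζ) • p :=
  Tmat_mulVec p ζ θ v

theorem T_mul {p ζ ζ' : Fin (n + 1) → ℂ} {θ θ' : ℂ} (hpp : herm p p = 0) (hζ : herm ζ p = 0)
    (hζ' : herm ζ' p = 0) (h2 : herm (ζ + ζ') p = 0) :
    T p ζ θ hpp hζ * T p ζ' θ' hpp hζ' =
      T p (ζ + ζ') (θ + θ' + (herm ζ ζ' - herm ζ' ζ) / 2) hpp h2 := by
  have hpζ : herm p ζ = 0 := by rw [← conj_herm, hζ, map_zero]
  apply ext_act
  intro v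
  rw [act_mul, act_T, act_T, act_T]
  simp only [herm_add_left, herm_smul_left, hpp, hζ', hpζ, herm_add_right, kap]
  funext i
  simp only [Pi.add_apply, Pi.smul_apply, smul_eq_mul]
  ring

theorem T_mem_SU {p ζ : Fin (n + 1) → ℂ} {θ : ℂ} (hpp : herm p p = 0) (hζ : herm ζ p = 0)
    (hθ : conj θ = -θ) : T p ζ θ hpp hζ ∈ SU n := by
  have hpζ : herm p ζ = 0 := by rw [← conj_herm, hζ, map_zero]
  intro v w
  rw [act_T, act_T]
  have e1 : conj (kap ζ θ) = -θ - herm ζ ζ / 2 := by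
    rw [kap, map_sub, map_div₀, conj_herm, hθ]
    have : conj (2 : ℂ) = 2 := Complex.conj_ofNat 2
    rw [this]
  simp only [herm_add_left, herm_add_right, herm_smul_left, herm_smul_right, hpp, hζ, hpζ,
    map_sub, map_mul, conj_herm, e1]
  rw [kap]
  ring

theorem T_eq_one_iff {p : Fin (n + 1) → ℂ} {θ : ℂ} (hp : p ≠ 0) (hpp : herm p p = 0)
    (h0 : herm (0 : Fin (n + 1) → ℂ) p = 0) : T p 0 θ hpp h0 = 1 ↔ θ = 0 := by
  constructor
  · intro h
    by_contra hθ
    obtain ⟨v, hv⟩ : ∃ v, herm p v ≠ 0 := by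
      by_contra hcon
      push Not at hcon
      exact hp (herm_nondeg hcon)
    have hv' : herm v p ≠ 0 := by
      rw [← conj_herm]; simpa using hv
    have h1 := act_T (θ := θ) hpp h0 v
    rw [h] at h1
    simp only [act_one, smul_zero, add_zero, herm_zero_right,
      sub_zero, kap, zero_div] at h1
    have h2 : (θ * herm v p) • p = 0 := by
      have := h1.symm
      rwa [add_eq_left] at this
    rcases smul_eq_zero.1 h2 with h3 | h3
    · exact (mul_ne_zero hθ hv') h3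
    · exact hp h3
  · rintro rfl
    apply ext_act
    intro v
    rw [act_T]
    simp [kap]

theorem T_pow {p ζ : Fin (n + 1) → ℂ} {θ : ℂ} (hpp : herm p p = 0) (hζ : herm ζ p = 0)
    (m : ℕ) (hm : herm ((m : ℂ) • ζ) p = 0) :
    (T p ζ θ hpp hζ) ^ m = T p ((m : ℂ) • ζ) ((m : ℂ) * θ) hpp hm := by
  induction m with
  | zero =>
    apply ext_act
    intro v
    rw [act_T]
    simp [kap]
  | succ m ih =>
    have hm' : herm ((m : ℂ) • ζ) p = 0 := by rw [herm_smul_left, hζ, mul_zero]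
    rw [pow_succ, ih hm', T_mul hpp hm' hζ (by rw [herm_add_left, hm', hζ, add_zero])]
    congr 1
    · push_cast; rw [add_smul, one_smul]
    · rw [herm_smul_left, herm_smul_right]
      push_cast
      rw [Complex.conj_natCast]
      ring

/-- the commutator -/
theorem T_comm_mem {Γ : Subgroup (SpecialLinearGroup (Fin (n + 1)) ℂ)}
    {p ζ ζ' : Fin (n + 1) → ℂ} {θ θ' : ℂ} (hpp : herm p p = 0) (hζ : herm ζ p = 0)
    (hζ' : herm ζ' p = 0) (h0 : herm (0 : Fin (n + 1) → ℂ) p = 0)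
    (h1 : T p ζ θ hpp hζ ∈ Γ) (h2 : T p ζ' θ' hpp hζ' ∈ Γ) :
    T p 0 (herm ζ ζ' - herm ζ' ζ) hpp h0 ∈ Γ := by
  have h3 : herm (ζ + ζ') p = 0 := by rw [herm_add_left, hζ, hζ', add_zero]
  have h4 : herm (ζ' + ζ) p = 0 := by rw [herm_add_left, hζ, hζ', add_zero]
  have h5 : herm (0 + (ζ' + ζ)) p = 0 := by rw [zero_add, h4]
  have key : T p ζ θ hpp hζ * T p ζ' θ' hpp hζ' =
      T p 0 (herm ζ ζ' - herm ζ' ζ) hpp h0 * (T p ζ' θ' hpp hζ' * T p ζ θ hpp hζ) := by
    rw [T_mul hpp hζ hζ' h3, T_mul hpp hζ' hζ h4, T_mul hpp h0 h4 h5]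
    have e1 : ζ + ζ' = 0 + (ζ' + ζ) := by rw [zero_add]; exact add_comm ζ ζ'
    apply ext_act
    intro v
    rw [act_T, act_T, e1]
    simp only [kap, herm_zero_left, herm_zero_right]
    congr 3
    ring
  have : T p 0 (herm ζ ζ' - herm ζ' ζ) hpp h0 =
      (T p ζ θ hpp hζ * T p ζ' θ' hpp hζ') * (T p ζ' θ' hpp hζ' * T p ζ θ hpp hζ)⁻¹ := by
    rw [key, mul_inv_cancel_right]
  rw [this]
  exact Γ.mul_mem (Γ.mul_mem h1 h2) (Γ.inv_mem (Γ.mul_mem h2 h1))

end Pool.Agent.Q107.Hunt
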