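import Pool.Agent.Q107.Hunt.Scale

/-! # Hyperplanes, finite index, the core computation -/

namespace Pool.Agent.Q107.Hunt

open Matrix ComplexConjugate

variable {n : ℕ}

/-- the normal vector of a nondegenerate hyperplane -/
theorem exists_normal {W : Submodule ℂ (Fin (n + 1) → ℂ)} (hW : Module.finrank ℂ W = n)
    (hnd : ∀ v ∈ W, (∀ w ∈ W, herm v w = 0) → v = 0) :
    ∃ u : Fin (n + 1) → ℂ, herm u u ≠ 0 ∧ ∀ v, v ∈ W ↔ herm v u = 0 := by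
  have hlt : W < ⊤ := by
    rw [lt_top_iff_ne_top]
    rintro rfl
    rw [finrank_top, Module.finrank_fin_fun] at hW
    omega
  obtain ⟨f, hf0, hf⟩ := Submodule.exists_le_ker_of_lt_top W hlt
  have hker : W = LinearMap.ker f := by
    apply Submodule.eq_of_le_of_finrank_eq hf
    have h1 := LinearMap.finrank_range_add_finrank_ker f
    rw [Module.finrank_fin_fun] at h1
    have h2 : LinearMap.range f = ⊤ := LinearMap.range_eq_top.2 (LinearMap.surjective hf0)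
    rw [h2, finrank_top, Module.finrank_self] at h1
    omega
  set u : Fin (n + 1) → ℂ := fun i => conj (sg n i * f (Pi.single i 1)) with hu
  have hfu : ∀ v, f v = herm v u := by
    intro v
    have h1 : v = ∑ i, v i • (Pi.single i (1 : ℂ) : Fin (n + 1) → ℂ) := by
      funext j
      rw [Finset.sum_apply, Finset.sum_eq_single j]
      · simp
      · intro i _ hij
        simp [Pi.single_eq_of_ne hij.symm]
      · intro h; exact absurd (Finset.mem_univ j) h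
    conv_lhs => rw [h1]
    rw [map_sum, herm]
    refine Finset.sum_congr rfl fun i _ => ?_
    rw [map_smul, smul_eq_mul, hu]
    simp only [Complex.conj_conj]
    have : sg n i * (v i * (sg n i * f (Pi.single i 1))) =
      (sg n i * sg n i) * (v i * f (Pi.single i 1)) := by ring
    rw [this, sg_mul_self, one_mul]
  have hmem : ∀ v, v ∈ W ↔ herm v u = 0 := by
    intro v
    rw [hker, LinearMap.mem_ker, hfu]
  refine ⟨u, ?_, hmem⟩
  intro h0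
  have huW : u ∈ W := (hmem u).2 h0
  have hu0 : u = 0 := by
    refine hnd u huW fun w hw => ?_
    rw [← conj_herm, (hmem w).1 hw, map_zero]
  apply hf0
  refine LinearMap.ext fun v => ?_
  rw [hfu, hu0]
  simp

/-- `g` preserves the set `X` -/
def Pres (g : SpecialLinearGroup (Fin (n + 1)) ℂ) (X : Set (Fin (n + 1) → ℂ)) : Prop :=
  ∀ v, v ∈ X ↔ act g v ∈ X

theorem relIndex_ne_zero_of_map {G : Type*} [Group G] (H K : Subgroup G) {F : Type*} [Finite F]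
    (f : K → F) (hf : ∀ g g' : K, f g = f g' → (g : G)⁻¹ * g' ∈ H) : H.relIndex K ≠ 0 := by
  have hfin : Finite (K ⧸ H.subgroupOf K) := by
    refine Finite.of_injective (fun q : K ⧸ H.subgroupOf K => f q.out) ?_
    intro q q' h
    have h1 := hf _ _ h
    rw [← QuotientGroup.out_eq' q, ← QuotientGroup.out_eq' q', QuotientGroup.eq,
      Subgroup.mem_subgroupOf]
    exact h1
  exact Subgroup.index_ne_zero_of_finite

/-- The stabiliser of the sum of the lattices has finite index in the stabiliser of the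
first one. -/
theorem stab_sup_relIndex {W : Submodule ℂ (Fin (n + 1) → ℂ)}
    {u : Fin (n + 1) → ℂ} (huu : herm u u ≠ 0) (hu : ∀ v, v ∈ W ↔ herm v u = 0)
    {Λ₁ Λ₂ : AddSubgroup (Fin (n + 1) → ℂ)} (hfg : Λ₁.FG) (hfg2 : Λ₂.FG)
    {k : ℕ} (hk : 0 < k)
    (hP : ∀ y ∈ Λ₂, (k : ℂ) • (y - (herm y u / herm u u) • u) ∈ Λ₁) :
    (stab n ⊤ (Λ₁ ⊔ Λ₂)).relIndex (stab n W Λ₁) ≠ 0 := by
  have hk0 : (k : ℂ) ≠ 0 := by exact_mod_cast hk.ne'
  -- elements of the stabiliser fix u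
  have hfix : ∀ g ∈ stab n W Λ₁, act g u = u := by
    intro g hg
    refine hg.1.2 u fun w hw => ?_
    rw [← conj_herm, (hu w).1 hw, map_zero]
  have hdiff : ∀ g ∈ stab n W Λ₁, ∀ y ∈ Λ₂, (k : ℂ) • (act g y - y) ∈ Λ₁ := by
    intro g hg y hy
    have h1 := hP y hy
    have h2 := (hg.2 _).1 h1
    have h3 := Λ₁.sub_mem h2 h1
    have e : act g ((k : ℂ) • (y - (herm y u / herm u u) • u)) -
        (k : ℂ) • (y - (herm y u / herm u u) • u) = (k : ℂ) • (act g y - y) := by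
      rw [act_smul, act_sub, act_smul, hfix g hg, ← smul_sub]
      congr 1
      abel
    rwa [e] at h3
  obtain ⟨S, hS⟩ := hfg2
  have hSmem : ∀ y ∈ S, y ∈ Λ₂ := fun y hy => hS ▸ AddSubgroup.subset_closure hy
  -- the finite quotient
  have : Module.Finite ℤ Λ₁ := by
    rw [Module.Finite.iff_addGroup_fg]
    exact (AddGroup.fg_iff_addSubgroup_fg Λ₁).2 hfg
  let N : Submodule ℤ Λ₁ := LinearMap.range (LinearMap.lsmul ℤ Λ₁ (k : ℤ))
  have : Finite (Λ₁ ⧸ N) := by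
    apply Module.finite_of_fg_torsion
    intro x
    obtain ⟨y, rfl⟩ := Submodule.Quotient.mk_surjective N x
    refine ⟨⟨(k : ℤ), mem_nonZeroDivisors_of_ne_zero (by exact_mod_cast hk.ne')⟩, ?_⟩
    show (k : ℤ) • (Submodule.Quotient.mk y : Λ₁ ⧸ N) = 0
    rw [← Submodule.Quotient.mk_smul, Submodule.Quotient.mk_eq_zero]
    exact ⟨y, rfl⟩
  let f : stab n W Λ₁ → (S → Λ₁ ⧸ N) := fun g y =>
    Submodule.Quotient.mk ⟨(k : ℂ) • (act g.1 y - y),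
      hdiff g g.2 y (hSmem y y.2)⟩
  have hhalf : ∀ g g' : stab n W Λ₁, f g = f g' → ∀ v ∈ Λ₁ ⊔ Λ₂,
      act (g.1⁻¹ * g'.1) v ∈ Λ₁ ⊔ Λ₂ := by
    intro g g' h
    have hmemst : g.1⁻¹ * g'.1 ∈ stab n W Λ₁ :=
      (stab n W Λ₁).mul_mem ((stab n W Λ₁).inv_mem g.2) g'.2
    have hS1 : ∀ y ∈ S, act (g.1⁻¹ * g'.1) y - y ∈ Λ₁ := by
      intro y hy
      have h1 := congrFun h ⟨y, hy⟩
      simp only [f] at h1
      rw [Submodule.Quotient.eq] at h1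
      obtain ⟨⟨z, hz⟩, hzeq⟩ := h1
      have h2 := congrArg Subtype.val hzeq
      have h3 : (k : ℂ) • z = (k : ℂ) • (act g.1 y - y) -
          (k : ℂ) • (act g'.1 y - y) := by
        have : ((LinearMap.lsmul ℤ Λ₁ (k : ℤ) ⟨z, hz⟩ : Λ₁) : Fin (n + 1) → ℂ) =
            (k : ℂ) • z := by
          show (k : ℤ) • z = _
          rw [natCast_zsmul, ← Nat.cast_smul_eq_nsmul ℂ]
        rw [← this]
        exact h2
      rw [← smul_sub] at h3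
      have h4 := smul_right_injective _ hk0 h3
      have h5 : act g'.1 y =
          act g.1 y - z := by
        rw [h4]; abel
      have hgi := ((stab n W Λ₁).inv_mem g.2).2 z
      rw [act_mul, h5, act_sub, act_inv_act]
      have h6 := Λ₁.neg_mem (hgi.1 hz)
      convert h6 using 1
      abel
    have hS2 : ∀ y ∈ Λ₂, act (g.1⁻¹ * g'.1) y - y ∈ Λ₁ := by
      intro y hy
      rw [← hS] at hy
      induction hy using AddSubgroup.closure_induction with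
      | mem x hx => exact hS1 x hx
      | zero => simp
      | add x y _ _ hx hy =>
        rw [act_add]
        have := Λ₁.add_mem hx hy
        convert this using 1
        abel
      | neg x _ hx =>
        rw [act_neg]
        have := Λ₁.neg_mem hx
        convert this using 1
        abel
    intro v hv
    obtain ⟨a, ha, b, hb, rfl⟩ := AddSubgroup.mem_sup.1 hv
    rw [act_add]
    refine AddSubgroup.add_mem _ (AddSubgroup.mem_sup_left ((hmemst.2 a).1 ha)) ?_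
    have h7 := hS2 b hb
    have : act (g.1⁻¹ * g'.1) b =
        (act (g.1⁻¹ * g'.1) b - b) + b := by abel
    rw [this]
    exact AddSubgroup.add_mem _ (AddSubgroup.mem_sup_left h7) (AddSubgroup.mem_sup_right hb)
  refine relIndex_ne_zero_of_map _ _ f fun g g' h => ?_
  refine ⟨⟨(SU n).mul_mem ((SU n).inv_mem g.2.1.1) g'.2.1.1, fun v hv => ?_⟩, fun v => ⟨hhalf g g' h v, ?_⟩⟩
  · have : v = 0 := herm_nondeg fun w => hv w trivial
    rw [this, act_zero]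
  · intro hv
    have h8 := hhalf g' g h.symm _ hv
    rw [← act_mul, ← mul_assoc, mul_assoc _ _ (g.1⁻¹),
      mul_inv_cancel, mul_one, inv_mul_cancel, act_one] at h8
    exact h8

/-- The core computation. -/
theorem core_A {Γ Γ₁ Γ₂ : Subgroup (SpecialLinearGroup (Fin (n + 1)) ℂ)}
    (hd : DiscreteTopology Γ) {E₁ E₂ : IntermediateField ℚ ℂ}
    {W₁ W₂ : Submodule ℂ (Fin (n + 1) → ℂ)}
    {X₁ : Submodule E₁ (Fin (n + 1) → ℂ)} {X₂ : Submodule E₂ (Fin (n + 1) → ℂ)}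
    (h₁ : IsArith n E₁ W₁ X₁ Γ₁) (h₂ : IsArith n E₂ W₂ X₂ Γ₂) (hle₁ : Γ₁ ≤ Γ) (hle₂ : Γ₂ ≤ Γ)
    {p : Fin (n + 1) → ℂ} (hp₁ : p ∈ X₁) (hp₂ : p ∈ X₂) (hp0 : p ≠ 0) (hpp : herm p p = 0)
    {s₁ s₂ : ℝ} (hs₁0 : s₁ ≠ 0) (hs₂0 : s₂ ≠ 0)
    (hs₁ : ∀ x ∈ X₁, ∀ y ∈ X₁, (s₁ : ℂ) * herm x y ∈ E₁)
    (hs₂ : ∀ x ∈ X₂, ∀ y ∈ X₂, (s₂ : ℂ) * herm x y ∈ E₂)
    {x y : Fin (n + 1) → ℂ} (hx : x ∈ X₁) (hxp : herm x p = 0) (hy : y ∈ X₂)
    (hyp : herm y p = 0) : (s₂ : ℂ) * herm x y ∈ E₁ := by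
  have hs₁0' : (s₁ : ℂ) ≠ 0 := by exact_mod_cast hs₁0
  have hs₂0' : (s₂ : ℂ) ≠ 0 := by exact_mod_cast hs₂0
  obtain ⟨δ, hδE, hδ0, hδ, -⟩ := h₁.1.exists_delta
  have h0 : herm (0 : Fin (n + 1) → ℂ) p = 0 := herm_zero_left p
  obtain ⟨K₁, hK₁, hm₁⟩ := exists_T_mem h₁ hs₁ hp₁ X₁.zero_mem hδE hδ hpp h0
  have h1 : herm (((s₁ : ℂ) * K₁) • (0 : Fin (n + 1) → ℂ)) p = 0 := by simp
  have hv : T p 0 ((s₁ : ℂ) * K₁ * δ) hpp h0 ∈ Γ := by
    have := hle₁ (hm₁ h1)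
    have e : T p (((s₁ : ℂ) * K₁) • (0 : Fin (n + 1) → ℂ)) ((s₁ : ℂ) * K₁ * δ) hpp h1 =
        T p 0 ((s₁ : ℂ) * K₁ * δ) hpp h0 := by
      apply ext_act
      intro v
      rw [act_T, act_T, smul_zero]
    rwa [e] at this
  have hK₁0 : (K₁ : ℂ) ≠ 0 := by exact_mod_cast hK₁.ne'
  have hα : conj ((s₁ : ℂ) * K₁ * δ) = -((s₁ : ℂ) * K₁ * δ) := by
    rw [map_mul, map_mul, Complex.conj_ofReal, Complex.conj_natCast, hδ]; ring
  have hα0 : (s₁ : ℂ) * K₁ * δ ≠ 0 := mul_ne_zero (mul_ne_zero hs₁0' hK₁0) hδ0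
  -- the commutator relation
  have key : ∀ x ∈ X₁, herm x p = 0 →
      ∃ r : ℚ, (s₂ : ℂ) * (herm x y - herm y x) = r * δ := by
    intro x hx hxp
    obtain ⟨K, hK, hmx⟩ := exists_T_mem h₁ hs₁ hp₁ hx E₁.zero_mem (by simp) hpp hxp
    obtain ⟨K', hK', hmy⟩ := exists_T_mem h₂ hs₂ hp₂ hy E₂.zero_mem (by simp) hpp hyp
    have hx' : herm (((s₁ : ℂ) * K) • x) p = 0 := by rw [herm_smul_left, hxp, mul_zero]
    have hy' : herm (((s₂ : ℂ) * K') • y) p = 0 := by rw [herm_smul_left, hyp, mul_zero]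
    have hc := T_comm_mem hpp hx' hy' h0 (hle₁ (hmx hx')) (hle₂ (hmy hy'))
    have hβ : herm (((s₁ : ℂ) * K) • x) (((s₂ : ℂ) * K') • y) -
        herm (((s₂ : ℂ) * K') • y) (((s₁ : ℂ) * K) • x) =
        (s₁ : ℂ) * K * (s₂ * K') * (herm x y - herm y x) := by
      rw [herm_smul_left, herm_smul_right, herm_smul_left, herm_smul_right, map_mul, map_mul,
        Complex.conj_ofReal, Complex.conj_ofReal, Complex.conj_natCast, Complex.conj_natCast]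
      ring
    rw [hβ] at hc
    have hβc : conj ((s₁ : ℂ) * K * (s₂ * K') * (herm x y - herm y x)) =
        -((s₁ : ℂ) * K * (s₂ * K') * (herm x y - herm y x)) := by
      rw [map_mul, map_mul, map_mul, map_mul, map_sub, conj_herm, conj_herm,
        Complex.conj_ofReal, Complex.conj_ofReal, Complex.conj_natCast, Complex.conj_natCast]
      ring
    obtain ⟨r, hr⟩ := disc_ratio hd hp0 hpp h0 hα hβc hα0 hv hc
    have hK0 : (K : ℂ) ≠ 0 := by exact_mod_cast hK.ne'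
    have hK'0 : (K' : ℂ) ≠ 0 := by exact_mod_cast hK'.ne'
    refine ⟨r * K₁ / (K * K'), ?_⟩
    push_cast
    have h4 : (K : ℂ) * (s₂ * K') * (herm x y - herm y x) = r * (K₁ * δ) :=
      mul_left_cancel₀ hs₁0' (by linear_combination hr)
    have h5 : (s₂ : ℂ) * (herm x y - herm y x) =
        (K : ℂ) * (s₂ * K') * (herm x y - herm y x) / (K * K') := by
      field_simp
    rw [h5, h4]
    ring
  obtain ⟨r, hr⟩ := key x hx hxp
  obtain ⟨r', hr'⟩ := key (δ • x) (smul_mem_E hδE hx) (by rw [herm_smul_left, hxp, mul_zero])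
  rw [herm_smul_left, herm_smul_right, hδ] at hr'
  have h6 : (s₂ : ℂ) * (herm x y + herm y x) = r' :=
    mul_right_cancel₀ hδ0 (by linear_combination hr')
  have h7 : (s₂ : ℂ) * herm x y = (r' + r * δ) / 2 := by
    linear_combination (1/2 : ℂ) * h6 + (1/2 : ℂ) * hr
  rw [h7]
  have h2E : (2 : ℂ) ∈ E₁ := by
    have := rat_mem E₁ 2
    rwa [Rat.cast_ofNat] at this
  exact E₁.div_mem (E₁.add_mem (rat_mem E₁ r') (E₁.mul_mem (rat_mem E₁ r) hδE)) h2E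

/-- The scales are commensurable. -/
theorem core_B {Γ Γ₁ Γ₂ : Subgroup (SpecialLinearGroup (Fin (n + 1)) ℂ)}
    (hd : DiscreteTopology Γ) {E : IntermediateField ℚ ℂ}
    {W₁ W₂ : Submodule ℂ (Fin (n + 1) → ℂ)}
    {X₁ X₂ : Submodule E (Fin (n + 1) → ℂ)}
    (h₁ : IsArith n E W₁ X₁ Γ₁) (h₂ : IsArith n E W₂ X₂ Γ₂) (hle₁ : Γ₁ ≤ Γ) (hle₂ : Γ₂ ≤ Γ)
    {p : Fin (n + 1) → ℂ} (hp₁ : p ∈ X₁) (hp₂ : p ∈ X₂) (hp0 : p ≠ 0) (hpp : herm p p = 0)
    {s₁ s₂ : ℝ} (hs₁0 : s₁ ≠ 0) (hs₂0 : s₂ ≠ 0)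
    (hs₁ : ∀ x ∈ X₁, ∀ y ∈ X₁, (s₁ : ℂ) * herm x y ∈ E)
    (hs₂ : ∀ x ∈ X₂, ∀ y ∈ X₂, (s₂ : ℂ) * herm x y ∈ E) :
    ∃ r : ℚ, r ≠ 0 ∧ (s₁ : ℂ) = r * s₂ := by
  have hs₁0' : (s₁ : ℂ) ≠ 0 := by exact_mod_cast hs₁0
  have hs₂0' : (s₂ : ℂ) ≠ 0 := by exact_mod_cast hs₂0
  obtain ⟨δ, hδE, hδ0, hδ, -⟩ := h₁.1.exists_delta
  have h0 : herm (0 : Fin (n + 1) → ℂ) p = 0 := herm_zero_left p
  have aux : ∀ (s : ℝ) (W : Submodule ℂ (Fin (n + 1) → ℂ)) (X : Submodule E (Fin (n + 1) → ℂ))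
      (Δ : Subgroup (SpecialLinearGroup (Fin (n + 1)) ℂ)) (_ : IsArith n E W X Δ) (_ : Δ ≤ Γ)
      (_ : ∀ x ∈ X, ∀ y ∈ X, (s : ℂ) * herm x y ∈ E) (_ : p ∈ X),
      ∃ K : ℕ, 0 < K ∧ T p 0 ((s : ℂ) * K * δ) hpp h0 ∈ Γ := by
    intro s W X Δ hX hle hs hp
    obtain ⟨K₁, hK₁, hm₁⟩ := exists_T_mem hX hs hp X.zero_mem hδE hδ hpp h0
    have h1 : herm (((s : ℂ) * K₁) • (0 : Fin (n + 1) → ℂ)) p = 0 := by simp
    refine ⟨K₁, hK₁, ?_⟩
    have := hle (hm₁ h1)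
    have e : T p (((s : ℂ) * K₁) • (0 : Fin (n + 1) → ℂ)) ((s : ℂ) * K₁ * δ) hpp h1 =
        T p 0 ((s : ℂ) * K₁ * δ) hpp h0 := by
      apply ext_act
      intro v
      rw [act_T, act_T, smul_zero]
    rwa [e] at this
  have hc : ∀ (s : ℝ) (K : ℕ), conj ((s : ℂ) * K * δ) = -((s : ℂ) * K * δ) := by
    intro s K
    rw [map_mul, map_mul, Complex.conj_ofReal, Complex.conj_natCast, hδ]; ring
  obtain ⟨K₁, hK₁, hm₁⟩ := aux s₁ W₁ X₁ Γ₁ h₁ hle₁ hs₁ hp₁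
  obtain ⟨K₂, hK₂, hm₂⟩ := aux s₂ W₂ X₂ Γ₂ h₂ hle₂ hs₂ hp₂
  have hK₁0 : (K₁ : ℂ) ≠ 0 := by exact_mod_cast hK₁.ne'
  have hK₂0 : (K₂ : ℂ) ≠ 0 := by exact_mod_cast hK₂.ne'
  obtain ⟨r, hr⟩ := disc_ratio hd hp0 hpp h0 (hc s₂ K₂) (hc s₁ K₁)
    (mul_ne_zero (mul_ne_zero hs₂0' hK₂0) hδ0) hm₂ hm₁
  have h3 : (s₁ : ℂ) * K₁ = r * (s₂ * K₂) := mul_right_cancel₀ hδ0 (by linear_combination hr)
  have h4 : (s₁ : ℂ) = ((r * K₂ / K₁ : ℚ) : ℂ) * s₂ := by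
    push_cast
    have : (s₁ : ℂ) = (s₁ * K₁) / K₁ := by field_simp
    rw [this, h3]; ring
  refine ⟨r * K₂ / K₁, ?_, h4⟩
  intro h5
  rw [h5] at h4
  apply hs₁0'
  rw [h4]; simp

end Pool.Agent.Q107.Hunt
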