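import Pool.Agent.Q107.Hunt.Bd

/-! # Lattices and the Selberg property -/

namespace Pool.Agent.Q107.Hunt

open MeasureTheory Topology

section Abstract

variable {G : Type*} [Group G] [TopologicalSpace G] [IsTopologicalGroup G]

/-- `H` is a lattice in the unimodular locally compact group `G`: it is discrete, and `G = F H`
for a Borel set `F` of finite (bi-invariant) Haar measure. -/
def IsLattice (H : Subgroup G) : Prop :=
  DiscreteTopology H ∧
    letI : MeasurableSpace G := borel G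
    ∃ (ν : Measure G) (F : Set G), ν.IsHaarMeasure ∧ ν.IsMulRightInvariant ∧
      MeasurableSet F ∧ ν F ≠ ⊤ ∧ ∀ g : G, ∃ f ∈ F, ∃ γ ∈ H, g = f * γ

/-- The Selberg property of lattices. -/
theorem selberg_abs [SecondCountableTopology G] {H : Subgroup G} (h : IsLattice H)
    (g : G) {V : Set G} (hV : V ∈ 𝓝 (1 : G)) (K : ℕ) :
    ∃ k ≥ K, ∃ v ∈ V, ∃ v' ∈ V, v'⁻¹ * g ^ k * v ∈ H := by
  obtain ⟨hdisc, hν⟩ := h
  letI : MeasurableSpace G := borel G
  have : BorelSpace G := ⟨rfl⟩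
  obtain ⟨ν, F, hHaar, hright, hFm, hFfin, hFG⟩ := hν
  have hcount : Countable H := TopologicalSpace.separableSpace_iff_countable.1 inferInstance
  -- a neighbourhood isolating 1
  obtain ⟨U₀, hU₀, hU₀1⟩ := isOpen_induced_iff.1 (isOpen_discrete ({1} : Set H))
  have h1U₀ : (1 : G) ∈ U₀ := by
    have : (1 : H) ∈ (Subtype.val ⁻¹' U₀ : Set H) := by rw [hU₀1]; rfl
    exact this
  have hcont : Continuous fun p : G × G => p.1⁻¹ * p.2 := by fun_prop
  have hev : (fun p : G × G => p.1⁻¹ * p.2) ⁻¹' U₀ ∈ 𝓝 ((1 : G), (1 : G)) := by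
    apply hcont.continuousAt.preimage_mem_nhds
    apply hU₀.mem_nhds
    simpa using h1U₀
  obtain ⟨A, B, hA, hA1, hB, hB1, hAB⟩ := mem_nhds_prod_iff'.1 hev
  obtain ⟨V', hV'V, hV'o, hV'1⟩ := mem_nhds_iff.1 hV
  set U := A ∩ B ∩ V' with hU
  have hUo : IsOpen U := (hA.inter hB).inter hV'o
  have hU1 : (1 : G) ∈ U := ⟨⟨hA1, hB1⟩, hV'1⟩
  have hUm : MeasurableSet U := hUo.measurableSet
  have hUU : ∀ u ∈ U, ∀ u' ∈ U, u⁻¹ * u' ∈ U₀ :=
    fun u hu u' hu' => hAB (Set.mk_mem_prod hu.1.1 hu'.1.2)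
  have hUpos : ν U ≠ 0 := (hUo.measure_pos ν ⟨1, hU1⟩).ne'
  by_contra hcon
  push Not at hcon
  let S : ℕ → Set G := fun j => (fun x => (g ^ (j * (K + 1)))⁻¹ * x) ⁻¹' U
  have hSm : ∀ j, MeasurableSet (S j) := fun j =>
    (measurable_const_mul _) hUm
  have hSν : ∀ j, ν (S j) = ν U := fun j => measure_preimage_mul ν _ U
  let Tt : ℕ → H → Set G := fun j γ => (fun x => x * (γ : G)) ⁻¹' (S j) ∩ F
  have hTm : ∀ j γ, MeasurableSet (Tt j γ) := fun j γ =>
    ((measurable_mul_const _) (hSm j)).inter hFm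
  -- disjointness
  have hstep : ∀ (x : G) (j j' : ℕ) (γ γ' : H), x * γ ∈ S j → x * γ' ∈ S j' → j' < j → False := by
    intro x j j' γ γ' h1 h2 hjj
    set u := (g ^ (j * (K + 1)))⁻¹ * (x * γ) with hu
    set u' := (g ^ (j' * (K + 1)))⁻¹ * (x * γ') with hu'
    have hu1 : u ∈ U := h1
    have hu1' : u' ∈ U := h2
    have hk : j * (K + 1) - j' * (K + 1) ≥ K := by
      have : (j' + 1) * (K + 1) ≤ j * (K + 1) := Nat.mul_le_mul_right _ hjj
      have h3 : (j' + 1) * (K + 1) = j' * (K + 1) + (K + 1) := by ring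
      omega
    have h3 := hcon _ hk u (hV'V hu1.2) u' (hV'V hu1'.2)
    apply h3
    have h4 : u'⁻¹ * g ^ (j * (K + 1) - j' * (K + 1)) * u = (γ' : G)⁻¹ * γ := by
      have h5 : g ^ (j * (K + 1)) = g ^ (j' * (K + 1)) * g ^ (j * (K + 1) - j' * (K + 1)) := by
        rw [← pow_add]; congr 1
        have : j' * (K + 1) ≤ j * (K + 1) := Nat.mul_le_mul_right _ hjj.le
        omega
      rw [hu, hu', h5]
      group
    rw [h4]
    exact H.mul_mem (H.inv_mem γ'.2) γ.2
  have hdisj : ∀ J : ℕ, Pairwise (Function.onFun Disjoint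
      fun p : Fin J × H => Tt (p.1 : ℕ) p.2) := by
    intro J p p' hne
    rw [Function.onFun, Set.disjoint_left]
    intro x hx hx'
    apply hne
    have hj : (p.1 : ℕ) = p'.1 := by
      rcases lt_trichotomy (p.1 : ℕ) p'.1 with h | h | h
      · exact (hstep x _ _ _ _ hx'.1 hx.1 h).elim
      · exact h
      · exact (hstep x _ _ _ _ hx.1 hx'.1 h).elim
    have h1 : (g ^ ((p.1 : ℕ) * (K + 1)))⁻¹ * (x * p.2) ∈ U := hx.1
    have h2 : (g ^ ((p'.1 : ℕ) * (K + 1)))⁻¹ * (x * p'.2) ∈ U := hx'.1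
    rw [← hj] at h2
    have h3 := hUU _ h2 _ h1
    have h4 : ((g ^ ((p.1 : ℕ) * (K + 1)))⁻¹ * (x * (p'.2 : G)))⁻¹ *
        ((g ^ ((p.1 : ℕ) * (K + 1)))⁻¹ * (x * (p.2 : G))) = (p'.2 : G)⁻¹ * p.2 := by
      group
    rw [h4] at h3
    have h5 : (p'.2⁻¹ * p.2 : H) ∈ (Subtype.val ⁻¹' U₀ : Set H) := h3
    rw [hU₀1] at h5
    have h7 : (p'.2⁻¹ * p.2 : H) = 1 := h5
    have h8 : p.2 = p'.2 := (inv_mul_eq_one.1 h7).symm
    exact Prod.ext (Fin.ext hj) h8
  -- each S j is covered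
  have hcover : ∀ j, ν U ≤ ∑' γ : H, ν (Tt j γ) := by
    intro j
    rw [← hSν j]
    have h1 : S j ⊆ ⋃ γ : H, (S j ∩ (fun x => x * (γ : G)⁻¹) ⁻¹' F) := by
      intro x hx
      obtain ⟨f, hf, γ, hγ, hxf⟩ := hFG x
      rw [Set.mem_iUnion]
      refine ⟨⟨γ, hγ⟩, hx, ?_⟩
      show x * γ⁻¹ ∈ F
      rw [hxf, mul_inv_cancel_right]; exact hf
    refine (measure_mono h1).trans ((measure_iUnion_le _).trans ?_)
    refine ENNReal.tsum_le_tsum fun γ => ?_
    rw [← measure_preimage_mul_right ν (γ : G)]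
    apply measure_mono
    intro x hx
    refine ⟨hx.1, ?_⟩
    have := hx.2
    simpa using this
  have hJ : ∀ J : ℕ, (J : ENNReal) * ν U ≤ ν F := by
    intro J
    calc (J : ENNReal) * ν U = ∑ _j : Fin J, ν U := by simp
      _ ≤ ∑ j : Fin J, ∑' γ : H, ν (Tt (j : ℕ) γ) := Finset.sum_le_sum fun j _ => hcover j
      _ = ∑' p : Fin J × H, ν (Tt (p.1 : ℕ) p.2) := by
          rw [ENNReal.tsum_prod (f := fun (j : Fin J) (γ : H) => ν (Tt (j : ℕ) γ)), tsum_fintype]
      _ = ν (⋃ p : Fin J × H, Tt (p.1 : ℕ) p.2) :=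
          (measure_iUnion (hdisj J) (fun p => hTm _ _)).symm
      _ ≤ ν F := measure_mono (Set.iUnion_subset fun p => Set.inter_subset_right)
  obtain ⟨J, hJ'⟩ := ENNReal.exists_nat_mul_gt hUpos hFfin
  exact absurd (hJ J) (not_le.2 hJ')

/-- finite index subgroups of lattices are lattices -/
theorem IsLattice.finiteIndex {H H' : Subgroup G} (h : IsLattice H) (hle : H' ≤ H)
    (hidx : H'.relIndex H ≠ 0) : IsLattice H' := by
  obtain ⟨hdisc, hν⟩ := h
  refine ⟨?_, ?_⟩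
  · have hinj : Function.Injective (Subgroup.inclusion hle) := Subgroup.inclusion_injective hle
    have hcont : Continuous (Subgroup.inclusion hle) :=
      Continuous.subtype_mk continuous_subtype_val _
    exact DiscreteTopology.of_continuous_injective hcont hinj
  · letI : MeasurableSpace G := borel G
    have : BorelSpace G := ⟨rfl⟩
    obtain ⟨ν, F, hHaar, hright, hFm, hFfin, hFG⟩ := hν
    have hfin : Finite (H ⧸ H'.subgroupOf H) := by
      have : (H'.subgroupOf H).FiniteIndex := ⟨hidx⟩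
      infer_instance
    let c : H ⧸ H'.subgroupOf H → G := fun q => ((q.out : H) : G)
    refine ⟨ν, ⋃ q, (fun x => x * (c q)⁻¹) ⁻¹' F, hHaar, hright, ?_, ?_, ?_⟩
    · exact MeasurableSet.iUnion fun q => (measurable_mul_const _) hFm
    · have h1 := measure_iUnion_le (μ := ν) fun q => (fun x => x * (c q)⁻¹) ⁻¹' F
      have h2 : ∑' q : H ⧸ H'.subgroupOf H, ν ((fun x => x * (c q)⁻¹) ⁻¹' F) =
          ∑' _q : H ⧸ H'.subgroupOf H, ν F := by
        congr 1; funext q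
        exact measure_preimage_mul_right ν _ F
      rw [h2] at h1
      have := Fintype.ofFinite (H ⧸ H'.subgroupOf H)
      rw [tsum_fintype, Finset.sum_const, nsmul_eq_mul] at h1
      exact ne_top_of_le_ne_top (ENNReal.mul_ne_top (ENNReal.natCast_ne_top _) hFfin) h1
    · intro g
      obtain ⟨f, hf, γ, hγ, hg⟩ := hFG g
      set q : H ⧸ H'.subgroupOf H := QuotientGroup.mk ⟨γ, hγ⟩ with hq
      have h1 : ((q.out : H)⁻¹ * ⟨γ, hγ⟩ : H) ∈ H'.subgroupOf H := by
        rw [← QuotientGroup.eq, QuotientGroup.out_eq']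
      refine ⟨f * c q, ?_, _, Subgroup.mem_subgroupOf.1 h1, ?_⟩
      · rw [Set.mem_iUnion]
        refine ⟨q, ?_⟩
        show f * c q * (c q)⁻¹ ∈ F
        rw [mul_inv_cancel_right]; exact hf
      · rw [hg]
        show f * γ = f * c q * ((c q)⁻¹ * γ)
        rw [mul_assoc, mul_inv_cancel_left]

end Abstract

end Pool.Agent.Q107.Hunt
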