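import Pool.Agent.Q107.Hunt.Hyp

/-! # The main theorem on Hunt hybrids -/

namespace Pool.Agent.Q107.Hunt

open Matrix ComplexConjugate

variable {n : ℕ}

theorem herm_conj_zero {v w : Fin (n + 1) → ℂ} (h : herm v w = 0) : herm w v = 0 := by
  rw [← conj_herm, h, map_zero]

theorem sup_eq_top {W₁ W₂ : Submodule ℂ (Fin (n + 1) → ℂ)}
    (h₁ : Module.finrank ℂ W₁ = n) (h₂ : Module.finrank ℂ W₂ = n) (hne : W₁ ≠ W₂) :
    W₁ ⊔ W₂ = ⊤ := by
  have hlt : W₁ < W₁ ⊔ W₂ := by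
    rw [left_lt_sup]
    intro hle
    exact hne (Submodule.eq_of_le_of_finrank_eq hle (by rw [h₁, h₂])).symm
  have h3 := Submodule.finrank_lt_finrank_of_lt hlt
  have h4 : Module.finrank ℂ (W₁ ⊔ W₂ : Submodule ℂ (Fin (n + 1) → ℂ)) ≤ n + 1 := by
    have := Submodule.finrank_le (W₁ ⊔ W₂)
    rwa [Module.finrank_fin_fun] at this
  apply Submodule.eq_top_of_finrank_eq
  rw [Module.finrank_fin_fun]
  omega

/-- A subspace in which `p^⊥` is the line of `p` has dimension at most two. -/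
theorem finrank_le_two {W : Submodule ℂ (Fin (n + 1) → ℂ)} {p q : Fin (n + 1) → ℂ}
    (hq : q ∈ W) (hqp : herm q p ≠ 0)
    (h : ∀ w ∈ W, herm w p = 0 → ∃ c : ℂ, w = c • p) : Module.finrank ℂ W ≤ 2 := by
  classical
  have hle : W ≤ Submodule.span ℂ (({p, q} : Finset (Fin (n + 1) → ℂ)) : Set (Fin (n + 1) → ℂ)) := by
    intro w hw
    obtain ⟨c, hc⟩ := h (w - (herm w p / herm q p) • q) (W.sub_mem hw (W.smul_mem _ hq)) (by
      rw [herm_sub_left, herm_smul_left, div_mul_cancel₀ _ hqp, sub_self])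
    have : w = c • p + (herm w p / herm q p) • q := by rw [← hc]; abel
    rw [this]
    refine Submodule.add_mem _ (Submodule.smul_mem _ _ (Submodule.subset_span (by simp)))
      (Submodule.smul_mem _ _ (Submodule.subset_span (by simp)))
  calc Module.finrank ℂ W ≤ _ := Submodule.finrank_mono hle
    _ ≤ ({p, q} : Finset (Fin (n + 1) → ℂ)).card := finrank_span_finset_le_card _
    _ ≤ 2 := Finset.card_le_two

/-- `W ∩ p^⊥` is spanned by `X ∩ p^⊥`. -/
theorem span_perp {E : IntermediateField ℚ ℂ} {W : Submodule ℂ (Fin (n + 1) → ℂ)}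
    {X : Submodule E (Fin (n + 1) → ℂ)}
    (hspan : Submodule.span ℂ (X : Set (Fin (n + 1) → ℂ)) = W)
    {s : ℝ} (hs : ∀ x ∈ X, ∀ y ∈ X, (s : ℂ) * herm x y ∈ E)
    {p x₀ : Fin (n + 1) → ℂ} (hp : p ∈ X) (hx₀ : x₀ ∈ X) (h₀ : (s : ℂ) * herm x₀ p = 1)
    {w : Fin (n + 1) → ℂ} (hw : w ∈ W) (hwp : herm w p = 0) :
    w ∈ Submodule.span ℂ {x : Fin (n + 1) → ℂ | x ∈ X ∧ herm x p = 0} := by
  have key : ∀ v ∈ Submodule.span ℂ (X : Set (Fin (n + 1) → ℂ)),
      v - ((s : ℂ) * herm v p) • x₀ ∈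
        Submodule.span ℂ {x : Fin (n + 1) → ℂ | x ∈ X ∧ herm x p = 0} := by
    intro v hv
    induction hv using Submodule.span_induction with
    | mem x hx =>
      refine Submodule.subset_span ⟨X.sub_mem hx (smul_mem_E (hs x hx p hp) hx₀), ?_⟩
      rw [herm_sub_left, herm_smul_left]
      linear_combination (-herm x p) * h₀
    | zero => simp
    | add x y _ _ hx hy =>
      have := Submodule.add_mem _ hx hy
      convert this using 1
      rw [herm_add_left, mul_add, add_smul]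
      abel
    | smul a x _ hx =>
      have := Submodule.smul_mem _ a hx
      convert this using 1
      rw [herm_smul_left, smul_sub, smul_smul]
      congr 2
      ring
  have := key w (hspan ▸ hw)
  rwa [hwp, mul_zero, zero_smul, sub_zero] at this

/-- The case of two different fields. -/
theorem case_ne {E₁ E₂ : IntermediateField ℚ ℂ}
    {W₁ W₂ : Submodule ℂ (Fin (n + 1) → ℂ)}
    (hW₁ : Module.finrank ℂ W₁ = n) (hW₂ : Module.finrank ℂ W₂ = n) (hne : W₁ ≠ W₂)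
    (hnd₁ : ∀ v ∈ W₁, (∀ w ∈ W₁, herm v w = 0) → v = 0)
    {X₁ : Submodule E₁ (Fin (n + 1) → ℂ)} {X₂ : Submodule E₂ (Fin (n + 1) → ℂ)}
    (hspan₁ : Submodule.span ℂ (X₁ : Set (Fin (n + 1) → ℂ)) = W₁)
    (hspan₂ : Submodule.span ℂ (X₂ : Set (Fin (n + 1) → ℂ)) = W₂)
    {p q : Fin (n + 1) → ℂ} (hp₁ : p ∈ X₁) (hp₂ : p ∈ X₂) (hp0 : p ≠ 0) (hpp : herm p p = 0)
    (hqp : herm q p ≠ 0) (hqW₁ : q ∈ W₁) (hqW₂ : q ∈ W₂)
    {s₁ s₂ : ℝ} (hs₁0 : s₁ ≠ 0) (hs₂0 : s₂ ≠ 0)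
    (hs₁ : ∀ x ∈ X₁, ∀ y ∈ X₁, (s₁ : ℂ) * herm x y ∈ E₁)
    (hs₂ : ∀ x ∈ X₂, ∀ y ∈ X₂, (s₂ : ℂ) * herm x y ∈ E₂)
    {c₁ c₂ : ℂ} (hc₁ : c₁ ≠ 0) (hc₂ : c₂ ≠ 0) (hq₁ : c₁ • q ∈ X₁) (hq₂ : c₂ • q ∈ X₂)
    (horth : ∀ x ∈ X₁, herm x p = 0 → ∀ y ∈ X₂, herm y p = 0 → herm x y = 0) :
    n = 3 ∧ ∀ u₁ u₂ : Fin (n + 1) → ℂ, (∀ w ∈ W₁, herm u₁ w = 0) → (∀ w ∈ W₂, herm u₂ w = 0) →
      herm u₁ u₂ = 0 := by
  have hpW₁ : p ∈ W₁ := hspan₁ ▸ Submodule.subset_span hp₁
  have hpW₂ : p ∈ W₂ := hspan₂ ▸ Submodule.subset_span hp₂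
  -- orthogonality over ℂ
  have hx₀ : ∀ (E : IntermediateField ℚ ℂ) (X : Submodule E (Fin (n + 1) → ℂ)) (s : ℝ) (c : ℂ)
      (_ : s ≠ 0) (_ : c ≠ 0) (_ : c • q ∈ X) (_ : p ∈ X)
      (_ : ∀ x ∈ X, ∀ y ∈ X, (s : ℂ) * herm x y ∈ E),
      ∃ x₀ ∈ X, (s : ℂ) * herm x₀ p = 1 := by
    intro E X s c hs0 hc hq hp hs
    have hs0' : (s : ℂ) ≠ 0 := by exact_mod_cast hs0
    have h1 : (s : ℂ) * herm (c • q) p ≠ 0 := by
      rw [herm_smul_left]; exact mul_ne_zero hs0' (mul_ne_zero hc hqp)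
    refine ⟨((s : ℂ) * herm (c • q) p)⁻¹ • (c • q), smul_mem_E (E.inv_mem (hs _ hq _ hp)) hq, ?_⟩
    have ht : herm (c • q) p ≠ 0 := right_ne_zero_of_mul h1
    rw [herm_smul_left]
    field_simp
  obtain ⟨x₀, hx₀X, hx₀p⟩ := hx₀ E₁ X₁ s₁ c₁ hs₁0 hc₁ hq₁ hp₁ hs₁
  obtain ⟨y₀, hy₀X, hy₀p⟩ := hx₀ E₂ X₂ s₂ c₂ hs₂0 hc₂ hq₂ hp₂ hs₂
  have horthC : ∀ a ∈ W₁, herm a p = 0 → ∀ b ∈ W₂, herm b p = 0 → herm a b = 0 := by
    intro a ha hap b hb hbp
    have h1 := span_perp hspan₁ hs₁ hp₁ hx₀X hx₀p ha hap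
    have h2 := span_perp hspan₂ hs₂ hp₂ hy₀X hy₀p hb hbp
    clear ha hap hb hbp
    induction h1 using Submodule.span_induction with
    | mem x hx =>
      induction h2 using Submodule.span_induction with
      | mem y hy => exact horth x hx.1 hx.2 y hy.1 hy.2
      | zero => simp
      | add y z _ _ hy hz => rw [herm_add_right, hy, hz, add_zero]
      | smul c y _ hy => rw [herm_smul_right, hy, mul_zero]
    | zero => simp
    | add y z _ _ hy hz => rw [herm_add_left, hy, hz, add_zero]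
    | smul c y _ hy => rw [herm_smul_left, hy, mul_zero]
  have hW₃ : ∀ w ∈ W₁ ⊓ W₂, herm w p = 0 → ∃ c : ℂ, w = c • p := by
    intro w hw hwp
    exact iso_perp hp0 hpp hwp (horthC w hw.1 hwp w hw.2 hwp)
  have hn3 : n = 3 := by
    have h1 := Submodule.finrank_sup_add_finrank_inf_eq W₁ W₂
    rw [sup_eq_top hW₁ hW₂ hne, finrank_top, Module.finrank_fin_fun, hW₁, hW₂] at h1
    have h2 := finrank_le_two (W := W₁ ⊓ W₂) ⟨hqW₁, hqW₂⟩ hqp hW₃
    -- p and q are independent in the intersection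
    have h3 : 2 ≤ Module.finrank ℂ (W₁ ⊓ W₂ : Submodule ℂ (Fin (n + 1) → ℂ)) := by
      have hli : LinearIndependent ℂ
          ![(⟨p, hpW₁, hpW₂⟩ : (W₁ ⊓ W₂ : Submodule ℂ (Fin (n + 1) → ℂ))), ⟨q, hqW₁, hqW₂⟩] := by
        rw [LinearIndependent.pair_iff]
        intro a b hab
        have h4 := congrArg Subtype.val hab
        have h5 : a • p + b • q = 0 := h4
        have h6 : b = 0 := by
          have := congrArg (fun v => herm v p) h5
          simp only [herm_add_left, herm_smul_left, hpp, mul_zero, zero_add,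
            herm_zero_left] at this
          rcases mul_eq_zero.1 this with h | h
          · exact h
          · exact absurd h hqp
        rw [h6, zero_smul, add_zero] at h5
        rcases smul_eq_zero.1 h5 with h | h
        · exact ⟨h, h6⟩
        · exact absurd h hp0
      have := hli.fintype_card_le_finrank
      simpa using this
    omega
  refine ⟨hn3, ?_⟩
  intro u₁ u₂ hu₁ hu₂
  obtain ⟨v₁, hv₁, hv₁'⟩ := exists_normal hW₁ hnd₁
  -- the projection of u₂ to W₁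
  by_contra hcon
  set a := u₂ - (herm u₂ v₁ / herm v₁ v₁) • v₁ with ha
  have haW : a ∈ W₁ := by
    rw [hv₁', ha, herm_sub_left, herm_smul_left, div_mul_cancel₀ _ hv₁, sub_self]
  have hv₁p : herm v₁ p = 0 := herm_conj_zero ((hv₁' p).1 hpW₁)
  have hap : herm a p = 0 := by
    rw [ha, herm_sub_left, herm_smul_left, hu₂ p hpW₂, hv₁p, mul_zero, sub_zero]
  -- u₁ is a multiple of v₁
  have hu₁v : u₁ = (herm u₁ v₁ / herm v₁ v₁) • v₁ := by
    have h1 : u₁ - (herm u₁ v₁ / herm v₁ v₁) • v₁ = 0 := by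
      refine hnd₁ _ ?_ ?_
      · rw [hv₁', herm_sub_left, herm_smul_left, div_mul_cancel₀ _ hv₁, sub_self]
      · intro w hw
        rw [herm_sub_left, herm_smul_left, hu₁ w hw, herm_conj_zero ((hv₁' w).1 hw), mul_zero,
          sub_zero]
    exact sub_eq_zero.1 h1
  have hu₂v : herm u₂ v₁ ≠ 0 := by
    intro h0
    apply hcon
    rw [hu₁v, herm_smul_left, herm_conj_zero h0, mul_zero]
  have hb : ∀ b ∈ W₂, herm b p = 0 → b ∈ W₁ := by
    intro b hb hbp
    have h1 := horthC a haW hap b hb hbp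
    rw [ha, herm_sub_left, herm_smul_left, hu₂ b hb, zero_sub, neg_eq_zero] at h1
    rw [hv₁']
    apply herm_conj_zero
    rcases mul_eq_zero.1 h1 with h | h
    · exact absurd h (div_ne_zero hu₂v hv₁)
    · exact h
  have h2 := finrank_le_two (W := W₂) hqW₂ hqp
    (fun w hw hwp => hW₃ w ⟨hb w hw hwp, hw⟩ hwp)
  omega

/-- preservation of the sum -/
theorem pres_sup {E : IntermediateField ℚ ℂ} (hE : ImagQuad E)
    {W : Submodule ℂ (Fin (n + 1) → ℂ)} (hW : Module.finrank ℂ W = n)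
    (hnd : ∀ v ∈ W, (∀ w ∈ W, herm v w = 0) → v = 0)
    {X Y : Submodule E (Fin (n + 1) → ℂ)}
    (hspan : Submodule.span ℂ (X : Set (Fin (n + 1) → ℂ)) = W)
    {s : ℝ} (hs0 : s ≠ 0) (hs : ∀ x ∈ X, ∀ y ∈ X, (s : ℂ) * herm x y ∈ E)
    (hXY : ∀ x ∈ X, ∀ y ∈ Y, (s : ℂ) * herm x y ∈ E)
    {g : SpecialLinearGroup (Fin (n + 1)) ℂ} (hg : g ∈ suOf n W)
    (hX : Pres g (X : Set (Fin (n + 1) → ℂ))) :
    Pres g ((X ⊔ Y : Submodule E (Fin (n + 1) → ℂ)) : Set (Fin (n + 1) → ℂ)) := by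
  obtain ⟨u, hu, hu'⟩ := exists_normal hW hnd
  have half : ∀ g ∈ suOf n W, Pres g (X : Set (Fin (n + 1) → ℂ)) →
      ∀ v ∈ X ⊔ Y, act g v ∈ X ⊔ Y := by
    intro g hg hX v hv
    have hfix : act g u = u := hg.2 u fun w hw => herm_conj_zero ((hu' w).1 hw)
    have hgW : ∀ w ∈ W, act g w ∈ W := by
      intro w hw
      rw [← hspan] at hw ⊢
      induction hw using Submodule.span_induction with
      | mem x hx => exact Submodule.subset_span ((hX x).1 hx)
      | zero => rw [act_zero]; exact Submodule.zero_mem _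
      | add x y _ _ hx hy => rw [act_add]; exact Submodule.add_mem _ hx hy
      | smul a x _ hx => rw [act_smul]; exact Submodule.smul_mem _ _ hx
    obtain ⟨x, hx, y, hy, rfl⟩ := Submodule.mem_sup.1 hv
    rw [act_add]
    refine Submodule.add_mem _ (Submodule.mem_sup_left ((hX x).1 hx)) ?_
    have h1 : act g y - y ∈ X := by
      have hwW : y - (herm y u / herm u u) • u ∈ W := by
        rw [hu', herm_sub_left, herm_smul_left, div_mul_cancel₀ _ hu, sub_self]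
      refine mem_of_herm hE hnd hspan hs0 hs ?_ ?_
      · have e : act g y - y = act g (y - (herm y u / herm u u) • u) -
            (y - (herm y u / herm u u) • u) := by
          rw [act_sub, act_smul, hfix]; abel
        rw [e]
        exact W.sub_mem (hgW _ hwW) hwW
      · intro z hz
        have h2 : act g⁻¹ z ∈ X := by
          have := (hX (act g⁻¹ z)).2
          rw [act_act_inv] at this
          exact this hz
        have h3 : herm z (act g y) = herm (act g⁻¹ z) y := by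
          have := hg.1 (act g⁻¹ z) y
          rw [act_act_inv] at this
          exact this
        rw [herm_sub_right, h3, mul_sub]
        exact E.sub_mem (hXY _ h2 _ hy) (hXY _ hz _ hy)
    have e : act g y = (act g y - y) + y := by abel
    rw [e]
    exact Submodule.add_mem _ (Submodule.mem_sup_left h1) (Submodule.mem_sup_right hy)
  intro v
  refine ⟨fun hv => half g hg hX v hv, fun hv => ?_⟩
  have hXi : Pres g⁻¹ (X : Set (Fin (n + 1) → ℂ)) := by
    intro v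
    have := hX (act g⁻¹ v)
    rw [act_act_inv] at this
    exact this.symm
  have := half g⁻¹ ((suOf n W).inv_mem hg) hXi _ hv
  rwa [act_inv_act] at this

/-- a rational normal vector -/
theorem exists_rat_normal {E : IntermediateField ℚ ℂ} (hE : ImagQuad E)
    {W : Submodule ℂ (Fin (n + 1) → ℂ)} (hW : Module.finrank ℂ W = n)
    (hnd : ∀ v ∈ W, (∀ w ∈ W, herm v w = 0) → v = 0)
    {X Y : Submodule E (Fin (n + 1) → ℂ)}
    (hspan : Submodule.span ℂ (X : Set (Fin (n + 1) → ℂ)) = W)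
    {s : ℝ} (hs0 : s ≠ 0) (hs : ∀ x ∈ X, ∀ y ∈ X, (s : ℂ) * herm x y ∈ E)
    (hXY : ∀ x ∈ X, ∀ y ∈ Y, (s : ℂ) * herm x y ∈ E)
    (hY : ∃ y ∈ Y, y ∉ W) :
    ∃ u ∈ X ⊔ Y, herm u u ≠ 0 ∧
      ∀ u', (∀ w ∈ W, herm u' w = 0) → ∃ c : ℂ, u' = c • u := by
  obtain ⟨u, hu, hu'⟩ := exists_normal hW hnd
  obtain ⟨y, hy, hyW⟩ := hY
  have hyu : herm y u ≠ 0 := fun h => hyW ((hu' y).2 h)
  set c := herm y u / herm u u with hc
  have hc0 : c ≠ 0 := div_ne_zero hyu hu
  have hwW : y - c • u ∈ W := by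
    rw [hu', herm_sub_left, herm_smul_left, hc, div_mul_cancel₀ _ hu, sub_self]
  have hwX : y - c • u ∈ X := by
    refine mem_of_herm hE hnd hspan hs0 hs hwW ?_
    intro z hz
    have hzW : z ∈ W := hspan ▸ Submodule.subset_span hz
    rw [herm_sub_right, herm_smul_right, (hu' z).1 hzW, mul_zero, sub_zero]
    exact hXY z hz y hy
  refine ⟨c • u, ?_, ?_, ?_⟩
  · have : c • u = y - (y - c • u) := by abel
    rw [this]
    exact Submodule.sub_mem _ (Submodule.mem_sup_right hy) (Submodule.mem_sup_left hwX)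
  · rw [herm_smul_left, herm_smul_right]
    have : conj c ≠ 0 := by simpa using hc0
    exact mul_ne_zero hc0 (mul_ne_zero this hu)
  · intro u' hu''
    have h1 : u' - (herm u' u / herm u u) • u = 0 := by
      refine hnd _ ?_ ?_
      · rw [hu', herm_sub_left, herm_smul_left, div_mul_cancel₀ _ hu, sub_self]
      · intro w hw
        rw [herm_sub_left, herm_smul_left, hu'' w hw, herm_conj_zero ((hu' w).1 hw), mul_zero,
          sub_zero]
    refine ⟨(herm u' u / herm u u) / c, ?_⟩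
    rw [smul_smul, div_mul_cancel₀ _ hc0]
    exact sub_eq_zero.1 h1

end Pool.Agent.Q107.Hunt
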