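import Pool.Agent.Q107.Hunt.Dens

/-! # Ping-pong for hybrids: linear algebra and inequalities -/

namespace Pool.Agent.Q107.Hunt

open Matrix ComplexConjugate Topology

variable {n : ℕ}

theorem herm_conj_zero' {v w : Fin (n + 1) → ℂ} (h : herm v w = 0) : herm w v = 0 := by
  rw [← conj_herm, h, map_zero]

theorem herm_self_re' (v : Fin (n + 1) → ℂ) : herm v v = ((herm v v).re : ℂ) := by
  have h := conj_herm v v
  exact (Complex.conj_eq_iff_re.1 h).symm

theorem norm_herm_comm (v w : Fin (n + 1) → ℂ) : ‖herm v w‖ = ‖herm w v‖ := by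
  rw [← conj_herm, Complex.norm_conj]

/-- the form is nonnegative on vectors with vanishing last coordinate -/
theorem herm_nonneg_of_last {v : Fin (n + 1) → ℂ} (hv : v (Fin.last n) = 0) :
    0 ≤ (herm v v).re ∧ ((herm v v).re = 0 → v = 0) := by
  have h1 : herm v v = ((∑ i, ‖v i‖ ^ 2 : ℝ) : ℂ) := by
    rw [herm]; push_cast
    refine Finset.sum_congr rfl fun i _ => ?_
    unfold sg
    split_ifs with hi
    · subst hi; simp [hv]
    · rw [one_mul, Complex.mul_conj, Complex.normSq_eq_norm_sq]; push_cast; ring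
  rw [h1, Complex.ofReal_re]
  refine ⟨Finset.sum_nonneg fun i _ => by positivity, fun h2 => ?_⟩
  rw [Finset.sum_eq_zero_iff_of_nonneg (fun i _ => by positivity)] at h2
  funext i
  have := h2 i (Finset.mem_univ i)
  simpa using this

/-- a negative vector has nonzero last coordinate -/
theorem last_ne_of_neg {y : Fin (n + 1) → ℂ} (hy : (herm y y).re < 0) : y (Fin.last n) ≠ 0 := by
  intro h
  exact absurd (herm_nonneg_of_last h).1 (not_le.2 hy)

theorem herm_sub_smul (w y : Fin (n + 1) → ℂ) (l : ℂ) :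
    (herm (w - l • y) (w - l • y)).re =
      (herm w w).re - 2 * (conj l * herm w y).re + ‖l‖ ^ 2 * (herm y y).re := by
  rw [herm_sub_left, herm_sub_right, herm_sub_right, herm_smul_left, herm_smul_left,
    herm_smul_right, herm_smul_right, herm_self_re' y]
  have h1 : l * herm y w = conj (conj l * herm w y) := by
    rw [map_mul, Complex.conj_conj, conj_herm]
  have h2 : l * (conj l * ((herm y y).re : ℂ)) = ((‖l‖ ^ 2 * (herm y y).re : ℝ) : ℂ) := by
    rw [← mul_assoc, Complex.mul_conj, Complex.normSq_eq_norm_sq]; push_cast; ring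
  rw [h1, h2]
  simp only [Complex.sub_re, Complex.conj_re, Complex.ofReal_re]
  ring

/-- reverse Cauchy-Schwarz inequality -/
theorem rcs {y w : Fin (n + 1) → ℂ} (hy : (herm y y).re < 0) :
    (herm y y).re * (herm w w).re ≤ ‖herm y w‖ ^ 2 := by
  have hl := last_ne_of_neg hy
  set l := w (Fin.last n) / y (Fin.last n) with hldef
  have h0 : (w - l • y) (Fin.last n) = 0 := by
    simp [hldef, div_mul_cancel₀ _ hl]
  have h1 := (herm_nonneg_of_last h0).1
  rw [herm_sub_smul] at h1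
  have h2 : ‖herm w y‖ = ‖herm y w‖ := norm_herm_comm w y
  have h3 : (conj l * herm w y).re ≥ - (‖l‖ * ‖herm y w‖) := by
    have := Complex.abs_re_le_norm (conj l * herm w y)
    rw [norm_mul, Complex.norm_conj, h2] at this
    exact (abs_le.1 this).1
  set Y := (herm y y).re
  set Wr := (herm w w).re
  set L := ‖l‖
  set H := ‖herm y w‖
  have h4 : 0 ≤ Wr + 2 * (L * H) + L ^ 2 * Y := by nlinarith
  nlinarith [sq_nonneg (L * Y + H), mul_nonneg h4 (neg_nonneg.2 hy.le)]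

/-- the orthogonal complement of a negative vector is positive definite -/
theorem pos_of_perp {y w : Fin (n + 1) → ℂ} (hy : (herm y y).re < 0) (hw : herm w y = 0)
    (hw0 : w ≠ 0) : 0 < (herm w w).re := by
  have hl := last_ne_of_neg hy
  set l := w (Fin.last n) / y (Fin.last n) with hldef
  have h0 : (w - l • y) (Fin.last n) = 0 := by
    simp [hldef, div_mul_cancel₀ _ hl]
  obtain ⟨h1, h1'⟩ := herm_nonneg_of_last h0
  rw [herm_sub_smul, hw, mul_zero, Complex.zero_re, mul_zero, sub_zero] at h1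
  by_contra hcon
  push Not at hcon
  have h2 : 0 ≤ ‖l‖ ^ 2 * (herm y y).re := by linarith
  have h3 : ‖l‖ ^ 2 = 0 := by
    by_contra h
    have : 0 < ‖l‖ ^ 2 := lt_of_le_of_ne (by positivity) (Ne.symm h)
    nlinarith
  have h4 : l = 0 := by simpa using h3
  have h5 : (herm (w - l • y) (w - l • y)).re = 0 := by
    rw [herm_sub_smul, hw, mul_zero, Complex.zero_re, mul_zero, sub_zero, h3, zero_mul, add_zero]
    rw [h3, zero_mul, add_zero] at h1
    linarith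
  have h6 := h1' h5
  rw [h4, zero_smul, sub_zero] at h6
  exact hw0 h6

/-! ### The two frames -/

/-- complex lemma on a unitary change of frame -/
theorem frame_ineq {α β γ δ a b : ℂ} (h1 : ‖α‖ ^ 2 + ‖β‖ ^ 2 = 1) (h2 : ‖γ‖ ^ 2 + ‖δ‖ ^ 2 = 1)
    (h3 : γ * conj α + δ * conj β = 0) :
    ‖conj α * a + conj β * b‖ ^ 2 + ‖conj γ * a + conj δ * b‖ ^ 2 = ‖a‖ ^ 2 + ‖b‖ ^ 2 ∧
    ‖a‖ * ‖conj α * a + conj β * b‖ - ‖b‖ * ‖conj γ * a + conj δ * b‖ ≤
      ‖α‖ * (‖a‖ ^ 2 + ‖b‖ ^ 2) := by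
  set μ := δ * α - γ * β with hμ
  have e1 : (‖α‖ ^ 2 + ‖β‖ ^ 2 : ℂ) = 1 := by exact_mod_cast h1
  have e2 : (‖γ‖ ^ 2 + ‖δ‖ ^ 2 : ℂ) = 1 := by exact_mod_cast h2
  have nα : (‖α‖ ^ 2 : ℂ) = α * conj α := by
    rw [Complex.mul_conj, Complex.normSq_eq_norm_sq]; push_cast; ring
  have nβ : (‖β‖ ^ 2 : ℂ) = β * conj β := by
    rw [Complex.mul_conj, Complex.normSq_eq_norm_sq]; push_cast; ring
  have nγ : (‖γ‖ ^ 2 : ℂ) = γ * conj γ := by
    rw [Complex.mul_conj, Complex.normSq_eq_norm_sq]; push_cast; ring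
  have nδ : (‖δ‖ ^ 2 : ℂ) = δ * conj δ := by
    rw [Complex.mul_conj, Complex.normSq_eq_norm_sq]; push_cast; ring
  rw [nα, nβ] at e1
  rw [nγ, nδ] at e2
  have hγ : γ = - (μ * conj β) := by
    rw [hμ]; linear_combination (-γ) * e1 + α * h3
  have hδ : δ = μ * conj α := by
    rw [hμ]; linear_combination (-δ) * e1 + β * h3
  have hμ1 : μ * conj μ = 1 := by
    have : μ * conj μ = γ * conj γ + δ * conj δ := by
      rw [hγ, hδ]
      simp only [map_neg, map_mul, Complex.conj_conj]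
      linear_combination (-(μ * conj μ)) * e1
    rw [this, e2]
  have hμn : ‖μ‖ = 1 := by
    have h4 : ((‖μ‖ ^ 2 : ℝ) : ℂ) = 1 := by
      rw [← hμ1, Complex.mul_conj, Complex.normSq_eq_norm_sq]
    have h5 : ‖μ‖ ^ 2 = 1 := by exact_mod_cast h4
    have h6 : 0 ≤ ‖μ‖ := norm_nonneg _
    nlinarith
  have hb : ‖conj γ * a + conj δ * b‖ = ‖-β * a + α * b‖ := by
    have : conj γ * a + conj δ * b = conj μ * (-β * a + α * b) := by
      rw [hγ, hδ]
      simp only [map_neg, map_mul, Complex.conj_conj]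
      ring
    rw [this, norm_mul, Complex.norm_conj, hμn, one_mul]
  rw [hb]
  constructor
  · have h4 : ((‖conj α * a + conj β * b‖ ^ 2 + ‖-β * a + α * b‖ ^ 2 : ℝ) : ℂ) =
        ((‖a‖ ^ 2 + ‖b‖ ^ 2 : ℝ) : ℂ) := by
      have n1 : ∀ z : ℂ, ((‖z‖ : ℂ)) ^ 2 = z * conj z := by
        intro z
        rw [Complex.mul_conj, Complex.normSq_eq_norm_sq]; push_cast; ring
      push_cast
      rw [n1, n1, n1, n1]
      simp only [map_add, map_mul, map_neg, Complex.conj_conj]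
      linear_combination (a * conj a + b * conj b) * e1
    exact_mod_cast h4
  · have h4 : conj α * ((‖a‖ ^ 2 + ‖b‖ ^ 2 : ℝ) : ℂ) =
        conj a * (conj α * a + conj β * b) + b * conj (-β * a + α * b) := by
      have n1 : ∀ z : ℂ, ((‖z‖ : ℂ)) ^ 2 = z * conj z := by
        intro z
        rw [Complex.mul_conj, Complex.normSq_eq_norm_sq]; push_cast; ring
      push_cast
      rw [n1, n1]
      simp only [map_add, map_mul, map_neg]
      ring
    have h5 : ‖α‖ * (‖a‖ ^ 2 + ‖b‖ ^ 2) =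
        ‖conj a * (conj α * a + conj β * b) + b * conj (-β * a + α * b)‖ := by
      rw [← h4, norm_mul, Complex.norm_conj, Complex.norm_real, Real.norm_eq_abs,
        abs_of_nonneg (by positivity)]
    rw [h5]
    have h6 := norm_sub_le_norm_add (conj a * (conj α * a + conj β * b))
      (b * conj (-β * a + α * b))
    rw [norm_mul, norm_mul, Complex.norm_conj, Complex.norm_conj] at h6
    exact h6

theorem polar {x y r : ℝ} (hx : 0 ≤ x) (hy : 0 ≤ y) (hr : 0 < r) (h : x ^ 2 + y ^ 2 = r ^ 2) :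
    ∃ θ, 0 ≤ θ ∧ θ ≤ Real.pi / 2 ∧ x = r * Real.cos θ ∧ y = r * Real.sin θ := by
  have hx1 : x / r ≤ 1 := by
    rw [div_le_one hr]; nlinarith
  refine ⟨Real.arccos (x / r), Real.arccos_nonneg _, Real.arccos_le_pi_div_two.2 (by positivity),
    ?_, ?_⟩
  · rw [Real.cos_arccos (by have : 0 ≤ x / r := by positivity
                            linarith) hx1]
    field_simp
  · rw [Real.sin_arccos]
    have h1 : 1 - (x / r) ^ 2 = (y / r) ^ 2 := by
      field_simp; linarith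
    rw [h1, Real.sqrt_sq (by positivity)]
    field_simp

/-- triangle inequality for angles: the two ping-pong domains are disjoint -/
theorem disj_angles {x₀ y₀ x₁ y₁ φ ψ₀ ψ₁ : ℝ} (hx₀ : 0 ≤ x₀) (hy₀ : 0 ≤ y₀) (hx₁ : 0 ≤ x₁)
    (hy₁ : 0 ≤ y₁) (hr : x₀ ^ 2 + y₀ ^ 2 = x₁ ^ 2 + y₁ ^ 2)
    (hc : x₀ * x₁ - y₀ * y₁ ≤ Real.cos φ * (x₀ ^ 2 + y₀ ^ 2))
    (hψ₀ : 0 < ψ₀) (hψ₁ : 0 < ψ₁) (hψφ : ψ₀ + ψ₁ ≤ φ) (hφ : φ ≤ Real.pi / 2)
    (h₀ : Real.cos ψ₀ * y₀ < Real.sin ψ₀ * x₀) (h₁ : Real.cos ψ₁ * y₁ < Real.sin ψ₁ * x₁) :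
    False := by
  have hpi := Real.pi_pos
  have hx₀' : 0 < x₀ := by
    rcases hx₀.lt_or_eq with h | h
    · exact h
    · rw [← h, mul_zero] at h₀
      have : 0 ≤ Real.cos ψ₀ := Real.cos_nonneg_of_mem_Icc ⟨by linarith, by linarith⟩
      exact absurd h₀ (not_lt.2 (mul_nonneg this hy₀))
  set r := Real.sqrt (x₀ ^ 2 + y₀ ^ 2) with hrdef
  have hr0 : 0 < r := Real.sqrt_pos.2 (by positivity)
  have hr2 : r ^ 2 = x₀ ^ 2 + y₀ ^ 2 := Real.sq_sqrt (by positivity)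
  obtain ⟨θ₀, a1, a2, a3, a4⟩ := polar hx₀ hy₀ hr0 hr2.symm
  obtain ⟨θ₁, b1, b2, b3, b4⟩ := polar hx₁ hy₁ hr0 (by rw [hr2, hr])
  have k₀ : θ₀ < ψ₀ := by
    have h : 0 < Real.sin (ψ₀ - θ₀) := by
      rw [Real.sin_sub]
      rw [a3, a4] at h₀
      have : 0 < r * (Real.sin ψ₀ * Real.cos θ₀ - Real.cos ψ₀ * Real.sin θ₀) := by
        ring_nf; ring_nf at h₀; linarith
      exact (mul_pos_iff_of_pos_left hr0).1 this
    by_contra hcon
    push Not at hcon
    have := Real.sin_nonpos_of_nonpos_of_neg_pi_le (x := ψ₀ - θ₀) (by linarith) (by linarith)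
    linarith
  have k₁ : θ₁ < ψ₁ := by
    have h : 0 < Real.sin (ψ₁ - θ₁) := by
      rw [Real.sin_sub]
      rw [b3, b4] at h₁
      have : 0 < r * (Real.sin ψ₁ * Real.cos θ₁ - Real.cos ψ₁ * Real.sin θ₁) := by
        ring_nf; ring_nf at h₁; linarith
      exact (mul_pos_iff_of_pos_left hr0).1 this
    by_contra hcon
    push Not at hcon
    have := Real.sin_nonpos_of_nonpos_of_neg_pi_le (x := ψ₁ - θ₁) (by linarith) (by linarith)
    linarith
  have h5 : Real.cos φ < Real.cos (θ₀ + θ₁) :=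
    Real.cos_lt_cos_of_nonneg_of_le_pi (by linarith) (by linarith) (by linarith)
  rw [← hr2, a3, a4, b3, b4] at hc
  have h6 : r * Real.cos θ₀ * (r * Real.cos θ₁) - r * Real.sin θ₀ * (r * Real.sin θ₁) =
      r ^ 2 * Real.cos (θ₀ + θ₁) := by rw [Real.cos_add]; ring
  rw [h6] at hc
  have h7 : 0 < r ^ 2 := by positivity
  nlinarith

/-- the real inequality behind the ping-pong step -/
theorem step_ineq {t a b A ε a' : ℝ} (ht : 0 < t) (ha : 0 ≤ a) (hb : 0 ≤ b)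
    (ha' : 0 ≤ a') (hε : 0 < ε) (hA : 1 + 2 * t ^ 2 ≤ A) (hab : a ≤ t * b)
    (h : (ε + a ^ 2 + b ^ 2) * (A ^ 2 - 1) ≤ (a' + A * a) ^ 2) : t * b < a' := by
  by_contra hcon
  push Not at hcon
  have hA1 : 1 < A := by nlinarith [sq_nonneg t, mul_pos ht ht]
  have h1 : (a' + A * a) ^ 2 ≤ (t * b + A * a) ^ 2 := by
    apply pow_le_pow_left₀ (by positivity)
    linarith
  have h2 : ε * (A ^ 2 - 1) + b ^ 2 * (A ^ 2 - 1) ≤
      t ^ 2 * b ^ 2 + 2 * A * t * a * b + a ^ 2 := by nlinarith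
  have h3 : a ^ 2 ≤ t ^ 2 * b ^ 2 := by
    have := pow_le_pow_left₀ ha hab 2
    nlinarith
  have h4 : 2 * A * t * a * b ≤ 2 * A * t ^ 2 * b ^ 2 := by
    have h5 : 0 ≤ 2 * A * t * b := by positivity
    nlinarith [mul_le_mul_of_nonneg_left hab h5]
  have h6 : (A + 1) * (ε * (A - 1) + b ^ 2 * (A - 1 - 2 * t ^ 2)) ≤ 0 := by nlinarith
  have h7 : 0 < ε * (A - 1) + b ^ 2 * (A - 1 - 2 * t ^ 2) := by
    have h8 : 0 < ε * (A - 1) := mul_pos hε (by linarith)
    have h9 : 0 ≤ b ^ 2 * (A - 1 - 2 * t ^ 2) := mul_nonneg (by positivity) (by linarith)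
    linarith
  have h10 : 0 < (A + 1) * (ε * (A - 1) + b ^ 2 * (A - 1 - 2 * t ^ 2)) :=
    mul_pos (by linarith) h7
  linarith

/-- the quantitative form -/
theorem step_bound {t a b A ε a' r : ℝ} (ht : 0 < t) (ha : 0 ≤ a)
    (ha' : 0 ≤ a') (hε : 0 < ε) (hA : 1 + 2 * t ^ 2 ≤ A) (hab : a ≤ t * b)
    (h : (ε + a ^ 2 + b ^ 2) * (A ^ 2 - 1) ≤ (a' + A * a) ^ 2) (hr : 0 < r)
    (hr2 : r ^ 2 * (1 + t) ^ 2 * (1 + 2 * t ^ 2) ^ 2 < ε * ((1 + 2 * t ^ 2) ^ 2 - 1)) :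
    r ≤ a' ∨ r ≤ b := by
  by_contra hcon
  push Not at hcon
  obtain ⟨h1, h2⟩ := hcon
  set κ := 1 + 2 * t ^ 2 with hκ
  have hκ1 : 1 < κ := by rw [hκ]; nlinarith [mul_pos ht ht]
  have hA1 : 1 < A := by linarith
  have h3 : a ≤ t * r := hab.trans (mul_le_mul_of_nonneg_left h2.le ht.le)
  have h4 : a' + A * a ≤ A * r * (1 + t) := by
    have : A * a ≤ A * (t * r) := mul_le_mul_of_nonneg_left h3 (by linarith)
    have h5 : a' ≤ A * r := by nlinarith
    nlinarith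
  have h5 : ε * (A ^ 2 - 1) ≤ A ^ 2 * (r ^ 2 * (1 + t) ^ 2) := by
    have h6 : (a' + A * a) ^ 2 ≤ (A * r * (1 + t)) ^ 2 :=
      pow_le_pow_left₀ (by positivity) h4 2
    have h7 : 0 ≤ (a ^ 2 + b ^ 2) * (A ^ 2 - 1) :=
      mul_nonneg (by positivity) (by nlinarith)
    nlinarith
  -- A^2-1 ≥ A^2 (1 - 1/κ^2)
  have h8 : A ^ 2 * (κ ^ 2 - 1) ≤ κ ^ 2 * (A ^ 2 - 1) := by nlinarith
  have h9 : A ^ 2 * (ε * (κ ^ 2 - 1)) ≤ A ^ 2 * (r ^ 2 * (1 + t) ^ 2 * κ ^ 2) := by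
    have h10 := mul_le_mul_of_nonneg_left h8 hε.le
    have h11 := mul_le_mul_of_nonneg_left h5 (by positivity : 0 ≤ κ ^ 2)
    nlinarith
  have h12 : 0 < A ^ 2 := by positivity
  have h13 := le_of_mul_le_mul_left h9 h12
  linarith

end Pool.Agent.Q107.Hunt
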