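import Pool.Agent.Q107.Hunt.Ping1

/-! # Ping-pong in amalgamated products -/

namespace Pool.Agent.Q107.Hunt

open Monoid Monoid.PushoutI Function

section Push

variable {ι : Type*} {G : ι → Type*} {H : Type*} {K : Type*} [Group K]
  [∀ i, Group (G i)] [Group H] {φ : ∀ i, H →* G i}

theorem pushout_pingpong (hφ : ∀ i, Injective (φ i)) (f : ∀ i, G i →* K) (k : H →* K)
    (hf : ∀ i, (f i).comp (φ i) = k) (S : ι → Set K)
    (hone : ∀ i, ∀ g ∉ (φ i).range, f i g ∈ S i)
    (hmul : ∀ i j, i ≠ j → ∀ g ∉ (φ i).range, ∀ x ∈ S j, f i g * x ∈ S i)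
    (hbase : ∀ i h, ∀ x ∈ S i, k h * x ∈ S i) (x : PushoutI φ) :
    (∃ h, x = base φ h) ∨ ∃ i, PushoutI.lift f k hf x ∈ S i := by
  obtain ⟨d⟩ := NormalWord.transversal_nonempty φ hφ
  let _ := Classical.decEq ι
  let _ := fun i => Classical.decEq (G i)
  have key : ∀ w : NormalWord d, (w.fstIdx = none ∧ ∃ h, w.prod = base φ h) ∨
      ∃ i, w.fstIdx = some i ∧ PushoutI.lift f k hf w.prod ∈ S i := by
    intro w
    induction w using NormalWord.consRecOn with
    | empty =>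
      left
      refine ⟨by simp [CoprodI.Word.fstIdx, NormalWord.empty, CoprodI.Word.empty], 1, ?_⟩
      rw [NormalWord.prod_empty, map_one]
    | cons i g w hmw hgn hgr hw1 ih =>
      right
      refine ⟨i, by simp [CoprodI.Word.fstIdx], ?_⟩
      rw [NormalWord.prod_cons, map_mul, PushoutI.lift_of]
      rcases ih with ⟨-, h, hh⟩ | ⟨j, hj, hjS⟩
      · rw [hh, PushoutI.lift_base, ← hf i, MonoidHom.comp_apply, ← map_mul]
        apply hone
        rw [mul_mem_cancel_right (MonoidHom.mem_range.2 ⟨h, rfl⟩)]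
        exact hgr
      · refine hmul i j ?_ g hgr _ hjS
        rintro rfl
        exact hmw hj
    | base h w hw1 ih =>
      rcases ih with ⟨h1, h', hh'⟩ | ⟨j, hj, hjS⟩
      · left
        refine ⟨h1, h * h', ?_⟩
        rw [NormalWord.prod_smul, hh', map_mul]
      · right
        refine ⟨j, hj, ?_⟩
        rw [NormalWord.prod_smul, map_mul, PushoutI.lift_base]
        exact hbase j h _ hjS
  have hx : x = (x • (NormalWord.empty : NormalWord d)).prod := by
    rw [NormalWord.prod_smul, NormalWord.prod_empty, mul_one]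
  rcases key (x • NormalWord.empty) with ⟨-, h, hh⟩ | ⟨i, -, hi⟩
  · left; exact ⟨h, hx.trans hh⟩
  · right; refine ⟨i, ?_⟩
    rwa [← hx] at hi

end Push

section Amalgam

variable {G : Type*} [Group G]

/-- The inclusions of the intersection of a family of subgroups into the members. -/
def incl {ι : Type*} (Γ : ι → Subgroup G) (i : ι) : ↥(⨅ j, Γ j) →* Γ i :=
  Subgroup.inclusion (iInf_le Γ i)

theorem incl_comp {ι : Type*} (Γ : ι → Subgroup G) (i : ι) :
    (Γ i).subtype.comp (incl Γ i) = (⨅ j, Γ j).subtype := rfl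

/-- The natural homomorphism of the amalgamated product of a family of subgroups along their
intersection, `*_{⋂ Γ} Γ_i → G`. -/
def amalgMap {ι : Type*} (Γ : ι → Subgroup G) : PushoutI (incl Γ) →* G :=
  PushoutI.lift (fun i => (Γ i).subtype) (⨅ j, Γ j).subtype (incl_comp Γ)

theorem amalgMap_of {ι : Type*} (Γ : ι → Subgroup G) (i : ι) (g : Γ i) :
    amalgMap Γ (PushoutI.of i g) = g := by
  rw [amalgMap, PushoutI.lift_of]
  rfl

theorem amalgMap_base {ι : Type*} (Γ : ι → Subgroup G) (h : ↥(⨅ j, Γ j)) :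
    amalgMap Γ (base (incl Γ) h) = h := by
  rw [amalgMap, PushoutI.lift_base]
  rfl

theorem incl_injective {ι : Type*} (Γ : ι → Subgroup G) (i : ι) : Injective (incl Γ i) :=
  Subgroup.inclusion_injective _

theorem mem_range_incl {ι : Type*} (Γ : ι → Subgroup G) (i : ι) (g : Γ i) :
    g ∈ (incl Γ i).range ↔ (g : G) ∈ ⨅ j, Γ j := by
  constructor
  · rintro ⟨h, rfl⟩
    exact h.2
  · intro h
    exact ⟨⟨g, h⟩, Subtype.ext rfl⟩

theorem range_amalgMap {ι : Type*} (Γ : ι → Subgroup G) :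
    (⨆ i, Γ i) ≤ (amalgMap Γ).range := by
  exact iSup_le fun i g hg => ⟨PushoutI.of i ⟨g, hg⟩, amalgMap_of Γ i ⟨g, hg⟩⟩

/-- ping-pong for the subgroup generated by a family of subgroups -/
theorem sup_pingpong {ι : Type*} (Γ : ι → Subgroup G) (S : ι → Set G)
    (hone : ∀ i, ∀ g ∈ Γ i, g ∉ ⨅ j, Γ j → g ∈ S i)
    (hmul : ∀ i j, i ≠ j → ∀ g ∈ Γ i, g ∉ ⨅ j, Γ j → ∀ x ∈ S j, g * x ∈ S i)
    (hbase : ∀ i, ∀ h ∈ ⨅ j, Γ j, ∀ x ∈ S i, h * x ∈ S i) :
    (∀ x : PushoutI (incl Γ), (∃ h, x = base (incl Γ) h) ∨ ∃ i, amalgMap Γ x ∈ S i) ∧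
    ∀ g ∈ ⨆ i, Γ i, g ∈ ⨅ j, Γ j ∨ ∃ i, g ∈ S i := by
  have h1 : ∀ x : PushoutI (incl Γ),
      (∃ h, x = base (incl Γ) h) ∨ ∃ i, amalgMap Γ x ∈ S i := by
    intro x
    refine pushout_pingpong (incl_injective Γ) _ _ _ S ?_ ?_ ?_ x
    · intro i g hg
      rw [mem_range_incl] at hg
      exact hone i g g.2 hg
    · intro i j hij g hg x hx
      rw [mem_range_incl] at hg
      exact hmul i j hij g g.2 hg x hx
    · intro i h x hx
      exact hbase i h h.2 x hx
  refine ⟨h1, fun g hg => ?_⟩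
  obtain ⟨x, rfl⟩ := range_amalgMap Γ hg
  rcases h1 x with ⟨h, rfl⟩ | h
  · left
    rw [amalgMap_base]
    exact h.2
  · right; exact h

theorem amalg_injective {ι : Type*} (Γ : ι → Subgroup G) (S : ι → Set G)
    (h : ∀ x : PushoutI (incl Γ), (∃ h, x = base (incl Γ) h) ∨ ∃ i, amalgMap Γ x ∈ S i)
    (h1 : ∀ i, (1 : G) ∉ S i) : Injective (amalgMap Γ) := by
  rw [injective_iff_map_eq_one]
  intro x hx
  rcases h x with ⟨y, rfl⟩ | ⟨i, hi⟩
  · rw [amalgMap_base] at hx
    have : y = 1 := Subtype.ext hx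
    rw [this, map_one]
  · rw [hx] at hi
    exact absurd hi (h1 i)

end Amalgam

end Pool.Agent.Q107.Hunt
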