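import Pool.Agent.Q107.Hunt.Ping2

/-! # Ping-pong for hybrids with wide collars -/

namespace Pool.Agent.Q107.Hunt

open Matrix ComplexConjugate Topology Monoid

variable {n : ℕ}

/-- the orthonormal frames of the two hyperplanes -/
structure Frame (W : Fin 2 → Submodule ℂ (Fin (n + 1) → ℂ)) (e u : Fin 2 → Fin (n + 1) → ℂ) :
    Prop where
  hu : ∀ i v, v ∈ W i ↔ herm v (u i) = 0
  hu1 : ∀ i, herm (u i) (u i) = 1
  heW : ∀ i, e i ∈ W i
  he1 : ∀ i, herm (e i) (e i) = 1
  he : ∀ i, ∀ w, (∀ j, w ∈ W j) → herm (e i) w = 0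

theorem fin2_cases {i j : Fin 2} (h : i ≠ j) (k : Fin 2) : k = i ∨ k = j := by omega

namespace Frame

variable {W : Fin 2 → Submodule ℂ (Fin (n + 1) → ℂ)} {e u : Fin 2 → Fin (n + 1) → ℂ}

theorem eu (F : Frame W e u) (i : Fin 2) : herm (e i) (u i) = 0 := (F.hu i _).1 (F.heW i)

theorem ue (F : Frame W e u) (i : Fin 2) : herm (u i) (e i) = 0 := herm_conj_zero' (F.eu i)

theorem uW (F : Frame W e u) (i : Fin 2) {w : Fin (n + 1) → ℂ} (hw : w ∈ W i) :
    herm (u i) w = 0 := herm_conj_zero' ((F.hu i w).1 hw)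

theorem eu_ne (F : Frame W e u) {i j : Fin 2} (hij : i ≠ j) : herm (e i) (u j) ≠ 0 := by
  intro h
  have h1 : e i ∈ W j := (F.hu j _).2 h
  have h2 := F.he i (e i) (fun k => by
    rcases fin2_cases hij k with rfl | rfl
    · exact F.heW _
    · exact h1)
  rw [F.he1] at h2
  exact one_ne_zero h2

theorem mem_of (F : Frame W e u) (i : Fin 2) {v : Fin (n + 1) → ℂ} (h1 : herm v (e i) = 0)
    (h2 : herm v (u i) = 0) (j : Fin 2) : v ∈ W j := by
  by_cases hij : i = j
  · subst hij; exact (F.hu i v).2 h2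
  set c := herm v (u j) / herm (e i) (u j) with hc
  have hne := F.eu_ne hij
  have h3 : ∀ k, v - c • e i ∈ W k := by
    intro k
    rw [F.hu k]
    rcases fin2_cases hij k with rfl | rfl
    · rw [herm_sub_left, herm_smul_left, h2, F.eu]; simp
    · rw [herm_sub_left, herm_smul_left, hc, div_mul_cancel₀ _ hne, sub_self]
  have h4 := herm_conj_zero' (F.he i _ h3)
  rw [herm_sub_left, herm_smul_left, h1, F.he1] at h4
  have h5 : c = 0 := by
    have : 0 - c * 1 = 0 := h4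
    linear_combination -this
  rw [hc, div_eq_zero_iff] at h5
  rcases h5 with h6 | h6
  · exact (F.hu j v).2 h6
  · exact absurd h6 hne

theorem expand (F : Frame W e u) {x : Fin (n + 1) → ℂ}
    (hx : ∀ w, (∀ j, w ∈ W j) → herm x w = 0) (i : Fin 2) :
    x = herm x (e i) • e i + herm x (u i) • u i := by
  set d := x - (herm x (e i) • e i + herm x (u i) • u i) with hd
  have hde : herm d (e i) = 0 := by
    rw [hd, herm_sub_left, herm_add_left, herm_smul_left, herm_smul_left, F.he1, F.ue]; ring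
  have hdu : herm d (u i) = 0 := by
    rw [hd, herm_sub_left, herm_add_left, herm_smul_left, herm_smul_left, F.hu1, F.eu]; ring
  have h0 : d = 0 := by
    apply herm_nondeg
    intro v
    set v3 := v - herm v (e i) • e i - herm v (u i) • u i with hv3
    have h3 : ∀ j, v3 ∈ W j := by
      apply F.mem_of i
      · rw [hv3, herm_sub_left, herm_sub_left, herm_smul_left, herm_smul_left, F.he1, F.ue]; ring
      · rw [hv3, herm_sub_left, herm_sub_left, herm_smul_left, herm_smul_left, F.hu1, F.eu]; ring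
    have h4 : v = v3 + herm v (e i) • e i + herm v (u i) • u i := by rw [hv3]; abel
    have h5 : herm d v3 = 0 := by
      rw [hd, herm_sub_left, herm_add_left, herm_smul_left, herm_smul_left, hx v3 h3,
        F.he i v3 h3, F.uW i (h3 i)]
      ring
    rw [h4, herm_add_right, herm_add_right, herm_smul_right, herm_smul_right, h5, hde, hdu]
    ring
  rw [hd] at h0
  exact sub_eq_zero.1 h0

theorem expand_e (F : Frame W e u) (i j : Fin 2) :
    e j = herm (e j) (e i) • e i + herm (e j) (u i) • u i := F.expand (F.he j) i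

theorem expand_u (F : Frame W e u) (i j : Fin 2) :
    u j = herm (u j) (e i) • e i + herm (u j) (u i) • u i :=
  F.expand (fun _ hw => F.uW j (hw j)) i

theorem ineq (F : Frame W e u) (i j : Fin 2) (y : Fin (n + 1) → ℂ) :
    ‖herm y (e i)‖ ^ 2 + ‖herm y (u i)‖ ^ 2 = ‖herm y (e j)‖ ^ 2 + ‖herm y (u j)‖ ^ 2 ∧
    ‖herm y (e i)‖ * ‖herm y (e j)‖ - ‖herm y (u i)‖ * ‖herm y (u j)‖ ≤
      ‖herm (e j) (e i)‖ * (‖herm y (e i)‖ ^ 2 + ‖herm y (u i)‖ ^ 2) := by
  have hse : ∀ x : Fin (n + 1) → ℂ, herm x (e j) =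
      conj (herm (e j) (e i)) * herm x (e i) + conj (herm (e j) (u i)) * herm x (u i) := by
    intro x
    conv_lhs => rw [F.expand_e i j]
    rw [herm_add_right, herm_smul_right, herm_smul_right]
  have hsu : ∀ x : Fin (n + 1) → ℂ, herm x (u j) =
      conj (herm (u j) (e i)) * herm x (e i) + conj (herm (u j) (u i)) * herm x (u i) := by
    intro x
    conv_lhs => rw [F.expand_u i j]
    rw [herm_add_right, herm_smul_right, herm_smul_right]
  have n1 : ∀ z : ℂ, ((‖z‖ : ℂ)) ^ 2 = conj z * z := by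
    intro z
    rw [mul_comm, Complex.mul_conj, Complex.normSq_eq_norm_sq]; push_cast; ring
  have h1 : ‖herm (e j) (e i)‖ ^ 2 + ‖herm (e j) (u i)‖ ^ 2 = 1 := by
    have := hse (e j)
    rw [F.he1] at this
    have h : ((‖herm (e j) (e i)‖ ^ 2 + ‖herm (e j) (u i)‖ ^ 2 : ℝ) : ℂ) = 1 := by
      push_cast; rw [n1, n1]; exact this.symm
    exact_mod_cast h
  have h2 : ‖herm (u j) (e i)‖ ^ 2 + ‖herm (u j) (u i)‖ ^ 2 = 1 := by
    have := hsu (u j)
    rw [F.hu1] at this
    have h : ((‖herm (u j) (e i)‖ ^ 2 + ‖herm (u j) (u i)‖ ^ 2 : ℝ) : ℂ) = 1 := by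
      push_cast; rw [n1, n1]; exact this.symm
    exact_mod_cast h
  have h3 : herm (u j) (e i) * conj (herm (e j) (e i)) +
      herm (u j) (u i) * conj (herm (e j) (u i)) = 0 := by
    have := hse (u j)
    rw [F.ue] at this
    rw [this]; ring
  obtain ⟨h4, h5⟩ := frame_ineq (a := herm y (e i)) (b := herm y (u i)) h1 h2 h3
  rw [← hse y, ← hsu y] at h4 h5
  exact ⟨h4.symm, h5⟩

end Frame

/-- existence of the frame -/
theorem exists_frame {W : Fin 2 → Submodule ℂ (Fin (n + 1) → ℂ)} {e : Fin 2 → Fin (n + 1) → ℂ}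
    (hW : ∀ i, Module.finrank ℂ (W i) = n) {p : Fin (n + 1) → ℂ} (hp : ∀ i, p ∈ W i)
    (hpp : (herm p p).re < 0) (heW : ∀ i, e i ∈ W i) (he1 : ∀ i, herm (e i) (e i) = 1)
    (he : ∀ i, ∀ w, (∀ j, w ∈ W j) → herm (e i) w = 0) :
    ∃ u, Frame W e u := by
  have hex : ∀ i, ∃ u : Fin (n + 1) → ℂ, herm u u = 1 ∧ ∀ v, v ∈ W i ↔ herm v u = 0 := by
    intro i
    obtain ⟨u', hu', hmem⟩ := exists_normal (hW i) (fun v hv h => by
      by_contra hv0
      have := pos_of_perp hpp (h p (hp i)) hv0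
      rw [h v hv] at this
      simp at this)
    have hu0 : u' ≠ 0 := by
      rintro rfl; simp at hu'
    have hup : herm u' p = 0 := herm_conj_zero' ((hmem p).1 (hp i))
    have hpos := pos_of_perp hpp hup hu0
    set s := Real.sqrt (herm u' u').re with hs
    have hs0 : 0 < s := Real.sqrt_pos.2 hpos
    have hs2 : s * s = (herm u' u').re := Real.mul_self_sqrt hpos.le
    have hsc : (s : ℂ) ≠ 0 := by exact_mod_cast hs0.ne'
    refine ⟨((s⁻¹ : ℝ) : ℂ) • u', ?_, fun v => ?_⟩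
    · rw [herm_smul_left, herm_smul_right, Complex.conj_ofReal, herm_self_re' u', ← hs2]
      push_cast
      field_simp
    · rw [hmem, herm_smul_right, Complex.conj_ofReal]
      constructor
      · intro h; rw [h, mul_zero]
      · intro h
        rcases mul_eq_zero.1 h with h | h
        · exfalso
          have : s⁻¹ = 0 := by exact_mod_cast h
          exact (inv_ne_zero hs0.ne') this
        · exact h
  choose u hu using hex
  exact ⟨u, ⟨fun i => (hu i).2, fun i => (hu i).1, heW, he1, he⟩⟩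

/-- the ping-pong domain -/
def Dom (e u : Fin 2 → Fin (n + 1) → ℂ) (ψ : Fin 2 → ℝ) (i : Fin 2) : Set (Fin (n + 1) → ℂ) :=
  {y | Real.cos (ψ i) * ‖herm y (u i)‖ < Real.sin (ψ i) * ‖herm y (e i)‖}

section Step

variable {W : Fin 2 → Submodule ℂ (Fin (n + 1) → ℂ)} {e u : Fin 2 → Fin (n + 1) → ℂ}
  {φ : ℝ} {ψ : Fin 2 → ℝ}

theorem Frame.disj (F : Frame W e u) (hφ : ‖herm (e 0) (e 1)‖ = Real.cos φ)
    (hφ1 : φ ≤ Real.pi / 2) (hψ : ∀ i, 0 < ψ i) (hψφ : ψ 0 + ψ 1 ≤ φ) {i j : Fin 2}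
    (hij : i ≠ j) {y : Fin (n + 1) → ℂ} (hy : y ∈ Dom e u ψ i) : y ∉ Dom e u ψ j := by
  intro hy'
  obtain ⟨h1, h2⟩ := F.ineq i j y
  have hc : ‖herm (e j) (e i)‖ = Real.cos φ := by
    rcases fin2_cases hij 0 with rfl | rfl
    · have : j = 1 := by omega
      subst this
      rw [norm_herm_comm]; exact hφ
    · have : i = 1 := by omega
      subst this
      exact hφ
  have hs : ψ i + ψ j ≤ φ := by
    rcases fin2_cases hij 0 with rfl | rfl
    · have : j = 1 := by omega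
      subst this
      exact hψφ
    · have : i = 1 := by omega
      subst this
      rw [add_comm]; exact hψφ
  rw [hc] at h2
  exact disj_angles (norm_nonneg _) (norm_nonneg _) (norm_nonneg _) (norm_nonneg _) h1 h2
    (hψ i) (hψ j) hs hφ1 hy hy'

theorem Frame.fix_u (F : Frame W e u) (i : Fin 2)
    {g : SpecialLinearGroup (Fin (n + 1)) ℂ} (hg : g ∈ suOf n (W i)) : act g (u i) = u i :=
  hg.2 _ fun _ hw => F.uW i hw

theorem Frame.fix_e (F : Frame W e u) {g : SpecialLinearGroup (Fin (n + 1)) ℂ}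
    (hg : ∀ i, g ∈ suOf n (W i)) (i : Fin 2) : act g (e i) = e i := by
  obtain ⟨j, hij⟩ : ∃ j : Fin 2, i ≠ j := by
    rcases fin2_cases (i := 0) (j := 1) (by decide) i with rfl | rfl
    · exact ⟨1, by decide⟩
    · exact ⟨0, by decide⟩
  have h1 := F.expand_u i j
  have h2 := F.fix_u j (hg j)
  have h3 : herm (u j) (e i) ≠ 0 := by
    intro h
    exact F.eu_ne hij (herm_conj_zero' h)
  rw [h1, act_add, act_smul, act_smul, F.fix_u i (hg i)] at h2
  have h4 : herm (u j) (e i) • act g (e i) = herm (u j) (e i) • e i := add_right_cancel h2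
  exact smul_right_injective _ h3 h4

theorem Frame.step (F : Frame W e u) (i : Fin 2) {g : SpecialLinearGroup (Fin (n + 1)) ℂ}
    (hg : g ∈ suOf n (W i)) {y : Fin (n + 1) → ℂ} (hy : (herm y y).re < 0) :
    herm (act g y) (u i) = herm y (u i) ∧
    (-(herm y y).re + ‖herm y (e i)‖ ^ 2 + ‖herm y (u i)‖ ^ 2) *
      (‖herm (act g (e i)) (e i)‖ ^ 2 - 1) ≤
      (‖herm (act g y) (e i)‖ + ‖herm (act g (e i)) (e i)‖ * ‖herm y (e i)‖) ^ 2 := by
  have hu : act g (u i) = u i := F.fix_u i hg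
  constructor
  · conv_lhs => rw [← hu]
    exact hg.1 _ _
  set z := act g⁻¹ (e i) with hz
  have hgz : act g z = e i := by rw [hz, act_act_inv]
  have hyz : ∀ x, herm (act g x) (e i) = herm x z := by
    intro x
    conv_lhs => rw [← hgz]
    exact hg.1 _ _
  set α := herm (act g (e i)) (e i) with hα
  have hα' : herm (e i) z = α := by rw [hα, hyz]
  have hzα : herm z (e i) = conj α := by rw [← hα', conj_herm]
  have hzu : herm z (u i) = 0 := by
    rw [← hg.1, hgz, hu]; exact F.eu i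
  have huz : herm (u i) z = 0 := herm_conj_zero' hzu
  have hzz : herm z z = 1 := by rw [← hg.1, hgz, F.he1]
  set w := z - conj α • e i with hw
  have hww : (herm w w).re = 1 - ‖α‖ ^ 2 := by
    rw [hw, herm_sub_smul, hzz, hzα, F.he1, Complex.conj_conj, Complex.mul_conj,
      Complex.ofReal_re, Complex.normSq_eq_norm_sq, Complex.norm_conj, Complex.one_re]
    ring
  set a := herm y (e i) with ha
  set b := herm y (u i) with hb
  set y3 := y - a • e i - b • u i with hy3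
  have h1 : herm (y - a • e i) (u i) = b := by
    rw [herm_sub_left, herm_smul_left, F.eu]; rw [mul_zero, sub_zero]
  have hre : ∀ c : ℂ, (conj c * c).re = ‖c‖ ^ 2 := by
    intro c
    rw [mul_comm, Complex.mul_conj, Complex.ofReal_re, Complex.normSq_eq_norm_sq]
  have hyy : (herm y3 y3).re = (herm y y).re - ‖a‖ ^ 2 - ‖b‖ ^ 2 := by
    rw [hy3, herm_sub_smul, herm_sub_smul, h1, F.he1, F.hu1, ← ha, hre, hre, Complex.one_re]
    ring
  have hneg : (herm y3 y3).re < 0 := by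
    rw [hyy]; nlinarith [sq_nonneg ‖a‖, sq_nonneg ‖b‖]
  have h2 : herm y3 (e i) = 0 := by
    rw [hy3, herm_sub_left, herm_sub_left, herm_smul_left, herm_smul_left, F.he1, F.ue, ← ha]
    ring
  have h3 : herm y3 w = herm (act g y) (e i) - a * α := by
    rw [hw, herm_sub_right, herm_smul_right, h2, hy3, herm_sub_left, herm_sub_left,
      herm_smul_left, herm_smul_left, hα', huz, hyz]
    ring
  have h4 := rcs (w := w) hneg
  have h5 : ‖herm y3 w‖ ≤ ‖herm (act g y) (e i)‖ + ‖α‖ * ‖a‖ := by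
    rw [h3]
    refine (norm_sub_le _ _).trans ?_
    rw [norm_mul, mul_comm]
  have h6 : ‖herm y3 w‖ ^ 2 ≤ (‖herm (act g y) (e i)‖ + ‖α‖ * ‖a‖) ^ 2 :=
    pow_le_pow_left₀ (norm_nonneg _) h5 2
  rw [hww, hyy] at h4
  nlinarith

theorem exists_r {X Y : Fin 2 → ℝ} (hY : ∀ i, 0 < Y i) :
    ∃ r > 0, ∀ i, r ^ 2 * X i < Y i := by
  have h1 : ∀ i, ∀ᶠ r in 𝓝 (0 : ℝ), r ^ 2 * X i < Y i := by
    intro i
    have hc : Continuous fun r : ℝ => r ^ 2 * X i := by fun_prop
    exact (hc.tendsto' 0 0 (by simp)).eventually_lt_const (hY i)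
  have h2 := (Filter.eventually_all.2 h1).filter_mono (nhdsWithin_le_nhds (s := Set.Ioi (0 : ℝ)))
  obtain ⟨r, hr, hr0⟩ := (h2.and self_mem_nhdsWithin).exists
  exact ⟨r, hr0, hr⟩

/-- the hypotheses of the combination theorem -/
structure Wide (W : Fin 2 → Submodule ℂ (Fin (n + 1) → ℂ)) (e : Fin 2 → Fin (n + 1) → ℂ)
    (Γ : Fin 2 → Subgroup (SpecialLinearGroup (Fin (n + 1)) ℂ)) (φ : ℝ) (ψ : Fin 2 → ℝ) :
    Prop where
  hφ : ‖herm (e 0) (e 1)‖ = Real.cos φ
  hφ1 : φ ≤ Real.pi / 2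
  hψ : ∀ i, 0 < ψ i
  hψφ : ψ 0 + ψ 1 ≤ φ
  hΓ : ∀ i, Γ i ≤ suOf n (W i)
  hcol : ∀ i, ∀ g ∈ Γ i, g ∉ ⨅ j, Γ j →
    1 + Real.cos (ψ i) ^ 2 ≤ Real.sin (ψ i) ^ 2 * ‖herm (act g (e i)) (e i)‖

variable {Γ : Fin 2 → Subgroup (SpecialLinearGroup (Fin (n + 1)) ℂ)}

theorem Wide.psi_lt (H : Wide W e Γ φ ψ) (i : Fin 2) : ψ i < Real.pi / 2 := by
  have h0 := H.hψ 0
  have h1 := H.hψ 1
  have h2 := H.hψφ
  have h3 := H.hφ1
  rcases fin2_cases (i := 0) (j := 1) (by decide) i with rfl | rfl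
  · linarith
  · linarith

theorem Wide.cos_pos (H : Wide W e Γ φ ψ) (i : Fin 2) : 0 < Real.cos (ψ i) :=
  Real.cos_pos_of_mem_Ioo ⟨by linarith [H.hψ i, Real.pi_pos], H.psi_lt i⟩

theorem Wide.sin_pos (H : Wide W e Γ φ ψ) (i : Fin 2) : 0 < Real.sin (ψ i) :=
  Real.sin_pos_of_pos_of_lt_pi (H.hψ i) (by linarith [H.psi_lt i, Real.pi_pos])

/-- the ping-pong sets of group elements -/
def Sset (e u : Fin 2 → Fin (n + 1) → ℂ) (ψ : Fin 2 → ℝ) (y : Fin (n + 1) → ℂ) (r : ℝ)
    (i : Fin 2) : Set (SpecialLinearGroup (Fin (n + 1)) ℂ) :=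
  {x | x ∈ SU n ∧ act x y ∈ Dom e u ψ i ∧
    (r ≤ ‖herm (act x y) (e i)‖ ∨ r ≤ ‖herm (act x y) (u i)‖)}

theorem Wide.pp (F : Frame W e u) (H : Wide W e Γ φ ψ) {y : Fin (n + 1) → ℂ}
    (hy : (herm y y).re < 0) (hyD : ∀ i, y ∉ Dom e u ψ i) :
    ∃ r > 0, (∀ x : PushoutI (incl Γ), (∃ h, x = PushoutI.base (incl Γ) h) ∨
      ∃ i, amalgMap Γ x ∈ Sset e u ψ y r i) ∧
    ∀ g ∈ ⨆ i, Γ i, g ∈ ⨅ j, Γ j ∨ ∃ i, g ∈ Sset e u ψ y r i := by
  set t : Fin 2 → ℝ := fun i => Real.cos (ψ i) / Real.sin (ψ i) with ht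
  have ht0 : ∀ i, 0 < t i := fun i => div_pos (H.cos_pos i) (H.sin_pos i)
  have hts : ∀ i, t i * Real.sin (ψ i) = Real.cos (ψ i) := fun i => by
    rw [ht]; exact div_mul_cancel₀ _ (H.sin_pos i).ne'
  obtain ⟨r, hr, hr2⟩ := exists_r (X := fun i => (1 + t i) ^ 2 * (1 + 2 * t i ^ 2) ^ 2)
    (Y := fun i => -(herm y y).re * ((1 + 2 * t i ^ 2) ^ 2 - 1)) (fun i => by
      have h1 := ht0 i
      apply mul_pos (by linarith)
      nlinarith [mul_pos h1 h1, sq_nonneg (t i ^ 2)])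
  -- one step
  have hstep : ∀ i, ∀ g ∈ Γ i, g ∉ ⨅ j, Γ j → ∀ x ∈ SU n, act x y ∉ Dom e u ψ i →
      g * x ∈ Sset e u ψ y r i := by
    intro i g hg hg3 x hx hxD
    have hgS := H.hΓ i hg
    have hxy : (herm (act x y) (act x y)).re = (herm y y).re := by rw [hx]
    obtain ⟨h1, h2⟩ := F.step i hgS (y := act x y) (by rw [hxy]; exact hy)
    have hcol := H.hcol i g hg hg3
    set A := ‖herm (act g (e i)) (e i)‖
    have hs := H.sin_pos i
    have hc := H.cos_pos i
    have hA : 1 + 2 * t i ^ 2 ≤ A := by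
      have h3 : Real.sin (ψ i) ^ 2 * (1 + 2 * t i ^ 2) = 1 + Real.cos (ψ i) ^ 2 := by
        have := Real.sin_sq_add_cos_sq (ψ i)
        rw [← hts i] at this ⊢
        nlinarith
      rw [← h3] at hcol
      exact le_of_mul_le_mul_left hcol (by positivity)
    have hab : ‖herm (act x y) (e i)‖ ≤ t i * ‖herm (act x y) (u i)‖ := by
      have h3 : Real.sin (ψ i) * ‖herm (act x y) (e i)‖ ≤
          Real.cos (ψ i) * ‖herm (act x y) (u i)‖ := not_lt.1 hxD
      rw [← hts i] at h3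
      have h4 : Real.sin (ψ i) * ‖herm (act x y) (e i)‖ ≤
          Real.sin (ψ i) * (t i * ‖herm (act x y) (u i)‖) := by linarith
      exact le_of_mul_le_mul_left h4 hs
    rw [hxy] at h2
    have hε : 0 < -(herm y y).re := by linarith
    have hr3 : r ^ 2 * (1 + t i) ^ 2 * (1 + 2 * t i ^ 2) ^ 2 <
        -(herm y y).re * ((1 + 2 * t i ^ 2) ^ 2 - 1) := by
      have := hr2 i
      linarith
    have h5 := step_ineq (ht0 i) (norm_nonneg _) (norm_nonneg _) (norm_nonneg _) hε hA hab h2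
    have h6 := step_bound (ht0 i) (norm_nonneg _) (norm_nonneg _) hε hA hab h2 hr hr3
    refine ⟨(SU n).mul_mem hgS.1 hx, ?_, ?_⟩
    · show Real.cos (ψ i) * ‖herm (act (g * x) y) (u i)‖ <
        Real.sin (ψ i) * ‖herm (act (g * x) y) (e i)‖
      rw [act_mul, h1, ← hts i]
      have := mul_lt_mul_of_pos_left h5 hs
      linarith
    · rw [act_mul, h1]; exact h6
  refine ⟨r, hr, sup_pingpong Γ (Sset e u ψ y r) ?_ ?_ ?_⟩
  · intro i g hg hg3
    have := hstep i g hg hg3 1 (SU n).one_mem (by rw [act_one]; exact hyD i)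
    rwa [mul_one] at this
  · intro i j hij g hg hg3 x hx
    exact hstep i g hg hg3 x hx.1 (F.disj H.hφ H.hφ1 H.hψ H.hψφ hij.symm hx.2.1)
  · intro i h hh x hx
    have hhΓ : ∀ j, h ∈ suOf n (W j) := fun j => H.hΓ j ((iInf_le Γ j) hh)
    have he' : herm (act (h * x) y) (e i) = herm (act x y) (e i) := by
      rw [act_mul]
      conv_lhs => rw [← F.fix_e hhΓ i]
      exact (hhΓ i).1 _ _
    have hu' : herm (act (h * x) y) (u i) = herm (act x y) (u i) := by
      rw [act_mul]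
      conv_lhs => rw [← F.fix_u i (hhΓ i)]
      exact (hhΓ i).1 _ _
    refine ⟨(SU n).mul_mem (hhΓ i).1 hx.1, ?_, ?_⟩
    · show Real.cos (ψ i) * ‖herm (act (h * x) y) (u i)‖ <
        Real.sin (ψ i) * ‖herm (act (h * x) y) (e i)‖
      rw [he', hu']; exact hx.2.1
    · rw [he', hu']; exact hx.2.2

theorem continuous_herm_act (y v : Fin (n + 1) → ℂ) :
    Continuous fun g : SpecialLinearGroup (Fin (n + 1)) ℂ => herm (act g y) v := by
  have h1 : Continuous (fun x : SpecialLinearGroup (Fin (n + 1)) ℂ =>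
      (x : Matrix (Fin (n + 1)) (Fin (n + 1)) ℂ)) := continuous_subtype_val
  have h2 : Continuous fun M : Matrix (Fin (n + 1)) (Fin (n + 1)) ℂ => herm (M *ᵥ y) v := by
    unfold herm
    refine continuous_finsetSum _ fun i _ => ?_
    refine continuous_const.mul (Continuous.mul ?_ continuous_const)
    exact (continuous_apply i).comp (Continuous.matrix_mulVec continuous_id continuous_const)
  exact h2.comp h1

/-- discreteness of the hybrid -/
theorem Wide.discrete (F : Frame W e u) (H : Wide W e Γ φ ψ) {p : Fin (n + 1) → ℂ}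
    (hp : ∀ i, p ∈ W i) (hpp : (herm p p).re < 0) (hd : DiscreteTopology (Γ 0)) :
    Function.Injective (amalgMap Γ) ∧
    DiscreteTopology (⨆ i, Γ i : Subgroup (SpecialLinearGroup (Fin (n + 1)) ℂ)) := by
  have hpe : ∀ i, herm p (e i) = 0 := fun i => herm_conj_zero' (F.he i p hp)
  have hpu : ∀ i, herm p (u i) = 0 := fun i => (F.hu i p).1 (hp i)
  have hpD : ∀ i, p ∉ Dom e u ψ i := by
    intro i h
    have h' : Real.cos (ψ i) * ‖herm p (u i)‖ < Real.sin (ψ i) * ‖herm p (e i)‖ := h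
    rw [hpe, hpu] at h'
    simp at h'
  obtain ⟨r, hr, h1, h2⟩ := H.pp F hpp hpD
  constructor
  · refine amalg_injective Γ _ h1 fun i hi => ?_
    have := hi.2.1
    rw [act_one] at this
    exact hpD i this
  · apply discreteTopology_of_isOpen_singleton_one
    obtain ⟨U₀, hU₀, hU₀1⟩ := isOpen_induced_iff.1 (isOpen_discrete ({1} : Set (Γ 0)))
    rw [isOpen_induced_iff]
    refine ⟨U₀ ∩ ((⋂ i, {g | ‖herm (act g p) (e i)‖ < r}) ∩
      (⋂ i, {g | ‖herm (act g p) (u i)‖ < r})), ?_, ?_⟩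
    · refine hU₀.inter (IsOpen.inter ?_ ?_)
      · exact isOpen_iInter_of_finite fun i =>
          isOpen_lt (continuous_herm_act p (e i)).norm continuous_const
      · exact isOpen_iInter_of_finite fun i =>
          isOpen_lt (continuous_herm_act p (u i)).norm continuous_const
    · ext ⟨g, hg⟩
      simp only [Set.mem_preimage, Set.mem_inter_iff, Set.mem_iInter, Set.mem_ofPred_eq,
        Set.mem_singleton_iff]
      constructor
      · rintro ⟨hgU, hge, hgu⟩
        have hg3 : g ∈ ⨅ j, Γ j := by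
          rcases h2 g hg with h | ⟨i, hi⟩
          · exact h
          · rcases hi.2.2 with h | h
            · exact absurd (hge i) (not_lt.2 h)
            · exact absurd (hgu i) (not_lt.2 h)
        have hg0 : g ∈ Γ 0 := (iInf_le Γ 0) hg3
        have h4 : (⟨g, hg0⟩ : Γ 0) ∈ (Subtype.val ⁻¹' U₀ : Set (Γ 0)) := hgU
        rw [hU₀1] at h4
        have h5 : (⟨g, hg0⟩ : Γ 0) = 1 := h4
        have h6 : g = 1 := congrArg Subtype.val h5
        exact Subtype.ext h6
      · intro h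
        have hg1 : g = 1 := congrArg Subtype.val h
        subst hg1
        refine ⟨?_, fun i => ?_, fun i => ?_⟩
        · have : (1 : Γ 0) ∈ (Subtype.val ⁻¹' U₀ : Set (Γ 0)) := by rw [hU₀1]; rfl
          exact this
        · rw [act_one, hpe, norm_zero]; exact hr
        · rw [act_one, hpu, norm_zero]; exact hr

end Step

end Pool.Agent.Q107.Hunt
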