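import Pool.Agent.Q107.Hunt.Ping3

/-! # Hybrids with wide collars are not lattices -/

namespace Pool.Agent.Q107.Hunt

open Matrix ComplexConjugate Topology Monoid

variable {n : ℕ} {W : Fin 2 → Submodule ℂ (Fin (n + 1) → ℂ)} {e u : Fin 2 → Fin (n + 1) → ℂ}
  {φ : ℝ} {ψ : Fin 2 → ℝ} {Γ : Fin 2 → Subgroup (SpecialLinearGroup (Fin (n + 1)) ℂ)}

theorem exists_phase (c : ℂ) : ∃ ω : ℂ, ‖ω‖ = 1 ∧ c = ‖c‖ * ω := by
  by_cases hc : c = 0
  · exact ⟨1, by simp, by simp [hc]⟩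
  · have h1 : (‖c‖ : ℂ) ≠ 0 := by exact_mod_cast norm_ne_zero_iff.2 hc
    refine ⟨c / ‖c‖, ?_, ?_⟩
    · rw [norm_div, Complex.norm_real, norm_norm]
      exact div_self (norm_ne_zero_iff.2 hc)
    · field_simp

/-- a unit vector of the normal plane strictly between the two ping-pong domains -/
theorem Wide.exists_mid (F : Frame W e u) (H : Wide W e Γ φ ψ) (hlt : ψ 0 + ψ 1 < φ) :
    ∃ z : Fin (n + 1) → ℂ, herm z z = 1 ∧ (∀ w, (∀ j, w ∈ W j) → herm z w = 0) ∧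
      ∀ i, Real.sin (ψ i) * ‖herm z (e i)‖ < Real.cos (ψ i) * ‖herm z (u i)‖ := by
  have hpi := Real.pi_pos
  have hφ1 := H.hφ1
  have hψ0 := H.hψ 0
  have hψ1 := H.hψ 1
  set α := herm (e 1) (e 0) with hα
  set β := herm (e 1) (u 0) with hβ
  have hαn : ‖α‖ = Real.cos φ := by rw [hα, norm_herm_comm]; exact H.hφ
  have hsum : ‖α‖ ^ 2 + ‖β‖ ^ 2 = 1 := by
    have h := (F.ineq 0 1 (e 1)).1
    rw [F.he1, F.eu] at h
    simpa using h
  have hsin : 0 < Real.sin φ := Real.sin_pos_of_pos_of_lt_pi (by linarith) (by linarith)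
  have hβn : ‖β‖ = Real.sin φ := by
    have h1 := Real.sin_sq_add_cos_sq φ
    rw [hαn] at hsum
    have h2 : ‖β‖ ^ 2 = Real.sin φ ^ 2 := by linarith
    exact (pow_left_inj₀ (norm_nonneg _) hsin.le two_ne_zero).1 h2
  obtain ⟨ω, hω, hαω⟩ := exists_phase (conj α)
  obtain ⟨ω', hω', hβω⟩ := exists_phase (conj β)
  rw [Complex.norm_conj, hαn] at hαω
  rw [Complex.norm_conj, hβn] at hβω
  have hω'2 : ω' * conj ω' = 1 := by
    rw [Complex.mul_conj, Complex.normSq_eq_norm_sq, hω']; simp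
  have hω2 : ω * conj ω = 1 := by
    rw [Complex.mul_conj, Complex.normSq_eq_norm_sq, hω]; simp
  set θ := (ψ 0 + φ - ψ 1) / 2 with hθ
  set η := ω * conj ω' with hη
  have hηn : ‖η‖ = 1 := by rw [hη, norm_mul, Complex.norm_conj, hω, hω', one_mul]
  have hη2 : η * conj η = 1 := by
    rw [Complex.mul_conj, Complex.normSq_eq_norm_sq, hηn]; simp
  set z : Fin (n + 1) → ℂ := (Real.cos θ : ℂ) • e 0 + ((Real.sin θ : ℂ) * η) • u 0 with hz
  have hze0 : herm z (e 0) = Real.cos θ := by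
    rw [hz, herm_add_left, herm_smul_left, herm_smul_left, F.he1, F.ue]; ring
  have hzu0 : herm z (u 0) = Real.sin θ * η := by
    rw [hz, herm_add_left, herm_smul_left, herm_smul_left, F.eu, F.hu1]; ring
  have hzW : ∀ w, (∀ j, w ∈ W j) → herm z w = 0 := by
    intro w hw
    rw [hz, herm_add_left, herm_smul_left, herm_smul_left, F.he 0 w hw, F.uW 0 (hw 0)]; ring
  have hcs : ((Real.cos θ : ℂ)) ^ 2 + ((Real.sin θ : ℂ)) ^ 2 = 1 := by
    exact_mod_cast Real.cos_sq_add_sin_sq θ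
  have hzz : herm z z = 1 := by
    conv_lhs => rw [hz]
    rw [herm_add_left, herm_smul_left, herm_smul_left, ← conj_herm z (e 0), ← conj_herm z (u 0),
      hze0, hzu0, map_mul, Complex.conj_ofReal, Complex.conj_ofReal]
    linear_combination hcs + ((Real.sin θ : ℂ)) ^ 2 * hη2
  have hze1 : herm z (e 1) = ω * (Real.cos (φ - θ) : ℂ) := by
    conv_lhs => rw [F.expand_e 0 1]
    rw [herm_add_right, herm_smul_right, herm_smul_right, hze0, hzu0, ← hα, ← hβ, hαω, hβω,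
      Real.cos_sub, Complex.ofReal_add, Complex.ofReal_mul, Complex.ofReal_mul]
    rw [hη]
    linear_combination (((Real.sin φ : ℂ)) * (Real.sin θ : ℂ) * ω) * hω'2
  have hs0 : 0 < Real.sin (θ - ψ 0) :=
    Real.sin_pos_of_pos_of_lt_pi (by rw [hθ]; linarith) (by rw [hθ]; linarith)
  have hs1 : 0 < Real.sin (φ - θ - ψ 1) :=
    Real.sin_pos_of_pos_of_lt_pi (by rw [hθ]; linarith) (by rw [hθ]; linarith)
  have hcθ : 0 ≤ Real.cos θ :=
    Real.cos_nonneg_of_mem_Icc ⟨by rw [hθ]; linarith, by rw [hθ]; linarith⟩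
  have hsθ : 0 ≤ Real.sin θ :=
    Real.sin_nonneg_of_nonneg_of_le_pi (by rw [hθ]; linarith) (by rw [hθ]; linarith)
  have hcθ' : 0 ≤ Real.cos (φ - θ) :=
    Real.cos_nonneg_of_mem_Icc ⟨by rw [hθ]; linarith, by rw [hθ]; linarith⟩
  have hsθ' : 0 ≤ Real.sin (φ - θ) :=
    Real.sin_nonneg_of_nonneg_of_le_pi (by rw [hθ]; linarith) (by rw [hθ]; linarith)
  have n0 : ‖herm z (e 0)‖ = Real.cos θ := by
    rw [hze0, Complex.norm_real, Real.norm_eq_abs, abs_of_nonneg hcθ]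
  have n1 : ‖herm z (u 0)‖ = Real.sin θ := by
    rw [hzu0, norm_mul, hηn, Complex.norm_real, Real.norm_eq_abs, abs_of_nonneg hsθ, mul_one]
  have n2 : ‖herm z (e 1)‖ = Real.cos (φ - θ) := by
    rw [hze1, norm_mul, hω, Complex.norm_real, Real.norm_eq_abs, abs_of_nonneg hcθ', one_mul]
  have n3 : ‖herm z (u 1)‖ = Real.sin (φ - θ) := by
    have h := (F.ineq 0 1 z).1
    rw [n0, n1, n2] at h
    have h1 := Real.sin_sq_add_cos_sq θ
    have h2 := Real.sin_sq_add_cos_sq (φ - θ)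
    have h3 : ‖herm z (u 1)‖ ^ 2 = Real.sin (φ - θ) ^ 2 := by linarith
    exact (pow_left_inj₀ (norm_nonneg _) hsθ' two_ne_zero).1 h3
  refine ⟨z, hzz, hzW, fun i => ?_⟩
  rcases fin2_cases (i := 0) (j := 1) (by decide) i with rfl | rfl
  · rw [n0, n1]
    rw [Real.sin_sub] at hs0
    linarith
  · rw [n2, n3]
    rw [Real.sin_sub (φ - θ)] at hs1
    linarith

theorem Wide.not_lattice (F : Frame W e u) (H : Wide W e Γ φ ψ) {p : Fin (n + 1) → ℂ}
    (hp : ∀ i, p ∈ W i) (hpp : (herm p p).re < 0) (hlt : ψ 0 + ψ 1 < φ) :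
    ¬ IsLatticeOf n ⊤ (⨆ i, Γ i) := by
  intro hlat
  obtain ⟨z, hz1, hzW, hzi⟩ := H.exists_mid F hlt
  -- normalise p
  obtain ⟨q₀, hq₀W, hq₀⟩ : ∃ q₀ : Fin (n + 1) → ℂ, (∀ i, q₀ ∈ W i) ∧ herm q₀ q₀ = -1 := by
    set s := Real.sqrt (-(herm p p).re) with hs
    have hs0 : 0 < s := Real.sqrt_pos.2 (by linarith)
    have hs2 : s * s = -(herm p p).re := Real.mul_self_sqrt (by linarith)
    have hsc : (s : ℂ) ≠ 0 := by exact_mod_cast hs0.ne'
    refine ⟨((s⁻¹ : ℝ) : ℂ) • p, fun i => (W i).smul_mem _ (hp i), ?_⟩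
    have h1 : (herm p p).re = -(s * s) := by linarith
    rw [herm_smul_left, herm_smul_right, Complex.conj_ofReal, herm_self_re' p, h1]
    push_cast
    field_simp
  have hzq : herm z q₀ = 0 := hzW q₀ hq₀W
  have hqz : herm q₀ z = 0 := herm_conj_zero' hzq
  set q := z + q₀ with hq
  set y := z + (2 : ℂ) • q₀ with hy
  have hqq : herm q q = 0 := by
    rw [hq, herm_add_left, herm_add_right, herm_add_right, hz1, hzq, hqz, hq₀]; ring
  have hyy : (herm y y).re < 0 := by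
    have : herm y y = ((-3 : ℝ) : ℂ) := by
      rw [hy, herm_add_left, herm_add_right, herm_add_right, herm_smul_left, herm_smul_left,
        herm_smul_right, herm_smul_right, hz1, hzq, hqz, hq₀]
      have : conj (2 : ℂ) = 2 := Complex.conj_ofNat 2
      rw [this]; push_cast; ring
    rw [this, Complex.ofReal_re]; norm_num
  have hyq : herm y q = -1 := by
    rw [hy, hq, herm_add_left, herm_add_right, herm_add_right, herm_smul_left, herm_smul_left,
      hz1, hzq, hqz, hq₀]; ring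
  have hq₀e : ∀ i, herm q₀ (e i) = 0 := fun i => herm_conj_zero' (F.he i q₀ hq₀W)
  have hq₀u : ∀ i, herm q₀ (u i) = 0 := fun i => (F.hu i q₀).1 (hq₀W i)
  have hye : ∀ i, herm y (e i) = herm z (e i) := fun i => by
    rw [hy, herm_add_left, herm_smul_left, hq₀e]; ring
  have hyu : ∀ i, herm y (u i) = herm z (u i) := fun i => by
    rw [hy, herm_add_left, herm_smul_left, hq₀u]; ring
  have hqe : ∀ i, herm q (e i) = herm z (e i) := fun i => by
    rw [hq, herm_add_left, hq₀e]; ring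
  have hqu : ∀ i, herm q (u i) = herm z (u i) := fun i => by
    rw [hq, herm_add_left, hq₀u]; ring
  have hyD : ∀ i, y ∉ Dom e u ψ i := by
    intro i h
    have h' : Real.cos (ψ i) * ‖herm y (u i)‖ < Real.sin (ψ i) * ‖herm y (e i)‖ := h
    rw [hye, hyu] at h'
    linarith [hzi i]
  obtain ⟨r, hr, h1, h2⟩ := H.pp F hyy hyD
  -- the open set
  have hzu : ∀ i, 0 < ‖herm z (u i)‖ := by
    intro i
    have h3 := hzi i
    have h4 : 0 ≤ Real.sin (ψ i) * ‖herm z (e i)‖ :=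
      mul_nonneg (H.sin_pos i).le (norm_nonneg _)
    exact (mul_pos_iff_of_pos_left (H.cos_pos i)).1 (lt_of_le_of_lt h4 h3)
  have hcont : ∀ v : Fin (n + 1) → ℂ,
      Continuous fun M : Matrix (Fin (n + 1)) (Fin (n + 1)) ℂ × ℝ => herm (M.1 *ᵥ y) v := by
    intro v
    unfold herm
    refine continuous_finsetSum _ fun i _ => ?_
    refine continuous_const.mul (Continuous.mul ?_ continuous_const)
    exact (continuous_apply i).comp (Continuous.matrix_mulVec continuous_fst continuous_const)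
  have hN : ∀ v, ‖herm (Nq q *ᵥ y) v‖ = ‖herm q v‖ := by
    intro v
    rw [Nq, Matrix.smul_mulVec, rk_mulVec, hyq, herm_smul_left, herm_smul_left]
    simp
  set O : Set (Matrix (Fin (n + 1)) (Fin (n + 1)) ℂ × ℝ) :=
    (⋂ i, {M | Real.sin (ψ i) * ‖herm (M.1 *ᵥ y) (e i)‖ <
      Real.cos (ψ i) * ‖herm (M.1 *ᵥ y) (u i)‖}) ∩
      {M | |M.2| * ‖herm y (u 0)‖ < ‖herm (M.1 *ᵥ y) (u 0)‖} with hO
  have hOo : IsOpen O := by
    refine IsOpen.inter (isOpen_iInter_of_finite fun i => ?_) ?_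
    · exact isOpen_lt (continuous_const.mul (hcont _).norm) (continuous_const.mul (hcont _).norm)
    · exact isOpen_lt ((continuous_abs.comp continuous_snd).mul continuous_const) (hcont _).norm
  have hON : (Nq q, (0 : ℝ)) ∈ O := by
    refine ⟨Set.mem_iInter.2 fun i => ?_, ?_⟩
    · show Real.sin (ψ i) * ‖herm (Nq q *ᵥ y) (e i)‖ < Real.cos (ψ i) * ‖herm (Nq q *ᵥ y) (u i)‖
      rw [hN, hN, hqe, hqu]; exact hzi i
    · show |(0 : ℝ)| * ‖herm y (u 0)‖ < ‖herm (Nq q *ᵥ y) (u 0)‖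
      rw [hN, hqu, abs_zero, zero_mul]; exact hzu 0
  obtain ⟨k, -, hk0, γ, hγ, hM⟩ := approx hlat (q := q) Submodule.mem_top hqq
    (hOo.mem_nhds hON) 0
  have hkr : (0 : ℝ) < k := by exact_mod_cast hk0
  have hsm : ∀ v, ‖herm (((1 / k : ℝ) • (γ : Matrix (Fin (n + 1)) (Fin (n + 1)) ℂ)) *ᵥ y) v‖ =
      (1 / k) * ‖herm (act γ y) v‖ := by
    intro v
    have h3 : ((1 / k : ℝ) • (γ : Matrix (Fin (n + 1)) (Fin (n + 1)) ℂ)) *ᵥ y =
        (((1 / k : ℝ)) : ℂ) • act γ y := by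
      rw [Matrix.smul_mulVec]
      funext j
      simp only [Pi.smul_apply, act, Complex.real_smul, smul_eq_mul]
    rw [h3, herm_smul_left, norm_mul, Complex.norm_real, Real.norm_eq_abs,
      abs_of_pos (by positivity)]
  have hM1 : ∀ i, act γ y ∉ Dom e u ψ i := by
    intro i h
    have h' : Real.cos (ψ i) * ‖herm (act γ y) (u i)‖ < Real.sin (ψ i) * ‖herm (act γ y) (e i)‖ :=
      h
    have h3 : Real.sin (ψ i) *
        ‖herm (((1 / k : ℝ) • (γ : Matrix (Fin (n + 1)) (Fin (n + 1)) ℂ)) *ᵥ y) (e i)‖ <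
        Real.cos (ψ i) *
        ‖herm (((1 / k : ℝ) • (γ : Matrix (Fin (n + 1)) (Fin (n + 1)) ℂ)) *ᵥ y) (u i)‖ :=
      Set.mem_iInter.1 hM.1 i
    rw [hsm, hsm] at h3
    have h4 : 0 < (1 : ℝ) / k := by positivity
    have h5 := mul_lt_mul_of_pos_left h' h4
    linarith
  have hγ3 : γ ∈ ⨅ j, Γ j := by
    rcases h2 γ hγ with h | ⟨i, hi⟩
    · exact h
    · exact absurd hi.2.1 (hM1 i)
  have hγ0 : γ ∈ suOf n (W 0) := H.hΓ 0 ((iInf_le Γ 0) hγ3)
  have hinv : herm (act γ y) (u 0) = herm y (u 0) := by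
    conv_lhs => rw [← F.fix_u 0 hγ0]
    exact hγ0.1 _ _
  have h3 : |(1 / k : ℝ)| * ‖herm y (u 0)‖ <
      ‖herm (((1 / k : ℝ) • (γ : Matrix (Fin (n + 1)) (Fin (n + 1)) ℂ)) *ᵥ y) (u 0)‖ := hM.2
  rw [hsm, hinv, abs_of_pos (by positivity)] at h3
  exact lt_irrefl _ h3

end Pool.Agent.Q107.Hunt
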