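import Pool.Agent.Q107.Hunt.Ping4

/-! # Wide collars in deep subgroups of cocompact arithmetic lattices -/

namespace Pool.Agent.Q107.Hunt

open Matrix ComplexConjugate

variable {n : ℕ}

/-- Cauchy-Schwarz at a definite place -/
theorem cs_sigma {E : IntermediateField ℚ ℂ} (hE : CMF E) {X : Submodule E (Fin (n + 1) → ℂ)}
    {s : ℝ} {σ : E →+* ℂ}
    (hσ : (∀ x ∈ X, x ≠ 0 → ∀ e : E, (e : ℂ) = s * herm x x → 0 < (σ e).re) ∨
      (∀ x ∈ X, x ≠ 0 → ∀ e : E, (e : ℂ) = s * herm x x → (σ e).re < 0))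
    {x y : Fin (n + 1) → ℂ} (hx : x ∈ X) (hy : y ∈ X) (hy0 : y ≠ 0) {a b c : E}
    (ha : (a : ℂ) = s * herm x x) (hb : (b : ℂ) = s * herm x y) (hc : (c : ℂ) = s * herm y y) :
    ‖σ b‖ ^ 2 ≤ (σ a).re * (σ c).re := by
  obtain ⟨hfin, hnr, hconj, hcomm⟩ := hE
  have hareal : (a : ℂ) = conj (a : ℂ) := by
    rw [ha, map_mul, conj_herm, Complex.conj_ofReal]
  have hcreal : (c : ℂ) = conj (c : ℂ) := by
    rw [hc, map_mul, conj_herm, Complex.conj_ofReal]
  have hσa : σ a = ((σ a).re : ℂ) := (Complex.conj_eq_iff_re.1 (hcomm σ a a hareal).symm).symm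
  have hσc : σ c = ((σ c).re : ℂ) := (Complex.conj_eq_iff_re.1 (hcomm σ c c hcreal).symm).symm
  set b' : E := ⟨conj (b : ℂ), hconj _ b.2⟩ with hb'
  have hσb' : σ b' = conj (σ b) := hcomm σ b b' rfl
  set z := (c : ℂ) • x - (b : ℂ) • y with hz
  have hzX : z ∈ X := X.sub_mem (smul_mem_E c.2 hx) (smul_mem_E b.2 hy)
  have hyx : (b' : ℂ) = s * herm y x := by
    show conj (b : ℂ) = _
    rw [hb, map_mul, conj_herm, Complex.conj_ofReal]
  have hzz : ((c * (c * a - b * b') : E) : ℂ) = s * herm z z := by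
    push_cast
    rw [hz]
    simp only [herm_sub_left, herm_sub_right, herm_smul_left, herm_smul_right]
    rw [← hcreal]
    have e1 : conj (b : ℂ) = (b' : ℂ) := rfl
    rw [e1]
    linear_combination ((c : ℂ) * c) * ha - ((c : ℂ) * b') * hb - ((b : ℂ) * c) * hyx +
      ((b : ℂ) * b') * hc
  have hσz : (σ (c * (c * a - b * b'))).re =
      (σ c).re * ((σ c).re * (σ a).re - ‖σ b‖ ^ 2) := by
    rw [map_mul, map_sub, map_mul, map_mul, hσb', Complex.mul_conj, Complex.normSq_eq_norm_sq,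
      hσa, hσc]
    have : (((σ c).re : ℂ) * (((σ c).re : ℂ) * ((σ a).re : ℂ) - ((‖σ b‖ ^ 2 : ℝ) : ℂ))) =
        (((σ c).re * ((σ c).re * (σ a).re - ‖σ b‖ ^ 2) : ℝ) : ℂ) := by push_cast; ring
    rw [this, Complex.ofReal_re, Complex.ofReal_re, Complex.ofReal_re]
  by_cases hz0 : z = 0
  · have h1 : (c * (c * a - b * b') : E) = 0 := by
      apply Subtype.ext
      rw [hzz, hz0]; simp
    rw [h1, map_zero, Complex.zero_re] at hσz
    have hc0 : (σ c).re ≠ 0 := by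
      rcases hσ with h | h
      · exact (h y hy hy0 c hc).ne'
      · exact (h y hy hy0 c hc).ne
    rcases mul_eq_zero.1 hσz.symm with h | h
    · exact absurd h hc0
    · linarith
  · rcases hσ with h | h
    · have h1 := h z hzX hz0 _ hzz
      have h2 := h y hy hy0 c hc
      rw [hσz] at h1
      have := (mul_pos_iff_of_pos_left h2).1 h1
      linarith
    · have h1 := h z hzX hz0 _ hzz
      have h2 := h y hy hy0 c hc
      rw [hσz] at h1
      nlinarith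

/-- A nonzero algebraic integer of `E`, small at all places but the given one, is large. -/
theorem one_le_norm_of_integral {E : IntermediateField ℚ ℂ} (hfin : FiniteDimensional ℚ E)
    {t : E} (ht : IsIntegral ℤ t) (ht0 : t ≠ 0)
    (h : ∀ σ : E →+* ℂ, (∃ z : E, σ z ≠ z) → (∃ z : E, σ z ≠ conj (z : ℂ)) → ‖σ t‖ ≤ 1) :
    1 ≤ ‖(t : ℂ)‖ := by
  by_contra hcon
  push Not at hcon
  have h1 : ∀ σ : E →ₐ[ℚ] ℂ, ‖σ t‖ ≤ 1 := by
    intro σ
    by_cases h2 : ∃ z : E, σ z ≠ z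
    · by_cases h3 : ∃ z : E, σ z ≠ conj (z : ℂ)
      · exact h σ h2 h3
      · push Not at h3
        rw [h3, Complex.norm_conj]; exact hcon.le
    · push Not at h2
      rw [h2]; exact hcon.le
  have h2 : algebraMap ℚ ℂ (Algebra.norm ℚ t) = ∏ σ : E →ₐ[ℚ] ℂ, σ t :=
    Algebra.norm_eq_prod_embeddings ℚ ℂ t
  have h3 : ‖∏ σ : E →ₐ[ℚ] ℂ, σ t‖ < 1 := by
    classical
    let v : E →ₐ[ℚ] ℂ := E.val
    have h6 := Finset.mul_prod_erase Finset.univ (fun σ : E →ₐ[ℚ] ℂ => ‖σ t‖)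
      (Finset.mem_univ v)
    rw [norm_prod, ← h6]
    have h4 : ∏ σ ∈ Finset.univ.erase v, ‖σ t‖ ≤ 1 :=
      Finset.prod_le_one (fun σ _ => norm_nonneg _) fun σ _ => h1 σ
    have h5 : ‖v t‖ < 1 := hcon
    calc ‖v t‖ * ∏ σ ∈ Finset.univ.erase v, ‖σ t‖ ≤ ‖v t‖ * 1 :=
          mul_le_mul_of_nonneg_left h4 (norm_nonneg _)
      _ < 1 := by rw [mul_one]; exact h5
  have h4 : IsIntegral ℤ (Algebra.norm ℚ t) := Algebra.isIntegral_norm ℚ ht
  obtain ⟨m, hm⟩ := IsIntegrallyClosed.isIntegral_iff.1 h4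
  have hm0 : m ≠ 0 := by
    rintro rfl
    rw [map_zero] at hm
    exact (Algebra.norm_ne_zero_iff.2 ht0) hm.symm
  rw [← h2, ← hm] at h3
  have h5 : algebraMap ℚ ℂ (algebraMap ℤ ℚ m) = (m : ℂ) := by simp
  rw [h5, Complex.norm_intCast] at h3
  have h6 : (1 : ℝ) ≤ |(m : ℝ)| := by exact_mod_cast Int.one_le_abs hm0
  linarith

/-- integrality of the form on a lattice -/
theorem exists_integral_multiple' {E : IntermediateField ℚ ℂ} (hfin : FiniteDimensional ℚ E)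
    {z : ℂ} (hz : z ∈ E) : ∃ m : ℕ, 0 < m ∧ IsIntegral ℤ ((m : ℂ) * z) := by
  have halg : IsAlgebraic ℤ z := by
    have h2 : IsAlgebraic ℚ (⟨z, hz⟩ : E) := Algebra.IsAlgebraic.isAlgebraic _
    have h3 : IsAlgebraic ℤ (⟨z, hz⟩ : E) := (IsFractionRing.isAlgebraic_iff ℤ ℚ E).2 h2
    exact IsAlgebraic.algebraMap (A := ℂ) h3
  obtain ⟨m, hm, hint⟩ := halg.exists_integral_multiple
  refine ⟨m.natAbs, Int.natAbs_pos.2 hm, ?_⟩
  rw [zsmul_eq_mul] at hint
  rcases Int.natAbs_eq m with h3 | h3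
  · have : ((m : ℤ) : ℂ) = ((m.natAbs : ℕ) : ℂ) := by
      rw [← Int.cast_natCast, ← h3]
    rw [← this]; exact hint
  · have : ((m.natAbs : ℕ) : ℂ) * z = -(((m : ℤ) : ℂ) * z) := by
      rw [← neg_mul, ← Int.cast_neg, ← Int.cast_natCast]
      congr 2
      omega
    rw [this]; exact hint.neg

theorem form_integral {E : IntermediateField ℚ ℂ} (hfin : FiniteDimensional ℚ E)
    {X : Submodule E (Fin (n + 1) → ℂ)} {s : ℝ}
    (hs : ∀ x ∈ X, ∀ y ∈ X, (s : ℂ) * herm x y ∈ E)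
    {Λ : AddSubgroup (Fin (n + 1) → ℂ)} (h : IsLat E X Λ) {f : Fin (n + 1) → ℂ} (hf : f ∈ X) :
    ∃ M : ℕ, 0 < M ∧ ∀ x ∈ Λ, IsIntegral ℤ ((M : ℂ) * (s * herm x f)) := by
  obtain ⟨⟨S, hS⟩, -, hspan⟩ := h
  have hΛX : ∀ x ∈ Λ, x ∈ X := fun x hx => hspan ▸ Submodule.subset_span hx
  have h1 : ∀ x ∈ S, ∃ m : ℕ, 0 < m ∧ IsIntegral ℤ ((m : ℂ) * (s * herm x f)) := fun x hx =>
    exists_integral_multiple' hfin (hs x (hΛX x (hS ▸ AddSubgroup.subset_closure hx)) f hf)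
  choose! m hm hm2 using h1
  refine ⟨∏ x ∈ S, m x, Finset.prod_pos fun x hx => hm x hx, fun x hx => ?_⟩
  rw [← hS] at hx
  induction hx using AddSubgroup.closure_induction with
  | mem x hx =>
    obtain ⟨c, hc⟩ := Finset.dvd_prod_of_mem m hx
    rw [hc]
    have : (((m x * c : ℕ) : ℂ)) * (s * herm x f) = (c : ℂ) * ((m x : ℂ) * (s * herm x f)) := by
      push_cast; ring
    rw [this]
    have hci : IsIntegral ℤ (c : ℂ) := by
      have := isIntegral_algebraMap (R := ℤ) (A := ℂ) (x := (c : ℤ))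
      simpa using this
    exact hci.mul (hm2 x hx)
  | zero => simp [isIntegral_zero]
  | add x y _ _ hx hy =>
    rw [herm_add_left, mul_add, mul_add]; exact hx.add hy
  | neg x _ hx =>
    rw [herm_neg_left, mul_neg, mul_neg]; exact hx.neg

/-- elements congruent to one on `f` -/
def cong (n : ℕ) (W : Submodule ℂ (Fin (n + 1) → ℂ)) (Λ : AddSubgroup (Fin (n + 1) → ℂ))
    (f : Fin (n + 1) → ℂ) (N : ℕ) : Subgroup (SpecialLinearGroup (Fin (n + 1)) ℂ) where
  carrier := {g | g ∈ stab n W Λ ∧ ∃ w ∈ Λ, act g f - f = (N : ℂ) • w}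
  mul_mem' := by
    rintro a b ⟨ha, w, hw, haw⟩ ⟨hb, v, hv, hbv⟩
    refine ⟨(stab n W Λ).mul_mem ha hb, act a v + w, Λ.add_mem ((ha.2 v).1 hv) hw, ?_⟩
    have : act (a * b) f - f = act a (act b f - f) + (act a f - f) := by
      rw [act_mul, act_sub]; abel
    rw [this, haw, hbv, act_smul, smul_add]
  one_mem' := ⟨(stab n W Λ).one_mem, 0, Λ.zero_mem, by simp⟩
  inv_mem' := by
    rintro a ⟨ha, w, hw, haw⟩
    have hai := (stab n W Λ).inv_mem ha
    refine ⟨hai, -act a⁻¹ w, Λ.neg_mem ((hai.2 w).1 hw), ?_⟩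
    have h1 : act a⁻¹ f - f = -act a⁻¹ (act a f - f) := by
      rw [act_sub, act_inv_act]; abel
    rw [h1, haw, act_smul, smul_neg]

theorem cong_relIndex {W : Submodule ℂ (Fin (n + 1) → ℂ)} {Λ : AddSubgroup (Fin (n + 1) → ℂ)}
    (hfg : Λ.FG) {f : Fin (n + 1) → ℂ} (hf : f ∈ Λ) {N : ℕ} (hN : 0 < N) :
    (cong n W Λ f N).relIndex (stab n W Λ) ≠ 0 := by
  have : Module.Finite ℤ Λ := by
    rw [Module.Finite.iff_addGroup_fg]
    exact (AddGroup.fg_iff_addSubgroup_fg Λ).2 hfg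
  let N' : Submodule ℤ Λ := LinearMap.range (LinearMap.lsmul ℤ Λ (N : ℤ))
  have : Finite (Λ ⧸ N') := by
    apply Module.finite_of_fg_torsion
    intro x
    obtain ⟨y, rfl⟩ := Submodule.Quotient.mk_surjective N' x
    refine ⟨⟨(N : ℤ), mem_nonZeroDivisors_of_ne_zero (by exact_mod_cast hN.ne')⟩, ?_⟩
    show (N : ℤ) • (Submodule.Quotient.mk y : Λ ⧸ N') = 0
    rw [← Submodule.Quotient.mk_smul, Submodule.Quotient.mk_eq_zero]
    exact ⟨y, rfl⟩
  let F : stab n W Λ → Λ ⧸ N' := fun g => Submodule.Quotient.mk ⟨act g.1 f, (g.2.2 f).1 hf⟩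
  refine relIndex_ne_zero_of_map _ _ F fun g g' h => ?_
  have h0 : g.1⁻¹ * g'.1 ∈ stab n W Λ :=
    (stab n W Λ).mul_mem ((stab n W Λ).inv_mem g.2) g'.2
  refine ⟨h0, ?_⟩
  simp only [F] at h
  rw [Submodule.Quotient.eq] at h
  obtain ⟨⟨z, hz⟩, hzeq⟩ := h
  have h2 := congrArg Subtype.val hzeq
  have h3 : (N : ℂ) • z = act g.1 f - act g'.1 f := by
    have : ((LinearMap.lsmul ℤ Λ (N : ℤ) ⟨z, hz⟩ : Λ) : Fin (n + 1) → ℂ) = (N : ℂ) • z := by
      show (N : ℤ) • z = _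
      rw [natCast_zsmul, ← Nat.cast_smul_eq_nsmul ℂ]
    rw [← this]
    exact h2
  refine ⟨-act g.1⁻¹ z, Λ.neg_mem ((((stab n W Λ).inv_mem g.2).2 z).1 hz), ?_⟩
  rw [smul_neg, ← act_smul, h3, act_sub, act_inv_act, act_mul]
  abel

/-- The collar of a rational hyperplane is wide in deep congruence subgroups, if the form is
anisotropic and definite at the other places. -/
theorem collar {E : IntermediateField ℚ ℂ} (hE : CMF E)
    {W : Submodule ℂ (Fin (n + 1) → ℂ)} {X : Submodule E (Fin (n + 1) → ℂ)} {s : ℝ}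
    (hs0 : s ≠ 0) (hs : ∀ x ∈ X, ∀ y ∈ X, (s : ℂ) * herm x y ∈ E)
    (hdef : ∀ σ : E →+* ℂ, (∃ z : E, σ z ≠ z) → (∃ z : E, σ z ≠ conj (z : ℂ)) →
      (∀ x ∈ X, x ≠ 0 → ∀ e : E, (e : ℂ) = s * herm x x → 0 < (σ e).re) ∨
      (∀ x ∈ X, x ≠ 0 → ∀ e : E, (e : ℂ) = s * herm x x → (σ e).re < 0))
    (haniso : ∀ x ∈ X, herm x x = 0 → x = 0)
    {Λ : AddSubgroup (Fin (n + 1) → ℂ)} (h : IsLat E X Λ) {f : Fin (n + 1) → ℂ} (hf : f ∈ Λ)
    (hf0 : f ≠ 0) (κ : ℝ) :
    ∃ N : ℕ, 0 < N ∧ ∀ g ∈ cong n W Λ f N,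
      act g f = f ∨ κ * ‖herm f f‖ ≤ ‖herm (act g f) f‖ := by
  have hE' := hE
  obtain ⟨hfin, hnr, hconj, hcomm⟩ := hE
  have hΛX : ∀ x ∈ Λ, x ∈ X := fun x hx => h.2.2 ▸ Submodule.subset_span hx
  have hfX := hΛX f hf
  obtain ⟨M, hM0, hM⟩ := form_integral hfin hs h hfX
  have hMr : (0 : ℝ) < M := by exact_mod_cast hM0
  set c : E := ⟨_, hs f hfX f hfX⟩ with hc
  -- the constant
  obtain ⟨N₁, hN₁⟩ : ∃ N₁ : ℕ, ∀ σ : E →ₐ[ℚ] ℂ, 2 * M * ‖σ c‖ ≤ N₁ := by
    obtain ⟨C, hC⟩ := (Set.finite_range fun σ : E →ₐ[ℚ] ℂ => 2 * M * ‖σ c‖).bddAbove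
    obtain ⟨N₁, hN₁⟩ := exists_nat_ge C
    exact ⟨N₁, fun σ => (hC ⟨σ, rfl⟩).trans hN₁⟩
  obtain ⟨N₂, hN₂⟩ := exists_nat_ge ((κ + 1) * ‖herm f f‖ * (M * |s|))
  set N := N₁ + N₂ + 1 with hN
  have hNr : (0 : ℝ) < N := by exact_mod_cast Nat.succ_pos _
  have hN1 : (N₁ : ℝ) ≤ N := by rw [hN]; push_cast; linarith [Nat.cast_nonneg (α := ℝ) N₂]
  have hN2 : (N₂ : ℝ) ≤ N := by rw [hN]; push_cast; linarith [Nat.cast_nonneg (α := ℝ) N₁]
  refine ⟨N, Nat.succ_pos _, fun g hg => ?_⟩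
  obtain ⟨hgs, w, hw, hgw⟩ := hg
  have hgΛ : act g f ∈ Λ := (hgs.2 f).1 hf
  have hgX := hΛX _ hgΛ
  have hwX := hΛX w hw
  have hint := hM w hw
  have htE : (M : ℂ) * (s * herm w f) ∈ E := E.mul_mem (natCast_mem E M) (hs w hwX f hfX)
  set t : E := ⟨_, htE⟩ with ht
  have htint : IsIntegral ℤ t := by
    have h1 : IsIntegral ℤ (algebraMap E ℂ t) := hint
    exact (isIntegral_algebraMap_iff (algebraMap E ℂ).injective).1 h1
  have hff : herm (act g f) (act g f) = herm f f := hgs.1.1 f f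
  by_cases ht0 : t = 0
  · left
    have h1 : herm w f = 0 := by
      have h2 : (M : ℂ) * (s * herm w f) = 0 := congrArg Subtype.val ht0
      have hM' : (M : ℂ) ≠ 0 := by exact_mod_cast hM0.ne'
      have hs' : (s : ℂ) ≠ 0 := by exact_mod_cast hs0
      rcases mul_eq_zero.1 h2 with h3 | h3
      · exact absurd h3 hM'
      · exact (mul_eq_zero.1 h3).resolve_left hs'
    have h2 : herm (act g f - f) f = 0 := by rw [hgw, herm_smul_left, h1, mul_zero]
    have h3 : herm (act g f) f = herm f f := by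
      rw [herm_sub_left] at h2; exact sub_eq_zero.1 h2
    have h4 : herm f (act g f) = herm f f := by
      rw [← conj_herm, h3, conj_herm]
    have h5 : act g f - f = 0 := by
      apply haniso _ (X.sub_mem hgX hfX)
      rw [herm_sub_left, herm_sub_right, herm_sub_right, hff, h3, h4]; ring
    exact sub_eq_zero.1 h5
  · right
    have hlarge : 1 ≤ ‖(t : ℂ)‖ := by
      apply one_le_norm_of_integral hfin htint ht0
      intro σ h1 h2
      have hσ := hdef σ h1 h2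
      set b : E := ⟨_, hs (act g f) hgX f hfX⟩ with hb
      have hcs := cs_sigma (X := X) (s := s) (σ := σ) (x := act g f) (y := f) (a := c) (b := b)
        (c := c) hE' hσ hgX hfX hf0 (by rw [hff]) rfl rfl
      have hbn : ‖σ b‖ ≤ ‖σ c‖ := by
        have h3 : (σ c).re * (σ c).re ≤ ‖σ c‖ ^ 2 := by
          have := Complex.abs_re_le_norm (σ c)
          nlinarith [abs_mul_abs_self (σ c).re, abs_nonneg (σ c).re]
        have h4 : ‖σ b‖ ^ 2 ≤ ‖σ c‖ ^ 2 := hcs.trans h3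
        exact (pow_le_pow_iff_left₀ (norm_nonneg _) (norm_nonneg _) two_ne_zero).1 h4
      have hNt : (N : E) * t = (M : E) * (b - c) := by
        apply Subtype.ext
        push_cast
        show (N : ℂ) * ((M : ℂ) * (s * herm w f)) =
          (M : ℂ) * (s * herm (act g f) f - s * herm f f)
        have h5 : herm (act g f) f - herm f f = (N : ℂ) * herm w f := by
          rw [← herm_sub_left, hgw, herm_smul_left]
        linear_combination (-(M : ℂ) * s) * h5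
      have h5 := congrArg σ hNt
      rw [map_mul, map_mul, map_natCast, map_natCast, map_sub] at h5
      have h6 := congrArg norm h5
      rw [norm_mul, norm_mul, Complex.norm_natCast, Complex.norm_natCast] at h6
      have h7 : ‖σ b - σ c‖ ≤ 2 * ‖σ c‖ := (norm_sub_le _ _).trans (by linarith)
      have h8 : (N : ℝ) * ‖σ t‖ ≤ N₁ := by
        have h9 := hN₁ (RingHom.toRatAlgHom σ)
        have h10 : (RingHom.toRatAlgHom σ) c = σ c := rfl
        rw [h10] at h9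
        rw [h6]
        have := mul_le_mul_of_nonneg_left h7 hMr.le
        linarith
      by_contra hcon
      push Not at hcon
      have : (N : ℝ) * 1 < (N : ℝ) * ‖σ t‖ := mul_lt_mul_of_pos_left hcon hNr
      linarith
    have h1 : ‖(M : ℂ) * (s * herm w f)‖ = M * |s| * ‖herm w f‖ := by
      rw [norm_mul, norm_mul, Complex.norm_natCast, Complex.norm_real, Real.norm_eq_abs]; ring
    have h2 : 1 ≤ M * |s| * ‖herm w f‖ := by rw [← h1]; exact hlarge
    have h3 : herm (act g f) f = herm f f + (N : ℂ) * herm w f := by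
      have h5 : herm (act g f) f - herm f f = (N : ℂ) * herm w f := by
        rw [← herm_sub_left, hgw, herm_smul_left]
      linear_combination h5
    have h4 : (N : ℝ) * ‖herm w f‖ - ‖herm f f‖ ≤ ‖herm (act g f) f‖ := by
      rw [h3]
      have h5 := norm_sub_norm_le ((N : ℂ) * herm w f) (-(herm f f))
      rw [norm_mul, Complex.norm_natCast, norm_neg] at h5
      have h6 : (N : ℂ) * herm w f - -herm f f = herm f f + (N : ℂ) * herm w f := by ring
      rw [h6] at h5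
      exact h5
    have hMs : 0 < M * |s| := mul_pos hMr (abs_pos.2 hs0)
    have h5 : (κ + 1) * ‖herm f f‖ * (M * |s|) ≤ (N : ℝ) * ‖herm w f‖ * (M * |s|) := by
      calc (κ + 1) * ‖herm f f‖ * (M * |s|) ≤ N := hN₂.trans hN2
        _ = N * 1 := (mul_one _).symm
        _ ≤ N * (M * |s| * ‖herm w f‖) := mul_le_mul_of_nonneg_left h2 hNr.le
        _ = (N : ℝ) * ‖herm w f‖ * (M * |s|) := by ring
    have h6 := le_of_mul_le_mul_right h5 hMs
    linarith

end Pool.Agent.Q107.Hunt
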