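import Pool.Agent.Q107.Hunt.Ping5

/-! # Deep pieces: the hybrid is an amalgamated product and not a lattice -/

namespace Pool.Agent.Q107.Hunt

open Matrix ComplexConjugate Monoid Pointwise

variable {n : ℕ}

theorem deep {E : IntermediateField ℚ ℂ} {W : Submodule ℂ (Fin (n + 1) → ℂ)}
    {X : Submodule E (Fin (n + 1) → ℂ)} {Γ : Subgroup (SpecialLinearGroup (Fin (n + 1)) ℂ)}
    (h : IsArithFK n E W X Γ) (haniso : ∀ x ∈ X, herm x x = 0 → x = 0) {e : Fin (n + 1) → ℂ}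
    (he0 : e ≠ 0) {c : ℂ} (hc : c ≠ 0) (hce : c • e ∈ X)
    {Γ₃ : Subgroup (SpecialLinearGroup (Fin (n + 1)) ℂ)} (h3 : Γ₃ ≤ Γ)
    (h3e : ∀ g ∈ Γ₃, act g e = e) (κ : ℝ) :
    ∃ Γ' : Subgroup (SpecialLinearGroup (Fin (n + 1)) ℂ), Γ₃ ≤ Γ' ∧ Γ' ≤ Γ ∧
      Γ'.relIndex Γ ≠ 0 ∧
      ∀ g ∈ Γ', act g e = e ∨ κ * ‖herm e e‖ ≤ ‖herm (act g e) e‖ := by
  obtain ⟨hE, ⟨hnd, hspan, s, hs0, hs, hdef⟩, hsu, Λ, hΛ, hcomm⟩ := h
  obtain ⟨k, hk, hkf⟩ := g_nsmul_mem hE.1 hΛ hce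
  rw [smul_smul] at hkf
  set a := (k : ℂ) * c with ha
  have hk0 : (k : ℂ) ≠ 0 := by exact_mod_cast hk.ne'
  have ha0 : a ≠ 0 := mul_ne_zero hk0 hc
  have hf0 : a • e ≠ 0 := smul_ne_zero ha0 he0
  obtain ⟨N, hN, hcol⟩ := collar (W := W) hE hs0 hs hdef haniso hΛ hkf hf0 κ
  set H := cong n W Λ (a • e) N with hH
  have hHΓ : H.relIndex Γ ≠ 0 :=
    Subgroup.relIndex_ne_zero_trans (cong_relIndex hΛ.1 hkf hN) hcomm.2
  have hfin : (H.subgroupOf Γ).FiniteIndex := ⟨hHΓ⟩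
  set K := (H.subgroupOf Γ).normalCore with hK
  have hKfin : K.FiniteIndex := inferInstance
  refine ⟨(K ⊔ Γ₃.subgroupOf Γ).map Γ.subtype, ?_, ?_, ?_, ?_⟩
  · intro g hg
    refine ⟨⟨g, h3 hg⟩, ?_, rfl⟩
    exact (le_sup_right : Γ₃.subgroupOf Γ ≤ K ⊔ Γ₃.subgroupOf Γ)
      (Subgroup.mem_subgroupOf.2 hg)
  · rintro _ ⟨x, -, rfl⟩
    exact x.2
  · have h1 : K ≤ ((K ⊔ Γ₃.subgroupOf Γ).map Γ.subtype).subgroupOf Γ := by
      intro x hx
      exact Subgroup.mem_subgroupOf.2 ⟨x, (le_sup_left : K ≤ K ⊔ Γ₃.subgroupOf Γ) hx, rfl⟩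
    exact (Subgroup.finiteIndex_of_le h1).index_ne_zero
  · rintro _ ⟨x, hx, rfl⟩
    have h1 : (x : Γ) ∈ (K : Set Γ) * (Γ₃.subgroupOf Γ : Set Γ) := by
      rw [← Subgroup.normal_mul]; exact hx
    obtain ⟨y, hy, l, hl, rfl⟩ := Set.mem_mul.1 h1
    have hyH : (y : SpecialLinearGroup (Fin (n + 1)) ℂ) ∈ H :=
      Subgroup.mem_subgroupOf.1 (Subgroup.normalCore_le _ hy)
    have hle : act (l : SpecialLinearGroup (Fin (n + 1)) ℂ) e = e :=
      h3e _ (Subgroup.mem_subgroupOf.1 hl)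
    have hact : act (Γ.subtype (y * l)) e = act (y : SpecialLinearGroup (Fin (n + 1)) ℂ) e := by
      have h5 : Γ.subtype (y * l) = (y : SpecialLinearGroup (Fin (n + 1)) ℂ) *
          (l : SpecialLinearGroup (Fin (n + 1)) ℂ) := rfl
      rw [h5, act_mul, hle]
    rw [hact]
    rcases hcol y hyH with h2 | h2
    · left
      rw [act_smul] at h2
      exact smul_right_injective _ ha0 h2
    · right
      clear_value a
      rw [act_smul, herm_smul_left, herm_smul_right, herm_smul_left, herm_smul_right] at h2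
      simp only [norm_mul, Complex.norm_conj] at h2
      have h3 : 0 < ‖a‖ * ‖a‖ := by positivity
      have h4 : ‖a‖ * ‖a‖ * (κ * ‖herm e e‖) ≤
          ‖a‖ * ‖a‖ * ‖herm (act (y : SpecialLinearGroup (Fin (n + 1)) ℂ) e) e‖ := by linarith
      exact le_of_mul_le_mul_left h4 h3

variable {W : Fin 2 → Submodule ℂ (Fin (n + 1) → ℂ)} {e u : Fin 2 → Fin (n + 1) → ℂ}

theorem Frame.norm_lt (F : Frame W e u) : ‖herm (e 0) (e 1)‖ < 1 := by
  have h := (F.ineq 0 1 (e 1)).1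
  rw [F.he1, F.eu] at h
  have h1 : herm (e 1) (u 0) ≠ 0 := F.eu_ne (by decide)
  have h2 : 0 < ‖herm (e 1) (u 0)‖ ^ 2 := by positivity
  rw [norm_herm_comm (e 0)]
  by_contra hcon
  push Not at hcon
  simp only [norm_one, norm_zero] at h
  nlinarith

theorem Frame.mem_suOf (F : Frame W e u) (i : Fin 2)
    {g : SpecialLinearGroup (Fin (n + 1)) ℂ} (hg : g ∈ suOf n (W i)) (hge : act g (e i) = e i) :
    g ∈ suOf n (W 0 ⊓ W 1) := by
  refine ⟨hg.1, fun v hv => ?_⟩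
  have h1 := F.expand (x := v) (fun w hw => hv w (Submodule.mem_inf.2 ⟨hw 0, hw 1⟩)) i
  rw [h1, act_add, act_smul, act_smul, hge, F.fix_u i hg]

theorem virtual (F : Frame W e u) {p : Fin (n + 1) → ℂ} (hp : ∀ i, p ∈ W i)
    (hpp : (herm p p).re < 0) {E : Fin 2 → IntermediateField ℚ ℂ}
    {X : (i : Fin 2) → Submodule (E i) (Fin (n + 1) → ℂ)}
    {Γ : Fin 2 → Subgroup (SpecialLinearGroup (Fin (n + 1)) ℂ)}
    (hΓ : ∀ i, IsArithFK n (E i) (W i) (X i) (Γ i)) (hd : ∀ i, DiscreteTopology (Γ i))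
    (haniso : ∀ i, ∀ x ∈ X i, herm x x = 0 → x = 0)
    (hrat : ∀ i, ∃ c : ℂ, c ≠ 0 ∧ c • e i ∈ X i) :
    ∃ Γ' : Fin 2 → Subgroup (SpecialLinearGroup (Fin (n + 1)) ℂ),
      (∀ i, Γ 0 ⊓ Γ 1 ≤ Γ' i ∧ Γ' i ≤ Γ i ∧ (Γ' i).relIndex (Γ i) ≠ 0) ∧
      ∀ Δ : Fin 2 → Subgroup (SpecialLinearGroup (Fin (n + 1)) ℂ), (∀ i, Δ i ≤ Γ' i) →
        (∀ i, Δ i ⊓ suOf n (W 0 ⊓ W 1) ≤ Δ 0 ⊓ Δ 1) →
        Function.Injective (amalgMap Δ) ∧
        DiscreteTopology (⨆ i, Δ i : Subgroup (SpecialLinearGroup (Fin (n + 1)) ℂ)) ∧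
        ¬ IsLatticeOf n ⊤ (⨆ i, Δ i) := by
  set φ := Real.arccos ‖herm (e 0) (e 1)‖ with hφ
  have hφ0 : 0 < φ := Real.arccos_pos.2 F.norm_lt
  have hφ1 : φ ≤ Real.pi / 2 := Real.arccos_le_pi_div_two.2 (norm_nonneg _)
  have hφc : Real.cos φ = ‖herm (e 0) (e 1)‖ :=
    Real.cos_arccos (by linarith [norm_nonneg (herm (e 0) (e 1))]) F.norm_lt.le
  have hpi := Real.pi_pos
  set κ := (1 + Real.cos (φ / 3) ^ 2) / Real.sin (φ / 3) ^ 2 with hκ
  have hs : 0 < Real.sin (φ / 3) :=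
    Real.sin_pos_of_pos_of_lt_pi (by linarith) (by linarith)
  have hex : ∀ i, ∃ Γ' : Subgroup (SpecialLinearGroup (Fin (n + 1)) ℂ), Γ 0 ⊓ Γ 1 ≤ Γ' ∧
      Γ' ≤ Γ i ∧ Γ'.relIndex (Γ i) ≠ 0 ∧
      ∀ g ∈ Γ', act g (e i) = e i ∨ κ * ‖herm (e i) (e i)‖ ≤ ‖herm (act g (e i)) (e i)‖ := by
    intro i
    obtain ⟨c, hc, hce⟩ := hrat i
    have he0 : e i ≠ 0 := by
      intro h
      have := F.he1 i
      rw [h] at this
      simp at this
    have hle : Γ 0 ⊓ Γ 1 ≤ Γ i := by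
      rcases fin2_cases (i := 0) (j := 1) (by decide) i with rfl | rfl
      · exact inf_le_left
      · exact inf_le_right
    refine deep (hΓ i) (haniso i) he0 hc hce hle (fun g hg => ?_) κ
    refine F.fix_e (fun j => ?_) i
    have hle' : Γ 0 ⊓ Γ 1 ≤ Γ j := by
      rcases fin2_cases (i := 0) (j := 1) (by decide) j with rfl | rfl
      · exact inf_le_left
      · exact inf_le_right
    exact (hΓ j).2.2.1 (hle' hg)
  choose Γ' h1 h2 h3 h4 using hex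
  refine ⟨Γ', fun i => ⟨h1 i, h2 i, h3 i⟩, fun Δ hΔ hΔ3 => ?_⟩
  have H : Wide W e Δ φ (fun _ => φ / 3) := by
    refine ⟨hφc.symm, hφ1, fun _ => by positivity, by linarith,
      fun i => (hΔ i).trans ((h2 i).trans (hΓ i).2.2.1), fun i g hg hg3 => ?_⟩
    rcases h4 i g (hΔ i hg) with h5 | h5
    · exfalso
      apply hg3
      have h6 := F.mem_suOf i ((hΓ i).2.2.1 (h2 i (hΔ i hg))) h5
      have h7 := hΔ3 i ⟨hg, h6⟩
      rw [Subgroup.mem_iInf, Fin.forall_fin_two]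
      exact h7
    · rw [F.he1, norm_one, mul_one, hκ, div_le_iff₀ (by positivity)] at h5
      linarith
  have hd0 : DiscreteTopology (Δ 0) := by
    have hle : Δ 0 ≤ Γ 0 := (hΔ 0).trans (h2 0)
    have hinj : Function.Injective (Subgroup.inclusion hle) := Subgroup.inclusion_injective hle
    have hcont : Continuous (Subgroup.inclusion hle) :=
      Continuous.subtype_mk continuous_subtype_val _
    have := hd 0
    exact DiscreteTopology.of_continuous_injective hcont hinj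
  obtain ⟨h5, h6⟩ := H.discrete F hp hpp hd0
  exact ⟨h5, h6, H.not_lattice F hp hpp (by linarith)⟩

/-- `W 0`, `W 1` are hyperplanes of `ℂ^(n+1)` whose intersection contains a negative vector, and
`e i` is a unit vector of `W i` orthogonal to `W 0 ∩ W 1`. -/
structure Config (n : ℕ) (W : Fin 2 → Submodule ℂ (Fin (n + 1) → ℂ))
    (e : Fin 2 → Fin (n + 1) → ℂ) : Prop where
  rank : ∀ i, Module.finrank ℂ (W i) = n
  neg : ∃ p ∈ W 0 ⊓ W 1, (herm p p).re < 0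
  mem : ∀ i, e i ∈ W i
  unit : ∀ i, herm (e i) (e i) = 1
  orth : ∀ i, ∀ w ∈ W 0 ⊓ W 1, herm (e i) w = 0

/-- The natural homomorphism from the amalgamated product of the groups `Γ i` along their
intersection is injective, and its image, the group generated by the `Γ i`, is discrete. -/
def DiscreteAmalgam (Γ : Fin 2 → Subgroup (SpecialLinearGroup (Fin (n + 1)) ℂ)) : Prop :=
  Function.Injective (amalgMap Γ) ∧
    DiscreteTopology (⨆ i, Γ i : Subgroup (SpecialLinearGroup (Fin (n + 1)) ℂ))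

theorem Config.frame (h : Config n W e) :
    ∃ u, Frame W e u ∧ ∃ p, (∀ i, p ∈ W i) ∧ (herm p p).re < 0 := by
  have hall : ∀ {w : Fin (n + 1) → ℂ}, (∀ j, w ∈ W j) ↔ w ∈ W 0 ⊓ W 1 := by
    intro w
    rw [Fin.forall_fin_two, Submodule.mem_inf]
  obtain ⟨p, hp, hpp⟩ := h.neg
  obtain ⟨u, F⟩ := exists_frame h.rank (hall.2 hp) hpp h.mem h.unit
    fun i w hw => h.orth i w (hall.1 hw)
  exact ⟨u, F, p, hall.2 hp, hpp⟩

end Pool.Agent.Q107.Hunt
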