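import Pool.Agent.Q107.Hunt.Heis

/-! # Rescaling of rational forms; common cusps -/

namespace Pool.Agent.Q107.Hunt

open Matrix ComplexConjugate

variable {n : ℕ}

/-- multiplication by a complex number, as an `E`-linear map -/
def scaleE (E : IntermediateField ℚ ℂ) (c : ℂ) :
    (Fin (n + 1) → ℂ) →ₗ[E] (Fin (n + 1) → ℂ) where
  toFun v := c • v
  map_add' v w := smul_add c v w
  map_smul' a v := by
    simp only [RingHom.id_apply]
    rw [E_smul, E_smul, smul_comm]

theorem mem_scale {E : IntermediateField ℚ ℂ} {c : ℂ} (hc : c ≠ 0)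
    {X : Submodule E (Fin (n + 1) → ℂ)} {v : Fin (n + 1) → ℂ} :
    v ∈ X.map (scaleE E c) ↔ c⁻¹ • v ∈ X := by
  rw [Submodule.mem_map]
  constructor
  · rintro ⟨x, hx, rfl⟩
    show c⁻¹ • (c • x) ∈ X
    rwa [smul_smul, inv_mul_cancel₀ hc, one_smul]
  · intro h
    refine ⟨_, h, ?_⟩
    show c • (c⁻¹ • v) = v
    rw [smul_smul, mul_inv_cancel₀ hc, one_smul]

/-- Rescaled lattice. -/
def scaleL (c : ℂ) (Λ : AddSubgroup (Fin (n + 1) → ℂ)) : AddSubgroup (Fin (n + 1) → ℂ) :=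
  Λ.map (DistribSMul.toAddMonoidHom (Fin (n + 1) → ℂ) c)

theorem mem_scaleL {c : ℂ} (hc : c ≠ 0) {Λ : AddSubgroup (Fin (n + 1) → ℂ)}
    {v : Fin (n + 1) → ℂ} : v ∈ scaleL c Λ ↔ c⁻¹ • v ∈ Λ := by
  rw [scaleL, AddSubgroup.mem_map]
  constructor
  · rintro ⟨x, hx, rfl⟩
    show c⁻¹ • (c • x) ∈ Λ
    rwa [smul_smul, inv_mul_cancel₀ hc, one_smul]
  · intro h
    refine ⟨_, h, ?_⟩
    show c • (c⁻¹ • v) = v
    rw [smul_smul, mul_inv_cancel₀ hc, one_smul]

theorem IsLat.scale {E : IntermediateField ℚ ℂ} {X : Submodule E (Fin (n + 1) → ℂ)}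
    {Λ : AddSubgroup (Fin (n + 1) → ℂ)} (h : IsLat E X Λ) {c : ℂ} (hc : c ≠ 0) :
    IsLat E (X.map (scaleE E c)) (scaleL c Λ) := by
  refine ⟨?_, ?_, ?_⟩
  · obtain ⟨S, hS⟩ := h.1
    classical
    refine ⟨S.image (DistribSMul.toAddMonoidHom (Fin (n + 1) → ℂ) c), ?_⟩
    rw [scaleL, ← hS, AddMonoidHom.map_closure, Finset.coe_image]
  · intro a ha v hv
    rw [mem_scaleL hc] at hv ⊢
    have := h.2.1 a ha _ hv
    rw [E_smul] at this ⊢
    rwa [smul_comm]
  · rw [← h.2.2, Submodule.map_span]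
    congr 1

theorem stab_scale {W : Submodule ℂ (Fin (n + 1) → ℂ)} {Λ : AddSubgroup (Fin (n + 1) → ℂ)}
    {c : ℂ} (hc : c ≠ 0) : stab n W (scaleL c Λ) = stab n W Λ := by
  ext g
  constructor
  · rintro ⟨h1, h2⟩
    refine ⟨h1, fun v => ?_⟩
    have := h2 (c • v)
    rw [mem_scaleL hc, mem_scaleL hc, act_smul, smul_smul, smul_smul, inv_mul_cancel₀ hc,
      one_smul, one_smul] at this
    exact this
  · rintro ⟨h1, h2⟩
    refine ⟨h1, fun v => ?_⟩
    rw [mem_scaleL hc, mem_scaleL hc, ← act_smul]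
    exact h2 _

theorem IsForm.scale {E : IntermediateField ℚ ℂ} {W : Submodule ℂ (Fin (n + 1) → ℂ)}
    {X : Submodule E (Fin (n + 1) → ℂ)} (h : IsForm n E W X) {c : ℂ} (hc : c ≠ 0) :
    IsForm n E W (X.map (scaleE E c)) := by
  obtain ⟨h1, h2, ⟨s, hs0, hs⟩, p, hp, hp0, hpp⟩ := h
  refine ⟨h1, ?_, ⟨s / ‖c‖ ^ 2, div_ne_zero hs0 (by positivity), ?_⟩, c • p, ?_, ?_, ?_⟩
  · apply le_antisymm
    · rw [Submodule.span_le]
      intro v hv
      have hv' := (mem_scale hc).1 hv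
      have : v = c • (c⁻¹ • v) := by rw [smul_smul, mul_inv_cancel₀ hc, one_smul]
      rw [this, ← h2]
      exact Submodule.smul_mem _ _ (Submodule.subset_span hv')
    · rw [← h2, Submodule.span_le]
      intro v hv
      have : v = c⁻¹ • (c • v) := by rw [smul_smul, inv_mul_cancel₀ hc, one_smul]
      rw [this]
      refine Submodule.smul_mem _ _ (Submodule.subset_span ?_)
      show c • v ∈ X.map (scaleE E c)
      rw [mem_scale hc, smul_smul, inv_mul_cancel₀ hc, one_smul]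
      exact hv
  · intro x hx y hy
    have hx' := (mem_scale hc).1 hx
    have hy' := (mem_scale hc).1 hy
    have h3 := hs _ hx' _ hy'
    rw [herm_smul_left, herm_smul_right] at h3
    have hn : ((‖c‖ : ℝ) : ℂ) ^ 2 = c * conj c := by
      rw [Complex.mul_conj, Complex.normSq_eq_norm_sq]; push_cast; ring
    have hcc : conj c ≠ 0 := by simpa using hc
    have : ((s / ‖c‖ ^ 2 : ℝ) : ℂ) * herm x y = (s : ℂ) * (c⁻¹ * (conj c⁻¹ * herm x y)) := by
      push_cast
      rw [hn, map_inv₀]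
      field_simp
    rw [this]
    exact h3
  · rw [mem_scale hc, smul_smul, inv_mul_cancel₀ hc, one_smul]
    exact hp
  · exact smul_ne_zero hc hp0
  · rw [herm_smul_left, herm_smul_right, hpp, mul_zero, mul_zero]

theorem IsArith.scale {E : IntermediateField ℚ ℂ} {W : Submodule ℂ (Fin (n + 1) → ℂ)}
    {X : Submodule E (Fin (n + 1) → ℂ)} {Γ : Subgroup (SpecialLinearGroup (Fin (n + 1)) ℂ)}
    (h : IsArith n E W X Γ) {c : ℂ} (hc : c ≠ 0) :
    IsArith n E W (X.map (scaleE E c)) Γ := by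
  obtain ⟨hE, hf, hsu, Λ, hΛ, hcomm⟩ := h
  exact ⟨hE, hf.scale hc, hsu, scaleL c Λ, hΛ.scale hc, by rw [stab_scale hc]; exact hcomm⟩

/-- a vertical translation in `Γ` forces its centre to be rational -/
theorem exists_smul_mem {E E' : IntermediateField ℚ ℂ} {W W' : Submodule ℂ (Fin (n + 1) → ℂ)}
    {X : Submodule E (Fin (n + 1) → ℂ)} {X' : Submodule E' (Fin (n + 1) → ℂ)}
    {Γ Γ' : Subgroup (SpecialLinearGroup (Fin (n + 1)) ℂ)}
    (h : IsArith n E W X Γ) (h' : IsArith n E' W' X' Γ') (hle : Γ' ≤ Γ) (hW : W' ≤ W)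
    {p : Fin (n + 1) → ℂ} (hp : p ∈ X') (hp0 : p ≠ 0) (hpp : herm p p = 0) :
    ∃ c : ℂ, c ≠ 0 ∧ c • p ∈ X := by
  obtain ⟨s, hs0, hs⟩ := h'.2.1.2.2.1
  obtain ⟨δ, hδE, hδ0, hδ, -⟩ := h'.1.exists_delta
  have h0 : herm (0 : Fin (n + 1) → ℂ) p = 0 := herm_zero_left p
  obtain ⟨K, hK, hmem⟩ := exists_T_mem h' hs hp X'.zero_mem hδE hδ hpp h0
  have h1 : herm (((s : ℂ) * K) • (0 : Fin (n + 1) → ℂ)) p = 0 := by simp
  have hg := hle (hmem h1)
  obtain ⟨hE, hform, -, Λ, hΛ, hcomm⟩ := h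
  obtain ⟨m, hm, -, hpow⟩ := Subgroup.exists_pow_mem_of_relIndex_ne_zero hcomm.2 hg
  have h2 : herm ((m : ℂ) • (((s : ℂ) * K) • (0 : Fin (n + 1) → ℂ))) p = 0 := by simp
  rw [T_pow hpp h1 m h2] at hpow
  have hst := hpow.1
  -- a lattice vector pairing nontrivially with p
  have hpW : p ∈ W := hW (h'.2.1.2.1 ▸ Submodule.subset_span hp)
  have hΛspan : Submodule.span ℂ (Λ : Set (Fin (n + 1) → ℂ)) = W := by
    apply le_antisymm
    · rw [Submodule.span_le]
      intro v hv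
      rw [← hform.2.1]
      exact Submodule.subset_span (hΛ.2.2 ▸ Submodule.subset_span hv)
    · rw [← hform.2.1, Submodule.span_le]
      intro v hv
      obtain ⟨k, hk, hkv⟩ := exists_nsmul_mem hE hΛ hv
      have hk0 : (k : ℂ) ≠ 0 := by exact_mod_cast hk.ne'
      have : v = (k : ℂ)⁻¹ • ((k : ℂ) • v) := by
        rw [smul_smul, inv_mul_cancel₀ hk0, one_smul]
      rw [this]
      exact Submodule.smul_mem _ _ (Submodule.subset_span hkv)
  obtain ⟨v, hv, hvp⟩ : ∃ v ∈ Λ, herm v p ≠ 0 := by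
    by_contra hcon
    push Not at hcon
    apply hp0
    refine hform.1 p hpW fun w hw => ?_
    rw [← conj_herm]
    rw [← hΛspan] at hw
    have : herm w p = 0 := by
      induction hw using Submodule.span_induction with
      | mem x hx => exact hcon x hx
      | zero => simp
      | add x y _ _ hx hy => rw [herm_add_left, hx, hy, add_zero]
      | smul a x _ hx => rw [herm_smul_left, hx, mul_zero]
    rw [this, map_zero]
  refine ⟨(m : ℂ) * ((s : ℂ) * K * δ) * herm v p, ?_, ?_⟩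
  · have hs0' : (s : ℂ) ≠ 0 := by exact_mod_cast hs0
    have hK0 : (K : ℂ) ≠ 0 := by exact_mod_cast hK.ne'
    have hm0 : (m : ℂ) ≠ 0 := by exact_mod_cast hm.ne'
    exact mul_ne_zero (mul_ne_zero hm0 (mul_ne_zero (mul_ne_zero hs0' hK0) hδ0)) hvp
  · have h3 := (hst.2 v).1 hv
    rw [act_T] at h3
    have h4 := Λ.sub_mem h3 hv
    rw [← hΛ.2.2]
    refine Submodule.subset_span ?_
    show _ ∈ Λ
    convert h4 using 1
    simp only [smul_zero, add_zero, herm_zero_right, sub_zero, kap, zero_div]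
    rw [add_sub_cancel_left]

/-- a second isotropic vector -/
theorem exists_second {E : IntermediateField ℚ ℂ} (hE : ImagQuad E)
    {W : Submodule ℂ (Fin (n + 1) → ℂ)}
    {X : Submodule E (Fin (n + 1) → ℂ)} (h : IsForm n E W X)
    {p : Fin (n + 1) → ℂ} (hp : p ∈ X) (hp0 : p ≠ 0) (hpp : herm p p = 0) :
    ∃ q ∈ X, herm q q = 0 ∧ herm q p ≠ 0 := by
  obtain ⟨h1, h2, ⟨s, hs0, hs⟩, -⟩ := h
  have hs0' : (s : ℂ) ≠ 0 := by exact_mod_cast hs0
  have hpW : p ∈ W := h2 ▸ Submodule.subset_span hp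
  obtain ⟨w, hw, hwp⟩ : ∃ w ∈ X, herm w p ≠ 0 := by
    by_contra hcon
    push Not at hcon
    apply hp0
    refine h1 p hpW fun w hw => ?_
    rw [← conj_herm]
    rw [← h2] at hw
    have : herm w p = 0 := by
      induction hw using Submodule.span_induction with
      | mem x hx => exact hcon x hx
      | zero => simp
      | add x y _ _ hx hy => rw [herm_add_left, hx, hy, add_zero]
      | smul a x _ hx => rw [herm_smul_left, hx, mul_zero]
    rw [this, map_zero]
  have hpw : herm p w ≠ 0 := by rw [← conj_herm]; simpa using hwp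
  have h2E : (2 : ℂ) ∈ E := by
    have := rat_mem E 2
    rwa [Rat.cast_ofNat] at this
  set α : ℂ := -(((s : ℂ) * herm w w) / (2 * ((s : ℂ) * herm p w))) with hα
  have hαE : α ∈ E := E.neg_mem (E.div_mem (hs w hw w hw) (E.mul_mem h2E (hs p hp w hw)))
  have hα' : α * herm p w = - herm w w / 2 := by
    rw [hα]; field_simp
  clear_value α
  have hα'' : conj α * herm w p = - herm w w / 2 := by
    have := congrArg conj hα'
    rw [map_mul, conj_herm, map_div₀, map_neg, conj_herm] at this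
    rw [this, Complex.conj_ofNat]
  refine ⟨w + α • p, X.add_mem hw (smul_mem_E hαE hp), ?_, ?_⟩
  · rw [herm_add_left, herm_add_right, herm_add_right, herm_smul_left, herm_smul_left,
      herm_smul_right, herm_smul_right, hpp, hα', hα'']
    ring
  · rw [herm_add_left, herm_smul_left, hpp, mul_zero, add_zero]
    exact hwp

end Pool.Agent.Q107.Hunt
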