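import Pool.Agent.Q107.Hunt.Bd

/-! # Rational projections and Schur's lemma -/

namespace Pool.Agent.Q107.Hunt

open Matrix ComplexConjugate

variable {n : ℕ}

/-- an orthogonal basis of `W` inside the rational form `X` -/
structure OBas (E : IntermediateField ℚ ℂ) (W : Submodule ℂ (Fin (n + 1) → ℂ))
    (X : Submodule E (Fin (n + 1) → ℂ)) where
  k : ℕ
  b : Fin k → (Fin (n + 1) → ℂ)
  mem : ∀ i, b i ∈ X
  ne : ∀ i, herm (b i) (b i) ≠ 0
  orth : ∀ i j, i ≠ j → herm (b i) (b j) = 0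
  res : Res W b
  coef : ∀ x ∈ X, ∀ i, herm x (b i) / herm (b i) (b i) ∈ E
  sub : ∀ x ∈ X, x ∈ W

theorem exists_OBas {E : IntermediateField ℚ ℂ} (hconj : ∀ z ∈ E, conj z ∈ E)
    (hnr : ∃ z ∈ E, z.im ≠ 0)
    {W : Submodule ℂ (Fin (n + 1) → ℂ)} {X : Submodule E (Fin (n + 1) → ℂ)}
    (hnd : ∀ v ∈ W, (∀ w ∈ W, herm v w = 0) → v = 0)
    (hspan : Submodule.span ℂ (X : Set (Fin (n + 1) → ℂ)) = W)
    {s : ℝ} (hs0 : s ≠ 0) (hs : ∀ x ∈ X, ∀ y ∈ X, (s : ℂ) * herm x y ∈ E) :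
    Nonempty (OBas E W X) := by
  have hs0' : (s : ℂ) ≠ 0 := by exact_mod_cast hs0
  obtain ⟨k, b, hbX, hb0, hbo, hres⟩ := exists_orth_basis hconj hnr hnd hspan hs0 hs
  refine ⟨⟨k, b, hbX, hb0, hbo, hres, fun x hx i => ?_,
    fun x hx => hspan ▸ Submodule.subset_span hx⟩⟩
  have h2 := E.div_mem (hs _ hx _ (hbX i)) (hs _ (hbX i) _ (hbX i))
  rwa [mul_div_mul_left _ _ hs0'] at h2

variable {E : IntermediateField ℚ ℂ} {W : Submodule ℂ (Fin (n + 1) → ℂ)}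
  {X : Submodule E (Fin (n + 1) → ℂ)}

/-- the coefficient functionals -/
noncomputable def OBas.al (B : OBas E W X) (i : Fin B.k) (v : Fin (n + 1) → ℂ) : ℂ :=
  herm v (B.b i) / herm (B.b i) (B.b i)

theorem OBas.al_add (B : OBas E W X) (i : Fin B.k) (v w : Fin (n + 1) → ℂ) :
    B.al i (v + w) = B.al i v + B.al i w := by
  rw [OBas.al, OBas.al, OBas.al, herm_add_left, add_div]

theorem OBas.al_smul (B : OBas E W X) (i : Fin B.k) (c : ℂ) (v : Fin (n + 1) → ℂ) :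
    B.al i (c • v) = c * B.al i v := by
  rw [OBas.al, OBas.al, herm_smul_left, mul_div_assoc]

theorem OBas.al_b (B : OBas E W X) (i : Fin B.k) : B.al i (B.b i) = 1 := by
  rw [OBas.al, div_self (B.ne i)]

theorem OBas.al_sum (B : OBas E W X) {ι : Type*} (s : Finset ι) (i : Fin B.k) (d : ι → ℂ)
    (g : ι → (Fin (n + 1) → ℂ)) : B.al i (∑ j ∈ s, d j • g j) = ∑ j ∈ s, d j * B.al i (g j) := by
  rw [OBas.al, herm_sum_left, Finset.sum_div]
  exact Finset.sum_congr rfl fun j _ => by rw [OBas.al, mul_div_assoc]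

theorem OBas.al_act (B : OBas E W X) {g : SpecialLinearGroup (Fin (n + 1)) ℂ}
    (hg : g ∈ suOf n W) (v : Fin (n + 1) → ℂ) (i : Fin B.k) :
    B.al i (act g v) = ∑ j, B.al j v * B.al i (act g (B.b j)) := by
  set w := ∑ j, B.al j v • B.b j with hw
  -- v - w is orthogonal to W
  have hperp : ∀ x ∈ W, herm (v - w) x = 0 := by
    have h1 : ∀ i, herm (v - w) (B.b i) = 0 := by
      intro i
      rw [hw, herm_sub_left, herm_sum_left, Finset.sum_eq_single i, OBas.al,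
        div_mul_cancel₀ _ (B.ne i), sub_self]
      · intro j _ hj; rw [B.orth j i hj, mul_zero]
      · intro h; exact absurd (Finset.mem_univ i) h
    intro x hx
    rw [B.res x hx, herm_sum_right]
    exact Finset.sum_eq_zero fun j _ => by rw [h1, mul_zero]
  have h2 := hg.2 _ hperp
  have h3 : act g v = act g w + (v - w) := by rw [← h2, act_sub]; abel
  have h4 : B.al i (v - w) = 0 := by
    rw [OBas.al, hperp _ (B.sub _ (B.mem i)), zero_div]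
  have h5 : act g w = ∑ j, B.al j v • act g (B.b j) := by
    rw [hw]
    show (g : Matrix (Fin (n + 1)) (Fin (n + 1)) ℂ) *ᵥ _ = _
    rw [Matrix.mulVec_sum]
    exact Finset.sum_congr rfl fun j _ => act_smul g _ _
  rw [h3, B.al_add, h4, add_zero, h5, B.al_sum]

/-- the projection to the rational form defined by an `E`-linear map `π : ℂ → E` -/
noncomputable def OBas.Pi (B : OBas E W X) (π : ℂ →ₗ[E] E) (v : Fin (n + 1) → ℂ) :
    Fin (n + 1) → ℂ := ∑ i, ((π (B.al i v) : E) : ℂ) • B.b i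

theorem pi_mul (π : ℂ →ₗ[E] E) {e : ℂ} (he : e ∈ E) (z : ℂ) :
    ((π (e * z) : E) : ℂ) = e * (π z : ℂ) := by
  have h1 : π (e * z) = (⟨e, he⟩ : E) • π z := by
    rw [← map_smul]
    congr 1
  rw [h1]
  rfl

theorem OBas.Pi_mem (B : OBas E W X) (π : ℂ →ₗ[E] E) (v : Fin (n + 1) → ℂ) : B.Pi π v ∈ X :=
  X.sum_mem fun i _ => smul_mem_E (π (B.al i v)).2 (B.mem i)

theorem OBas.Pi_add (B : OBas E W X) (π : ℂ →ₗ[E] E) (v w : Fin (n + 1) → ℂ) :
    B.Pi π (v + w) = B.Pi π v + B.Pi π w := by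
  rw [OBas.Pi, OBas.Pi, OBas.Pi, ← Finset.sum_add_distrib]
  refine Finset.sum_congr rfl fun i _ => ?_
  rw [B.al_add, map_add, ← add_smul]
  rfl

theorem OBas.Pi_smul (B : OBas E W X) (π : ℂ →ₗ[E] E) {e : ℂ} (he : e ∈ E)
    (v : Fin (n + 1) → ℂ) : B.Pi π (e • v) = e • B.Pi π v := by
  rw [OBas.Pi, OBas.Pi, Finset.smul_sum]
  refine Finset.sum_congr rfl fun i _ => ?_
  rw [B.al_smul, pi_mul π he, smul_smul]

theorem OBas.Pi_sum (B : OBas E W X) (π : ℂ →ₗ[E] E) {ι : Type*} (s : Finset ι) (d : ι → ℂ)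
    (hd : ∀ i, d i ∈ E) (g : ι → (Fin (n + 1) → ℂ)) :
    B.Pi π (∑ j ∈ s, d j • g j) = ∑ j ∈ s, d j • B.Pi π (g j) := by
  classical
  induction s using Finset.induction_on with
  | empty =>
    rw [Finset.sum_empty, Finset.sum_empty]
    have := B.Pi_smul π E.zero_mem 0
    simpa using this
  | insert a s ha ih =>
    rw [Finset.sum_insert ha, Finset.sum_insert ha, B.Pi_add, ih, B.Pi_smul π (hd a)]

theorem OBas.Pi_act (B : OBas E W X) (π : ℂ →ₗ[E] E)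
    {g : SpecialLinearGroup (Fin (n + 1)) ℂ} (hg : g ∈ suOf n W)
    (hgX : ∀ x ∈ X, act g x ∈ X) (v : Fin (n + 1) → ℂ) :
    B.Pi π (act g v) = act g (B.Pi π v) := by
  have h1 : ∀ i, ((π (B.al i (act g v)) : E) : ℂ) =
      ∑ j, ((π (B.al j v) : E) : ℂ) * B.al i (act g (B.b j)) := by
    intro i
    rw [B.al_act hg, map_sum, AddSubmonoidClass.coe_finsetSum]
    refine Finset.sum_congr rfl fun j _ => ?_
    have h0 : B.al i (act g (B.b j)) ∈ E := B.coef _ (hgX _ (B.mem j)) i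
    rw [mul_comm, pi_mul π h0, mul_comm]
  have h2 : ∀ j, act g (B.b j) = ∑ i, B.al i (act g (B.b j)) • B.b i := fun j =>
    B.res _ (B.sub _ (hgX _ (B.mem j)))
  have h3 : act g (B.Pi π v) = ∑ j, ((π (B.al j v) : E) : ℂ) • act g (B.b j) := by
    rw [OBas.Pi]
    show (g : Matrix (Fin (n + 1)) (Fin (n + 1)) ℂ) *ᵥ _ = _
    rw [Matrix.mulVec_sum]
    exact Finset.sum_congr rfl fun j _ => act_smul g _ _
  rw [h3, OBas.Pi]
  have h4 : ∀ j, ((π (B.al j v) : E) : ℂ) • act g (B.b j) =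
      ∑ i, (((π (B.al j v) : E) : ℂ) * B.al i (act g (B.b j))) • B.b i := by
    intro j
    conv_lhs => rw [h2 j]
    rw [Finset.smul_sum]
    exact Finset.sum_congr rfl fun i _ => by rw [smul_smul]
  rw [Finset.sum_congr rfl fun j _ => h4 j, Finset.sum_comm]
  refine Finset.sum_congr rfl fun i _ => ?_
  rw [h1 i, Finset.sum_smul]

theorem exists_pi (E : IntermediateField ℚ ℂ) {z : ℂ} (hz : z ≠ 0) :
    ∃ π : ℂ →ₗ[E] E, ((π z : E) : ℂ) ≠ 0 := by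
  obtain ⟨ρ, hρ⟩ := LinearMap.exists_leftInverse_of_injective (Algebra.linearMap E ℂ)
    (by
      rw [LinearMap.ker_eq_bot]
      exact (algebraMap E ℂ).injective)
  have hρ1 : ρ 1 = 1 := by
    have := congrArg (fun f => f 1) hρ
    simpa using this
  let m : ℂ →ₗ[E] ℂ :=
    { toFun := fun x => z⁻¹ * x
      map_add' := fun x y => mul_add _ _ _
      map_smul' := fun a x => by
        simp only [RingHom.id_apply]
        rw [Algebra.smul_def, Algebra.smul_def]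
        ring }
  refine ⟨ρ ∘ₗ m, ?_⟩
  have : (ρ ∘ₗ m) z = 1 := by
    show ρ (z⁻¹ * z) = 1
    rw [inv_mul_cancel₀ hz, hρ1]
  rw [this]
  simp

theorem OBas.exists_al_ne (B : OBas E W X) {w : Fin (n + 1) → ℂ} (hw : w ∈ W) (hw0 : w ≠ 0) :
    ∃ i, B.al i w ≠ 0 := by
  by_contra hcon
  push Not at hcon
  apply hw0
  rw [B.res w hw]
  refine Finset.sum_eq_zero fun i _ => ?_
  have : herm w (B.b i) / herm (B.b i) (B.b i) = 0 := hcon i
  rw [this, zero_smul]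

theorem OBas.al_Pi (B : OBas E W X) (π : ℂ →ₗ[E] E) (i : Fin B.k) (v : Fin (n + 1) → ℂ) :
    B.al i (B.Pi π v) = ((π (B.al i v) : E) : ℂ) := by
  rw [OBas.Pi, B.al_sum, Finset.sum_eq_single i, B.al_b, mul_one]
  · intro j _ hj
    have h0 : B.al i (B.b j) = 0 := by rw [OBas.al, B.orth j i hj, zero_div]
    rw [h0, mul_zero]
  · intro h; exact absurd (Finset.mem_univ i) h

/-- vectors fixed by an ample group -/
theorem perp_of_fixed {W₃ : Submodule ℂ (Fin (n + 1) → ℂ)}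
    {Γ : Subgroup (SpecialLinearGroup (Fin (n + 1)) ℂ)} (hreal : RealSpans W₃ Γ)
    {f : Fin (n + 1) → ℂ} (hf : ∀ γ ∈ Γ, act γ f = f) : ∀ w ∈ W₃, herm f w = 0 := by
  intro w hw
  have key : ∀ B ∈ Submodule.span ℝ
      {B : Matrix (Fin (n + 1)) (Fin (n + 1)) ℂ |
        ∃ γ ∈ Γ, B = (γ : Matrix (Fin (n + 1)) (Fin (n + 1)) ℂ) - 1}, B *ᵥ f = 0 := by
    intro B hB
    induction hB using Submodule.span_induction with
    | mem B hB =>
      obtain ⟨γ, hγ, rfl⟩ := hB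
      rw [Matrix.sub_mulVec, Matrix.one_mulVec]
      exact sub_eq_zero.2 (hf γ hγ)
    | zero => simp
    | add x y _ _ hx hy => rw [Matrix.add_mulVec, hx, hy, add_zero]
    | smul r x _ hx => rw [Matrix.smul_mulVec, hx, smul_zero]
  have h1 := key _ (hreal _ (rk_EndW hw hw))
  rw [rk_mulVec] at h1
  rcases smul_eq_zero.1 h1 with h | h
  · exact h
  · rw [h, herm_zero_right]

/-- The normal of `W₂` is rational in `X₁`. -/
theorem normal_rational (B : OBas E W X) {W₂ : Submodule ℂ (Fin (n + 1) → ℂ)}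
    {u₂ : Fin (n + 1) → ℂ} (hu₂0 : herm u₂ u₂ ≠ 0) (hu₂ : ∀ v, v ∈ W₂ ↔ herm v u₂ = 0)
    (hu₂W : u₂ ∈ W)
    (hnd₃ : ∀ v ∈ W ⊓ W₂, (∀ w ∈ W ⊓ W₂, herm v w = 0) → v = 0)
    {Γ : Subgroup (SpecialLinearGroup (Fin (n + 1)) ℂ)} (hreal : RealSpans (W ⊓ W₂) Γ)
    (hsu : Γ ≤ suOf n W) (hsu₃ : Γ ≤ suOf n (W ⊓ W₂))
    (hpres : ∀ γ ∈ Γ, ∀ x ∈ X, act γ x ∈ X) :
    ∃ c : ℂ, c ≠ 0 ∧ c • u₂ ∈ X := by
  have hu₂ne : u₂ ≠ 0 := by rintro rfl; exact hu₂0 (herm_zero_left _)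
  obtain ⟨i, hi⟩ := B.exists_al_ne hu₂W hu₂ne
  obtain ⟨π, hπ⟩ := exists_pi E hi
  set f := B.Pi π u₂ with hf
  have hfX : f ∈ X := B.Pi_mem π u₂
  have hfix : ∀ γ ∈ Γ, act γ f = f := by
    intro γ hγ
    have h1 : act γ u₂ = u₂ := (hsu₃ hγ).2 u₂ fun w hw => herm_conj_zero ((hu₂ w).1 hw.2)
    rw [hf, ← B.Pi_act π (hsu hγ) (hpres γ hγ), h1]
  have hperp := perp_of_fixed hreal hfix
  have hf' : f - (herm f u₂ / herm u₂ u₂) • u₂ = 0 := by
    refine hnd₃ _ ⟨W.sub_mem (B.sub _ hfX) (W.smul_mem _ hu₂W), ?_⟩ fun w hw => ?_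
    · show f - (herm f u₂ / herm u₂ u₂) • u₂ ∈ W₂
      rw [hu₂, herm_sub_left, herm_smul_left, div_mul_cancel₀ _ hu₂0, sub_self]
    · rw [herm_sub_left, herm_smul_left, hperp w hw, herm_conj_zero ((hu₂ w).1 hw.2), mul_zero,
        sub_zero]
  refine ⟨herm f u₂ / herm u₂ u₂, ?_, ?_⟩
  · intro h0
    rw [h0, zero_smul, sub_zero] at hf'
    have := B.al_Pi π i u₂
    rw [← hf, hf'] at this
    rw [OBas.al, herm_zero_left, zero_div] at this
    exact hπ this.symm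
  · rw [← sub_eq_zero.1 hf']
    exact hfX

/-- Schur's lemma: the two rational structures on `W₁ ∩ W₂` are proportional. -/
theorem schur {W₁ W₂ : Submodule ℂ (Fin (n + 1) → ℂ)}
    {X₁ X₂ : Submodule E (Fin (n + 1) → ℂ)} (B₁ : OBas E W₁ X₁) (B₂ : OBas E W₂ X₂)
    (hnd₃ : ∀ v ∈ W₁ ⊓ W₂, (∀ w ∈ W₁ ⊓ W₂, herm v w = 0) → v = 0)
    {Γ : Subgroup (SpecialLinearGroup (Fin (n + 1)) ℂ)} (hreal : RealSpans (W₁ ⊓ W₂) Γ)
    (hsu₁ : Γ ≤ suOf n W₁) (hsu₂ : Γ ≤ suOf n W₂)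
    (hpres₁ : ∀ γ ∈ Γ, ∀ x ∈ X₁, act γ x ∈ X₁) (hpres₂ : ∀ γ ∈ Γ, ∀ x ∈ X₂, act γ x ∈ X₂)
    {y₀ : Fin (n + 1) → ℂ} (hy₀ : y₀ ∈ X₁) (hy₀W : y₀ ∈ W₂) (hy₀0 : y₀ ≠ 0) :
    ∃ κ : ℂ, κ ≠ 0 ∧ ∀ y ∈ X₁, y ∈ W₂ → κ • y ∈ X₂ := by
  obtain ⟨i, hi⟩ := B₂.exists_al_ne hy₀W hy₀0
  obtain ⟨π, hπ⟩ := exists_pi E hi
  set φ : (Fin (n + 1) → ℂ) → (Fin (n + 1) → ℂ) :=
    fun v => ∑ i, B₁.al i v • B₂.Pi π (B₁.b i) with hφ
  have hφadd : ∀ v w, φ (v + w) = φ v + φ w := by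
    intro v w
    simp only [hφ]
    rw [← Finset.sum_add_distrib]
    exact Finset.sum_congr rfl fun i _ => by rw [B₁.al_add, add_smul]
  have hφsmul : ∀ (c : ℂ) v, φ (c • v) = c • φ v := by
    intro c v
    simp only [hφ]
    rw [Finset.smul_sum]
    exact Finset.sum_congr rfl fun i _ => by rw [B₁.al_smul, smul_smul]
  have hφX : ∀ x ∈ X₁, φ x = B₂.Pi π x := by
    intro x hx
    have h1 : x = ∑ i, B₁.al i x • B₁.b i := B₁.res x (B₁.sub x hx)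
    have h0 : ∀ i, B₁.al i x ∈ E := fun i => B₁.coef x hx i
    conv_rhs => rw [h1]
    rw [B₂.Pi_sum π _ _ h0]
  have hφact : ∀ γ ∈ Γ, ∀ v, φ (act γ v) = act γ (φ v) := by
    intro γ hγ v
    have h1 : φ (act γ v) = ∑ j, B₁.al j v • φ (act γ (B₁.b j)) := by
      simp only [hφ]
      rw [Finset.sum_congr rfl fun i _ => by rw [B₁.al_act (hsu₁ hγ) v i, Finset.sum_smul]]
      rw [Finset.sum_comm]
      refine Finset.sum_congr rfl fun j _ => ?_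
      rw [Finset.smul_sum]
      exact Finset.sum_congr rfl fun i _ => by rw [smul_smul]
    have h2 : act γ (φ v) = ∑ j, B₁.al j v • act γ (B₂.Pi π (B₁.b j)) := by
      simp only [hφ]
      show (γ : Matrix (Fin (n + 1)) (Fin (n + 1)) ℂ) *ᵥ _ = _
      rw [Matrix.mulVec_sum]
      exact Finset.sum_congr rfl fun j _ => act_smul γ _ _
    rw [h1, h2]
    refine Finset.sum_congr rfl fun j _ => ?_
    rw [hφX _ (hpres₁ γ hγ _ (B₁.mem j)), B₂.Pi_act π (hsu₂ hγ) (hpres₂ γ hγ)]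
  have hcomm : ∀ A ∈ Submodule.span ℝ
      {B : Matrix (Fin (n + 1)) (Fin (n + 1)) ℂ |
        ∃ γ ∈ Γ, B = (γ : Matrix (Fin (n + 1)) (Fin (n + 1)) ℂ) - 1},
      ∀ v, φ (A *ᵥ v) = A *ᵥ φ v := by
    intro A hA
    induction hA using Submodule.span_induction with
    | mem A hA =>
      obtain ⟨γ, hγ, rfl⟩ := hA
      intro v
      rw [Matrix.sub_mulVec, Matrix.one_mulVec, Matrix.sub_mulVec, Matrix.one_mulVec,
        sub_eq_add_neg, hφadd, ← neg_one_smul ℂ v, hφsmul, neg_one_smul, ← sub_eq_add_neg]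
      congr 1
      exact hφact γ hγ v
    | zero =>
      intro v
      rw [Matrix.zero_mulVec, Matrix.zero_mulVec]
      have := hφsmul 0 0
      simpa using this
    | add x y _ _ hx hy =>
      intro v
      rw [Matrix.add_mulVec, hφadd, hx, hy, Matrix.add_mulVec]
    | smul r x _ hx =>
      intro v
      rw [Matrix.smul_mulVec, Matrix.smul_mulVec]
      have h1 : ∀ u : Fin (n + 1) → ℂ, r • u = (r : ℂ) • u := by
        intro u; funext j; simp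
      rw [h1, h1, hφsmul, hx]
  have hy₀₃ : y₀ ∈ W₁ ⊓ W₂ := ⟨B₁.sub _ hy₀, hy₀W⟩
  obtain ⟨z, hz, hyz⟩ : ∃ z ∈ W₁ ⊓ W₂, herm y₀ z ≠ 0 := by
    by_contra hcon
    push Not at hcon
    exact hy₀0 (hnd₃ _ hy₀₃ hcon)
  -- the scalar
  set κ := herm (φ ((herm y₀ z)⁻¹ • y₀)) z with hκ
  have hscal : ∀ w ∈ W₁ ⊓ W₂, φ w = κ • w := by
    intro w hw
    have h1 := hcomm _ (hreal _ (rk_EndW hw hz)) ((herm y₀ z)⁻¹ • y₀)
    rw [rk_mulVec, rk_mulVec, herm_smul_left, inv_mul_cancel₀ hyz, one_smul] at h1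
    exact h1
  refine ⟨κ, ?_, fun y hy hyW => ?_⟩
  · intro h0
    have h1 := hscal y₀ hy₀₃
    rw [h0, zero_smul, hφX _ hy₀] at h1
    have h2 := B₂.al_Pi π i y₀
    rw [h1, OBas.al, herm_zero_left, zero_div] at h2
    exact hπ h2.symm
  · rw [← hscal y ⟨B₁.sub _ hy, hyW⟩, hφX _ hy]
    exact B₂.Pi_mem π y

end Pool.Agent.Q107.Hunt
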