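import Pool.Agent.Q107.Hunt.Gen

/-! # First kind arithmetic groups over CM fields: traces -/

namespace Pool.Agent.Q107.Hunt

open Matrix ComplexConjugate

variable {n : ℕ}

/-- `E ⊂ ℂ` is a CM field: a number field, not real, stable under complex conjugation, which
commutes with every embedding of `E` into `ℂ`. -/
def CMF (E : IntermediateField ℚ ℂ) : Prop :=
  FiniteDimensional ℚ E ∧ (∃ z ∈ E, z.im ≠ 0) ∧ (∀ z ∈ E, conj z ∈ E) ∧
    ∀ (σ : E →+* ℂ) (z w : E), (w : ℂ) = conj (z : ℂ) → σ w = conj (σ z)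

/-- `X` is a Hermitian `E`-form of the nondegenerate subspace `W`, which is definite at all
places of `E` but the given one: on `X` a real multiple `s · herm` is `E`-valued, and for every
embedding `σ` of `E` other than the inclusion and its conjugate, the numbers
`σ (s · herm x x)`, `0 ≠ x ∈ X`, are all positive or all negative. -/
def IsFK (n : ℕ) (E : IntermediateField ℚ ℂ) (W : Submodule ℂ (Fin (n + 1) → ℂ))
    (X : Submodule E (Fin (n + 1) → ℂ)) : Prop :=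
  (∀ v ∈ W, (∀ w ∈ W, herm v w = 0) → v = 0) ∧
  Submodule.span ℂ (X : Set (Fin (n + 1) → ℂ)) = W ∧
  ∃ s : ℝ, s ≠ 0 ∧ (∀ x ∈ X, ∀ y ∈ X, (s : ℂ) * herm x y ∈ E) ∧
    ∀ σ : E →+* ℂ, (∃ z : E, σ z ≠ z) → (∃ z : E, σ z ≠ conj (z : ℂ)) →
      (∀ x ∈ X, x ≠ 0 → ∀ e : E, (e : ℂ) = s * herm x x → 0 < (σ e).re) ∨
      (∀ x ∈ X, x ≠ 0 → ∀ e : E, (e : ℂ) = s * herm x x → (σ e).re < 0)

/-- `Γ` is an arithmetic subgroup of the first kind of `SU(W)`: `Γ ≤ SU(W)` is commensurable with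
the stabiliser of an `𝒪_E`-lattice of a Hermitian `E`-form `X` as above, `E` a CM field. -/
def IsArithFK (n : ℕ) (E : IntermediateField ℚ ℂ) (W : Submodule ℂ (Fin (n + 1) → ℂ))
    (X : Submodule E (Fin (n + 1) → ℂ))
    (Γ : Subgroup (SpecialLinearGroup (Fin (n + 1)) ℂ)) : Prop :=
  CMF E ∧ IsFK n E W X ∧ Γ ≤ suOf n W ∧
    ∃ Λ, IsLat E X Λ ∧ Subgroup.Commensurable Γ (stab n W Λ)

/-- The matrices of the endomorphisms of `W`, extended by zero on `W^⊥`. -/
def EndW (W : Submodule ℂ (Fin (n + 1) → ℂ)) (A : Matrix (Fin (n + 1)) (Fin (n + 1)) ℂ) : Prop :=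
  (∀ v, A *ᵥ v ∈ W) ∧ ∀ v, (∀ w ∈ W, herm v w = 0) → A *ᵥ v = 0

/-- The matrices `γ - 1`, `γ ∈ Γ`, span the real vector space `End(W)`. -/
def RealSpans (W : Submodule ℂ (Fin (n + 1) → ℂ))
    (Γ : Subgroup (SpecialLinearGroup (Fin (n + 1)) ℂ)) : Prop :=
  ∀ A, EndW W A → A ∈ Submodule.span ℝ
    {B : Matrix (Fin (n + 1)) (Fin (n + 1)) ℂ |
      ∃ γ ∈ Γ, B = (γ : Matrix (Fin (n + 1)) (Fin (n + 1)) ℂ) - 1}

/-- The entries of the elements of `Γ` are unbounded. -/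
def Unbdd (Γ : Subgroup (SpecialLinearGroup (Fin (n + 1)) ℂ)) : Prop :=
  ∀ C : ℝ, ∃ γ ∈ Γ, ∃ i j, C < ‖(γ : Matrix (Fin (n + 1)) (Fin (n + 1)) ℂ) i j‖

/-- `Γ ≤ SU(W)`, and every subgroup of finite index in `Γ` is unbounded and spans `End(W)` over
the reals. Every lattice of `SU(W)`, `W` of signature `(m-1,1)`, `m ≥ 3`, has this property, by
Borel's density theorem. -/
def Ample (n : ℕ) (W : Submodule ℂ (Fin (n + 1) → ℂ))
    (Γ : Subgroup (SpecialLinearGroup (Fin (n + 1)) ℂ)) : Prop :=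
  Γ ≤ suOf n W ∧ ∀ Γ' ≤ Γ, Γ'.relIndex Γ ≠ 0 → Unbdd Γ' ∧ RealSpans W Γ'

/-! ### Traces -/

theorem res_top {W : Submodule ℂ (Fin (n + 1) → ℂ)} {u : Fin (n + 1) → ℂ}
    (huu : herm u u ≠ 0) (hu : ∀ v, v ∈ W ↔ herm v u = 0) {k : ℕ}
    {b : Fin k → (Fin (n + 1) → ℂ)} (hbW : ∀ i, b i ∈ W) (hres : Res W b) :
    Res ⊤ (fun o : Option (Fin k) => o.elim u b) := by
  intro v _
  have hv : v - (herm v u / herm u u) • u ∈ W := by
    rw [hu, herm_sub_left, herm_smul_left, div_mul_cancel₀ _ huu, sub_self]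
  have h1 := hres _ hv
  rw [Fintype.sum_option]
  simp only [Option.elim]
  have h2 : ∑ i, (herm (v - (herm v u / herm u u) • u) (b i) / herm (b i) (b i)) • b i =
      ∑ i, (herm v (b i) / herm (b i) (b i)) • b i := by
    refine Finset.sum_congr rfl fun i _ => ?_
    rw [herm_sub_left, herm_smul_left, herm_conj_zero ((hu _).1 (hbW i)), mul_zero, sub_zero]
  rw [h2] at h1
  rw [← h1]
  abel

theorem trace_formula {W : Submodule ℂ (Fin (n + 1) → ℂ)} {u : Fin (n + 1) → ℂ}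
    (huu : herm u u ≠ 0) (hu : ∀ v, v ∈ W ↔ herm v u = 0) {k : ℕ}
    {b : Fin k → (Fin (n + 1) → ℂ)} (hbW : ∀ i, b i ∈ W) (hres : Res W b)
    {g : SpecialLinearGroup (Fin (n + 1)) ℂ} (hg : g ∈ suOf n W) :
    (g : Matrix (Fin (n + 1)) (Fin (n + 1)) ℂ).trace =
      1 + ∑ i, herm (act g (b i)) (b i) / herm (b i) (b i) := by
  rw [trace_res (res_top huu hu hbW hres), Fintype.sum_option]
  simp only [Option.elim]
  have h1 : act g u = u := hg.2 u fun w hw => herm_conj_zero ((hu w).1 hw)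
  have h2 : (g : Matrix (Fin (n + 1)) (Fin (n + 1)) ℂ) *ᵥ u = u := h1
  rw [h2, div_self huu]
  rfl

theorem trace_mem {E : IntermediateField ℚ ℂ} (hconj : ∀ z ∈ E, conj z ∈ E)
    (hnr : ∃ z ∈ E, z.im ≠ 0)
    {W : Submodule ℂ (Fin (n + 1) → ℂ)} {X : Submodule E (Fin (n + 1) → ℂ)}
    (hW : Module.finrank ℂ W = n)
    (hnd : ∀ v ∈ W, (∀ w ∈ W, herm v w = 0) → v = 0)
    (hspan : Submodule.span ℂ (X : Set (Fin (n + 1) → ℂ)) = W)
    {s : ℝ} (hs0 : s ≠ 0) (hs : ∀ x ∈ X, ∀ y ∈ X, (s : ℂ) * herm x y ∈ E)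
    {g : SpecialLinearGroup (Fin (n + 1)) ℂ} (hg : g ∈ suOf n W) (hgX : ∀ x ∈ X, act g x ∈ X) :
    (g : Matrix (Fin (n + 1)) (Fin (n + 1)) ℂ).trace ∈ E := by
  have hs0' : (s : ℂ) ≠ 0 := by exact_mod_cast hs0
  obtain ⟨u, huu, hu⟩ := exists_normal hW hnd
  obtain ⟨k, b, hbX, hb0, -, hres⟩ := exists_orth_basis hconj hnr hnd hspan hs0 hs
  rw [trace_formula huu hu (fun i => hspan ▸ Submodule.subset_span (hbX i)) hres hg]
  refine E.add_mem E.one_mem (E.sum_mem fun i _ => ?_)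
  have h2 := E.div_mem (hs _ (hgX _ (hbX i)) _ (hbX i)) (hs _ (hbX i) _ (hbX i))
  rwa [mul_div_mul_left _ _ hs0'] at h2

/-- At a place where the form is definite the traces are bounded. -/
theorem trace_bound {E : IntermediateField ℚ ℂ} (hE : CMF E)
    {W : Submodule ℂ (Fin (n + 1) → ℂ)} {X : Submodule E (Fin (n + 1) → ℂ)}
    (hW : Module.finrank ℂ W = n)
    (hnd : ∀ v ∈ W, (∀ w ∈ W, herm v w = 0) → v = 0)
    (hspan : Submodule.span ℂ (X : Set (Fin (n + 1) → ℂ)) = W)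
    {s : ℝ} (hs0 : s ≠ 0) (hs : ∀ x ∈ X, ∀ y ∈ X, (s : ℂ) * herm x y ∈ E) {σ : E →+* ℂ}
    (hσ : (∀ x ∈ X, x ≠ 0 → ∀ e : E, (e : ℂ) = s * herm x x → 0 < (σ e).re) ∨
      (∀ x ∈ X, x ≠ 0 → ∀ e : E, (e : ℂ) = s * herm x x → (σ e).re < 0)) :
    ∃ C : ℝ, ∀ g : SpecialLinearGroup (Fin (n + 1)) ℂ, g ∈ suOf n W → (∀ x ∈ X, act g x ∈ X) →
      ∀ t : E, (t : ℂ) = (g : Matrix (Fin (n + 1)) (Fin (n + 1)) ℂ).trace → ‖σ t‖ ≤ C := by
  have hs0' : (s : ℂ) ≠ 0 := by exact_mod_cast hs0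
  obtain ⟨hfin, hnr, hconj, hcomm⟩ := hE
  obtain ⟨u, huu, hu⟩ := exists_normal hW hnd
  obtain ⟨k, b, hbX, hb0, hbo, hres⟩ := exists_orth_basis hconj hnr hnd hspan hs0 hs
  refine ⟨1 + k, fun g hg hgX t ht => ?_⟩
  have hbW : ∀ i, b i ∈ W := fun i => hspan ▸ Submodule.subset_span (hbX i)
  have hgW : ∀ w ∈ W, act g w ∈ W := by
    intro w hw
    rw [← hspan] at hw ⊢
    induction hw using Submodule.span_induction with
    | mem x hx => exact Submodule.subset_span (hgX x hx)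
    | zero => rw [act_zero]; exact Submodule.zero_mem _
    | add x y _ _ hx hy => rw [act_add]; exact Submodule.add_mem _ hx hy
    | smul a x _ hx => rw [act_smul]; exact Submodule.smul_mem _ _ hx
  -- coefficients
  have hmem : ∀ x ∈ X, ∀ i, herm x (b i) / herm (b i) (b i) ∈ E := by
    intro x hx i
    have h2 := E.div_mem (hs _ hx _ (hbX i)) (hs _ (hbX i) _ (hbX i))
    rwa [mul_div_mul_left _ _ hs0'] at h2
  let a : Fin k → Fin k → E := fun i j => ⟨_, hmem _ (hgX _ (hbX j)) i⟩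
  let a' : Fin k → Fin k → E := fun i j => ⟨_, hconj _ (hmem _ (hgX _ (hbX j)) i)⟩
  let d : Fin k → E := fun i => ⟨_, hs _ (hbX i) _ (hbX i)⟩
  have ha' : ∀ i j, σ (a' i j) = conj (σ (a i j)) := fun i j => hcomm σ _ _ rfl
  have hd : ∀ i, σ (d i) = conj (σ (d i)) := by
    intro i
    refine hcomm σ _ _ ?_
    show (s : ℂ) * herm (b i) (b i) = conj ((s : ℂ) * herm (b i) (b i))
    rw [map_mul, conj_herm, Complex.conj_ofReal]
  have hdre : ∀ i, σ (d i) = ((σ (d i)).re : ℂ) := by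
    intro i
    exact (Complex.conj_eq_iff_re.1 (hd i).symm).symm
  -- the unitarity relation
  have hrel : ∀ j, d j = ∑ i, a i j * a' i j * d i := by
    intro j
    apply Subtype.ext
    rw [AddSubmonoidClass.coe_finsetSum]
    show (s : ℂ) * herm (b j) (b j) = ∑ i, (herm (act g (b j)) (b i) / herm (b i) (b i)) *
      conj (herm (act g (b j)) (b i) / herm (b i) (b i)) * ((s : ℂ) * herm (b i) (b i))
    have h1 := hg.1 (b j) (b j)
    rw [← h1]
    conv_lhs => rw [hres _ (hgW _ (hbW j))]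
    rw [herm_sum_left, Finset.mul_sum]
    refine Finset.sum_congr rfl fun i _ => ?_
    rw [herm_sum_right, Finset.sum_eq_single i]
    · ring
    · intro l _ hl; rw [hbo i l hl.symm, mul_zero]
    · intro h; exact absurd (Finset.mem_univ i) h
  have hreal : ∀ j, (σ (d j)).re = ∑ i, ‖σ (a i j)‖ ^ 2 * (σ (d i)).re := by
    intro j
    have h1 := congrArg σ (hrel j)
    rw [map_sum] at h1
    have h2 : (((σ (d j)).re : ℝ) : ℂ) = ((∑ i, ‖σ (a i j)‖ ^ 2 * (σ (d i)).re : ℝ) : ℂ) := by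
      rw [← hdre, h1]
      push_cast
      refine Finset.sum_congr rfl fun i _ => ?_
      rw [map_mul, map_mul, ha', Complex.mul_conj, Complex.normSq_eq_norm_sq, hdre i]
      push_cast
      rw [Complex.ofReal_re]
    exact_mod_cast h2
  have hb0' : ∀ i, b i ≠ 0 := by
    intro i h; apply hb0 i; rw [h]; simp
  have hnorm : ∀ j, ‖σ (a j j)‖ ≤ 1 := by
    intro j
    rcases hσ with hσ | hσ
    · have hpos : ∀ i, 0 < (σ (d i)).re := fun i => hσ _ (hbX i) (hb0' i) _ rfl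
      have h1 := hreal j
      have h2 : ‖σ (a j j)‖ ^ 2 * (σ (d j)).re ≤ ∑ i, ‖σ (a i j)‖ ^ 2 * (σ (d i)).re :=
        Finset.single_le_sum (f := fun i => ‖σ (a i j)‖ ^ 2 * (σ (d i)).re)
          (fun i _ => mul_nonneg (sq_nonneg _) (hpos i).le) (Finset.mem_univ j)
      rw [← h1] at h2
      have h3 : ‖σ (a j j)‖ ^ 2 ≤ 1 := by
        by_contra hcon
        push Not at hcon
        nlinarith [hpos j]
      nlinarith [norm_nonneg (σ (a j j))]
    · have hpos : ∀ i, 0 < -(σ (d i)).re := fun i => by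
        have := hσ _ (hbX i) (hb0' i) (d i) rfl
        linarith
      have h1 := hreal j
      have h2 : ‖σ (a j j)‖ ^ 2 * (-(σ (d j)).re) ≤ ∑ i, ‖σ (a i j)‖ ^ 2 * (-(σ (d i)).re) :=
        Finset.single_le_sum (f := fun i => ‖σ (a i j)‖ ^ 2 * (-(σ (d i)).re))
          (fun i _ => mul_nonneg (sq_nonneg _) (hpos i).le) (Finset.mem_univ j)
      have h4 : ∑ i, ‖σ (a i j)‖ ^ 2 * (-(σ (d i)).re) = -(σ (d j)).re := by
        rw [h1, ← Finset.sum_neg_distrib]
        exact Finset.sum_congr rfl fun i _ => by ring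
      rw [h4] at h2
      have h3 : ‖σ (a j j)‖ ^ 2 ≤ 1 := by
        by_contra hcon
        push Not at hcon
        nlinarith [hpos j]
      nlinarith [norm_nonneg (σ (a j j))]
  have htr : t = 1 + ∑ i, a i i := by
    apply Subtype.ext
    rw [ht, trace_formula huu hu hbW hres hg]
    push_cast
    rfl
  rw [htr, map_add, map_one, map_sum]
  calc ‖1 + ∑ i, σ (a i i)‖ ≤ ‖(1 : ℂ)‖ + ‖∑ i, σ (a i i)‖ := norm_add_le _ _
    _ ≤ 1 + ∑ i : Fin k, (1 : ℝ) := by
        rw [norm_one]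
        gcongr
        exact (norm_sum_le _ _).trans (Finset.sum_le_sum fun i _ => hnorm i)
    _ = 1 + k := by simp

/-- another embedding -/
theorem exists_embedding {E F : IntermediateField ℚ ℂ} (hfin : FiniteDimensional ℚ E)
    (hle : F ≤ E) (hne : F ≠ E) :
    ∃ σ : E →+* ℂ, (∀ z : E, (z : ℂ) ∈ F → σ z = z) ∧ ∃ z : E, σ z ≠ z := by
  let K := IntermediateField.extendScalars hle
  have hK : ∀ z : ℂ, z ∈ K ↔ z ∈ E := fun z => IntermediateField.mem_extendScalars hle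
  have hfinQ : FiniteDimensional ℚ K := by
    let e : E →ₗ[ℚ] K :=
      { toFun := fun z => ⟨z, (hK z).2 z.2⟩
        map_add' := fun _ _ => rfl
        map_smul' := fun a z => by
          apply Subtype.ext
          show ((a • z : E) : ℂ) = ((a • (⟨z, (hK z).2 z.2⟩ : K) : K) : ℂ)
          rw [Algebra.smul_def, Algebra.smul_def]
          rfl }
    exact Module.Finite.of_surjective e fun z => ⟨⟨z, (hK z).1 z.2⟩, rfl⟩
  have hfinF : FiniteDimensional F K := Module.Finite.of_restrictScalars_finite ℚ F K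
  by_contra hcon
  push Not at hcon
  have hcard : Fintype.card (K →ₐ[F] ℂ) ≤ 1 := by
    rw [Fintype.card_le_one_iff]
    have key : ∀ τ : K →ₐ[F] ℂ, ∀ z : K, τ z = z := by
      intro τ z
      let σ : E →+* ℂ :=
        { toFun := fun z => τ ⟨z, (hK z).2 z.2⟩
          map_one' := by
            show τ 1 = 1
            exact map_one τ
          map_mul' := fun x y => by
            show τ (⟨x, (hK x).2 x.2⟩ * ⟨y, (hK y).2 y.2⟩) = _
            rw [map_mul]
          map_zero' := by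
            show τ 0 = 0
            exact map_zero τ
          map_add' := fun x y => by
            show τ (⟨x, (hK x).2 x.2⟩ + ⟨y, (hK y).2 y.2⟩) = _
            rw [map_add] }
      have h1 := hcon σ (fun w hw => by
        have h2 : (⟨w, (hK w).2 w.2⟩ : K) = algebraMap F K ⟨w, hw⟩ := by
          apply Subtype.ext; rfl
        show τ ⟨w, (hK w).2 w.2⟩ = w
        rw [h2, AlgHom.commutes]
        rfl) ⟨z, (hK z).1 z.2⟩
      exact h1
    intro τ τ'
    ext z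
    rw [key, key]
  rw [AlgHom.card] at hcard
  have h1 : Module.finrank F K = 1 := le_antisymm hcard (Module.finrank_pos)
  rw [IntermediateField.finrank_eq_one_iff] at h1
  apply hne
  apply le_antisymm hle
  intro z hz
  have h2 : z ∈ K := (hK z).2 hz
  rw [h1, IntermediateField.mem_bot] at h2
  obtain ⟨w, rfl⟩ := h2
  exact w.2

end Pool.Agent.Q107.Hunt
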